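import Mathlib

/-!
# MP_d164ca_an: definitions
-/

namespace Pool.Agent.MPd164ca

open Polynomial Finset

/-- A real polynomial is hyperbolic if it is zero or all its complex zeros are real. -/
def Hyperbolic (p : ℝ[X]) : Prop :=
  p = 0 ∨ ∀ z : ℂ, aeval z p = 0 → z.im = 0

/-- `diag γ (∑ a_k x^k) = ∑ γ_k a_k x^k`. -/
noncomputable def diag (γ : ℕ → ℝ) (p : ℝ[X]) : ℝ[X] :=
  ∑ k ∈ range (p.natDegree + 1), monomial k (γ k * p.coeff k)

/-- Multiplier sequences. -/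
def IsMultiplierSequence (γ : ℕ → ℝ) : Prop :=
  ∀ p : ℝ[X], Hyperbolic p → Hyperbolic (diag γ p)

theorem diag_coeff (γ : ℕ → ℝ) (p : ℝ[X]) (k : ℕ) : (diag γ p).coeff k = γ k * p.coeff k := by
  unfold diag
  rw [finsetSum_coeff]
  simp only [coeff_monomial]
  rw [Finset.sum_ite_eq']
  split_ifs with h
  · rfl
  · rw [coeff_eq_zero_of_natDegree_lt, mul_zero]
    simpa using h

theorem diag_natDegree_le (γ : ℕ → ℝ) (p : ℝ[X]) : (diag γ p).natDegree ≤ p.natDegree := by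
  rw [natDegree_le_iff_coeff_eq_zero]
  intro N hN
  rw [diag_coeff, coeff_eq_zero_of_natDegree_lt hN, mul_zero]

/-- the value of `diag γ p` -/
theorem aeval_diag (γ : ℕ → ℝ) (p : ℝ[X]) (z : ℂ) :
    aeval z (diag γ p) = ∑ k ∈ range (p.natDegree + 1), ((γ k * p.coeff k : ℝ) : ℂ) * z ^ k := by
  unfold diag
  rw [map_sum]
  refine Finset.sum_congr rfl fun k _ => ?_
  rw [aeval_monomial]
  rfl

end Pool.Agent.MPd164ca
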