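import Pool.Agent.Lib.MP_d164ca_an.Main

/-!
# MP_d164ca_an, Extra: growth of the functions in the class; rational functions
-/

namespace Pool.Agent.MPd164ca

open Complex Set Filter Topology Finset Polynomial

/-- The functions of the representation are `σ^z` times an entire function of exponential type 0. -/
theorem growth_form {F ψ : ℂ → ℂ} {c σ : ℝ} {m : ℕ} {t b : ℕ → ℝ} (ht : ∀ j, 0 ≤ t j)
    (hts : Summable t)
    (hb : ∀ z : ℂ, HasSum (fun j => (b j : ℂ) * z ^ j) (z ^ m * ∏' j, (1 + (t j : ℂ) * z)))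
    (hFE : ∀ z, ψ z ≠ 0 →
          HasSum (fun j : ℕ => (c : ℂ) * (σ : ℂ) ^ z * ((b j : ℂ) * ∏ i ∈ Finset.range j, (z - i)))
            (F z)) :
    ∃ G : ℂ → ℂ, Differentiable ℂ G ∧
      (∀ ε : ℝ, 0 < ε → ∃ M : ℝ, ∀ z : ℂ, ‖G z‖ ≤ M * Real.exp (ε * ‖z‖)) ∧
      ∀ z, ψ z ≠ 0 → F z = (σ : ℂ) ^ z * G z := by
  have hbs : ∀ ε : ℝ, 0 < ε → ∃ M : ℝ, ∀ j : ℕ, j.factorial * |b j| ≤ M * ε ^ j :=
    fun ε hε => coeff_small ht hts hb hε
  refine ⟨fun z => (c : ℂ) * newton b z, (differentiable_const _).mul (newton_differentiable hbs),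
    fun ε hε => ?_, fun z hz => ?_⟩
  · obtain ⟨M, hM⟩ := newton_growth hbs hε
    refine ⟨|c| * M, fun z => ?_⟩
    rw [norm_mul, norm_real, Real.norm_eq_abs, mul_assoc]
    exact mul_le_mul_of_nonneg_left (hM z) (abs_nonneg c)
  · rw [(hFE z hz).unique ((newton_summable hbs z).of_norm.hasSum.mul_left _)]
    unfold newton
    ring

/-- a polynomial which is a continuous multiple of `q` is divisible by `q` -/
theorem dvd_of_continuous {E : ℂ → ℂ} (hE : Continuous E) : ∀ (n : ℕ) (p q : ℂ[X]), q.natDegree ≤ n →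
    q ≠ 0 → (∀ z, p.eval z = E z * q.eval z) → q ∣ p := by
  intro n
  induction n with
  | zero =>
    intro p q hn hq _
    have h1 : q = C (q.coeff 0) := eq_C_of_natDegree_le_zero hn
    have h2 : q.coeff 0 ≠ 0 := fun h => hq (by rw [h1, h, C_0])
    rw [h1]
    exact (isUnit_C.2 (isUnit_iff_ne_zero.2 h2)).dvd
  | succ n ih =>
    intro p q hn hq h
    by_cases h0 : q.natDegree = 0
    · exact ih p q (by omega) hq h
    · obtain ⟨a, ha⟩ := IsAlgClosed.exists_root q (fun hd => h0 (natDegree_eq_of_degree_eq_some hd))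
      have hpa : p.IsRoot a := by
        rw [IsRoot.def, h a, IsRoot.def.1 ha, mul_zero]
      obtain ⟨q', hq'⟩ := dvd_iff_isRoot.2 ha
      obtain ⟨p', hp'⟩ := dvd_iff_isRoot.2 hpa
      have hq'0 : q' ≠ 0 := by
        rintro rfl
        exact hq (by rw [hq', mul_zero])
      have hdeg : q.natDegree = 1 + q'.natDegree := by
        rw [hq', natDegree_mul (X_sub_C_ne_zero a) hq'0, natDegree_X_sub_C]
      have hoff : ∀ z, z ≠ a → p'.eval z = E z * q'.eval z := by
        intro z hz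
        have h1 := h z
        rw [hq', hp', eval_mul, eval_mul, eval_sub, eval_X, eval_C] at h1
        have h2 : z - a ≠ 0 := sub_ne_zero.2 hz
        apply mul_left_cancel₀ h2
        rw [h1]
        ring
      have hall : ∀ z, p'.eval z = E z * q'.eval z := by
        have hc : (fun z => p'.eval z) = fun z => E z * q'.eval z := by
          refine Continuous.ext_on (s := {a}ᶜ) (dense_compl_singleton a) p'.continuous
            (hE.mul q'.continuous) ?_
          intro z hz
          exact hoff z hz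
        exact fun z => congrFun hc z
      obtain ⟨r, hr⟩ := ih p' q' (by omega) hq'0 hall
      exact ⟨r, by rw [hp', hr, hq']; ring⟩

/-- the growth of a polynomial -/
theorem poly_growth (p : ℂ[X]) : ∃ A : ℝ, 0 ≤ A ∧ ∀ z : ℂ, ‖p.eval z‖ ≤ A * Real.exp ‖z‖ := by
  refine ⟨∑ i ∈ range (p.natDegree + 1), ‖p.coeff i‖ * i.factorial,
    Finset.sum_nonneg fun i _ => by positivity, fun z => ?_⟩
  rw [eval_eq_sum_range, Finset.sum_mul]
  refine (norm_sum_le _ _).trans (Finset.sum_le_sum fun i _ => ?_)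
  rw [norm_mul, norm_pow, mul_assoc]
  refine mul_le_mul_of_nonneg_left ?_ (norm_nonneg _)
  have h1 := Real.pow_div_factorial_le_exp ‖z‖ (norm_nonneg z) i
  rw [div_le_iff₀ (by positivity)] at h1
  rw [mul_comm]
  exact h1

/-- A rational function which generates a multiplier sequence is a polynomial. -/
theorem rational_form {F : ℂ → ℂ} {p q : ℂ[X]} (hq : q ≠ 0)
    (hF : ∀ z, q.eval z ≠ 0 → F z = p.eval z / q.eval z)
    (hFk : ∀ k : ℕ, AnalyticAt ℂ F k) (hreal : ∀ k : ℕ, (F k).im = 0)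
    (hms : IsMultiplierSequence (fun k => (F k).re)) :
    ∃ s : ℂ[X], ∀ z, q.eval z ≠ 0 → F z = s.eval z := by
  obtain ⟨A, hA0, hA⟩ := poly_growth p
  obtain ⟨B, hB0, hB⟩ := poly_growth q
  have hp' : ∀ z : ℂ, ‖p.eval z‖ ≤ (A + B) * Real.exp (1 * ‖z‖) := fun z => by
    rw [one_mul]
    exact (hA z).trans (mul_le_mul_of_nonneg_right (by linarith) (Real.exp_nonneg _))
  have hq' : ∀ z : ℂ, ‖q.eval z‖ ≤ (A + B) * Real.exp (1 * ‖z‖) := fun z => by
    rw [one_mul]
    exact (hB z).trans (mul_le_mul_of_nonneg_right (by linarith) (Real.exp_nonneg _))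
  have hI : ∀ y : ℝ, ‖(y : ℂ) * Complex.I‖ = |y| := fun y => by simp
  have hq0 : ∃ z, q.eval z ≠ 0 := by
    by_contra hcon
    push Not at hcon
    exact hq (Polynomial.funext fun z => by rw [hcon z, eval_zero])
  have hopen : IsOpen {z : ℂ | 0 < z.re} := isOpen_lt continuous_const continuous_re
  have hq1 : ∃ z : ℂ, 0 < z.re ∧ q.eval z ≠ 0 := by
    obtain ⟨w, hw, hw'⟩ := exists_ne_zero q.differentiable hq0 hopen ⟨1, by simp⟩
    exact ⟨w, hw, hw'⟩
  have h := necessity (φ := fun z => p.eval z) (ψ := fun z => q.eval z) (u := fun z => p.eval z)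
    (v := fun z => q.eval z) (A := A + B) (K := 1) (τ := 1) p.differentiable q.differentiable hq0 hF
    hFk hreal p.differentiable.diffContOnCl q.differentiable.diffContOnCl hq1
    (fun z _ hz => by rw [hF z hz, div_mul_cancel₀ _ hz]) (fun z _ => hp' z) (fun z _ => hq' z)
    (fun y => by have := hp' (y * Complex.I); rwa [hI] at this)
    (fun y => by have := hq' (y * Complex.I); rwa [hI] at this)
    (Or.inl (by linarith [Real.pi_gt_three])) (Or.inr ⟨p.differentiable, hp'⟩) hms
  obtain ⟨c, σ, m, t, b, hσ, ht, hts, hb, hFE⟩ := h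
  have hbs : ∀ ε : ℝ, 0 < ε → ∃ M : ℝ, ∀ j : ℕ, j.factorial * |b j| ≤ M * ε ^ j :=
    fun ε hε => coeff_small ht hts hb hε
  obtain ⟨E, hEdef⟩ : ∃ E : ℂ → ℂ, E = fun z => (c : ℂ) * (σ : ℂ) ^ z * newton b z := ⟨_, rfl⟩
  have hEd : Differentiable ℂ E := by rw [hEdef]; exact E_differentiable hbs hσ c
  have hoff : ∀ z, q.eval z ≠ 0 → p.eval z = E z * q.eval z := by
    intro z hz
    have h1 : F z = E z := by
      rw [hEdef]
      exact (hFE z hz).unique ((newton_summable hbs z).of_norm.hasSum.mul_left _)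
    rw [hF z hz, div_eq_iff hz] at h1
    exact h1
  have hall : ∀ z, p.eval z = E z * q.eval z := by
    have hd : Differentiable ℂ fun z => p.eval z - E z * q.eval z :=
      p.differentiable.sub (hEd.mul q.differentiable)
    by_contra hcon
    push Not at hcon
    obtain ⟨w, hw⟩ := hcon
    have hop : IsOpen {z : ℂ | p.eval z - E z * q.eval z ≠ 0} := isOpen_ne.preimage hd.continuous
    obtain ⟨w', hw1, hw2⟩ := exists_ne_zero q.differentiable hq0 hop ⟨w, sub_ne_zero.2 hw⟩
    exact hw1 (sub_eq_zero.2 (hoff w' hw2))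
  obtain ⟨s, hs⟩ := dvd_of_continuous hEd.continuous q.natDegree p q le_rfl hq hall
  refine ⟨s, fun z hz => ?_⟩
  rw [hF z hz, hs, eval_mul, mul_div_cancel_left₀ _ hz]

end Pool.Agent.MPd164ca
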