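import Pool.Agent.Lib.MP_d164ca_an.Defs

/-!
# MP_d164ca_an, Fac1: signs, Turan inequality, no gaps
-/

namespace Pool.Agent.MPd164ca

open Polynomial Finset

theorem fac1_not_hyp {p : ℝ[X]} {z : ℂ} (hz : aeval z p = 0) (hi : z.im ≠ 0) (hp : p ≠ 0) :
    ¬ Hyperbolic p := by
  rintro (h | h)
  · exact hp h
  · exact hi (h z hz)

/-- test polynomial `x^k (x^2 - 1)` -/
theorem ms_mul_nonneg {γ : ℕ → ℝ} (hγ : IsMultiplierSequence γ) (k : ℕ) : 0 ≤ γ k * γ (k + 2) := by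
  by_contra hneg
  push Not at hneg
  have hhyp : Hyperbolic (X ^ (k + 2) - X ^ k : ℝ[X]) := by
    right
    intro z hz
    have h1 : z ^ k * (z ^ 2 - 1) = 0 := by
      have : z ^ k * (z ^ 2 - 1) = aeval z (X ^ (k + 2) - X ^ k : ℝ[X]) := by
        simp only [map_sub, map_pow, aeval_X]; ring
      rw [this, hz]
    rcases mul_eq_zero.1 h1 with h2 | h2
    · rw [eq_zero_of_pow_eq_zero h2]; simp
    · have h3 : (z - 1) * (z + 1) = 0 := by rw [← h2]; ring
      rcases mul_eq_zero.1 h3 with h4 | h4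
      · rw [sub_eq_zero.1 h4]; simp
      · rw [eq_neg_of_add_eq_zero_left h4]; simp
  have hdiag : diag γ (X ^ (k + 2) - X ^ k : ℝ[X]) = C (γ (k + 2)) * X ^ (k + 2) - C (γ k) * X ^ k := by
    ext i
    rw [diag_coeff]
    simp only [coeff_sub, coeff_X_pow, coeff_C_mul]
    by_cases h1 : i = k + 2
    · subst h1; simp
    · by_cases h2 : i = k
      · subst h2; simp
      · simp [h1, h2]
  have h := hγ _ hhyp
  rw [hdiag] at h
  have hk2 : γ (k + 2) ≠ 0 := by
    rintro h0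
    rw [h0, mul_zero] at hneg
    exact lt_irrefl _ hneg
  have hr : 0 < -(γ k / γ (k + 2)) := by
    have : γ k / γ (k + 2) < 0 := by
      rw [div_neg_iff]
      rcases mul_neg_iff.1 hneg with ⟨h1, h2⟩ | ⟨h1, h2⟩
      · exact Or.inl ⟨h1, h2⟩
      · exact Or.inr ⟨h1, h2⟩
    linarith
  set s : ℝ := Real.sqrt (-(γ k / γ (k + 2))) with hs
  have hs0 : 0 < s := Real.sqrt_pos.2 hr
  have hs2 : s ^ 2 = -(γ k / γ (k + 2)) := Real.sq_sqrt hr.le
  refine fac1_not_hyp (z := (s : ℂ) * Complex.I) ?_ ?_ ?_ h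
  · simp only [map_sub, map_mul, map_pow, aeval_X, aeval_C, Complex.coe_algebraMap]
    have h1 : ((s : ℂ) * Complex.I) ^ 2 = ((γ k / γ (k + 2) : ℝ) : ℂ) := by
      rw [mul_pow, Complex.I_sq]
      have : ((s : ℂ)) ^ 2 = ((-(γ k / γ (k + 2)) : ℝ) : ℂ) := by rw [← hs2]; push_cast; ring
      rw [this]; push_cast; ring
    rw [pow_add, h1]
    have h2 : ((γ (k + 2) : ℝ) : ℂ) ≠ 0 := by exact_mod_cast hk2
    push_cast
    field_simp
    ring
  · simp [hs0.ne']
  · intro h0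
    have := congrArg (fun q => q.coeff (k + 2)) h0
    simp [coeff_X_pow] at this
    exact hk2 this

/-- Turan inequality: test polynomial `x^k (1 + x)^2` -/
theorem ms_turan {γ : ℕ → ℝ} (hγ : IsMultiplierSequence γ) (k : ℕ) :
    γ k * γ (k + 2) ≤ γ (k + 1) ^ 2 := by
  by_contra hneg
  push Not at hneg
  have hhyp : Hyperbolic (X ^ k + 2 * X ^ (k + 1) + X ^ (k + 2) : ℝ[X]) := by
    right
    intro z hz
    have h1 : z ^ k * (z + 1) ^ 2 = 0 := by
      have : z ^ k * (z + 1) ^ 2 = aeval z (X ^ k + 2 * X ^ (k + 1) + X ^ (k + 2) : ℝ[X]) := by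
        simp only [map_add, map_mul, map_pow, aeval_X, map_ofNat]; ring
      rw [this, hz]
    rcases mul_eq_zero.1 h1 with h2 | h2
    · rw [eq_zero_of_pow_eq_zero h2]; simp
    · rw [eq_neg_of_add_eq_zero_left (eq_zero_of_pow_eq_zero h2)]; simp
  have hdiag : diag γ (X ^ k + 2 * X ^ (k + 1) + X ^ (k + 2) : ℝ[X]) =
      C (γ k) * X ^ k + C (2 * γ (k + 1)) * X ^ (k + 1) + C (γ (k + 2)) * X ^ (k + 2) := by
    ext i
    rw [diag_coeff]
    have h2 : (2 : ℝ[X]) = C 2 := rfl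
    rw [h2]
    simp only [coeff_add, coeff_X_pow, coeff_C_mul]
    by_cases h1 : i = k + 2
    · subst h1; simp
    · by_cases h2 : i = k
      · subst h2; simp
      · by_cases h3 : i = k + 1
        · subst h3; simp; ring
        · simp [h1, h2, h3]
  have h := hγ _ hhyp
  rw [hdiag] at h
  have hk2 : γ (k + 2) ≠ 0 := by
    rintro h0
    rw [h0, mul_zero] at hneg
    exact absurd hneg (not_lt.2 (sq_nonneg _))
  set s : ℝ := Real.sqrt (γ k * γ (k + 2) - γ (k + 1) ^ 2) with hs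
  have hr : 0 < γ k * γ (k + 2) - γ (k + 1) ^ 2 := by linarith
  have hs0 : 0 < s := Real.sqrt_pos.2 hr
  have hs2 : s ^ 2 = γ k * γ (k + 2) - γ (k + 1) ^ 2 := Real.sq_sqrt hr.le
  have h2 : ((γ (k + 2) : ℝ) : ℂ) ≠ 0 := by exact_mod_cast hk2
  refine fac1_not_hyp (z := (-(γ (k + 1) : ℂ) + (s : ℂ) * Complex.I) / (γ (k + 2) : ℂ)) ?_ ?_ ?_ h
  · simp only [map_add, map_mul, map_pow, aeval_X, aeval_C, Complex.coe_algebraMap]
    set z : ℂ := (-(γ (k + 1) : ℂ) + (s : ℂ) * Complex.I) / (γ (k + 2) : ℂ) with hz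
    have h3 : ((γ (k + 2) : ℝ) : ℂ) * z = -(γ (k + 1) : ℂ) + (s : ℂ) * Complex.I := by
      rw [hz]; field_simp
    have hs2' : ((s : ℂ)) ^ 2 = (γ k : ℂ) * (γ (k + 2) : ℂ) - (γ (k + 1) : ℂ) ^ 2 := by
      have := congrArg (fun x : ℝ => (x : ℂ)) hs2
      push_cast at this
      exact this
    have h4 : (γ (k + 2) : ℂ) * ((γ k : ℂ) + ((2 * γ (k + 1) : ℝ) : ℂ) * z + (γ (k + 2) : ℂ) * z ^ 2) = 0 := by
      have : (γ (k + 2) : ℂ) * ((γ k : ℂ) + ((2 * γ (k + 1) : ℝ) : ℂ) * z + (γ (k + 2) : ℂ) * z ^ 2) =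
        (γ k : ℂ) * (γ (k + 2) : ℂ) + 2 * (γ (k + 1) : ℂ) * ((γ (k + 2) : ℂ) * z) + ((γ (k + 2) : ℂ) * z) ^ 2 := by
        push_cast; ring
      rw [this, h3]
      have h5 : (-(γ (k + 1) : ℂ) + (s : ℂ) * Complex.I) ^ 2 =
        (γ (k + 1) : ℂ) ^ 2 - 2 * (γ (k + 1) : ℂ) * ((s : ℂ) * Complex.I) + (s : ℂ) ^ 2 * Complex.I ^ 2 := by ring
      rw [h5, Complex.I_sq, hs2']
      ring
    have h6 := (mul_eq_zero.1 h4).resolve_left h2
    have h7 : (((2 : ℝ) : ℂ)) = 2 := by norm_num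
    rw [h7]
    calc (γ k : ℂ) * z ^ k + 2 * (γ (k + 1) : ℂ) * z ^ (k + 1) + (γ (k + 2) : ℂ) * z ^ (k + 2)
        = z ^ k * ((γ k : ℂ) + ((2 * γ (k + 1) : ℝ) : ℂ) * z + (γ (k + 2) : ℂ) * z ^ 2) := by push_cast; ring
      _ = 0 := by rw [h6, mul_zero]
  · rw [Complex.div_ofReal_im]
    have : (-(γ (k + 1) : ℂ) + (s : ℂ) * Complex.I).im = s := by simp
    rw [this]
    exact div_ne_zero hs0.ne' hk2
  · intro h0
    have := congrArg (fun q => q.coeff (k + 2)) h0
    simp only [coeff_add, coeff_X_pow, coeff_C_mul, coeff_zero, if_neg (show ¬ k + 2 = k by omega),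
      if_neg (show ¬ k + 2 = k + 1 by omega), if_true, mul_zero, mul_one, zero_add] at this
    exact hk2 this

/-- a nonreal `n`-th root -/
theorem fac1_root {n : ℕ} {w : ℝ} (hw : w ≠ 0) (hn : 2 ≤ n) (h : n = 2 → w < 0) :
    ∃ z : ℂ, z ^ n = (w : ℂ) ∧ z.im ≠ 0 := by
  have hn0 : (n : ℝ) ≠ 0 := by positivity
  have hn2 : (2 : ℝ) ≤ n := by exact_mod_cast hn
  set ρ : ℝ := |w| ^ ((1 : ℝ) / n) with hρ
  have hw' : 0 < |w| := abs_pos.2 hw
  have hρ0 : 0 < ρ := Real.rpow_pos_of_pos hw' _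
  have hρn : ρ ^ n = |w| := by
    rw [hρ, ← Real.rpow_natCast, ← Real.rpow_mul hw'.le, one_div, inv_mul_cancel₀ hn0, Real.rpow_one]
  have key : ∀ θ : ℝ, 0 < θ → θ < Real.pi → (Complex.exp (n * (θ * Complex.I)) = ((w / |w| : ℝ) : ℂ)) →
      ∃ z : ℂ, z ^ n = (w : ℂ) ∧ z.im ≠ 0 := by
    intro θ h0 h1 h2
    refine ⟨ρ * Complex.exp (θ * Complex.I), ?_, ?_⟩
    · rw [mul_pow, ← Complex.exp_nat_mul, h2]
      have : ((ρ : ℂ)) ^ n = ((|w| : ℝ) : ℂ) := by rw [← hρn]; push_cast; rfl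
      rw [this, ← Complex.ofReal_mul, mul_div_cancel₀ _ hw'.ne']
    · rw [Complex.im_ofReal_mul, Complex.exp_ofReal_mul_I_im]
      exact (mul_pos hρ0 (Real.sin_pos_of_pos_of_lt_pi h0 h1)).ne'
  rcases lt_or_gt_of_ne hw with hneg | hpos
  · refine key (Real.pi / n) (by positivity) ?_ ?_
    · rw [div_lt_iff₀ (by positivity)]
      nlinarith [Real.pi_pos]
    · have h3 : (n : ℂ) * (((Real.pi / n : ℝ) : ℂ) * Complex.I) = Real.pi * Complex.I := by
        have hnc : (n : ℂ) ≠ 0 := by exact_mod_cast hn0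
        push_cast
        field_simp
      rw [h3, Complex.exp_pi_mul_I, abs_of_neg hneg, div_neg, div_self hw]
      simp
  · have hn3 : 3 ≤ n := by
      rcases eq_or_lt_of_le hn with h4 | h4
      · exact absurd (h h4.symm) (not_lt.2 hpos.le)
      · exact h4
    have hn3' : (3 : ℝ) ≤ n := by exact_mod_cast hn3
    refine key (2 * Real.pi / n) (by positivity) ?_ ?_
    · rw [div_lt_iff₀ (by positivity)]
      nlinarith [Real.pi_pos]
    · have h3 : (n : ℂ) * (((2 * Real.pi / n : ℝ) : ℂ) * Complex.I) = 2 * Real.pi * Complex.I := by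
        have hnc : (n : ℂ) ≠ 0 := by exact_mod_cast hn0
        push_cast
        field_simp
      rw [h3, Complex.exp_two_pi_mul_I, abs_of_pos hpos, div_self hw]
      simp

/-- no gaps: `γ_p ≠ 0`, `γ_q = 0`, `p < q` imply `γ_r = 0` for `r ≥ q`. -/
theorem ms_no_gap {γ : ℕ → ℝ} (hγ : IsMultiplierSequence γ) {p q : ℕ} (hpq : p < q)
    (hp : γ p ≠ 0) (hq : γ q = 0) : ∀ r, q ≤ r → γ r = 0 := by
  by_contra hcon
  push Not at hcon
  classical
  -- the minimal `r`
  obtain ⟨hr1, hr2⟩ := Nat.find_spec hcon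
  have hrmin : ∀ s, q ≤ s → s < Nat.find hcon → γ s = 0 := by
    intro s hs1 hs2
    by_contra hs3
    exact Nat.find_min hcon hs2 ⟨hs1, hs3⟩
  set r := Nat.find hcon with hr
  -- the maximal `p'`
  have hex : ∃ i, i < r ∧ γ i ≠ 0 := ⟨p, by omega, hp⟩
  obtain ⟨p', hp'⟩ : ∃ p', p' < r ∧ γ p' ≠ 0 ∧ ∀ i, p' < i → i < r → γ i = 0 := by
    refine ⟨Nat.findGreatest (fun i => i < r ∧ γ i ≠ 0) r, ?_, ?_, ?_⟩
    · exact (Nat.findGreatest_spec (P := fun i => i < r ∧ γ i ≠ 0) (by omega : p ≤ r) ⟨by omega, hp⟩).1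
    · exact (Nat.findGreatest_spec (P := fun i => i < r ∧ γ i ≠ 0) (by omega : p ≤ r) ⟨by omega, hp⟩).2
    · intro i hi1 hi2
      by_contra hi3
      exact Nat.findGreatest_is_greatest hi1 hi2.le ⟨hi2, hi3⟩
  obtain ⟨h1, h2, h3⟩ := hp'
  have hp'q : p' < q := by
    by_contra hle
    push Not at hle
    exact h2 (hrmin p' hle h1)
  have hqr : q < r := by
    rcases eq_or_lt_of_le hr1 with h4 | h4
    · exact absurd (h4 ▸ hq) hr2
    · exact h4
  obtain ⟨n, hn⟩ : ∃ n, r = p' + n := ⟨r - p', by omega⟩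
  have hn2 : 2 ≤ n := by omega
  have hhyp : Hyperbolic (X ^ p' * (1 + X) ^ n : ℝ[X]) := by
    right
    intro z hz
    have h1 : z ^ p' * (1 + z) ^ n = 0 := by
      have : z ^ p' * (1 + z) ^ n = aeval z (X ^ p' * (1 + X) ^ n : ℝ[X]) := by
        simp only [map_add, map_mul, map_pow, aeval_X, map_one]
      rw [this, hz]
    rcases mul_eq_zero.1 h1 with h2 | h2
    · rw [eq_zero_of_pow_eq_zero h2]; simp
    · rw [eq_neg_of_add_eq_zero_right (eq_zero_of_pow_eq_zero h2)]; simp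
  have hdiag : diag γ (X ^ p' * (1 + X) ^ n : ℝ[X]) = C (γ p') * X ^ p' + C (γ r) * X ^ r := by
    ext i
    rw [diag_coeff]
    simp only [coeff_add, coeff_X_pow, coeff_C_mul]
    rcases lt_or_ge i p' with hi | hi
    · have h5 : (X ^ p' * (1 + X) ^ n : ℝ[X]).coeff i = 0 := by
        rw [coeff_X_pow_mul', if_neg (by omega)]
      rw [h5, if_neg (by omega), if_neg (by omega)]; simp
    · obtain ⟨j, rfl⟩ := Nat.exists_eq_add_of_le hi
      have h5 : (X ^ p' * (1 + X) ^ n : ℝ[X]).coeff (p' + j) = (n.choose j : ℝ) := by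
        rw [add_comm p' j, coeff_X_pow_mul, coeff_one_add_X_pow]
      rw [h5]
      rcases Nat.eq_zero_or_pos j with hj | hj
      · subst hj
        rw [if_pos (by omega), if_neg (by omega)]
        simp
      · rcases lt_trichotomy (p' + j) r with h6 | h6 | h6
        · rw [h3 (p' + j) (by omega) h6, if_neg (by omega), if_neg (by omega)]; simp
        · have hj' : j = n := by omega
          subst hj'
          rw [if_neg (by omega), if_pos h6, h6]; simp
        · rw [Nat.choose_eq_zero_of_lt (by omega), if_neg (by omega), if_neg (by omega)]; simp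
  have h := hγ _ hhyp
  rw [hdiag] at h
  have hw : -(γ p' / γ r) ≠ 0 := neg_ne_zero.2 (div_ne_zero h2 hr2)
  obtain ⟨z, hz1, hz2⟩ := fac1_root (n := n) hw hn2 (by
    intro h4
    subst h4
    have h5 := ms_mul_nonneg hγ p'
    rw [← hn] at h5
    have h6 : 0 < γ p' * γ r := lt_of_le_of_ne h5 (mul_ne_zero h2 hr2).symm
    have : 0 < γ p' / γ r := by
      rw [div_pos_iff]
      exact mul_pos_iff.1 h6
    linarith)
  refine fac1_not_hyp (z := z) ?_ hz2 ?_ h
  · simp only [map_add, map_mul, map_pow, aeval_X, aeval_C, Complex.coe_algebraMap]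
    have h7 : z ^ r = z ^ p' * z ^ n := by rw [hn, pow_add]
    rw [h7, hz1]
    have h8 : ((γ r : ℝ) : ℂ) ≠ 0 := by exact_mod_cast hr2
    push_cast
    field_simp
    ring
  · intro h0
    have := congrArg (fun q => q.coeff r) h0
    simp only [coeff_add, coeff_X_pow, coeff_C_mul, coeff_zero, if_neg (show ¬ r = p' by omega), if_true,
      mul_zero, mul_one, zero_add] at this
    exact hr2 this

/-- `(-1)^k γ_k` -/
theorem ms_neg {γ : ℕ → ℝ} (hγ : IsMultiplierSequence γ) :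
    IsMultiplierSequence (fun k => (-1) ^ k * γ k) := by
  intro p hp
  have hdiag : diag (fun k => (-1) ^ k * γ k) p = (diag γ p).comp (C (-1) * X) := by
    ext i
    rw [diag_coeff, comp_C_mul_X_coeff, diag_coeff]
    ring
  rw [hdiag]
  rcases hγ p hp with h | h
  · left
    rw [h, zero_comp]
  · right
    intro z hz
    rw [aeval_comp] at hz
    have h1 : aeval z (C (-1) * X : ℝ[X]) = -z := by simp
    rw [h1] at hz
    have := h (-z) hz
    simpa using this

/-- `c γ_k` -/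
theorem ms_smul {γ : ℕ → ℝ} (hγ : IsMultiplierSequence γ) (c : ℝ) :
    IsMultiplierSequence (fun k => c * γ k) := by
  intro p hp
  have hdiag : diag (fun k => c * γ k) p = C c * diag γ p := by
    ext i
    rw [diag_coeff, coeff_C_mul, diag_coeff]
    ring
  rw [hdiag]
  rcases eq_or_ne c 0 with rfl | hc
  · left; simp
  rcases hγ p hp with h | h
  · left
    rw [h, mul_zero]
  · right
    intro z hz
    rw [map_mul, aeval_C, Complex.coe_algebraMap] at hz
    have hc' : (c : ℂ) ≠ 0 := by exact_mod_cast hc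
    exact h z ((mul_eq_zero.1 hz).resolve_left hc')

end Pool.Agent.MPd164ca
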