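import Pool.Agent.Lib.MP_d164ca_an.Defs

namespace Pool.Agent.MPd164ca

open Polynomial Finset

theorem facList_getD_antitone (L : List ℝ) (h : L.Pairwise (· ≥ ·)) (h0 : ∀ x ∈ L, 0 ≤ x) :
    Antitone (fun j => L.getD j 0) := by
  apply antitone_nat_of_succ_le
  induction L with
  | nil => intro n; simp
  | cons a L ih =>
    rw [List.pairwise_cons] at h
    have ih' := ih h.2 (fun x hx => h0 x (List.mem_cons_of_mem _ hx))
    intro n
    cases n with
    | zero =>
      cases L with
      | nil => simpa using h0 a (by simp)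
      | cons b L => simpa using h.1 b (by simp)
    | succ n => simpa using ih' n

theorem list_getD_nonneg (L : List ℝ) (h0 : ∀ x ∈ L, 0 ≤ x) (j : ℕ) : 0 ≤ L.getD j 0 := by
  induction L generalizing j with
  | nil => simp
  | cons a L ih =>
    cases j with
    | zero => simpa using h0 a (by simp)
    | succ j => simpa using ih (fun x hx => h0 x (List.mem_cons_of_mem _ hx)) j

theorem list_prod_getD (L : List ℝ) (f : ℝ → ℂ) :
    ∏ j ∈ range L.length, f (L.getD j 0) = (L.map f).prod := by
  induction L with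
  | nil => simp
  | cons a L ih =>
    rw [List.length_cons, Finset.prod_range_succ']
    simp only [List.getD_cons_succ, List.getD_cons_zero, List.map_cons, List.prod_cons]
    rw [ih, mul_comm]

/-- a polynomial with positive coefficients and only real zeros is `p(0) ∏ (1 + s_j z)`, `s_j ≥ 0` in
decreasing order -/
theorem fac_pos {p : ℝ[X]} (hp : Hyperbolic p) (hpos : ∀ k ≤ p.natDegree, 0 < p.coeff k) :
    ∃ s : ℕ → ℝ, Antitone s ∧ (∀ j, 0 ≤ s j) ∧ (∀ j, p.natDegree ≤ j → s j = 0) ∧
      ∀ z : ℂ, aeval z p = (p.coeff 0 : ℂ) * ∏ j ∈ range p.natDegree, (1 + (s j : ℂ) * z) := by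
  have hp0 : p ≠ 0 := by
    rintro rfl
    have := hpos 0 (Nat.zero_le _)
    simp at this
  have hroot : ∀ z : ℂ, aeval z p = 0 → z.im = 0 := by
    rcases hp with h | h
    · exact absurd h hp0
    · exact h
  -- positivity on `[0, ∞)`
  have hevalpos : ∀ x : ℝ, 0 ≤ x → 0 < p.eval x := by
    intro x hx
    rw [eval_eq_sum_range]
    have : 0 < p.coeff 0 * x ^ 0 := by
      simpa using hpos 0 (Nat.zero_le _)
    refine lt_of_lt_of_le this ?_
    refine Finset.single_le_sum (f := fun i => p.coeff i * x ^ i) (fun i hi => ?_) (by simp)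
    have hi' : i ≤ p.natDegree := by
      have := Finset.mem_range.1 hi
      omega
    exact mul_nonneg (hpos i hi').le (pow_nonneg hx i)
  -- the complex polynomial
  set q : ℂ[X] := p.map (algebraMap ℝ ℂ) with hq
  have hq0 : q ≠ 0 := by
    rw [hq]
    exact (Polynomial.map_ne_zero_iff (algebraMap ℝ ℂ).injective).2 hp0
  have hqs : q.Splits := IsAlgClosed.splits q
  have hqeval : ∀ z : ℂ, q.eval z = aeval z p := fun z => by
    rw [hq, eval_map_algebraMap]
  have hqdeg : q.natDegree = p.natDegree := natDegree_map_eq_of_injective (algebraMap ℝ ℂ).injective p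
  have hcard : Multiset.card q.roots = p.natDegree := by
    rw [← hqdeg]; exact hqs.natDegree_eq_card_roots.symm
  have hneg : ∀ r ∈ q.roots, r = ((r.re : ℝ) : ℂ) ∧ r.re < 0 := by
    intro r hr
    have hr0 : aeval r p = 0 := by
      rw [← hqeval]
      exact (mem_roots hq0).1 hr
    have him := hroot r hr0
    have hrre : r = ((r.re : ℝ) : ℂ) := by
      apply Complex.ext <;> simp [him]
    refine ⟨hrre, ?_⟩
    by_contra hge
    have h1 := hevalpos r.re (not_lt.1 hge)
    rw [hrre] at hr0
    have h2 : ((p.eval r.re : ℝ) : ℂ) = 0 := by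
      rw [← hr0]
      exact (aeval_algebraMap_apply ℂ r.re p).symm ▸ rfl
    have h3 : p.eval r.re = 0 := by exact_mod_cast h2
    linarith
  -- the product formula
  have hprod : ∀ z : ℂ, q.eval z = q.leadingCoeff * (q.roots.map (fun r => z - r)).prod :=
    fun z => hqs.eval_eq_prod_roots z
  set t : ℂ → ℝ := fun r => -(r.re)⁻¹ with ht
  have hfac : ∀ r ∈ q.roots, ∀ z : ℂ, z - r = (-r) * (1 + ((t r : ℝ) : ℂ) * z) := by
    intro r hr z
    obtain ⟨h1, h2⟩ := hneg r hr
    have h3 : r ≠ 0 := by
      rintro rfl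
      simp at h2
    have h4 : ((t r : ℝ) : ℂ) = - r⁻¹ := by
      rw [ht]
      push_cast
      rw [← h1]
    rw [h4]
    field_simp
    ring
  have hprod2 : ∀ z : ℂ, (q.roots.map (fun r => z - r)).prod =
      (q.roots.map (fun r => -r)).prod * (q.roots.map (fun r => 1 + ((t r : ℝ) : ℂ) * z)).prod := by
    intro z
    rw [← Multiset.prod_map_mul]
    congr 1
    exact Multiset.map_congr rfl fun r hr => hfac r hr z
  have hc0 : ((p.coeff 0 : ℝ) : ℂ) = q.leadingCoeff * (q.roots.map (fun r => -r)).prod := by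
    have h1 := hprod 0
    rw [hprod2 0] at h1
    simp only [mul_zero, add_zero, Multiset.map_const', Multiset.prod_replicate, one_pow,
      mul_one] at h1
    rw [← h1, ← coeff_zero_eq_eval_zero, hq, coeff_map]
    rfl
  -- the sorted list
  set L : List ℝ := (q.roots.map t).sort (· ≥ ·) with hL
  have hLlen : L.length = p.natDegree := by
    rw [hL, Multiset.length_sort, Multiset.card_map, hcard]
  have hLcoe : (L : Multiset ℝ) = q.roots.map t := by
    rw [hL]; exact Multiset.sort_eq _ _
  have hLnn : ∀ x ∈ L, 0 ≤ x := by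
    intro x hx
    have : x ∈ q.roots.map t := by
      rw [← hLcoe]; exact hx
    obtain ⟨r, hr, rfl⟩ := Multiset.mem_map.1 this
    have := (hneg r hr).2
    rw [ht]
    have h2 : (r.re)⁻¹ < 0 := inv_lt_zero.2 this
    simp only
    linarith
  refine ⟨fun j => L.getD j 0, ?_, ?_, ?_, ?_⟩
  · exact facList_getD_antitone L (by rw [hL]; exact Multiset.pairwise_sort _ _) hLnn
  · exact fun j => list_getD_nonneg L hLnn j
  · intro j hj
    exact List.getD_eq_default _ _ (by rw [hLlen]; exact hj)
  · intro z
    rw [← hqeval, hprod, hprod2, hc0, ← hLlen, list_prod_getD L (fun x => 1 + (x : ℂ) * z), mul_assoc]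
    congr 2
    rw [← Multiset.prod_coe, ← Multiset.map_coe, hLcoe, Multiset.map_map]
    rfl

/-- factorization of the Jensen polynomial `∑ C(n,k) γ_k (z/n)^k`: apply the multiplier sequence to
`(1 + x)^n`, divide by `x^m`, use `fac_pos` and rescale -/
theorem jensen_fac {γ : ℕ → ℝ} (hγ : IsMultiplierSequence γ) {m : ℕ} (h0 : ∀ k < m, γ k = 0)
    (hpos : ∀ k, m ≤ k → 0 < γ k) {n : ℕ} (hn : m < n) :
    ∃ s : ℕ → ℝ, Antitone s ∧ (∀ j, 0 ≤ s j) ∧ (∀ j, n ≤ j → s j = 0) ∧
      ∀ z : ℂ, ∑ k ∈ range (n + 1), ((n.choose k * γ k / (n : ℝ) ^ k : ℝ) : ℂ) * z ^ k =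
        ((n.choose m * γ m / (n : ℝ) ^ m : ℝ) : ℂ) * z ^ m * ∏ j ∈ range n, (1 + (s j : ℂ) * z) := by
  classical
  have hh : Hyperbolic ((1 + X : ℝ[X]) ^ n) := by
    right
    intro z hz
    rw [map_pow, map_add, map_one, aeval_X] at hz
    have h1 : (1 + z : ℂ) = 0 := by
      by_contra h
      exact pow_ne_zero n h hz
    have h2 : z = -1 := by linear_combination h1
    rw [h2]; simp
  have hP := hγ _ hh
  set P : ℝ[X] := diag γ ((1 + X : ℝ[X]) ^ n) with hPdef
  have hPc : ∀ k, P.coeff k = γ k * (n.choose k : ℝ) := by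
    intro k
    rw [hPdef, diag_coeff, coeff_one_add_X_pow]
  set p : ℝ[X] := ∑ k ∈ range (n - m + 1), monomial k (γ (m + k) * (n.choose (m + k) : ℝ)) with hp
  have hpc : ∀ k, p.coeff k = if k ∈ range (n - m + 1) then γ (m + k) * (n.choose (m + k) : ℝ) else 0 := by
    intro k
    rw [hp, finsetSum_coeff]
    simp only [coeff_monomial]
    rw [Finset.sum_ite_eq']
  have hpc' : ∀ k, p.coeff k = γ (m + k) * (n.choose (m + k) : ℝ) := by
    intro k
    rw [hpc]
    split_ifs with h
    · rfl
    · have : n < m + k := by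
        rw [Finset.mem_range] at h
        omega
      rw [Nat.choose_eq_zero_of_lt this]
      simp
  have hPX : P = X ^ m * p := by
    ext k
    rw [hPc, coeff_X_pow_mul']
    split_ifs with h
    · rw [hpc']
      congr 2
      · omega
      · congr 2; omega
    · rw [h0 k (by omega)]; simp
  have hpdeg : p.natDegree = n - m := by
    apply natDegree_eq_of_le_of_coeff_ne_zero
    · rw [natDegree_le_iff_coeff_eq_zero]
      intro N hN
      rw [hpc, if_neg]
      rw [Finset.mem_range]
      omega
    · rw [hpc']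
      have h1 : m + (n - m) = n := by omega
      rw [h1, Nat.choose_self]
      have := hpos n hn.le
      positivity
  have hphyp : Hyperbolic p := by
    rcases hP with h | h
    · exfalso
      have h1 := hPc n
      rw [h, Nat.choose_self] at h1
      have := hpos n hn.le
      simp at h1
      linarith
    · right
      intro z hz
      apply h z
      rw [hPX, map_mul, hz, mul_zero]
  have hppos : ∀ k ≤ p.natDegree, 0 < p.coeff k := by
    intro k hk
    rw [hpdeg] at hk
    rw [hpc']
    have h1 : 0 < γ (m + k) := hpos _ (by omega)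
    have h2 : 0 < n.choose (m + k) := Nat.choose_pos (by omega)
    positivity
  obtain ⟨s, hs1, hs2, hs3, hs4⟩ := fac_pos hphyp hppos
  have hnpos : (0 : ℝ) < n := by
    have : 0 < n := by omega
    exact_mod_cast this
  have hnC : (n : ℂ) ≠ 0 := by
    have : (n : ℝ) ≠ 0 := hnpos.ne'
    exact_mod_cast this
  refine ⟨fun j => s j / n, ?_, ?_, ?_, ?_⟩
  · intro i j hij
    exact div_le_div_of_nonneg_right (hs1 hij) hnpos.le
  · intro j
    exact div_nonneg (hs2 j) hnpos.le
  · intro j hj
    simp only
    rw [hs3 j (by rw [hpdeg]; omega), zero_div]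
  · intro z
    have hPz : aeval (z / n) P = ∑ k ∈ range (n + 1),
        ((n.choose k * γ k / (n : ℝ) ^ k : ℝ) : ℂ) * z ^ k := by
      have hdeg : ((1 + X : ℝ[X]) ^ n).natDegree = n := by
        have h1 : (1 + X : ℝ[X]) = X + C 1 := by rw [C_1]; ring
        rw [h1, natDegree_pow, natDegree_X_add_C, mul_one]
      rw [hPdef, aeval_diag, hdeg]
      refine Finset.sum_congr rfl fun k _ => ?_
      rw [coeff_one_add_X_pow]
      push_cast
      rw [div_pow]
      field_simp
    rw [← hPz, hPX, map_mul, map_pow, aeval_X, hs4 (z / n), hpdeg, hpc' 0]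
    have hprod : ∏ j ∈ range n, (1 + ((s j / n : ℝ) : ℂ) * z) =
        ∏ j ∈ range (n - m), (1 + (s j : ℂ) * (z / n)) := by
      symm
      have h1 : ∏ j ∈ range (n - m), (1 + (s j : ℂ) * (z / n)) =
          ∏ j ∈ range (n - m), (1 + ((s j / n : ℝ) : ℂ) * z) := by
        refine Finset.prod_congr rfl fun j _ => ?_
        push_cast
        ring
      rw [h1]
      apply Finset.prod_subset
      · intro j hj
        rw [Finset.mem_range] at hj ⊢
        omega
      · intro j _ hj
        rw [Finset.mem_range] at hj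
        rw [hs3 j (by rw [hpdeg]; omega)]
        simp
    rw [hprod]
    simp only [add_zero]
    push_cast
    rw [div_pow]
    ring

end Pool.Agent.MPd164ca
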