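import Pool.Agent.Lib.MP_d164ca_an.Newt1

/-!
# MP_d164ca_an, Newton: Newton series
-/

namespace Pool.Agent.MPd164ca

open Complex Set Filter Topology Finset

/-- the Newton series -/
noncomputable def newton (b : ℕ → ℝ) (z : ℂ) : ℂ :=
  ∑' j : ℕ, (b j : ℂ) * ∏ i ∈ range j, (z - i)

/-- bound of the terms of the Newton series -/
theorem newt2_term {b : ℕ → ℝ} {ε M : ℝ} (hM : ∀ j : ℕ, j.factorial * |b j| ≤ M * ε ^ j)
    {N : ℕ} {z : ℂ} (hz : ‖z‖ ≤ N) (j : ℕ) :
    ‖(b j : ℂ) * ∏ i ∈ range j, (z - i)‖ ≤ M * (((j + N).choose N : ℝ) * ε ^ j) := by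
  have h1 : ‖∏ i ∈ range j, (z - i)‖ ≤ (j.factorial : ℝ) * ((j + N).choose N : ℝ) := by
    have e : ((N + 1).ascFactorial j : ℝ) = (j.factorial : ℝ) * ((j + N).choose N : ℝ) := by
      rw [Nat.ascFactorial_eq_factorial_mul_choose]
      push_cast
      rw [add_comm N j]
      have : (j + N).choose j = (j + N).choose N := Nat.choose_symm_add
      rw [this]
    rw [← e, Nat.ascFactorial_eq_prod_range]
    push_cast
    rw [norm_prod]
    apply Finset.prod_le_prod (fun i _ => norm_nonneg _)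
    intro i _
    calc ‖z - i‖ ≤ ‖z‖ + ‖(i : ℂ)‖ := norm_sub_le _ _
      _ ≤ _ := by rw [Complex.norm_natCast]; linarith
  rw [norm_mul, Complex.norm_real, Real.norm_eq_abs]
  calc |b j| * ‖∏ i ∈ range j, (z - i)‖ ≤ |b j| * ((j.factorial : ℝ) * ((j + N).choose N : ℝ)) :=
        mul_le_mul_of_nonneg_left h1 (abs_nonneg _)
    _ = (j.factorial * |b j|) * ((j + N).choose N : ℝ) := by ring
    _ ≤ (M * ε ^ j) * ((j + N).choose N : ℝ) :=
        mul_le_mul_of_nonneg_right (hM j) (by positivity)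
    _ = _ := by ring

theorem newt2_hasSum {ε M : ℝ} (h0 : 0 < ε) (h1 : ε < 1) (N : ℕ) :
    HasSum (fun j : ℕ => M * (((j + N).choose N : ℝ) * ε ^ j)) (M * (1 / (1 - ε) ^ (N + 1))) := by
  apply HasSum.mul_left
  apply hasSum_choose_mul_geometric_of_norm_lt_one
  rw [Real.norm_eq_abs, abs_of_pos h0]
  exact h1

theorem newton_summable {b : ℕ → ℝ}
    (hb : ∀ ε : ℝ, 0 < ε → ∃ M : ℝ, ∀ j : ℕ, j.factorial * |b j| ≤ M * ε ^ j) (z : ℂ) :
    Summable fun j => ‖(b j : ℂ) * ∏ i ∈ range j, (z - i)‖ := by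
  obtain ⟨M, hM⟩ := hb (1 / 2) (by norm_num)
  obtain ⟨N, hN⟩ := exists_nat_ge ‖z‖
  exact Summable.of_nonneg_of_le (fun j => norm_nonneg _) (newt2_term hM hN)
    (newt2_hasSum (by norm_num) (by norm_num) N).summable

theorem newton_differentiable {b : ℕ → ℝ}
    (hb : ∀ ε : ℝ, 0 < ε → ∃ M : ℝ, ∀ j : ℕ, j.factorial * |b j| ≤ M * ε ^ j) :
    Differentiable ℂ (newton b) := by
  obtain ⟨M, hM⟩ := hb (1 / 2) (by norm_num)
  intro z
  obtain ⟨N, hN⟩ := exists_nat_gt ‖z‖
  have h1 : DifferentiableOn ℂ (newton b) (Metric.ball 0 N) := by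
    apply differentiableOn_tsum_of_summable_norm
      (newt2_hasSum (ε := 1 / 2) (M := M) (by norm_num) (by norm_num) N).summable
    · intro j
      apply Differentiable.differentiableOn
      apply Differentiable.const_mul
      apply Differentiable.fun_finsetProd
      intro i _
      exact differentiable_id.sub_const _
    · exact Metric.isOpen_ball
    · intro j w hw
      rw [mem_ball_zero_iff] at hw
      exact newt2_term hM hw.le j
  exact h1.differentiableAt (Metric.isOpen_ball.mem_nhds (by rw [mem_ball_zero_iff]; exact hN))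

theorem newton_growth {b : ℕ → ℝ}
    (hb : ∀ ε : ℝ, 0 < ε → ∃ M : ℝ, ∀ j : ℕ, j.factorial * |b j| ≤ M * ε ^ j) {δ : ℝ} (hδ : 0 < δ) :
    ∃ M : ℝ, ∀ z : ℂ, ‖newton b z‖ ≤ M * Real.exp (δ * ‖z‖) := by
  have he1 : Real.exp (-δ) < 1 := by
    rw [← Real.exp_zero]; exact Real.exp_lt_exp.2 (by linarith)
  have he0 : 0 < Real.exp (-δ) := Real.exp_pos _
  obtain ⟨M, hM⟩ := hb (1 - Real.exp (-δ)) (by linarith)
  have hM0 : 0 ≤ M := by
    have h := hM 0
    simp only [Nat.factorial_zero, Nat.cast_one, one_mul, pow_zero, mul_one] at h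
    exact (abs_nonneg _).trans h
  refine ⟨M * Real.exp (2 * δ), fun z => ?_⟩
  have hN := Nat.le_ceil ‖z‖
  have hN2 := (Nat.ceil_lt_add_one (norm_nonneg z)).le
  set N := ⌈‖z‖⌉₊
  have hs := newt2_hasSum (ε := 1 - Real.exp (-δ)) (M := M) (by linarith) (by linarith) N
  have h1 : ‖newton b z‖ ≤ M * (1 / (1 - (1 - Real.exp (-δ))) ^ (N + 1)) :=
    tsum_of_norm_bounded hs (newt2_term hM hN)
  refine h1.trans ?_
  rw [mul_assoc]
  apply mul_le_mul_of_nonneg_left _ hM0
  rw [← Real.exp_add]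
  have e : 1 / (1 - (1 - Real.exp (-δ))) ^ (N + 1) = Real.exp (((N : ℝ) + 1) * δ) := by
    rw [sub_sub_cancel, ← Real.exp_nat_mul, one_div, ← Real.exp_neg]
    congr 1
    push_cast; ring
  rw [e, Real.exp_le_exp]
  nlinarith

theorem newt2_prod (k : ℕ) : ∀ j : ℕ, ∏ i ∈ range j, ((k : ℂ) - i) = (k.descFactorial j : ℂ)
  | 0 => by simp
  | j + 1 => by
      rw [prod_range_succ, newt2_prod k j, Nat.descFactorial_succ]
      rcases Nat.lt_or_ge k j with h | h
      · rw [Nat.descFactorial_of_lt h]; simp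
      · push_cast [Nat.cast_sub h]; ring

theorem newton_nat (b : ℕ → ℝ) (k : ℕ) :
    newton b k = ((∑ j ∈ range (k + 1), b j * (k.descFactorial j : ℝ) : ℝ) : ℂ) := by
  unfold newton
  simp_rw [newt2_prod]
  rw [tsum_eq_sum (s := range (k + 1))]
  · push_cast; rfl
  · intro j hj
    have : k < j := by
      simp only [Finset.mem_range, not_lt] at hj; omega
    rw [Nat.descFactorial_of_lt this]; simp

theorem newt3_congr {f g : ℕ → ℂ} {a b : ℂ} (h : HasSum f a) (hfg : ∀ i, g i = f i)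
    (hab : b = a) : HasSum g b := by
  have : g = f := funext hfg
  rw [this, hab]
  exact h

theorem newton_of_egf {γ : ℕ → ℝ} {c σ : ℝ} {m : ℕ} {t : ℕ → ℝ} (hc : c ≠ 0) (hσ : 0 < σ)
    (h : ∀ z : ℂ, HasSum (fun k : ℕ => (γ k : ℂ) / (k.factorial : ℂ) * z ^ k)
        (c * z ^ m * (cexp (σ * z) * ∏' j, (1 + (t j : ℂ) * z)))) :
    ∃ b : ℕ → ℝ, (∀ z : ℂ, HasSum (fun j => (b j : ℂ) * z ^ j)
        (z ^ m * ∏' j, (1 + ((t j / σ : ℝ) : ℂ) * z))) ∧
      ∀ k : ℕ, (γ k : ℂ) = (c / σ ^ m : ℝ) * (σ : ℂ) ^ (k : ℕ) * newton b k := by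
  set Γ : PowerSeries ℝ := PowerSeries.mk fun k => σ ^ m / c * (γ k / (k.factorial * σ ^ k)) with hΓ
  set B : PowerSeries ℝ := PowerSeries.evalNegHom (PowerSeries.exp ℝ) * Γ with hB
  have hEB : PowerSeries.exp ℝ * B = Γ := by
    rw [hB, ← mul_assoc, PowerSeries.exp_mul_exp_neg_eq_one, one_mul]
  have hσc : (σ : ℂ) ≠ 0 := by exact_mod_cast hσ.ne'
  have hcc : (c : ℂ) ≠ 0 := by exact_mod_cast hc
  refine ⟨fun j => PowerSeries.coeff j B, ?_, ?_⟩
  · intro z
    -- the series of `exp (-z)` and of `G`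
    have h1 : HasSum (fun i : ℕ => ((PowerSeries.coeff i
        (PowerSeries.evalNegHom (PowerSeries.exp ℝ)) : ℝ) : ℂ) * z ^ i) (cexp (-z)) := by
      have h2 := NormedSpace.expSeries_div_hasSum_exp (-z)
      rw [← Complex.exp_eq_exp_ℂ] at h2
      refine newt3_congr h2 (fun i => ?_) rfl
      rw [PowerSeries.evalNegHom, PowerSeries.coeff_rescale, PowerSeries.coeff_exp]
      push_cast
      rw [neg_pow z i]
      simp
      ring
    have h3 : HasSum (fun k : ℕ => ((PowerSeries.coeff k Γ : ℝ) : ℂ) * z ^ k)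
        (z ^ m * (cexp z * ∏' j, (1 + ((t j / σ : ℝ) : ℂ) * z))) := by
      have h4 := (h (z / σ)).mul_left ((σ : ℂ) ^ m / c)
      have e1 : (σ : ℂ) ^ m / c * (c * (z / σ) ^ m * (cexp (σ * (z / σ)) *
          ∏' j, (1 + (t j : ℂ) * (z / σ)))) =
          z ^ m * (cexp z * ∏' j, (1 + ((t j / σ : ℝ) : ℂ) * z)) := by
        have e2 : (σ : ℂ) * (z / σ) = z := by field_simp
        have e3 : ∀ j, (1 + (t j : ℂ) * (z / σ)) = 1 + ((t j / σ : ℝ) : ℂ) * z := by
          intro j; push_cast; ring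
        rw [e2]
        simp_rw [e3]
        rw [div_pow]
        have hzz : (σ : ℂ) ^ m ≠ 0 := pow_ne_zero _ hσc
        calc (σ : ℂ) ^ m / c * (c * (z ^ m / σ ^ m) * (cexp z *
            ∏' j, (1 + ((t j / σ : ℝ) : ℂ) * z))) = ((σ : ℂ) ^ m / σ ^ m) * (c / c) *
            (z ^ m * (cexp z * ∏' j, (1 + ((t j / σ : ℝ) : ℂ) * z))) := by ring
          _ = _ := by rw [div_self hzz, div_self hcc]; ring
      rw [e1] at h4
      refine newt3_congr h4 (fun k => ?_) rfl
      rw [hΓ, PowerSeries.coeff_mk]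
      push_cast
      rw [div_pow]
      field_simp
    have s1 := h1.summable.norm
    have s3 := h3.summable.norm
    have h5 := tsum_mul_tsum_eq_tsum_sum_antidiagonal_of_summable_norm s1 s3
    have h6 := summable_norm_sum_mul_antidiagonal_of_summable_norm s1 s3
    have h7 := h6.of_norm.hasSum
    rw [← h5, h1.tsum_eq, h3.tsum_eq] at h7
    have e4 : cexp (-z) * (z ^ m * (cexp z * ∏' j, (1 + ((t j / σ : ℝ) : ℂ) * z))) =
        z ^ m * ∏' j, (1 + ((t j / σ : ℝ) : ℂ) * z) := by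
      have : cexp (-z) * cexp z = 1 := by rw [← Complex.exp_add]; simp
      calc _ = (cexp (-z) * cexp z) * (z ^ m * ∏' j, (1 + ((t j / σ : ℝ) : ℂ) * z)) := by ring
        _ = _ := by rw [this, one_mul]
    rw [e4] at h7
    refine newt3_congr h7 (fun j => ?_) rfl
    show ((PowerSeries.coeff j B : ℝ) : ℂ) * z ^ j = _
    rw [hB, PowerSeries.coeff_mul]
    push_cast
    rw [Finset.sum_mul]
    apply Finset.sum_congr rfl
    intro p hp
    rw [← Finset.HasAntidiagonal.mem_antidiagonal.1 hp, pow_add]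
    ring
  · intro k
    rw [newton_nat]
    have h8 : PowerSeries.coeff k Γ = ∑ p ∈ antidiagonal k,
        PowerSeries.coeff p.1 (PowerSeries.exp ℝ) * PowerSeries.coeff p.2 B := by
      rw [← hEB, PowerSeries.coeff_mul]
    rw [Finset.Nat.sum_antidiagonal_eq_sum_range_succ_mk] at h8
    have h9 : ∑ j ∈ range (k + 1), PowerSeries.coeff j B * (k.descFactorial j : ℝ) =
        k.factorial * PowerSeries.coeff k Γ := by
      rw [h8, mul_sum, ← Finset.sum_range_reflect]
      apply Finset.sum_congr rfl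
      intro i hi
      have hi' : i ≤ k := by simp only [Finset.mem_range] at hi; omega
      have e5 : k + 1 - 1 - i = k - i := by omega
      have e6 : ((k - (k - i)).factorial * k.descFactorial (k - i) : ℕ) = k.factorial :=
        Nat.factorial_mul_descFactorial (by omega)
      have e7 : k - (k - i) = i := by omega
      rw [e7] at e6
      have e8 : ((i.factorial : ℝ)) * (k.descFactorial (k - i) : ℝ) = k.factorial := by
        exact_mod_cast e6
      rw [e5, PowerSeries.coeff_exp]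
      have e9 : (i.factorial : ℝ) ≠ 0 := by positivity
      have e10 : algebraMap ℚ ℝ (1 / (i.factorial : ℚ)) = 1 / (i.factorial : ℝ) := by simp
      rw [e10, ← e8]
      field_simp
    have hγ : γ k = c / σ ^ m * σ ^ k * (k.factorial * PowerSeries.coeff k Γ) := by
      rw [hΓ, PowerSeries.coeff_mk]
      have : (k.factorial : ℝ) ≠ 0 := by positivity
      field_simp
    rw [h9]
    conv_lhs => rw [hγ]
    push_cast
    ring

/-- a power series that vanishes everywhere has zero coefficients -/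
theorem newt3_unique {a : ℕ → ℂ} (h : ∀ z : ℂ, HasSum (fun k => a k * z ^ k) 0) (k : ℕ) :
    a k = 0 := by
  induction k using Nat.strong_induction_on with
  | _ k ih =>
    -- `a_k = - z ∑_{j} a_{j+k+1} z^j` for `z ≠ 0`
    have hs : Summable fun j => ‖a j‖ := by
      have := (h 1).summable.norm
      simpa using this
    have hs' : Summable fun j => ‖a (j + (k + 1))‖ := (summable_nat_add_iff (k + 1)).2 hs
    set C := ∑' j, ‖a (j + (k + 1))‖
    have key : ∀ r : ℝ, 0 < r → r ≤ 1 → ‖a k‖ ≤ r * C := by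
      intro r hr0 hr1
      have hz : (r : ℂ) ≠ 0 := by exact_mod_cast hr0.ne'
      have h1 := h r
      have h2 := (hasSum_nat_add_iff' (k + 1)).2 h1
      have h3 : ∑ i ∈ range (k + 1), a i * (r : ℂ) ^ i = a k * (r : ℂ) ^ k := by
        rw [sum_range_succ, Finset.sum_eq_zero, zero_add]
        intro i hi
        rw [ih i (by simpa using hi), zero_mul]
      rw [h3, zero_sub] at h2
      have h4 : HasSum (fun j => a (j + (k + 1)) * (r : ℂ) ^ j * r) (-a k) := by
        have h5 := h2.mul_right (((r : ℂ) ^ k)⁻¹)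
        have hrk : (r : ℂ) ^ k ≠ 0 := pow_ne_zero _ hz
        refine newt3_congr h5 (fun j => ?_) ?_
        · rw [pow_add, pow_succ]
          field_simp
        · field_simp
      have h6 : ‖-a k‖ ≤ C * r := by
        have h7 : HasSum (fun j => ‖a (j + (k + 1))‖ * r) (C * r) := hs'.hasSum.mul_right r
        rw [← h4.tsum_eq]
        apply tsum_of_norm_bounded h7
        intro j
        rw [norm_mul, norm_mul, norm_pow, Complex.norm_real, Real.norm_eq_abs, abs_of_pos hr0]
        have : r ^ j ≤ 1 := pow_le_one₀ hr0.le hr1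
        have h8 : 0 ≤ ‖a (j + (k + 1))‖ := norm_nonneg _
        have : ‖a (j + (k + 1))‖ * r ^ j ≤ ‖a (j + (k + 1))‖ := by nlinarith
        nlinarith
      rw [norm_neg] at h6
      linarith
    have hC : 0 ≤ C := tsum_nonneg fun j => norm_nonneg _
    have hz0 : ‖a k‖ ≤ 0 := by
      by_contra hcon
      push Not at hcon
      have h9 := key (min 1 (‖a k‖ / (2 * (C + 1)))) (by positivity) (min_le_left _ _)
      have h10 : min 1 (‖a k‖ / (2 * (C + 1))) * C ≤ ‖a k‖ / (2 * (C + 1)) * C :=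
        mul_le_mul_of_nonneg_right (min_le_right _ _) hC
      have h11 : ‖a k‖ / (2 * (C + 1)) * C < ‖a k‖ := by
        rw [div_mul_eq_mul_div, div_lt_iff₀ (by positivity)]
        nlinarith
      linarith
    exact norm_le_zero_iff.1 hz0

theorem egf_small {γ : ℕ → ℝ} {c : ℝ} {m : ℕ} {t : ℕ → ℝ} (ht : ∀ j, 0 ≤ t j) (hs : Summable t)
    (h : ∀ z : ℂ, HasSum (fun k : ℕ => (γ k : ℂ) / (k.factorial : ℂ) * z ^ k)
        (c * z ^ m * ∏' j, (1 + (t j : ℂ) * z))) :
    ∀ A : ℝ, ∃ M : ℝ, ∀ k : ℕ, |γ k| ≤ M * Real.exp (-A * k) := by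
  intro A
  by_cases hc : c = 0
  · refine ⟨0, fun k => ?_⟩
    have h1 : ∀ z : ℂ, HasSum (fun k : ℕ => ((γ k : ℂ) / (k.factorial : ℂ)) * z ^ k) 0 := by
      intro z
      have := h z
      rw [hc] at this
      simpa using this
    have h2 := newt3_unique h1 k
    have h3 : (γ k : ℂ) = 0 := by
      have hk : (k.factorial : ℂ) ≠ 0 := by exact_mod_cast (Nat.factorial_ne_zero k)
      rcases div_eq_zero_iff.1 h2 with h | h
      · exact h
      · exact absurd h hk
    have h4 : γ k = 0 := by exact_mod_cast h3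
    rw [h4]; simp
  · have hcc : (c : ℂ) ≠ 0 := by exact_mod_cast hc
    obtain ⟨M, hM⟩ := coeff_small (m := m) (b := fun k => γ k / (k.factorial * c)) ht hs (by
      intro z
      have h1 := (h z).mul_left (1 / (c : ℂ))
      refine newt3_congr h1 (fun k => ?_) ?_
      · push_cast
        field_simp
      · rw [mul_assoc (c : ℂ), ← mul_assoc (1 / (c : ℂ)), one_div_mul_cancel hcc, one_mul]) (Real.exp_pos (-A))
    refine ⟨|c| * M, fun k => ?_⟩
    have h2 := hM k
    have hk : (0 : ℝ) < k.factorial := by positivity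
    have hc0 : 0 < |c| := abs_pos.2 hc
    have e : (k.factorial : ℝ) * |γ k / (k.factorial * c)| = |γ k| / |c| := by
      rw [abs_div, abs_mul, abs_of_pos hk]
      field_simp
    rw [e, div_le_iff₀ hc0] at h2
    have e2 : Real.exp (-A * k) = Real.exp (-A) ^ k := by
      rw [← Real.exp_nat_mul]; congr 1; ring
    rw [e2]
    calc |γ k| ≤ M * Real.exp (-A) ^ k * |c| := h2
      _ = _ := by ring

end Pool.Agent.MPd164ca
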