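import Mathlib

/-!
# MP_d164ca_an, Limit: Jensen polynomials
-/

namespace Pool.Agent.MPd164ca

open Complex Set Filter Topology Finset

/-- `C(n,m) / n^m → 1 / m!` -/
theorem choose_limit (m : ℕ) :
    Tendsto (fun n : ℕ => (n.choose m : ℝ) / (n : ℝ) ^ m) atTop (𝓝 (1 / (m.factorial : ℝ))) := by
  have h1 : ∀ i : ℕ, Tendsto (fun n : ℕ => ((n - i : ℕ) : ℝ) / (n : ℝ)) atTop (𝓝 1) := by
    intro i
    have h2 : Tendsto (fun n : ℕ => 1 - (i : ℝ) / (n : ℝ)) atTop (𝓝 1) := by
      have h3 : Tendsto (fun n : ℕ => (i : ℝ) / (n : ℝ)) atTop (𝓝 0) :=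
        tendsto_const_div_atTop_nhds_zero_nat (i : ℝ)
      simpa using h3.const_sub 1
    refine h2.congr' ?_
    filter_upwards [eventually_ge_atTop (i + 1)] with n hn
    have hn0 : (n : ℝ) ≠ 0 := by
      have : 0 < n := by omega
      positivity
    rw [Nat.cast_sub (by omega)]
    field_simp
  have h4 : Tendsto (fun n : ℕ => (∏ i ∈ range m, (((n - i : ℕ) : ℝ) / (n : ℝ))) /
      (m.factorial : ℝ)) atTop (𝓝 ((∏ _i ∈ range m, (1 : ℝ)) / (m.factorial : ℝ))) :=
    (tendsto_finsetProd _ (fun i _ => h1 i)).div_const _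
  rw [prod_const_one] at h4
  refine h4.congr (fun n => ?_)
  have h5 : (m.factorial : ℝ) ≠ 0 := by positivity
  have h6 : ((n.choose m : ℕ) : ℝ) = (∏ i ∈ range m, ((n - i : ℕ) : ℝ)) / (m.factorial : ℝ) := by
    rw [eq_div_iff h5]
    have := Nat.descFactorial_eq_factorial_mul_choose n m
    rw [Nat.descFactorial_eq_prod_range] at this
    have h7 : ((∏ i ∈ range m, (n - i) : ℕ) : ℝ) = ((m.factorial * n.choose m : ℕ) : ℝ) := by
      rw [this]
    push_cast at h7
    rw [h7]
    ring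
  rw [prod_div_distrib, prod_const, card_range, h6]
  ring

/-- `∑_{k ≤ n} C(n,k) γ_k / n^k z^k → ∑ γ_k z^k / k!` if `|γ_k| ≤ M r^k` (dominated convergence,
`Nat.choose_le_pow_div`). -/
theorem jensen_limit {γ : ℕ → ℝ} {M r : ℝ} (hγ : ∀ k, |γ k| ≤ M * r ^ k) (z : ℂ) :
    Tendsto (fun n : ℕ => ∑ k ∈ range (n + 1), ((n.choose k * γ k / (n : ℝ) ^ k : ℝ) : ℂ) * z ^ k) atTop
      (𝓝 (∑' k : ℕ, (γ k : ℂ) / (k.factorial : ℂ) * z ^ k)) := by
  have key : Tendsto (fun n : ℕ => ∑' k : ℕ, if k ∈ range (n + 1) then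
      ((n.choose k * γ k / (n : ℝ) ^ k : ℝ) : ℂ) * z ^ k else 0) atTop
      (𝓝 (∑' k : ℕ, (γ k : ℂ) / (k.factorial : ℂ) * z ^ k)) := by
    refine tendsto_tsum_of_dominated_convergence (bound := fun k => M * ((r * ‖z‖) ^ k / k.factorial))
      ((Real.summable_pow_div_factorial _).mul_left M) ?_ ?_
    · intro k
      have h1 : Tendsto (fun n : ℕ => (((n.choose k : ℝ) / (n : ℝ) ^ k : ℝ) : ℂ) *
          ((γ k : ℂ) * z ^ k)) atTop (𝓝 (((1 / (k.factorial : ℝ) : ℝ) : ℂ) * ((γ k : ℂ) * z ^ k))) :=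
        ((Complex.continuous_ofReal.tendsto _).comp (choose_limit k)).mul_const _
      have h2 : ((1 / (k.factorial : ℝ) : ℝ) : ℂ) * ((γ k : ℂ) * z ^ k) =
          (γ k : ℂ) / (k.factorial : ℂ) * z ^ k := by
        push_cast
        ring
      rw [h2] at h1
      refine h1.congr' ?_
      filter_upwards [eventually_ge_atTop k] with n hn
      rw [if_pos (Finset.mem_range.mpr (by omega))]
      push_cast
      ring
    · refine Eventually.of_forall (fun n k => ?_)
      have hb : 0 ≤ M * r ^ k := (abs_nonneg _).trans (hγ k)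
      have hb2 : M * ((r * ‖z‖) ^ k / k.factorial) = M * r ^ k * (‖z‖ ^ k / k.factorial) := by
        rw [mul_pow]; ring
      rw [hb2]
      split_ifs with hk
      · rw [norm_mul, norm_pow, Complex.norm_real, Real.norm_eq_abs]
        have h3 : |(n.choose k : ℝ) * γ k / (n : ℝ) ^ k| =
            ((n.choose k : ℝ) / (n : ℝ) ^ k) * |γ k| := by
          rw [abs_div, abs_mul, abs_of_nonneg (show (0 : ℝ) ≤ (n.choose k : ℝ) by positivity),
            abs_of_nonneg (show (0 : ℝ) ≤ (n : ℝ) ^ k by positivity)]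
          ring
        have h4 : ((n.choose k : ℝ) / (n : ℝ) ^ k) ≤ 1 / (k.factorial : ℝ) := by
          have h5 := Nat.choose_le_pow_div (α := ℝ) k n
          by_cases hn : (n : ℝ) ^ k = 0
          · rw [hn, div_zero]; positivity
          · have hn' : 0 < (n : ℝ) ^ k := lt_of_le_of_ne (by positivity) (Ne.symm hn)
            rw [div_le_iff₀ hn']
            calc (n.choose k : ℝ) ≤ (n : ℝ) ^ k / (k.factorial : ℝ) := h5
              _ = 1 / (k.factorial : ℝ) * (n : ℝ) ^ k := by ring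
        rw [h3]
        calc (n.choose k : ℝ) / (n : ℝ) ^ k * |γ k| * ‖z‖ ^ k
            ≤ 1 / (k.factorial : ℝ) * (M * r ^ k) * ‖z‖ ^ k := by
              apply mul_le_mul_of_nonneg_right _ (by positivity)
              exact mul_le_mul h4 (hγ k) (abs_nonneg _) (by positivity)
          _ = M * r ^ k * (‖z‖ ^ k / k.factorial) := by ring
      · rw [norm_zero]
        positivity
  refine key.congr (fun n => ?_)
  rw [tsum_eq_sum (s := range (n + 1))]
  · refine sum_congr rfl (fun k hk => ?_)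
    rw [if_pos hk]
  · intro k hk
    rw [if_neg hk]

end Pool.Agent.MPd164ca
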