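import Pool.Agent.Lib.MP_d164ca_an.PolyFac
import Pool.Agent.Lib.MP_d164ca_an.Limit

/-!
# MP_d164ca_an, Struct: the Polya-Schur structure theorem (necessity)
-/

namespace Pool.Agent.MPd164ca

open Complex Set Filter Topology Finset Polynomial

/-- constant coefficient of `∏ (1 + a_j X)` -/
theorem prod_coeff_zero (a : ℕ → ℂ) (n : ℕ) :
    (∏ j ∈ Finset.range n, (1 + C (a j) * X : ℂ[X])).coeff 0 = 1 := by
  rw [coeff_zero_eq_eval_zero, eval_prod]
  simp

/-- linear coefficient of `∏ (1 + a_j X)` -/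
theorem prod_coeff_one (a : ℕ → ℂ) (n : ℕ) :
    (∏ j ∈ Finset.range n, (1 + C (a j) * X : ℂ[X])).coeff 1 = ∑ j ∈ Finset.range n, a j := by
  induction n with
  | zero => simp [coeff_one]
  | succ n ih =>
    rw [Finset.prod_range_succ, Finset.sum_range_succ, mul_add, mul_one, coeff_add, ih,
      ← mul_assoc, mul_comm _ (C (a n)), mul_assoc, coeff_C_mul, coeff_mul_X, prod_coeff_zero,
      mul_one]

/-- geometric bound of the terms -/
theorem ms_geom_bound {γ : ℕ → ℝ} (hγ : IsMultiplierSequence γ) {m : ℕ} (h0 : ∀ k < m, γ k = 0)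
    (hpos : ∀ k, m ≤ k → 0 < γ k) : ∃ M r : ℝ, 0 < r ∧ ∀ k, |γ k| ≤ M * r ^ k := by
  set r : ℝ := γ (m + 1) / γ m with hr
  have hm := hpos m le_rfl
  have hr0 : 0 < r := div_pos (hpos _ (by omega)) hm
  have hstep : ∀ j, γ (m + (j + 1)) ≤ r * γ (m + j) := by
    intro j
    induction j with
    | zero =>
      simp only [zero_add, add_zero, hr]
      rw [div_mul_cancel₀ _ hm.ne']
    | succ j ih =>
      have hT := ms_turan hγ (m + j)
      have p0 := hpos (m + j) (by omega)
      have p1 := hpos (m + j + 1) (by omega)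
      have p2 := hpos (m + j + 2) (by omega)
      have e1 : m + (j + 1) = m + j + 1 := by ring
      have e2 : m + (j + 1 + 1) = m + j + 2 := by ring
      rw [e1] at ih ⊢
      rw [e2]
      have : γ (m + j) * γ (m + j + 2) ≤ γ (m + j) * (r * γ (m + j + 1)) := by
        calc γ (m + j) * γ (m + j + 2) ≤ γ (m + j + 1) ^ 2 := hT
          _ = γ (m + j + 1) * γ (m + j + 1) := by ring
          _ ≤ (r * γ (m + j)) * γ (m + j + 1) := mul_le_mul_of_nonneg_right ih p1.le
          _ = γ (m + j) * (r * γ (m + j + 1)) := by ring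
      exact le_of_mul_le_mul_left this p0
  have hgeo : ∀ j, γ (m + j) ≤ γ m * r ^ j := by
    intro j
    induction j with
    | zero => simp
    | succ j ih =>
      calc γ (m + (j + 1)) ≤ r * γ (m + j) := hstep j
        _ ≤ r * (γ m * r ^ j) := mul_le_mul_of_nonneg_left ih hr0.le
        _ = γ m * r ^ (j + 1) := by ring
  refine ⟨γ m / r ^ m, r, hr0, fun k => ?_⟩
  rcases lt_or_ge k m with hk | hk
  · rw [h0 k hk, abs_zero]
    positivity
  · obtain ⟨j, rfl⟩ := Nat.exists_eq_add_of_le hk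
    rw [abs_of_pos (hpos _ hk), pow_add, div_mul_eq_mul_div, mul_comm (r ^ m), ← mul_assoc,
      mul_div_assoc, div_self (pow_pos hr0 m).ne', mul_one]
    exact hgeo j

/-- the sum of the `s j` in the factorization of the Jensen polynomial is bounded -/
theorem sum_bound {γ : ℕ → ℝ} {m n : ℕ} (hpos : ∀ k, m ≤ k → 0 < γ k)
    (hn : m < n) {s : ℕ → ℝ}
    (h : ∀ z : ℂ, ∑ k ∈ Finset.range (n + 1),
        ((n.choose k * γ k / (n : ℝ) ^ k : ℝ) : ℂ) * z ^ k =
        ((n.choose m * γ m / (n : ℝ) ^ m : ℝ) : ℂ) * z ^ m *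
          ∏ j ∈ Finset.range n, (1 + (s j : ℂ) * z)) :
    ∑ j ∈ Finset.range n, s j ≤ γ (m + 1) / γ m := by
  have hpoly : (∑ k ∈ Finset.range (n + 1),
        C (((n.choose k * γ k / (n : ℝ) ^ k : ℝ) : ℂ)) * X ^ k : ℂ[X]) =
        C (((n.choose m * γ m / (n : ℝ) ^ m : ℝ) : ℂ)) *
          ((∏ j ∈ Finset.range n, (1 + C (s j : ℂ) * X)) * X ^ m) := by
    apply Polynomial.funext
    intro z
    rw [eval_finsetSum, eval_mul, eval_mul, eval_prod]
    simp only [eval_mul, eval_C, eval_pow, eval_X, eval_add, eval_one]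
    rw [h z]
    ring
  have hc := congrArg (fun p => p.coeff (m + 1)) hpoly
  rw [finsetSum_coeff, coeff_C_mul, add_comm m 1, coeff_mul_X_pow, prod_coeff_one] at hc
  simp only [coeff_C_mul, coeff_X_pow, mul_ite, mul_one, mul_zero] at hc
  rw [Finset.sum_ite_eq, if_pos (by simp; omega)] at hc
  have hn0 : (0 : ℝ) < n := by exact_mod_cast (by omega : 0 < n)
  have hreal : (n.choose (1 + m) * γ (1 + m) / (n : ℝ) ^ (1 + m) : ℝ) =
      (n.choose m * γ m / (n : ℝ) ^ m) * ∑ j ∈ Finset.range n, s j := by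
    exact_mod_cast hc
  rw [add_comm 1 m] at hreal
  have hgm := hpos m le_rfl
  have hgm1 := hpos (m + 1) (by omega)
  have hcm : (0 : ℝ) < n.choose m := by exact_mod_cast Nat.choose_pos hn.le
  -- `C(n,m+1) (m+1) = C(n,m) (n-m)`
  have hch : ((n.choose (m + 1) : ℕ) : ℝ) ≤ n.choose m * n := by
    have h1 := Nat.choose_succ_right_eq n m
    have h2 : n.choose (m + 1) ≤ n.choose m * n := by
      calc n.choose (m + 1) ≤ n.choose (m + 1) * (m + 1) := Nat.le_mul_of_pos_right _ (by omega)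
        _ = n.choose m * (n - m) := h1
        _ ≤ n.choose m * n := Nat.mul_le_mul_left _ (Nat.sub_le _ _)
    exact_mod_cast h2
  have hA : (0 : ℝ) < n.choose m * γ m / (n : ℝ) ^ m := by positivity
  have hle : (n.choose m * γ m / (n : ℝ) ^ m) * ∑ j ∈ Finset.range n, s j ≤
      (n.choose m * γ m / (n : ℝ) ^ m) * (γ (m + 1) / γ m) := by
    rw [← hreal]
    calc (n.choose (m + 1) * γ (m + 1) / (n : ℝ) ^ (m + 1) : ℝ)
        ≤ (n.choose m * n * γ (m + 1) / (n : ℝ) ^ (m + 1) : ℝ) := by gcongr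
      _ = (n.choose m * γ m / (n : ℝ) ^ m) * (γ (m + 1) / γ m) := by
          field_simp
          rw [pow_succ, mul_comm]
  exact le_of_mul_le_mul_left hle hA

/-- Polya-Schur: the exponential generating function of a multiplier sequence with positive terms from
index `m` on is `(γ_m / m!) z^m e^{σ z} ∏ (1 + t_j z)`. -/
theorem polya_schur {γ : ℕ → ℝ} (hγ : IsMultiplierSequence γ) {m : ℕ} (h0 : ∀ k < m, γ k = 0)
    (hpos : ∀ k, m ≤ k → 0 < γ k) :
    ∃ (σ : ℝ) (t : ℕ → ℝ), 0 ≤ σ ∧ (∀ j, 0 ≤ t j) ∧ Summable t ∧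
      ∀ z : ℂ, HasSum (fun k : ℕ => (γ k : ℂ) / (k.factorial : ℂ) * z ^ k)
        ((γ m / m.factorial : ℝ) * z ^ m * (cexp (σ * z) * ∏' j, (1 + (t j : ℂ) * z))) := by
  classical
  obtain ⟨M, r, hr0, hMr⟩ := ms_geom_bound hγ h0 hpos
  choose! s hs using fun (n : ℕ) (hn : m < n) => jensen_fac hγ h0 hpos hn
  set s' : ℕ → ℕ → ℝ := fun n => if m < n then s n else fun _ => 0 with hs'
  have e1 : ∀ n, m < n → s' n = s n := fun n hn => by simp [hs', hn]
  have e2 : ∀ n, ¬ m < n → s' n = fun _ => 0 := fun n hn => by simp [hs', hn]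
  have hm := hpos m le_rfl
  have hm1 := hpos (m + 1) (by omega)
  obtain ⟨σ, t, l, hl, hlt, hσ, ht, htsum, hlim⟩ := prod_limit (s := s') (B := γ (m + 1) / γ m)
    (fun n => by
      by_cases hn : m < n
      · rw [e1 n hn]; exact (hs n hn).1
      · rw [e2 n hn]; exact fun _ _ _ => le_rfl)
    (fun n j => by
      by_cases hn : m < n
      · rw [e1 n hn]; exact (hs n hn).2.1 j
      · rw [e2 n hn])
    (fun n j hj => by
      by_cases hn : m < n
      · rw [e1 n hn]; exact (hs n hn).2.2.1 j hj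
      · rw [e2 n hn])
    (fun n => by
      by_cases hn : m < n
      · rw [e1 n hn]; exact sum_bound hpos hn (hs n hn).2.2.2
      · rw [e2 n hn]; simp only [Finset.sum_const_zero]; positivity)
  refine ⟨σ, t, hσ, ht, htsum, fun z => ?_⟩
  have hsummable : Summable (fun k : ℕ => (γ k : ℂ) / (k.factorial : ℂ) * z ^ k) := by
    have hS : Summable (fun k : ℕ => M * ((r * ‖z‖) ^ k / (k.factorial : ℝ))) :=
      (Real.summable_pow_div_factorial (r * ‖z‖)).mul_left M
    refine Summable.of_norm_bounded hS fun k => ?_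
    rw [norm_mul, norm_div, norm_pow, Complex.norm_natCast, Complex.norm_real, Real.norm_eq_abs]
    calc |γ k| / (k.factorial : ℝ) * ‖z‖ ^ k
        ≤ (M * r ^ k) / (k.factorial : ℝ) * ‖z‖ ^ k := by gcongr; exact hMr k
      _ = M * ((r * ‖z‖) ^ k / (k.factorial : ℝ)) := by rw [mul_pow]; ring
  have hval : (∑' k : ℕ, (γ k : ℂ) / (k.factorial : ℂ) * z ^ k) =
      (γ m / m.factorial : ℝ) * z ^ m * (cexp (σ * z) * ∏' j, (1 + (t j : ℂ) * z)) := by
    have := hl
    have l1 := (jensen_limit hMr z).mono_left hlt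
    have l2 : Tendsto (fun n : ℕ => ((n.choose m * γ m / (n : ℝ) ^ m : ℝ) : ℂ) * z ^ m *
        ∏ j ∈ Finset.range n, (1 + (s' n j : ℂ) * z)) l
        (𝓝 ((γ m / m.factorial : ℝ) * z ^ m * (cexp (σ * z) * ∏' j, (1 + (t j : ℂ) * z)))) := by
      refine Tendsto.mul (Tendsto.mul ?_ tendsto_const_nhds) (hlim z)
      have c1 := ((choose_limit m).mul_const (γ m)).mono_left hlt
      have c2 : Tendsto (fun n : ℕ => (n.choose m * γ m / (n : ℝ) ^ m : ℝ)) l
          (𝓝 (γ m / m.factorial)) := by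
        refine (c1.congr fun n => by ring).trans ?_
        rw [one_div, mul_comm, ← div_eq_mul_inv]
      exact (Complex.continuous_ofReal.tendsto _).comp c2
    refine tendsto_nhds_unique l1 (l2.congr' ?_)
    filter_upwards [hlt (eventually_gt_atTop m)] with n hn
    rw [e1 n hn]
    exact ((hs n hn).2.2.2 z).symm
  rw [← hval]
  exact hsummable.hasSum

end Pool.Agent.MPd164ca
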