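import Pool.Agent.Lib.MP_d164ca_an.Defs

/-!
# MP_d164ca_an, Suff: sufficiency
-/

namespace Pool.Agent.MPd164ca

open Polynomial Finset Filter Topology

/-- the logarithmic derivative has nonpositive imaginary part; zero only if there are no roots -/
private theorem suff1_logDeriv {f : ℂ[X]} (hf : ∀ u : ℂ, 0 < u.im → f.eval u ≠ 0) {u : ℂ}
    (hu : 0 < u.im) : (f.roots = 0 ∧ (derivative f).eval u / f.eval u = 0) ∨
      ((derivative f).eval u / f.eval u).im < 0 := by
  have hs := (IsAlgClosed.splits f).eval_derivative_div_eval_of_ne_zero (hf u hu)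
  have hf0 : f ≠ 0 := by
    rintro rfl
    exact hf u hu (by simp)
  have hroot : ∀ z ∈ f.roots, z.im ≤ 0 := by
    intro z hz
    by_contra h
    exact hf z (not_le.mp h) ((mem_roots hf0).mp hz)
  rw [hs]
  generalize f.roots = s at hroot
  by_cases h0 : s = 0
  · left
    refine ⟨h0, ?_⟩
    rw [h0]
    simp
  · right
    induction s using Multiset.induction_on with
    | empty => exact absurd rfl h0
    | cons a s ih =>
      rw [Multiset.map_cons, Multiset.sum_cons, Complex.add_im]
      have h1 : (1 / (u - a)).im < 0 := by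
        have ha := hroot a (Multiset.mem_cons_self a s)
        have h2 : 0 < (u - a).im := by
          rw [Complex.sub_im]
          linarith
        rw [one_div, Complex.inv_im]
        apply div_neg_of_neg_of_pos
        · linarith
        · rw [Complex.normSq_pos]
          intro h3
          rw [h3] at h2
          simp at h2
      by_cases hs0 : s = 0
      · rw [hs0]
        simpa using h1
      · have h2 := ih (fun z hz => hroot z (Multiset.mem_cons_of_mem hz)) hs0
        linarith

/-- for fixed `y` in the upper half plane `f ↦ f + t y f'` preserves the complex polynomials without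
zeros in the upper half plane (`f'/f = ∑ 1/(u - r)` has negative imaginary part there) -/
theorem step_stable {f : ℂ[X]} (hf : ∀ u : ℂ, 0 < u.im → f.eval u ≠ 0) {t : ℝ} (ht : 0 ≤ t) {y : ℂ}
    (hy : 0 < y.im) : ∀ u : ℂ, 0 < u.im → (f + C ((t : ℂ) * y) * derivative f).eval u ≠ 0 := by
  intro u hu h
  have hfu := hf u hu
  rw [eval_add, eval_mul, eval_C] at h
  set q := (derivative f).eval u / f.eval u with hq
  have h1 : (t : ℂ) * y * q = -1 := by
    rw [hq]
    field_simp
    linear_combination h
  rcases suff1_logDeriv hf hu with ⟨-, h2⟩ | h2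
  · rw [← hq] at h2
    rw [h2, mul_zero] at h1
    norm_num at h1
  · rw [← hq] at h2
    have hy0 : y ≠ 0 := by
      rintro rfl
      simp at hy
    have ht0 : 0 < t := by
      rcases ht.lt_or_eq with h3 | h3
      · exact h3
      · rw [← h3] at h1
        norm_num at h1
    have h3 : (t : ℂ) * q = -y⁻¹ := by
      field_simp
      linear_combination h1
    have h4 := congrArg Complex.im h3
    rw [Complex.im_ofReal_mul, Complex.neg_im, Complex.inv_im, neg_div, neg_neg] at h4
    have h5 : 0 < y.im / Complex.normSq y := div_pos hy (Complex.normSq_pos.mpr hy0)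
    nlinarith

/-- derivative: zero or without zeros in the upper half plane -/
theorem deriv_stable {f : ℂ[X]} (hf : ∀ u : ℂ, 0 < u.im → f.eval u ≠ 0) (hd : derivative f ≠ 0) :
    ∀ u : ℂ, 0 < u.im → (derivative f).eval u ≠ 0 := by
  intro u hu h
  rcases suff1_logDeriv hf hu with ⟨h1, -⟩ | h2
  · apply hd
    have h3 := (IsAlgClosed.splits f).eq_prod_roots
    rw [h1] at h3
    rw [h3]
    simp
  · rw [h] at h2
    simp at h2

private theorem suff1_prod_le (s : Multiset ℂ) (hs : ∀ r ∈ s, r.im = 0) (z w : ℂ)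
    (hre : z.re = w.re) (him : z.im ^ 2 ≤ w.im ^ 2) :
    ‖(s.map (z - ·)).prod‖ ≤ ‖(s.map (w - ·)).prod‖ := by
  induction s using Multiset.induction_on with
  | empty => simp
  | cons a s ih =>
    rw [Multiset.map_cons, Multiset.map_cons, Multiset.prod_cons, Multiset.prod_cons, norm_mul,
      norm_mul]
    apply mul_le_mul _ (ih fun r hr => hs r (Multiset.mem_cons_of_mem hr)) (norm_nonneg _)
      (norm_nonneg _)
    have ha := hs a (Multiset.mem_cons_self a s)
    rw [Complex.norm_def, Complex.norm_def]
    apply Real.sqrt_le_sqrt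
    rw [Complex.normSq_apply, Complex.normSq_apply, Complex.sub_re, Complex.sub_im,
      Complex.sub_re, Complex.sub_im, ha, hre]
    nlinarith

private theorem suff1_mono {q : ℝ[X]} (hq : Hyperbolic q) (z w : ℂ)
    (hre : z.re = w.re) (him : z.im ^ 2 ≤ w.im ^ 2) : ‖aeval z q‖ ≤ ‖aeval w q‖ := by
  by_cases h0 : q = 0
  · simp [h0]
  rcases hq with hq | hq
  · exact absurd hq h0
  have hm : q.map (algebraMap ℝ ℂ) ≠ 0 := by
    rwa [Ne, Polynomial.map_eq_zero]
  rw [← eval_map_algebraMap, ← eval_map_algebraMap,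
    (IsAlgClosed.splits (q.map (algebraMap ℝ ℂ))).eval_eq_prod_roots,
    (IsAlgClosed.splits (q.map (algebraMap ℝ ℂ))).eval_eq_prod_roots, norm_mul, norm_mul]
  apply mul_le_mul_of_nonneg_left _ (norm_nonneg _)
  apply suff1_prod_le _ _ z w hre him
  intro r hr
  apply hq
  rw [← eval_map_algebraMap]
  exact (mem_roots hm).mp hr

/-- limits of hyperbolic polynomials of bounded degree are hyperbolic.
(For hyperbolic `q`, `‖q (x + i y)‖` is nondecreasing in `|y|`; so a zero `x0 + i y0`, `y0 ≠ 0`, of the
limit forces the limit to vanish on a segment.) -/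
theorem hyperbolic_of_tendsto {p : ℝ[X]} {q : ℕ → ℝ[X]} {D : ℕ} (hq : ∀ n, Hyperbolic (q n))
    (hdeg : ∀ n, (q n).natDegree ≤ D)
    (hlim : ∀ k, Tendsto (fun n => (q n).coeff k) atTop (𝓝 (p.coeff k))) : Hyperbolic p := by
  have hp : p.natDegree ≤ D := by
    rw [natDegree_le_iff_coeff_eq_zero]
    intro N hN
    refine tendsto_nhds_unique (hlim N) ?_
    have : (fun n => (q n).coeff N) = fun _ => (0 : ℝ) := by
      funext n
      exact coeff_eq_zero_of_natDegree_lt (lt_of_le_of_lt (hdeg n) hN)
    rw [this]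
    exact tendsto_const_nhds
  have hev : ∀ z : ℂ, Tendsto (fun n => aeval z (q n)) atTop (𝓝 (aeval z p)) := by
    intro z
    have h1 : ∀ n, aeval z (q n) = ∑ k ∈ range (D + 1), ((q n).coeff k) • z ^ k := fun n =>
      aeval_eq_sum_range' (Nat.lt_succ_of_le (hdeg n)) z
    rw [aeval_eq_sum_range' (Nat.lt_succ_of_le hp) z]
    simp only [h1]
    exact tendsto_finsetSum _ fun k _ => (hlim k).smul_const _
  by_cases h0 : p = 0
  · exact Or.inl h0
  right
  intro w hw
  by_contra hwim
  -- the polynomial vanishes on the vertical segment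
  have hz : ∀ s : ℝ, 0 < s → s < 1 → aeval (⟨w.re, s * w.im⟩ : ℂ) p = 0 := by
    intro s hs0 hs1
    have h1 := (hev ⟨w.re, s * w.im⟩).norm
    have h2 := (hev w).norm
    rw [hw, norm_zero] at h2
    have h3 : ‖aeval (⟨w.re, s * w.im⟩ : ℂ) p‖ ≤ 0 := by
      refine le_of_tendsto_of_tendsto' h1 h2 fun n => ?_
      apply suff1_mono (hq n)
      · rfl
      · simp only [mul_pow]
        have h4 : s ^ 2 ≤ 1 := by nlinarith
        exact mul_le_of_le_one_left (sq_nonneg _) h4
    exact norm_le_zero_iff.mp h3
  apply h0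
  have hm : p.map (algebraMap ℝ ℂ) = 0 := by
    apply Polynomial.eq_zero_of_infinite_isRoot
    have hinj : Set.InjOn (fun s : ℝ => (⟨w.re, s * w.im⟩ : ℂ)) (Set.Ioo 0 1) := by
      intro s _ s' _ h
      have := congrArg Complex.im h
      exact mul_right_cancel₀ hwim this
    refine Set.Infinite.mono ?_ (Set.Infinite.image hinj (Set.Ioo_infinite one_pos))
    rintro _ ⟨s, hs, rfl⟩
    show IsRoot _ _
    rw [IsRoot.def, eval_map_algebraMap]
    exact hz s hs.1 hs.2
  rwa [Polynomial.map_eq_zero] at hm

/-- the operator `y D` on complex polynomials -/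
private noncomputable def suff2T (y : ℂ) : Module.End ℂ ℂ[X] :=
  y • (derivative : ℂ[X] →ₗ[ℂ] ℂ[X])

private theorem suff2T_apply (y : ℂ) (f : ℂ[X]) : suff2T y f = C y * derivative f := by
  rw [suff2T, LinearMap.smul_apply, smul_eq_C_mul]

private theorem suff2T_pow (y : ℂ) (j : ℕ) (f : ℂ[X]) :
    (suff2T y ^ j) f = C (y ^ j) * derivative^[j] f := by
  induction j with
  | zero => simp
  | succ j ih =>
    rw [pow_succ', Module.End.mul_apply, ih, suff2T_apply, derivative_C_mul,
      Function.iterate_succ_apply', pow_succ', C_mul]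
    ring

private theorem suff2_mono (B : ℂ[X]) (y a : ℂ) (k : ℕ) :
    (aeval (suff2T y) B (monomial k a)).eval y =
      (∑ j ∈ range (k + 1), B.coeff j * (k.descFactorial j : ℂ)) * a * y ^ k := by
  have hM : B.natDegree < k + 1 + B.natDegree := by omega
  rw [aeval_eq_sum_range' hM, LinearMap.sum_apply, eval_finsetSum]
  have h1 : ∑ j ∈ range (k + 1), B.coeff j * (k.descFactorial j : ℂ) =
      ∑ j ∈ range (k + 1 + B.natDegree), B.coeff j * (k.descFactorial j : ℂ) := by
    refine Finset.sum_subset (Finset.range_subset_range.mpr (by omega)) fun j _ hj => ?_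
    rw [Finset.mem_range, not_lt] at hj
    rw [Nat.descFactorial_of_lt (by omega), Nat.cast_zero, mul_zero]
  rw [h1, Finset.sum_mul, Finset.sum_mul]
  refine Finset.sum_congr rfl fun j _ => ?_
  rw [LinearMap.smul_apply, suff2T_pow, ← C_mul_X_pow_eq_monomial, iterate_derivative_C_mul,
    iterate_derivative_X_pow_eq_C_mul, eval_smul, eval_mul, eval_C, eval_mul, eval_C, eval_mul,
    eval_C, eval_pow, eval_X, smul_eq_mul]
  rcases le_or_gt j k with hjk | hjk
  · have : y ^ k = y ^ j * y ^ (k - j) := by rw [← pow_add, Nat.add_sub_cancel' hjk]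
    rw [this]
    ring
  · rw [Nat.descFactorial_of_lt hjk]
    simp

private theorem suff2_eval (B : ℝ[X]) (p : ℝ[X]) (y : ℂ) :
    (aeval (suff2T y) (B.map (algebraMap ℝ ℂ)) (p.map (algebraMap ℝ ℂ))).eval y =
      aeval y (diag (fun k => ∑ j ∈ range (k + 1), B.coeff j * (k.descFactorial j : ℝ)) p) := by
  rw [aeval_diag]
  have h1 : p.map (algebraMap ℝ ℂ) =
      ∑ k ∈ range (p.natDegree + 1), monomial k ((p.coeff k : ℝ) : ℂ) := by
    conv_lhs => rw [p.as_sum_range]
    rw [Polynomial.map_sum]
    refine Finset.sum_congr rfl fun k _ => ?_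
    rw [map_monomial]
    rfl
  rw [h1, map_sum, eval_finsetSum]
  refine Finset.sum_congr rfl fun k _ => ?_
  rw [suff2_mono]
  push_cast
  simp only [coeff_map, Complex.coe_algebraMap]

private theorem suff2_prod {y : ℂ} (hy : 0 < y.im) {t : ℕ → ℝ} (ht : ∀ j, 0 ≤ t j) (N : ℕ)
    {f : ℂ[X]} (hf : ∀ u : ℂ, 0 < u.im → f.eval u ≠ 0) : ∀ u : ℂ, 0 < u.im →
      (aeval (suff2T y) (∏ i ∈ range N, (1 + C ((t i : ℝ) : ℂ) * X)) f).eval u ≠ 0 := by
  induction N with
  | zero =>
    intro u hu
    simpa using hf u hu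
  | succ N ih =>
    intro u hu
    have h1 : aeval (suff2T y) (∏ i ∈ range (N + 1), (1 + C ((t i : ℝ) : ℂ) * X)) f =
        aeval (suff2T y) (∏ i ∈ range N, (1 + C ((t i : ℝ) : ℂ) * X)) f +
          C ((t N : ℂ) * y) *
            derivative (aeval (suff2T y) (∏ i ∈ range N, (1 + C ((t i : ℝ) : ℂ) * X)) f) := by
      rw [Finset.prod_range_succ, mul_comm, map_mul, Module.End.mul_apply, map_add, map_one,
        map_mul, aeval_C, aeval_X, LinearMap.add_apply, Module.End.one_apply,
        Module.End.mul_apply, suff2T_apply, Module.algebraMap_end_apply, smul_eq_C_mul, C_mul]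
      ring
    rw [h1]
    exact step_stable ih (ht N) hy u hu

private theorem suff2_iter {f : ℂ[X]} (hf : ∀ u : ℂ, 0 < u.im → f.eval u ≠ 0) (m : ℕ)
    (hm : derivative^[m] f ≠ 0) : ∀ u : ℂ, 0 < u.im → (derivative^[m] f).eval u ≠ 0 := by
  induction m with
  | zero => simpa using hf
  | succ m ih =>
    rw [Function.iterate_succ_apply'] at hm ⊢
    refine deriv_stable (ih ?_) hm
    intro h
    rw [h] at hm
    simp at hm

/-- finite products: `k ↦ ∑_j b_j k(k-1)...(k-j+1)` with `∑ b_j x^j = x^m ∏_{i<N} (1 + t_i x)` is a multiplier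
sequence: the polynomial `diag γ p` takes at `x` in the upper half plane the value of
`∏ (1 + t_i x D) (x D)^m p` at `x` -/
theorem ms_finite {m N : ℕ} {t : ℕ → ℝ} (ht : ∀ j, 0 ≤ t j) :
    IsMultiplierSequence (fun k => ∑ j ∈ range (k + 1),
      ((X ^ m * ∏ i ∈ range N, (1 + C (t i) * X) : ℝ[X]).coeff j) * (k.descFactorial j : ℝ)) := by
  intro p hp
  set B : ℝ[X] := X ^ m * ∏ i ∈ range N, (1 + C (t i) * X) with hB
  by_cases hdeg : p.natDegree < m
  · left
    ext k
    rw [diag_coeff, coeff_zero]
    rcases le_or_gt k p.natDegree with hk | hk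
    · have : ∑ j ∈ range (k + 1), B.coeff j * (k.descFactorial j : ℝ) = 0 := by
        refine Finset.sum_eq_zero fun j hj => ?_
        rw [Finset.mem_range] at hj
        have : B.coeff j = 0 := by
          rw [hB, coeff_X_pow_mul', if_neg (by omega)]
        rw [this, zero_mul]
      rw [this, zero_mul]
    · rw [coeff_eq_zero_of_natDegree_lt hk, mul_zero]
  rcases hp with rfl | hp
  · left
    ext k
    rw [diag_coeff, coeff_zero, mul_zero]
  by_cases hp0 : p = 0
  · left
    ext k
    rw [diag_coeff, hp0, coeff_zero, mul_zero]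
  right
  -- no zero in the upper half plane
  have key : ∀ y : ℂ, 0 < y.im →
      aeval y (diag (fun k => ∑ j ∈ range (k + 1), B.coeff j * (k.descFactorial j : ℝ)) p) ≠ 0 := by
    intro y hy
    rw [← suff2_eval]
    have hy0 : y ≠ 0 := by
      rintro rfl
      simp at hy
    have h1 : B.map (algebraMap ℝ ℂ) = (∏ i ∈ range N, (1 + C ((t i : ℝ) : ℂ) * X)) * X ^ m := by
      rw [hB, Polynomial.map_mul, Polynomial.map_prod, Polynomial.map_pow, map_X, mul_comm]
      congr 1
      refine Finset.prod_congr rfl fun i _ => ?_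
      rw [Polynomial.map_add, Polynomial.map_one, Polynomial.map_mul, map_C, map_X]
      rfl
    rw [h1, map_mul, Module.End.mul_apply, map_pow, aeval_X, suff2T_pow]
    refine suff2_prod hy ht N ?_ y hy
    have h2 : ∀ u : ℂ, 0 < u.im → (p.map (algebraMap ℝ ℂ)).eval u ≠ 0 := by
      intro u hu h
      rw [eval_map_algebraMap] at h
      exact hu.ne' (hp u h)
    have h3 : derivative^[m] (p.map (algebraMap ℝ ℂ)) ≠ 0 := by
      rw [iterate_derivative_map, Ne, Polynomial.map_eq_zero]
      intro h
      have h4 := congrArg (fun q => q.coeff (p.natDegree - m)) h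
      simp only [coeff_zero] at h4
      rw [coeff_iterate_derivative, Nat.sub_add_cancel (not_lt.mp hdeg), nsmul_eq_mul,
        coeff_natDegree] at h4
      rcases mul_eq_zero.mp h4 with h5 | h5
      · rw [Nat.cast_eq_zero, Nat.descFactorial_eq_zero_iff_lt] at h5
        omega
      · exact hp0 (leadingCoeff_eq_zero.mp h5)
    intro u hu
    rw [eval_mul, eval_C]
    exact mul_ne_zero (pow_ne_zero _ hy0) (suff2_iter h2 m h3 u hu)
  intro z hz
  rcases lt_trichotomy z.im 0 with h | h | h
  · exfalso
    refine key (starRingEnd ℂ z) (by rw [Complex.conj_im]; linarith) ?_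
    rw [Polynomial.aeval_conj, hz, map_zero]
  · exact h
  · exact absurd hz (key z h)

/-- the limit `N → ∞` -/
theorem ms_newton {m : ℕ} {t b : ℕ → ℝ} (ht : ∀ j, 0 ≤ t j) (hs : Summable t)
    (hb : ∀ z : ℂ, HasSum (fun j => (b j : ℂ) * z ^ j) (z ^ m * ∏' j, (1 + (t j : ℂ) * z))) :
    IsMultiplierSequence (fun k => ∑ j ∈ range (k + 1), b j * (k.descFactorial j : ℝ)) := by
  -- the coefficients of the finite products
  set B : ℕ → ℝ[X] := fun N => X ^ m * ∏ i ∈ range N, (1 + C (t i) * X) with hB
  have hBs : ∀ N, B (N + 1) = B N + C (t N) * (X * B N) := by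
    intro N
    simp only [hB, Finset.prod_range_succ]
    ring
  have hnn : ∀ N j, 0 ≤ (B N).coeff j := by
    intro N
    induction N with
    | zero =>
      intro j
      simp only [hB, Finset.range_zero, Finset.prod_empty, mul_one, coeff_X_pow]
      split_ifs <;> norm_num
    | succ N ih =>
      intro j
      rw [hBs, coeff_add, coeff_C_mul]
      rcases j with _ | j
      · rw [coeff_X_mul_zero]
        have := ih 0
        linarith
      · rw [coeff_X_mul]
        have h1 := ih (j + 1)
        have h2 := mul_nonneg (ht N) (ih j)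
        linarith
  have hmono : ∀ j, Monotone fun N => (B N).coeff j := by
    intro j
    refine monotone_nat_of_le_succ fun N => ?_
    rw [hBs, coeff_add, coeff_C_mul]
    rcases j with _ | j
    · rw [coeff_X_mul_zero]
      linarith
    · rw [coeff_X_mul]
      have h2 := mul_nonneg (ht N) (hnn N j)
      linarith
  have heval : ∀ N (R : ℝ), 0 ≤ R → (B N).eval R ≤ R ^ m * Real.exp (R * ∑' i, t i) := by
    intro N R hR
    simp only [hB, eval_mul, eval_pow, eval_X, eval_prod, eval_add, eval_one, eval_C]
    gcongr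
    calc ∏ i ∈ range N, (1 + t i * R) ≤ ∏ i ∈ range N, Real.exp (t i * R) := by
          refine Finset.prod_le_prod (fun i _ => ?_) fun i _ => ?_
          · have := mul_nonneg (ht i) hR
            linarith
          · have := Real.add_one_le_exp (t i * R)
            linarith
      _ = Real.exp (R * ∑ i ∈ range N, t i) := by
          rw [← Real.exp_sum, Finset.mul_sum]
          congr 1
          exact Finset.sum_congr rfl fun i _ => mul_comm _ _
      _ ≤ _ := by
          apply Real.exp_le_exp.mpr
          exact mul_le_mul_of_nonneg_left (hs.sum_le_tsum _ fun i _ => ht i) hR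
  have hcoef : ∀ N j (R : ℝ), 0 < R → (B N).coeff j ≤ R ^ m * Real.exp (R * ∑' i, t i) / R ^ j := by
    intro N j R hR
    rw [le_div_iff₀ (by positivity)]
    refine le_trans ?_ (heval N R hR.le)
    have hM : (B N).natDegree < j + 1 + (B N).natDegree := by omega
    rw [eval_eq_sum_range' hM]
    exact Finset.single_le_sum (f := fun i => (B N).coeff i * R ^ i)
      (fun i _ => mul_nonneg (hnn N i) (by positivity)) (Finset.mem_range.mpr (by omega))
  -- the limits of the coefficients
  have hbdd : ∀ j, BddAbove (Set.range fun N => (B N).coeff j) := by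
    intro j
    refine ⟨(1 : ℝ) ^ m * Real.exp (1 * ∑' i, t i) / 1 ^ j, ?_⟩
    rintro _ ⟨N, rfl⟩
    exact hcoef N j 1 one_pos
  have hlim : ∀ j, Tendsto (fun N => (B N).coeff j) atTop (𝓝 (⨆ N, (B N).coeff j)) := fun j =>
    tendsto_atTop_ciSup (hmono j) (hbdd j)
  set c : ℕ → ℝ := fun j => ⨆ N, (B N).coeff j with hc
  have hcb : ∀ j (R : ℝ), 0 < R → c j ≤ R ^ m * Real.exp (R * ∑' i, t i) / R ^ j := fun j R hR =>
    ciSup_le fun N => hcoef N j R hR
  have hc0 : ∀ j, 0 ≤ c j := fun j => (hnn 0 j).trans (le_ciSup (hbdd j) 0)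
  have hcsum : ∀ z : ℂ, HasSum (fun j => (c j : ℂ) * z ^ j)
      (z ^ m * ∏' j, (1 + (t j : ℂ) * z)) := by
    intro z
    set R : ℝ := 2 * ‖z‖ + 1 with hR
    have hR0 : 0 < R := by positivity
    set E : ℝ := R ^ m * Real.exp (R * ∑' i, t i) with hE
    have hE0 : 0 ≤ E := by positivity
    have hbound : ∀ x : ℝ, 0 ≤ x → ∀ j, x ≤ E / R ^ j → ‖(x : ℂ) * z ^ j‖ ≤ E * (1 / 2) ^ j := by
      intro x hx j hxj
      rw [norm_mul, norm_pow, Complex.norm_real, Real.norm_of_nonneg hx]
      calc x * ‖z‖ ^ j ≤ E / R ^ j * (R / 2) ^ j := by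
            gcongr
            rw [hR]
            linarith
        _ = _ := by
            rw [div_pow, div_pow, one_pow]
            field_simp
    have hsb : Summable fun j : ℕ => E * (1 / 2 : ℝ) ^ j :=
      (summable_geometric_of_lt_one (by norm_num) (by norm_num)).mul_left E
    have h1 : Tendsto (fun N => ∑' j, ((B N).coeff j : ℂ) * z ^ j) atTop
        (𝓝 (∑' j, (c j : ℂ) * z ^ j)) := by
      refine tendsto_tsum_of_dominated_convergence hsb (fun j => ?_) ?_
      · exact ((Complex.continuous_ofReal.tendsto _).comp (hlim j)).mul_const _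
      · exact Eventually.of_forall fun N j => hbound _ (hnn N j) j (hcoef N j R hR0)
    have h2 : ∀ N, ∑' j, ((B N).coeff j : ℂ) * z ^ j =
        z ^ m * ∏ i ∈ range N, (1 + (t i : ℂ) * z) := by
      intro N
      have h3 : aeval z (B N) = z ^ m * ∏ i ∈ range N, (1 + (t i : ℂ) * z) := by
        simp only [hB, map_mul, map_pow, aeval_X, map_prod, map_add, map_one, aeval_C,
          Complex.coe_algebraMap]
      rw [← h3, aeval_eq_sum_range, tsum_eq_sum (s := range ((B N).natDegree + 1))]
      · refine Finset.sum_congr rfl fun i _ => ?_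
        rw [Complex.real_smul]
      · intro j hj
        rw [Finset.mem_range, not_lt] at hj
        rw [coeff_eq_zero_of_natDegree_lt (by omega)]
        simp
    have h4 : Tendsto (fun N => z ^ m * ∏ i ∈ range N, (1 + (t i : ℂ) * z)) atTop
        (𝓝 (z ^ m * ∏' j, (1 + (t j : ℂ) * z))) := by
      refine Tendsto.const_mul _ ?_
      have h5 : Summable fun j => (t j : ℂ) * z := by
        apply Summable.mul_right
        exact Complex.summable_ofReal.mpr hs
      exact (Complex.multipliable_one_add_of_summable h5).hasProd.tendsto_prod_nat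
    have h6 : ∑' j, (c j : ℂ) * z ^ j = z ^ m * ∏' j, (1 + (t j : ℂ) * z) := by
      refine tendsto_nhds_unique h1 ?_
      simp only [h2]
      exact h4
    rw [← h6]
    refine Summable.hasSum (Summable.of_norm_bounded hsb fun j => ?_)
    exact hbound _ (hc0 j) j (hcb j R hR0)
  have hcb' : c = b := by
    have h1 : HasFPowerSeriesAt (0 : ℂ → ℂ)
        (FormalMultilinearSeries.ofScalars ℂ fun j => ((c j - b j : ℝ) : ℂ)) 0 := by
      rw [hasFPowerSeriesAt_iff]
      refine Eventually.of_forall fun z => ?_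
      have h2 := (hcsum z).sub (hb z)
      rw [sub_self] at h2
      simp only [FormalMultilinearSeries.coeff_ofScalars, smul_eq_mul, Pi.zero_apply]
      convert h2 using 2 with j
      push_cast
      ring
    have h3 := h1.eq_zero
    funext j
    have h4 := congrArg (fun q => FormalMultilinearSeries.coeff q j) h3
    simp only [FormalMultilinearSeries.coeff_ofScalars] at h4
    have h5 : ((c j - b j : ℝ) : ℂ) = 0 := by
      rw [h4]
      rfl
    have h6 : c j - b j = 0 := by exact_mod_cast h5
    linarith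
  -- conclusion
  intro p hp
  refine hyperbolic_of_tendsto (D := p.natDegree)
    (q := fun N => diag (fun k => ∑ j ∈ range (k + 1), (B N).coeff j * (k.descFactorial j : ℝ)) p)
    (fun N => ms_finite ht p hp) (fun N => diag_natDegree_le _ _) fun k => ?_
  simp only [diag_coeff]
  refine Tendsto.mul_const _ (tendsto_finsetSum _ fun j _ => ?_)
  refine Tendsto.mul_const _ ?_
  rw [← hcb']
  exact hlim j

/-- `c σ^k γ_k` -/
theorem ms_geom {γ : ℕ → ℝ} (hγ : IsMultiplierSequence γ) (c : ℝ) {σ : ℝ} (hσ : 0 < σ) :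
    IsMultiplierSequence (fun k => c * σ ^ k * γ k) := by
  intro p hp
  by_cases hc : c = 0
  · left
    ext k
    rw [diag_coeff, coeff_zero, hc]
    ring
  rcases hγ p hp with h | h
  · left
    ext k
    have := congrArg (fun q => q.coeff k) h
    simp only [diag_coeff, coeff_zero] at this
    rw [diag_coeff, coeff_zero, mul_assoc, this, mul_zero]
  · right
    intro z hz
    have h1 : aeval z (diag (fun k => c * σ ^ k * γ k) p) =
        (c : ℂ) * aeval ((σ : ℂ) * z) (diag γ p) := by
      rw [aeval_diag, aeval_diag, Finset.mul_sum]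
      refine Finset.sum_congr rfl fun k _ => ?_
      push_cast
      ring
    rw [h1, mul_eq_zero] at hz
    rcases hz with hz | hz
    · exact absurd (by exact_mod_cast hz) hc
    · have h2 := h _ hz
      rw [Complex.im_ofReal_mul] at h2
      exact (mul_eq_zero.mp h2).resolve_left hσ.ne'

end Pool.Agent.MPd164ca
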