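import Pool.Agent.Lib.MP_d164ca_an.PL3
import Pool.Agent.Lib.MP_d164ca_an.Struct
import Pool.Agent.Lib.MP_d164ca_an.Newton
import Pool.Agent.Lib.MP_d164ca_an.Suff

/-!
# MP_d164ca_an, Final: assembly
-/

namespace Pool.Agent.MPd164ca

open Complex Set Filter Topology Finset

/-- superexponentially small sequences -/
def SuperSmall (γ : ℕ → ℝ) : Prop := ∀ a : ℝ, ∃ M : ℝ, ∀ k : ℕ, |γ k| ≤ M * Real.exp (-a * k)

theorem superSmall_of_eventually_zero {γ : ℕ → ℝ} {N : ℕ} (h : ∀ k, N ≤ k → γ k = 0) :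
    SuperSmall γ := by
  intro a
  refine ⟨∑ k ∈ Finset.range N, |γ k| * Real.exp (a * k), fun k => ?_⟩
  rcases lt_or_ge k N with hk | hk
  · have h1 : |γ k| * Real.exp (a * k) ≤ ∑ k ∈ Finset.range N, |γ k| * Real.exp (a * k) :=
      Finset.single_le_sum (f := fun k : ℕ => |γ k| * Real.exp (a * k))
        (fun i _ => by positivity) (Finset.mem_range.2 hk)
    have h2 : |γ k| = |γ k| * Real.exp (a * k) * Real.exp (-a * k) := by
      rw [mul_assoc, ← Real.exp_add]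
      have : a * (k : ℝ) + -a * k = 0 := by ring
      rw [this, Real.exp_zero, mul_one]
    rw [h2]
    exact mul_le_mul_of_nonneg_right h1 (Real.exp_pos _).le
  · rw [h k hk, abs_zero]
    exact mul_nonneg (Finset.sum_nonneg fun i _ => by positivity) (Real.exp_pos _).le

theorem SuperSmall.of_abs {γ δ : ℕ → ℝ} (hδ : SuperSmall δ) (h : ∀ k, |γ k| = |δ k|) :
    SuperSmall γ := by
  intro a
  obtain ⟨M, hM⟩ := hδ a
  exact ⟨M, fun k => by rw [h k]; exact hM k⟩

/-- sequence form of the necessity: a multiplier sequence which is not superexponentially small is, up to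
the sign pattern `1` or `(-1)^k`, `c σ^k` times the values of a Newton series -/
theorem ms_repr {γ : ℕ → ℝ} (hγ : IsMultiplierSequence γ) (hs : ¬ SuperSmall γ) :
    ∃ (c σ ε : ℝ) (m : ℕ) (t b : ℕ → ℝ), 0 < σ ∧ (ε = 1 ∨ ε = -1) ∧ c ≠ 0 ∧ (∀ j, 0 ≤ t j) ∧ Summable t ∧
      (∀ z : ℂ, HasSum (fun j => (b j : ℂ) * z ^ j) (z ^ m * ∏' j, (1 + (t j : ℂ) * z))) ∧
      (∀ k, m ≤ k → 0 < ε ^ k * γ k / c) ∧
      ∀ k : ℕ, (γ k : ℂ) = c * ε ^ k * (σ : ℂ) ^ k * newton b k := by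
  classical
  have hex : ∃ k, γ k ≠ 0 := by
    by_contra hcon
    push Not at hcon
    exact hs (superSmall_of_eventually_zero (N := 0) fun k _ => hcon k)
  obtain ⟨m, hm, hmin⟩ : ∃ m, γ m ≠ 0 ∧ ∀ k < m, γ k = 0 :=
    ⟨Nat.find hex, Nat.find_spec hex, fun k hk => by
      have := Nat.find_min hex hk
      simpa using this⟩
  have hne : ∀ k, m ≤ k → γ k ≠ 0 := by
    intro k hk h0
    rcases hk.eq_or_lt with rfl | hlt
    · exact hm h0
    · exact hs (superSmall_of_eventually_zero (N := k) (ms_no_gap hγ hlt hm h0))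
  have h2 : ∀ k, m ≤ k → 0 < γ k * γ (k + 2) := fun k hk =>
    lt_of_le_of_ne (ms_mul_nonneg hγ k) (Ne.symm (mul_ne_zero (hne k hk) (hne (k + 2) (by omega))))
  -- the sign pattern
  obtain ⟨ε, hε, hε1⟩ : ∃ ε : ℝ, (ε = 1 ∨ ε = -1) ∧ 0 < ε * (γ m * γ (m + 1)) := by
    rcases lt_or_gt_of_ne (mul_ne_zero hm (hne (m + 1) (by omega))) with h | h
    · exact ⟨-1, Or.inr rfl, by linarith⟩
    · exact ⟨1, Or.inl rfl, by linarith⟩
  have hεsq : ε * ε = 1 := by rcases hε with rfl | rfl <;> norm_num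
  have hεk : ∀ k : ℕ, ε ^ k * ε ^ k = 1 := fun k => by rw [← mul_pow, hεsq, one_pow]
  have hsign : ∀ i : ℕ, 0 < (ε ^ m * γ m) * (ε ^ (m + i) * γ (m + i)) ∧
      0 < (ε ^ m * γ m) * (ε ^ (m + (i + 1)) * γ (m + (i + 1))) := by
    intro i
    induction i with
    | zero =>
      constructor
      · have : (ε ^ m * γ m) * (ε ^ (m + 0) * γ (m + 0)) = (ε ^ m * ε ^ m) * (γ m * γ m) := by
          simp only [add_zero]; ring
        rw [this, hεk, one_mul]
        exact mul_self_pos.2 hm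
      · have : (ε ^ m * γ m) * (ε ^ (m + (0 + 1)) * γ (m + (0 + 1))) =
            (ε ^ m * ε ^ m) * (ε * (γ m * γ (m + 1))) := by
          simp only [zero_add, pow_succ]; ring
        rw [this, hεk, one_mul]
        exact hε1
    | succ i ih =>
      refine ⟨ih.2, ?_⟩
      have h3 := h2 (m + i) (by omega)
      have h4 : (ε ^ m * γ m) * (ε ^ (m + (i + 1 + 1)) * γ (m + (i + 1 + 1))) * (γ (m + i) ^ 2) =
          ((ε ^ m * γ m) * (ε ^ (m + i) * γ (m + i))) * (γ (m + i) * γ (m + i + 2)) * (ε * ε) := by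
        have : m + (i + 1 + 1) = m + i + 2 := by ring
        rw [this, pow_add ε (m + i) 2]
        ring
      rw [hεsq, mul_one] at h4
      have h5 : 0 < ((ε ^ m * γ m) * (ε ^ (m + i) * γ (m + i))) * (γ (m + i) * γ (m + i + 2)) :=
        mul_pos ih.1 h3
      rw [← h4] at h5
      exact pos_of_mul_pos_left h5 (sq_nonneg _)
  have hsign' : ∀ k, m ≤ k → 0 < (ε ^ m * γ m) * (ε ^ k * γ k) := by
    intro k hk
    obtain ⟨i, rfl⟩ := Nat.exists_eq_add_of_le hk
    exact (hsign i).1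
  -- the normalised sequence
  set κ : ℝ := if ε ^ m * γ m < 0 then -1 else 1 with hκ
  have hne0 : ε ^ m * γ m ≠ 0 := mul_ne_zero (pow_ne_zero _ (by rcases hε with rfl | rfl <;> norm_num)) hm
  have hκ2 : κ = 1 ∨ κ = -1 := by
    rcases lt_or_gt_of_ne hne0 with h | h
    · right; rw [hκ, if_pos h]
    · left; rw [hκ, if_neg h.le.not_gt]
  have hκsq : κ * κ = 1 := by rcases hκ2 with h | h <;> rw [h] <;> norm_num
  have hκpos : 0 < κ * (ε ^ m * γ m) := by
    rcases lt_or_gt_of_ne hne0 with h | h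
    · rw [hκ, if_pos h]; linarith
    · rw [hκ, if_neg h.le.not_gt]; linarith
  set δ : ℕ → ℝ := fun k => κ * (ε ^ k * γ k) with hδdef
  have hδms : IsMultiplierSequence δ := by
    refine ms_smul ?_ κ
    rcases hε with h | h
    · have : (fun k => ε ^ k * γ k) = γ := by funext k; rw [h]; simp
      rw [this]; exact hγ
    · have : (fun k => ε ^ k * γ k) = fun k => (-1) ^ k * γ k := by funext k; rw [h]
      rw [this]; exact ms_neg hγ
  have hδpos : ∀ k, m ≤ k → 0 < δ k := by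
    intro k hk
    have h3 := hsign' k hk
    have h4 : 0 < (κ * (ε ^ m * γ m)) * (κ * (ε ^ k * γ k)) := by
      have : (κ * (ε ^ m * γ m)) * (κ * (ε ^ k * γ k)) =
          (κ * κ) * ((ε ^ m * γ m) * (ε ^ k * γ k)) := by ring
      rw [this, hκsq, one_mul]; exact h3
    exact (pos_iff_pos_of_mul_pos h4).1 hκpos
  have hδ0 : ∀ k < m, δ k = 0 := fun k hk => by simp [hδdef, hmin k hk]
  have habs : ∀ k, |γ k| = |δ k| := by
    intro k
    have h3 : |ε ^ k| = 1 := by
      rw [abs_pow]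
      rcases hε with h | h <;> rw [h] <;> simp
    have h4 : |κ| = 1 := by rcases hκ2 with h | h <;> rw [h] <;> simp
    simp only [hδdef]
    rw [abs_mul, abs_mul, h3, h4]; ring
  obtain ⟨σ, t, hσ, ht, hts, hps⟩ := polya_schur hδms hδ0 hδpos
  have hσ' : 0 < σ := by
    rcases hσ.eq_or_lt with h | h
    · exfalso
      refine hs (SuperSmall.of_abs (δ := δ) ?_ habs)
      refine egf_small (c := δ m / m.factorial) (m := m) ht hts fun z => ?_
      have := hps z
      rw [← h] at this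
      simpa using this
    · exact h
  have hcpos : 0 < δ m / m.factorial := div_pos (hδpos m le_rfl) (by positivity)
  obtain ⟨b, hb, hbk⟩ := newton_of_egf (m := m) (t := t) hcpos.ne' hσ' hps
  refine ⟨κ * (δ m / m.factorial / σ ^ m), σ, ε, m, fun j => t j / σ, b, hσ', hε, ?_,
    fun j => div_nonneg (ht j) hσ, hts.div_const σ, hb, ?_, ?_⟩
  · have : κ ≠ 0 := by rcases hκ2 with h | h <;> rw [h] <;> norm_num
    positivity
  · intro k hk
    have h3 : ε ^ k * γ k = κ * δ k := by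
      simp only [hδdef]; rw [← mul_assoc, hκsq, one_mul]
    have hκne : κ ≠ 0 := by rcases hκ2 with h | h <;> rw [h] <;> norm_num
    rw [h3, mul_div_mul_left _ _ hκne]
    exact div_pos (hδpos k hk) (by positivity)
  · intro k
    have h3 : γ k = κ * ε ^ k * δ k := by
      simp only [hδdef]
      have : κ * ε ^ k * (κ * (ε ^ k * γ k)) = (κ * κ) * (ε ^ k * ε ^ k) * γ k := by ring
      rw [this, hκsq, hεk]; ring
    have h4 := hbk k
    rw [h3]
    push_cast at h4 ⊢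
    rw [h4]
    ring

/-- relation at the nonnegative integers, by continuity -/
theorem eq_at_nat {F ψ u w : ℂ → ℂ} (hψ : Differentiable ℂ ψ) (hψ0 : ∃ z, ψ z ≠ 0) (k : ℕ)
    (hF : ContinuousAt F k)
    (hu : ContinuousOn u {z : ℂ | 0 ≤ z.re}) (hw : ContinuousOn w {z : ℂ | 0 ≤ z.re})
    (h : ∀ z : ℂ, 0 < z.re → ψ z ≠ 0 → F z * w z = u z) : F k * w k = u k := by
  have hpath : Tendsto (fun x : ℝ => (x : ℂ)) (𝓝[>] (k : ℝ)) (𝓝[≠] (k : ℂ)) := by
    refine tendsto_nhdsWithin_iff.2 ⟨?_, ?_⟩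
    · have : Tendsto (fun x : ℝ => (x : ℂ)) (𝓝 (k : ℝ)) (𝓝 ((k : ℝ) : ℂ)) :=
        continuous_ofReal.tendsto _
      simpa using this.mono_left nhdsWithin_le_nhds
    · filter_upwards [self_mem_nhdsWithin] with x hx
      simp only [mem_compl_iff, mem_singleton_iff]
      intro hx'
      have : x = (k : ℝ) := by exact_mod_cast hx'
      exact absurd hx (by rw [this]; simp)
  have hψne : ∀ᶠ z in 𝓝[≠] (k : ℂ), ψ z ≠ 0 := by
    have han : AnalyticAt ℂ ψ k := hψ.analyticAt k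
    rcases han.eventually_eq_zero_or_eventually_ne_zero with h0 | h0
    · exfalso
      obtain ⟨z, hz⟩ := hψ0
      have hana : AnalyticOnNhd ℂ ψ univ := fun z _ => hψ.analyticAt z
      exact hz (hana.eqOn_zero_of_preconnected_of_eventuallyEq_zero isPreconnected_univ
        (mem_univ _) h0 (mem_univ z))
    · exact h0
  have hpath2 : Tendsto (fun x : ℝ => (x : ℂ)) (𝓝[>] (k : ℝ)) (𝓝[{z : ℂ | 0 ≤ z.re}] (k : ℂ)) := by
    refine tendsto_nhdsWithin_iff.2 ⟨hpath.mono_right nhdsWithin_le_nhds, ?_⟩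
    filter_upwards [self_mem_nhdsWithin] with x hx
    have : (k : ℝ) < x := hx
    show 0 ≤ ((x : ℂ)).re
    rw [ofReal_re]
    exact (Nat.cast_nonneg k).trans this.le
  have hkmem : (k : ℂ) ∈ {z : ℂ | 0 ≤ z.re} := by simp
  have h1 : Tendsto (fun x : ℝ => F x * w x) (𝓝[>] (k : ℝ)) (𝓝 (F k * w k)) :=
    ((hF.tendsto.comp (hpath.mono_right nhdsWithin_le_nhds))).mul
      ((hw k hkmem).tendsto.comp hpath2)
  have h2 : Tendsto (fun x : ℝ => u x) (𝓝[>] (k : ℝ)) (𝓝 (u k)) :=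
    (hu k hkmem).tendsto.comp hpath2
  refine tendsto_nhds_unique_of_eventuallyEq h1 h2 ?_
  filter_upwards [self_mem_nhdsWithin, hpath.eventually hψne] with x hx hx2
  refine h x ?_ hx2
  have : (k : ℝ) < x := hx
  rw [ofReal_re]
  exact (Nat.cast_nonneg k).trans_lt this

/-- growth of `c σ^z newton b z` -/
theorem E_growth {b : ℕ → ℝ}
    (hb : ∀ ε : ℝ, 0 < ε → ∃ M : ℝ, ∀ j : ℕ, j.factorial * |b j| ≤ M * ε ^ j) {σ : ℝ} (hσ : 0 < σ)
    (c : ℝ) {δ : ℝ} (hδ : 0 < δ) :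
    ∃ M : ℝ, 0 ≤ M ∧ ∀ z : ℂ, ‖(c : ℂ) * (σ : ℂ) ^ z * newton b z‖ ≤
      M * Real.exp (|Real.log σ| * |z.re| + δ * ‖z‖) := by
  obtain ⟨M, hM⟩ := newton_growth hb hδ
  have hM0 : 0 ≤ M := by
    have h := (norm_nonneg _).trans (hM 0)
    simpa using h
  refine ⟨|c| * M, by positivity, fun z => ?_⟩
  rw [norm_mul, norm_mul, norm_real, Real.norm_eq_abs, Complex.norm_cpow_eq_rpow_re_of_pos hσ,
    Real.exp_add]
  have h1 : σ ^ z.re ≤ Real.exp (|Real.log σ| * |z.re|) := by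
    rw [Real.rpow_def_of_pos hσ, Real.exp_le_exp, ← abs_mul]
    exact le_abs_self _
  calc |c| * σ ^ z.re * ‖newton b z‖ ≤
      |c| * Real.exp (|Real.log σ| * |z.re|) * (M * Real.exp (δ * ‖z‖)) := by
        gcongr
        exact hM z
    _ = |c| * M * (Real.exp (|Real.log σ| * |z.re|) * Real.exp (δ * ‖z‖)) := by ring

theorem E_differentiable {b : ℕ → ℝ}
    (hb : ∀ ε : ℝ, 0 < ε → ∃ M : ℝ, ∀ j : ℕ, j.factorial * |b j| ≤ M * ε ^ j) {σ : ℝ} (hσ : 0 < σ)
    (c : ℝ) : Differentiable ℂ fun z : ℂ => (c : ℂ) * (σ : ℂ) ^ z * newton b z := by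
  have h1 : Differentiable ℂ fun z : ℂ => (σ : ℂ) ^ z := by
    have : (fun z : ℂ => (σ : ℂ) ^ z) = fun z => cexp (Complex.log σ * z) := by
      funext z
      rw [Complex.cpow_def_of_ne_zero]
      exact_mod_cast hσ.ne'
    rw [this]
    fun_prop
  exact ((differentiable_const _).mul h1).mul (newton_differentiable hb)

/-- `H = u - s E v` satisfies the hypotheses of Carlson's theorem -/
theorem H_bounds {u v E : ℂ → ℂ} {A K τ M L δ : ℝ}
    (huK : ∀ z : ℂ, 0 ≤ z.re → ‖u z‖ ≤ A * Real.exp (K * ‖z‖))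
    (hvK : ∀ z : ℂ, 0 ≤ z.re → ‖v z‖ ≤ A * Real.exp (K * ‖z‖))
    (huI : ∀ y : ℝ, ‖u (y * Complex.I)‖ ≤ A * Real.exp (τ * |y|))
    (hvI : ∀ y : ℝ, ‖v (y * Complex.I)‖ ≤ A * Real.exp (τ * |y|))
    (hM : 0 ≤ M) (hL : 0 ≤ L) (hδ : 0 < δ)
    (hE : ∀ z : ℂ, ‖E z‖ ≤ M * Real.exp (L * |z.re| + δ * ‖z‖)) (s : ℂ) (hs : ‖s‖ ≤ 1) :
    (∀ z : ℂ, 0 ≤ z.re → ‖u z - s * E z * v z‖ ≤ (A + M * A) * Real.exp ((|K| + L + δ) * ‖z‖)) ∧
    (∀ y : ℝ, ‖u (y * Complex.I) - s * E (y * Complex.I) * v (y * Complex.I)‖ ≤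
      (A + M * A) * Real.exp ((τ + δ) * |y|)) := by
  have hA : 0 ≤ A := by
    have h := (norm_nonneg _).trans (huI 0)
    simpa using h
  constructor
  · intro z hz
    have hre : |z.re| ≤ ‖z‖ := abs_re_le_norm z
    have hn : 0 ≤ ‖z‖ := norm_nonneg z
    calc ‖u z - s * E z * v z‖ ≤ ‖u z‖ + ‖s * E z * v z‖ := norm_sub_le _ _
      _ ≤ A * Real.exp (K * ‖z‖) + 1 * (M * Real.exp (L * |z.re| + δ * ‖z‖)) *
          (A * Real.exp (K * ‖z‖)) := by
          rw [norm_mul, norm_mul]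
          gcongr
          · exact huK z hz
          · exact hE z
          · exact hvK z hz
      _ = A * Real.exp (K * ‖z‖) + M * A * Real.exp (L * |z.re| + δ * ‖z‖ + K * ‖z‖) := by
          rw [Real.exp_add (L * |z.re| + δ * ‖z‖)]; ring
      _ ≤ A * Real.exp ((|K| + L + δ) * ‖z‖) + M * A * Real.exp ((|K| + L + δ) * ‖z‖) := by
          have hK : K * ‖z‖ ≤ |K| * ‖z‖ := mul_le_mul_of_nonneg_right (le_abs_self K) hn
          have hL1 : L * |z.re| ≤ L * ‖z‖ := mul_le_mul_of_nonneg_left hre hL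
          have hL2 : 0 ≤ L * ‖z‖ := mul_nonneg hL hn
          have hδ2 : 0 ≤ δ * ‖z‖ := mul_nonneg hδ.le hn
          have e1 : Real.exp (K * ‖z‖) ≤ Real.exp ((|K| + L + δ) * ‖z‖) := by
            rw [Real.exp_le_exp]; nlinarith
          have e2 : Real.exp (L * |z.re| + δ * ‖z‖ + K * ‖z‖) ≤ Real.exp ((|K| + L + δ) * ‖z‖) := by
            rw [Real.exp_le_exp]; nlinarith
          exact add_le_add (mul_le_mul_of_nonneg_left e1 hA)
            (mul_le_mul_of_nonneg_left e2 (mul_nonneg hM hA))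
      _ = _ := by ring
  · intro y
    have hny : ‖(y : ℂ) * Complex.I‖ = |y| := by simp
    have hre : ((y : ℂ) * Complex.I).re = 0 := by simp
    calc ‖u (y * Complex.I) - s * E (y * Complex.I) * v (y * Complex.I)‖
        ≤ ‖u (y * Complex.I)‖ + ‖s * E (y * Complex.I) * v (y * Complex.I)‖ := norm_sub_le _ _
      _ ≤ A * Real.exp (τ * |y|) + 1 * (M * Real.exp (δ * |y|)) * (A * Real.exp (τ * |y|)) := by
          rw [norm_mul, norm_mul]
          gcongr
          · exact huI y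
          · refine (hE _).trans (le_of_eq ?_)
            rw [hny, hre]; simp
          · exact hvI y
      _ = A * Real.exp (τ * |y|) + M * A * Real.exp (δ * |y| + τ * |y|) := by
          rw [Real.exp_add]; ring
      _ ≤ A * Real.exp ((τ + δ) * |y|) + M * A * Real.exp ((τ + δ) * |y|) := by
          have hy : 0 ≤ δ * |y| := mul_nonneg hδ.le (abs_nonneg y)
          have e1 : Real.exp (τ * |y|) ≤ Real.exp ((τ + δ) * |y|) := by
            rw [Real.exp_le_exp]; nlinarith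
          have e2 : Real.exp (δ * |y| + τ * |y|) ≤ Real.exp ((τ + δ) * |y|) := by
            rw [Real.exp_le_exp]; nlinarith
          exact add_le_add (mul_le_mul_of_nonneg_left e1 hA)
            (mul_le_mul_of_nonneg_left e2 (mul_nonneg hM hA))
      _ = _ := by ring

/-- a function analytic in the right half plane vanishing on a right half plane vanishes -/
theorem zero_of_zero_on {v : ℂ → ℂ} (hv : DiffContOnCl ℂ v {z : ℂ | 0 < z.re})
    {U : Set ℂ} (hU : IsOpen U) (hUsub : U ⊆ {z : ℂ | 0 < z.re}) (hne : U.Nonempty)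
    (h0 : ∀ z ∈ U, v z = 0) : ∀ z : ℂ, 0 < z.re → v z = 0 := by
  obtain ⟨z0, hz0⟩ := hne
  have hopen : IsOpen {z : ℂ | 0 < z.re} := isOpen_lt continuous_const continuous_re
  have hana : AnalyticOnNhd ℂ v {z : ℂ | 0 < z.re} := hv.differentiableOn.analyticOnNhd hopen
  have hconv : IsPreconnected {z : ℂ | 0 < z.re} := (convex_halfSpace_re_gt 0).isPreconnected
  intro z hz
  refine hana.eqOn_zero_of_preconnected_of_eventuallyEq_zero hconv (hUsub hz0) ?_ hz
  filter_upwards [hU.mem_nhds hz0] with w hw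
  exact h0 w hw

/-- an entire function not identically zero is nonzero somewhere in every nonempty open set -/
theorem exists_ne_zero {ψ : ℂ → ℂ} (hψ : Differentiable ℂ ψ) (hψ0 : ∃ z, ψ z ≠ 0)
    {U : Set ℂ} (hU : IsOpen U) (hne : U.Nonempty) : ∃ z ∈ U, ψ z ≠ 0 := by
  by_contra hcon
  push Not at hcon
  obtain ⟨z0, hz0⟩ := hne
  obtain ⟨z, hz⟩ := hψ0
  have hana : AnalyticOnNhd ℂ ψ univ := fun z _ => hψ.analyticAt z
  refine hz (hana.eqOn_zero_of_preconnected_of_eventuallyEq_zero isPreconnected_univ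
        (mem_univ z0) ?_ (mem_univ z))
  filter_upwards [hU.mem_nhds hz0] with w hw
  exact hcon w hw

end Pool.Agent.MPd164ca
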