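import Mathlib

/-!
# MP_d164ca_an, Lim1: limits of products `∏ (1 + s_j z)` with `∑ s_j` bounded
-/

namespace Pool.Agent.MPd164ca

open Complex Set Filter Topology Finset

/-- the quadratic bound for `(1 + w) e^{-w} - 1` -/
theorem lim1_quad {w : ℂ} {R : ℝ} (hw : ‖w‖ ≤ R) :
    ‖(1 + w) * cexp (-w) - 1‖ ≤ ((1 + R) * Real.exp R + 1) * ‖w‖ ^ 2 := by
  have h1 := norm_exp_sub_sum_le_norm_mul_exp (-w) 2
  have h2 : ∑ m ∈ range 2, (-w) ^ m / (m.factorial : ℂ) = 1 - w := by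
    simp [Finset.sum_range_succ]; ring
  rw [h2, norm_neg] at h1
  have h3 : (1 + w) * cexp (-w) - 1 = (1 + w) * (cexp (-w) - (1 - w)) - w ^ 2 := by ring
  have h0 : 0 ≤ ‖w‖ := norm_nonneg w
  have h4 : ‖1 + w‖ ≤ 1 + R := by
    calc ‖1 + w‖ ≤ ‖(1 : ℂ)‖ + ‖w‖ := norm_add_le _ _
      _ ≤ 1 + R := by simpa using hw
  have h5 : Real.exp ‖w‖ ≤ Real.exp R := Real.exp_le_exp.2 hw
  rw [h3]
  calc ‖(1 + w) * (cexp (-w) - (1 - w)) - w ^ 2‖
      ≤ ‖(1 + w) * (cexp (-w) - (1 - w))‖ + ‖w ^ 2‖ := norm_sub_le _ _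
    _ = ‖1 + w‖ * ‖cexp (-w) - (1 - w)‖ + ‖w‖ ^ 2 := by rw [norm_mul, norm_pow]
    _ ≤ (1 + R) * (‖w‖ ^ 2 * Real.exp R) + ‖w‖ ^ 2 := by
        have : ‖cexp (-w) - (1 - w)‖ ≤ ‖w‖ ^ 2 * Real.exp R :=
          h1.trans (mul_le_mul_of_nonneg_left h5 (by positivity))
        have hR : 0 ≤ 1 + R := le_trans (norm_nonneg _) h4
        have := mul_le_mul h4 this (norm_nonneg _) hR
        linarith
    _ = ((1 + R) * Real.exp R + 1) * ‖w‖ ^ 2 := by ring

/-- Compactness of the class of products. -/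
theorem prod_limit {s : ℕ → ℕ → ℝ} (hanti : ∀ n, Antitone (s n)) (h0 : ∀ n j, 0 ≤ s n j)
    (hz : ∀ n j, n ≤ j → s n j = 0) {B : ℝ} (hB : ∀ n, ∑ j ∈ range n, s n j ≤ B) :
    ∃ (σ : ℝ) (t : ℕ → ℝ) (l : Filter ℕ), l.NeBot ∧ l ≤ atTop ∧ 0 ≤ σ ∧ (∀ j, 0 ≤ t j) ∧ Summable t ∧
      ∀ z : ℂ, Tendsto (fun n => ∏ j ∈ range n, (1 + (s n j : ℂ) * z)) l
        (𝓝 (cexp (σ * z) * ∏' j, (1 + (t j : ℂ) * z))) := by
  -- bounds
  have hB0 : 0 ≤ B := by simpa using hB 0
  have hle : ∀ n j, s n j ≤ B / (j + 1) := by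
    intro n j
    rw [le_div_iff₀ (by positivity)]
    rcases lt_or_ge j n with hj | hj
    · calc s n j * (j + 1) = ∑ i ∈ range (j + 1), s n j := by
            rw [Finset.sum_const, card_range, nsmul_eq_mul]; push_cast; ring
        _ ≤ ∑ i ∈ range (j + 1), s n i :=
            Finset.sum_le_sum fun i hi => hanti n (Nat.lt_succ_iff.1 (Finset.mem_range.1 hi))
        _ ≤ ∑ i ∈ range n, s n i :=
            Finset.sum_le_sum_of_subset_of_nonneg (by
              intro i hi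
              simp only [Finset.mem_range] at hi ⊢
              omega) fun i _ _ => h0 n i
        _ ≤ B := hB n
    · rw [hz n j hj]; simpa using hB0
  have hleB : ∀ n j, s n j ≤ B := fun n j => (hle n j).trans (by
    apply div_le_self hB0
    have : (0 : ℝ) ≤ j := Nat.cast_nonneg j
    linarith)
  let l : Filter ℕ := (hyperfilter ℕ : Filter ℕ)
  have hl : l ≤ atTop := Nat.hyperfilter_le_atTop
  have : l.NeBot := inferInstanceAs (hyperfilter ℕ : Filter ℕ).NeBot
  have hcomp : ∀ u : ℕ → ℝ, (∀ n, 0 ≤ u n) → (∀ n, u n ≤ B) → ∃ a, 0 ≤ a ∧ Tendsto u l (𝓝 a) := by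
    intro u hu0 huB
    have hK : IsCompact (Set.Icc (0 : ℝ) B) := isCompact_Icc
    have : ((hyperfilter ℕ).map u : Filter ℝ) ≤ 𝓟 (Set.Icc 0 B) := by
      rw [Ultrafilter.coe_map, Filter.le_principal_iff, Filter.mem_map]
      exact Filter.univ_mem' fun n => ⟨hu0 n, huB n⟩
    obtain ⟨a, ha, hle⟩ := hK.ultrafilter_le_nhds ((hyperfilter ℕ).map u) this
    exact ⟨a, ha.1, hle⟩
  choose t ht0 htl using fun j => hcomp (fun n => s n j) (fun n => h0 n j) (fun n => hleB n j)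
  obtain ⟨S, hS0, hSl⟩ := hcomp (fun n => ∑ j ∈ range n, s n j)
    (fun n => Finset.sum_nonneg fun j _ => h0 n j) hB
  have hpart : ∀ J, ∑ j ∈ range J, t j ≤ S := by
    intro J
    have h1 : Tendsto (fun n => ∑ j ∈ range J, s n j) l (𝓝 (∑ j ∈ range J, t j)) :=
      tendsto_finsetSum _ fun j _ => htl j
    refine le_of_tendsto_of_tendsto h1 hSl ?_
    filter_upwards [hl (eventually_ge_atTop J)] with n hn
    exact Finset.sum_le_sum_of_subset_of_nonneg (by
              intro i hi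
              simp only [Finset.mem_range] at hi ⊢
              omega) fun i _ _ => h0 n i
  have htsum : Summable t := summable_of_sum_range_le ht0 hpart
  have htS : ∑' j, t j ≤ S := htsum.tsum_le_of_sum_range_le hpart
  refine ⟨S - ∑' j, t j, t, l, inferInstance, hl, sub_nonneg.2 htS, ht0, htsum, fun z => ?_⟩
  -- products
  set R : ℝ := B * ‖z‖ with hR
  set K : ℝ := (1 + R) * Real.exp R + 1 with hK
  have hR0 : 0 ≤ R := mul_nonneg hB0 (norm_nonneg z)
  have hK0 : 0 ≤ K := by positivity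
  have hdom := tendsto_tprod_one_add_of_dominated_convergence (𝓕 := l)
    (f := fun n j => (1 + (s n j : ℂ) * z) * cexp (-((s n j : ℂ) * z)) - 1)
    (g := fun j => (1 + (t j : ℂ) * z) * cexp (-((t j : ℂ) * z)) - 1)
    (bound := fun j => K * (R ^ 2 * (1 / ((j : ℝ) + 1) ^ 2))) (by
      apply Summable.mul_left
      apply Summable.mul_left
      have := (summable_nat_add_iff 1).2 (Real.summable_one_div_nat_pow.2 (one_lt_two))
      simpa using this) (by
      intro j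
      have h1 : Tendsto (fun n => ((s n j : ℝ) : ℂ)) l (𝓝 (t j : ℂ)) :=
        (Complex.continuous_ofReal.tendsto _).comp (htl j)
      have h2 : Tendsto (fun n => ((s n j : ℝ) : ℂ) * z) l (𝓝 ((t j : ℂ) * z)) := h1.mul_const z
      exact (((tendsto_const_nhds.add h2).mul
        ((Complex.continuous_exp.tendsto _).comp h2.neg)).sub tendsto_const_nhds)) (by
      refine Filter.Eventually.of_forall fun n j => ?_
      have hn : ‖(s n j : ℂ) * z‖ ≤ R * (1 / ((j : ℝ) + 1)) := by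
        rw [norm_mul, Complex.norm_real, Real.norm_of_nonneg (h0 n j), hR]
        calc s n j * ‖z‖ ≤ (B / (j + 1)) * ‖z‖ :=
              mul_le_mul_of_nonneg_right (hle n j) (norm_nonneg z)
          _ = B * ‖z‖ * (1 / ((j : ℝ) + 1)) := by ring
      have hn' : ‖(s n j : ℂ) * z‖ ≤ R := hn.trans (by
        apply mul_le_of_le_one_right hR0
        rw [div_le_one (by positivity)]
        have : (0 : ℝ) ≤ j := Nat.cast_nonneg j
        linarith)
      refine (lim1_quad hn').trans ?_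
      refine mul_le_mul_of_nonneg_left ?_ hK0
      calc ‖(s n j : ℂ) * z‖ ^ 2 ≤ (R * (1 / ((j : ℝ) + 1))) ^ 2 :=
            pow_le_pow_left₀ (norm_nonneg _) hn 2
        _ = R ^ 2 * (1 / ((j : ℝ) + 1) ^ 2) := by rw [mul_pow, div_pow, one_pow])
  -- the exponential factor
  have hexp : Tendsto (fun n => cexp (((∑ j ∈ range n, s n j : ℝ) : ℂ) * z)) l (𝓝 (cexp ((S : ℂ) * z))) :=
    (Complex.continuous_exp.tendsto _).comp
      (((Complex.continuous_ofReal.tendsto _).comp hSl).mul_const z)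
  have hmul := hexp.mul hdom
  have hsz : Summable fun j => (t j : ℂ) * z :=
    ((Complex.hasSum_ofReal.2 htsum.hasSum).summable).mul_right z
  have hsz' : Summable fun j => ‖(t j : ℂ) * z‖ := by
    have : (fun j => ‖(t j : ℂ) * z‖) = fun j => t j * ‖z‖ := by
      funext j
      rw [norm_mul, Complex.norm_real, Real.norm_of_nonneg (ht0 j)]
    rw [this]
    exact htsum.mul_right _
  have hP1 : Multipliable fun j => 1 + (t j : ℂ) * z := multipliable_one_add_of_summable hsz'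
  have hE : HasProd (fun j => cexp (-((t j : ℂ) * z))) (cexp (-((∑' j, t j : ℝ) : ℂ) * z)) := by
    have h1 : HasSum (fun j => -((t j : ℂ) * z)) (-((∑' j, t j : ℝ) : ℂ) * z) := by
      have := ((Complex.hasSum_ofReal.2 htsum.hasSum).mul_right z).neg
      simpa [neg_mul] using this
    exact h1.cexp
  have hlim : cexp ((S : ℂ) * z) * ∏' j, (1 + ((1 + (t j : ℂ) * z) * cexp (-((t j : ℂ) * z)) - 1)) =
      cexp (((S - ∑' j, t j : ℝ) : ℂ) * z) * ∏' j, (1 + (t j : ℂ) * z) := by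
    have h1 : (fun j => 1 + ((1 + (t j : ℂ) * z) * cexp (-((t j : ℂ) * z)) - 1)) =
        fun j => (1 + (t j : ℂ) * z) * cexp (-((t j : ℂ) * z)) := by
      funext j; ring
    rw [h1, hP1.tprod_mul hE.multipliable, hE.tprod_eq]
    have h2 : cexp (((S - ∑' j, t j : ℝ) : ℂ) * z) = cexp ((S : ℂ) * z) * cexp (-((∑' j, t j : ℝ) : ℂ) * z) := by
      rw [← Complex.exp_add]
      congr 1
      rw [Complex.ofReal_sub]; ring
    rw [h2]; ring
  rw [← hlim]
  refine hmul.congr fun n => ?_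
  have hfin : ∏' j, (1 + ((1 + (s n j : ℂ) * z) * cexp (-((s n j : ℂ) * z)) - 1)) =
      ∏ j ∈ range n, (1 + ((1 + (s n j : ℂ) * z) * cexp (-((s n j : ℂ) * z)) - 1)) := by
    apply tprod_eq_prod
    intro j hj
    rw [hz n j (by simpa using hj)]
    simp
  rw [hfin]
  have h3 : ∀ j ∈ range n, (1 + ((1 + (s n j : ℂ) * z) * cexp (-((s n j : ℂ) * z)) - 1)) =
      (1 + (s n j : ℂ) * z) * cexp (-((s n j : ℂ) * z)) := fun j _ => by ring
  rw [Finset.prod_congr rfl h3, Finset.prod_mul_distrib, ← Complex.exp_sum]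
  have h4 : cexp (((∑ j ∈ range n, s n j : ℝ) : ℂ) * z) * cexp (∑ j ∈ range n, -((s n j : ℂ) * z)) = 1 := by
    rw [← Complex.exp_add, Complex.ofReal_sum, Finset.sum_mul, ← Finset.sum_add_distrib]
    simp
  calc cexp (((∑ j ∈ range n, s n j : ℝ) : ℂ) * z) *
        ((∏ j ∈ range n, (1 + (s n j : ℂ) * z)) * cexp (∑ j ∈ range n, -((s n j : ℂ) * z)))
      = (∏ j ∈ range n, (1 + (s n j : ℂ) * z)) * (cexp (((∑ j ∈ range n, s n j : ℝ) : ℂ) * z) *
        cexp (∑ j ∈ range n, -((s n j : ℂ) * z))) := by ring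
    _ = _ := by rw [h4, mul_one]

end Pool.Agent.MPd164ca
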