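import Pool.Agent.Lib.MP_d164ca_an.Final

/-!
# MP_d164ca_an, Main
-/

namespace Pool.Agent.MPd164ca

open Complex Set Filter Topology Finset

/-- the zero function -/
theorem repr_zero : ∃ (c σ : ℝ) (m : ℕ) (t b : ℕ → ℝ), 0 < σ ∧ (∀ j, 0 ≤ t j) ∧ Summable t ∧
        (∀ z : ℂ, HasSum (fun j => (b j : ℂ) * z ^ j) (z ^ m * ∏' j, (1 + (t j : ℂ) * z))) ∧
        ∀ z : ℂ, HasSum (fun j : ℕ => (c : ℂ) * (σ : ℂ) ^ z * ((b j : ℂ) * ∏ i ∈ Finset.range j, (z - i)))
            0 := by
  refine ⟨0, 1, 0, fun _ => 0, fun j => if j = 0 then 1 else 0, one_pos, fun _ => le_rfl,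
    summable_zero, fun z => ?_, fun z => ?_⟩
  · have h : (z ^ 0 * ∏' _j : ℕ, (1 + (((0 : ℝ) : ℂ)) * z)) =
        (((if (0 : ℕ) = 0 then (1 : ℝ) else 0 : ℝ) : ℂ)) * z ^ 0 := by simp
    rw [h]
    refine hasSum_single 0 fun j hj => ?_
    simp [hj]
  · simp only [ofReal_zero, zero_mul]
    exact hasSum_zero

/-- necessity -/
theorem necessity {F φ ψ u v : ℂ → ℂ} {A K τ : ℝ}
    (hφ : Differentiable ℂ φ) (hψ : Differentiable ℂ ψ) (hψ0 : ∃ z, ψ z ≠ 0)
    (hF : ∀ z, ψ z ≠ 0 → F z = φ z / ψ z)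
    (hFk : ∀ k : ℕ, AnalyticAt ℂ F k) (hreal : ∀ k : ℕ, (F k).im = 0)
    (hu : DiffContOnCl ℂ u {z | 0 < z.re}) (hv : DiffContOnCl ℂ v {z | 0 < z.re})
    (hv0 : ∃ z : ℂ, 0 < z.re ∧ v z ≠ 0)
    (huv : ∀ z : ℂ, 0 < z.re → ψ z ≠ 0 → F z * v z = u z)
    (huK : ∀ z : ℂ, 0 ≤ z.re → ‖u z‖ ≤ A * Real.exp (K * ‖z‖))
    (hvK : ∀ z : ℂ, 0 ≤ z.re → ‖v z‖ ≤ A * Real.exp (K * ‖z‖))
    (huI : ∀ y : ℝ, ‖u (y * Complex.I)‖ ≤ A * Real.exp (τ * |y|))
    (hvI : ∀ y : ℝ, ‖v (y * Complex.I)‖ ≤ A * Real.exp (τ * |y|))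
    (hτ : τ < Real.pi / 2 ∨ (τ < Real.pi ∧ ∀ k : ℕ, 0 ≤ (F k).re))
    (hdec : (¬ ∀ a : ℝ, ∃ M : ℝ, ∀ k : ℕ, ‖F k‖ ≤ M * Real.exp (-a * k)) ∨
      (Differentiable ℂ u ∧ ∀ z : ℂ, ‖u z‖ ≤ A * Real.exp (K * ‖z‖)))
    (hms : IsMultiplierSequence (fun k => (F k).re)) :
      ∃ (c σ : ℝ) (m : ℕ) (t b : ℕ → ℝ), 0 < σ ∧ (∀ j, 0 ≤ t j) ∧ Summable t ∧
        (∀ z : ℂ, HasSum (fun j => (b j : ℂ) * z ^ j) (z ^ m * ∏' j, (1 + (t j : ℂ) * z))) ∧
        ∀ z, ψ z ≠ 0 →
          HasSum (fun j : ℕ => (c : ℂ) * (σ : ℂ) ^ z * ((b j : ℂ) * ∏ i ∈ Finset.range j, (z - i)))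
            (F z) := by
  have hA : 0 ≤ A := by
    have h := (norm_nonneg _).trans (huI 0)
    simpa using h
  have hcl : closure {z : ℂ | 0 < z.re} = {z : ℂ | 0 ≤ z.re} := by
    rw [Complex.closure_setOfPred_lt_re]
  have huc : ContinuousOn u {z : ℂ | 0 ≤ z.re} := by rw [← hcl]; exact hu.continuousOn
  have hvc : ContinuousOn v {z : ℂ | 0 ≤ z.re} := by rw [← hcl]; exact hv.continuousOn
  set γ : ℕ → ℝ := fun k => (F k).re with hγdef
  have hFγ : ∀ k : ℕ, F k = (γ k : ℂ) := fun k => Complex.ext (by simp [hγdef]) (by simp [hreal k])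
  have hnorm : ∀ k : ℕ, ‖F k‖ = |γ k| := fun k => by rw [hFγ, norm_real, Real.norm_eq_abs]
  have hrel : ∀ k : ℕ, F k * v k = u k := fun k =>
    eq_at_nat hψ hψ0 k (hFk k).continuousAt huc hvc huv
  have hτπ : τ < Real.pi := by
    rcases hτ with h | h
    · linarith [Real.pi_pos]
    · exact h.1
  have hopen : IsOpen {z : ℂ | 0 < z.re} := isOpen_lt continuous_const continuous_re
  -- the open set where `v ≠ 0`
  have hUopen : IsOpen {z : ℂ | 0 < z.re ∧ v z ≠ 0} := by
    exact hv.differentiableOn.continuousOn.isOpen_inter_preimage hopen (isOpen_ne (x := (0 : ℂ)))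
  have hUne : {z : ℂ | 0 < z.re ∧ v z ≠ 0}.Nonempty := hv0
  -- conclusion from `F = E` where `v ≠ 0`
  have hconcl : ∀ E : ℂ → ℂ, Differentiable ℂ E →
      (∀ z : ℂ, 0 < z.re → v z ≠ 0 → ψ z ≠ 0 → F z = E z) → ∀ z, ψ z ≠ 0 → F z = E z := by
    intro E hE h z hz
    have hdiff : Differentiable ℂ fun z => φ z - E z * ψ z := hφ.sub (hE.mul hψ)
    have hzero : ∀ z, φ z - E z * ψ z = 0 := by
      by_contra hcon
      push Not at hcon
      have hne : {z : ℂ | (0 < z.re ∧ v z ≠ 0) ∧ ψ z ≠ 0}.Nonempty := by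
        obtain ⟨w, hw, hw'⟩ := exists_ne_zero hψ hψ0 hUopen hUne
        exact ⟨w, hw, hw'⟩
      have hop : IsOpen {z : ℂ | (0 < z.re ∧ v z ≠ 0) ∧ ψ z ≠ 0} :=
        hUopen.inter (isOpen_ne.preimage hψ.continuous)
      obtain ⟨w, ⟨⟨hw1, hw2⟩, hw3⟩, hw4⟩ := exists_ne_zero hdiff hcon hop hne
      apply hw4
      have h1 := h w hw1 hw2 hw3
      rw [hF w hw3, div_eq_iff hw3] at h1
      rw [h1, sub_self]
    rw [hF z hz, div_eq_iff hz]
    exact sub_eq_zero.1 (hzero z)
  by_cases hss : SuperSmall γ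
  · -- superexponentially small: `u = 0`
    rcases hdec with hdec | ⟨hud, huKe⟩
    · exact absurd (fun a => by
        obtain ⟨M, hM⟩ := hss a
        exact ⟨M, fun k => by rw [hnorm]; exact hM k⟩) hdec
    · have hu0 : ∀ z, u z = 0 := by
        refine entire_small hud hτπ huKe huI fun a => ?_
        obtain ⟨M, hM⟩ := hss (a + |K|)
        have hM0 : 0 ≤ M := by
          have h := (abs_nonneg _).trans (hM 0)
          simpa using h
        refine ⟨M * A, fun n => ?_⟩
        rw [← hrel n, norm_mul, hnorm]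
        calc |γ n| * ‖v n‖ ≤ (M * Real.exp (-(a + |K|) * n)) * (A * Real.exp (K * ‖(n : ℂ)‖)) :=
              mul_le_mul (hM n) (hvK n (by simp)) (norm_nonneg _) (by positivity)
          _ = M * A * Real.exp (-(a + |K|) * n + K * n) := by
              rw [Real.exp_add]; simp; ring
          _ ≤ M * A * Real.exp (-a * n) := by
              have h1 : K * (n : ℝ) ≤ |K| * n :=
                mul_le_mul_of_nonneg_right (le_abs_self K) (Nat.cast_nonneg n)
              have : Real.exp (-(a + |K|) * n + K * n) ≤ Real.exp (-a * n) := by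
                rw [Real.exp_le_exp]; nlinarith
              exact mul_le_mul_of_nonneg_left this (by positivity)
      have hF0 : ∀ z, ψ z ≠ 0 → F z = (fun _ => (0 : ℂ)) z := by
        refine hconcl (fun _ => 0) (differentiable_const _) fun z hz1 hz2 hz3 => ?_
        have h1 := huv z hz1 hz3
        rw [hu0 z] at h1
        exact (mul_eq_zero.1 h1).resolve_right hz2
      obtain ⟨c, σ, m, t, b, h1, h2, h3, h4, h5⟩ := repr_zero
      exact ⟨c, σ, m, t, b, h1, h2, h3, h4, fun z hz => by rw [hF0 z hz]; exact h5 z⟩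
  · obtain ⟨c, σ, ε, m, t, b, hσ, hε, hc, ht, hts, hb, hpos, hrep⟩ := ms_repr hms hss
    have hbs : ∀ ε : ℝ, 0 < ε → ∃ M : ℝ, ∀ j : ℕ, j.factorial * |b j| ≤ M * ε ^ j :=
      fun ε hε => coeff_small ht hts hb hε
    set E : ℂ → ℂ := fun z => (c : ℂ) * (σ : ℂ) ^ z * newton b z with hEdef
    have hEd : Differentiable ℂ E := E_differentiable hbs hσ c
    have hEk : ∀ k : ℕ, (γ k : ℂ) = (ε : ℂ) ^ k * E k := by
      intro k
      rw [hrep k, hEdef]
      simp only [Complex.cpow_natCast]
      ring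
    have huE : ∀ k : ℕ, u k = (ε : ℂ) ^ k * E k * v k := by
      intro k
      rw [← hrel k, hFγ, hEk]
    rcases hε with hε | hε
    · -- constant sign
      obtain ⟨M, hM, hEg⟩ := E_growth hbs hσ c (δ := (Real.pi - τ) / 2) (by linarith)
      obtain ⟨hb1, hb2⟩ := H_bounds huK hvK huI hvI hM (abs_nonneg (Real.log σ))
        (by linarith : 0 < (Real.pi - τ) / 2) hEg 1 (by simp)
      have hH : DiffContOnCl ℂ (fun z => u z - 1 * E z * v z) {z : ℂ | 0 < z.re} :=
        hu.sub ((hEd.diffContOnCl.const_smul (1 : ℂ)).smul hv)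
      have hH0 := carlson hH (c := τ + (Real.pi - τ) / 2) (by linarith) hb1 hb2 (fun n => by
        rw [huE n, hε]; simp)
      have hFE := hconcl E hEd fun z hz1 hz2 hz3 => by
        have h1 := huv z hz1 hz3
        have h2 := hH0 z hz1.le
        simp only [one_mul] at h2
        rw [← h1, ← sub_mul] at h2
        exact sub_eq_zero.1 ((mul_eq_zero.1 h2).resolve_right hz2)
      refine ⟨c, σ, m, t, b, hσ, ht, hts, hb, fun z hz => ?_⟩
      rw [hFE z hz]
      exact (newton_summable hbs z).of_norm.hasSum.mul_left _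
    · -- alternating sign
      exfalso
      rcases hτ with hτ2 | ⟨-, hFpos⟩
      · obtain ⟨M, hM, hEg⟩ := E_growth hbs hσ c (δ := (Real.pi / 2 - τ) / 2) (by linarith)
        have hkey : ∀ s : ℂ, ‖s‖ ≤ 1 → ∀ a : ℕ,
            (∀ n : ℕ, u (2 * n + a) - s * E (2 * n + a) * v (2 * n + a) = 0) →
            ∀ z : ℂ, 0 ≤ z.re → u (2 * z + a) - s * E (2 * z + a) * v (2 * z + a) = 0 := by
          intro s hs a hzero
          obtain ⟨hb1, hb2⟩ := H_bounds huK hvK huI hvI hM (abs_nonneg (Real.log σ))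
            (by linarith : 0 < (Real.pi / 2 - τ) / 2) hEg s hs
          have hH : DiffContOnCl ℂ (fun z => u z - s * E z * v z) {z : ℂ | 0 < z.re} :=
            hu.sub ((hEd.diffContOnCl.const_smul s).smul hv)
          have hb3 := rhp_bound hH hb1 hb2
          set K1 : ℝ := |K| + |Real.log σ| + (Real.pi / 2 - τ) / 2 with hK1
          have hK1pos : 0 ≤ K1 := by
            have h1 := abs_nonneg K
            have h2 := abs_nonneg (Real.log σ)
            have h3 : 0 < (Real.pi / 2 - τ) / 2 := by linarith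
            linarith
          have hre : ∀ z : ℂ, (2 * z + (a : ℂ)).re = 2 * z.re + a := fun z => by simp
          have him : ∀ z : ℂ, (2 * z + (a : ℂ)).im = 2 * z.im := fun z => by simp
          have hmaps : MapsTo (fun z : ℂ => 2 * z + (a : ℂ)) {z : ℂ | 0 < z.re} {z : ℂ | 0 < z.re} := by
            intro z hz
            have hz' : 0 < z.re := hz
            show 0 < (2 * z + (a : ℂ)).re
            rw [hre]; positivity
          have hcomp : DiffContOnCl ℂ (fun z => u (2 * z + a) - s * E (2 * z + a) * v (2 * z + a))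
              {z : ℂ | 0 < z.re} := by
            have hlin : DiffContOnCl ℂ (fun z : ℂ => 2 * z + (a : ℂ)) {z : ℂ | 0 < z.re} :=
              (by fun_prop : Differentiable ℂ fun z : ℂ => 2 * z + (a : ℂ)).diffContOnCl
            exact hH.comp hlin hmaps
          set C1 : ℝ := A + M * A with hC1
          have hC1pos : 0 ≤ C1 := by positivity
          refine carlson hcomp (C := C1 * Real.exp (K1 * a)) (K := 2 * K1 + 2 * |τ + (Real.pi / 2 - τ) / 2|)
            (c := 2 * (τ + (Real.pi / 2 - τ) / 2)) (by linarith) ?_ ?_ hzero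
          · intro z hz
            have h1 : 0 ≤ (2 * z + (a : ℂ)).re := by rw [hre]; positivity
            refine (hb3 _ h1).trans ?_
            rw [hre, him, mul_assoc, ← Real.exp_add]
            refine mul_le_mul_of_nonneg_left (Real.exp_le_exp.2 ?_) hC1pos
            have h2 : |z.im| ≤ ‖z‖ := abs_im_le_norm z
            have h3 : z.re ≤ ‖z‖ := (le_abs_self _).trans (abs_re_le_norm z)
            have h4 : |2 * z.im| = 2 * |z.im| := by rw [abs_mul]; norm_num
            have h5 : (τ + (Real.pi / 2 - τ) / 2) * (2 * |z.im|) ≤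
                |τ + (Real.pi / 2 - τ) / 2| * (2 * ‖z‖) :=
              mul_le_mul (le_abs_self _) (by linarith) (by positivity) (abs_nonneg _)
            have h6 : K1 * z.re ≤ K1 * ‖z‖ := mul_le_mul_of_nonneg_left h3 hK1pos
            rw [h4]
            nlinarith
          · intro y
            have h1 : 0 ≤ (2 * ((y : ℂ) * Complex.I) + (a : ℂ)).re := by rw [hre]; simp
            refine (hb3 _ h1).trans (le_of_eq ?_)
            rw [hre, him, mul_assoc, ← Real.exp_add]
            have h4 : |2 * ((y : ℂ) * Complex.I).im| = 2 * |y| := by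
              rw [abs_mul]; simp
            rw [h4]
            congr 2
            simp
            ring
        have hE0 : ∀ z : ℂ, 0 ≤ z.re → u (2 * z) - E (2 * z) * v (2 * z) = 0 := by
          have := hkey 1 (by simp) 0 (fun n => by
            have h1 := huE (2 * n)
            push_cast at h1
            simp only [Nat.cast_zero, add_zero, one_mul]
            rw [h1, hε]
            have : (((-1 : ℝ) : ℂ)) ^ (2 * n) = 1 := by rw [pow_mul]; norm_num
            rw [this, one_mul, sub_self])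
          simpa using this
        have hE1 : ∀ z : ℂ, 0 ≤ z.re → u (2 * z + 1) + E (2 * z + 1) * v (2 * z + 1) = 0 := by
          have := hkey (-1) (by simp) 1 (fun n => by
            have h1 := huE (2 * n + 1)
            push_cast at h1
            simp only [Nat.cast_one]
            rw [h1, hε]
            have : (((-1 : ℝ) : ℂ)) ^ (2 * n + 1) = -1 := by
              rw [pow_succ, pow_mul]; norm_num
            rw [this]; ring)
          intro z hz
          have h2 := this z hz
          simp only [Nat.cast_one] at h2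
          rw [← h2]; ring
        -- `E v = 0` for `re z > 1`
        have hEv : ∀ z : ℂ, 1 < z.re → E z * v z = 0 := by
          intro z hz
          have h1 := hE0 (z / 2) (by
            have : (z / 2).re = z.re / 2 := by simp
            rw [this]; linarith)
          have h2 := hE1 ((z - 1) / 2) (by
            have : ((z - 1) / 2).re = (z.re - 1) / 2 := by simp
            rw [this]; linarith)
          have e1 : 2 * (z / 2) = z := by ring
          have e2 : 2 * ((z - 1) / 2) + 1 = z := by ring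
          rw [e1] at h1
          rw [e2] at h2
          have h3 : 2 * (E z * v z) = 0 := by linear_combination h2 - h1
          simpa using h3
        have hEne : ∃ z, E z ≠ 0 := by
          refine ⟨m, fun h0 => ?_⟩
          have h1 := hpos m le_rfl
          have h2 := hEk m
          rw [h0, mul_zero] at h2
          have h3 : γ m = 0 := by exact_mod_cast h2
          rw [h3] at h1
          simp at h1
        -- `v = 0` on the open set `re z > 1`, `E z ≠ 0`
        have hop1 : IsOpen {z : ℂ | 1 < z.re ∧ E z ≠ 0} :=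
          (isOpen_lt continuous_const continuous_re).inter (isOpen_ne.preimage hEd.continuous)
        have hne1 : {z : ℂ | 1 < z.re ∧ E z ≠ 0}.Nonempty := by
          obtain ⟨w, hw, hw'⟩ := exists_ne_zero hEd hEne
            (U := {z : ℂ | 1 < z.re}) (isOpen_lt continuous_const continuous_re) ⟨2, by simp⟩
          exact ⟨w, hw, hw'⟩
        have hv00 := zero_of_zero_on hv hop1 (fun z hz => by
          have h1 : 1 < z.re := hz.1
          show 0 < z.re
          linarith) hne1 (fun z hz => (mul_eq_zero.1 (hEv z hz.1)).resolve_left hz.2)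
        obtain ⟨z, hz1, hz2⟩ := hv0
        exact hz2 (hv00 z hz1)
      · have h1 := hpos m le_rfl
        have h2 := hpos (m + 1) (by omega)
        have h3 : 0 < (ε ^ m * γ m / c) * (ε ^ (m + 1) * γ (m + 1) / c) := mul_pos h1 h2
        have h4 : (ε ^ m * γ m / c) * (ε ^ (m + 1) * γ (m + 1) / c) =
            (ε ^ m * ε ^ m) * ε * (γ m * γ (m + 1)) / (c * c) := by
          rw [pow_succ]; field_simp
        have h5 : ε ^ m * ε ^ m = 1 := by rw [← mul_pow, hε]; norm_num
        rw [h4, h5, hε] at h3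
        have h6 : 0 < c * c := mul_self_pos.2 hc
        have h7 : 0 ≤ γ m * γ (m + 1) := mul_nonneg (hFpos m) (hFpos (m + 1))
        have h8 : 1 * (-1) * (γ m * γ (m + 1)) / (c * c) ≤ 0 :=
          div_nonpos_of_nonpos_of_nonneg (by linarith) h6.le
        linarith

/-- sufficiency -/
theorem sufficiency {F ψ : ℂ → ℂ} (hψ : Differentiable ℂ ψ) (hψ0 : ∃ z, ψ z ≠ 0)
    (hFk : ∀ k : ℕ, AnalyticAt ℂ F k)
    {c σ : ℝ} {m : ℕ} {t b : ℕ → ℝ} (hσ : 0 < σ) (ht : ∀ j, 0 ≤ t j) (hts : Summable t)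
    (hb : ∀ z : ℂ, HasSum (fun j => (b j : ℂ) * z ^ j) (z ^ m * ∏' j, (1 + (t j : ℂ) * z)))
    (hFE : ∀ z, ψ z ≠ 0 →
          HasSum (fun j : ℕ => (c : ℂ) * (σ : ℂ) ^ z * ((b j : ℂ) * ∏ i ∈ Finset.range j, (z - i)))
            (F z)) :
    IsMultiplierSequence (fun k => (F k).re) := by
  have hbs : ∀ ε : ℝ, 0 < ε → ∃ M : ℝ, ∀ j : ℕ, j.factorial * |b j| ≤ M * ε ^ j :=
    fun ε hε => coeff_small ht hts hb hε
  set E : ℂ → ℂ := fun z => (c : ℂ) * (σ : ℂ) ^ z * newton b z with hEdef
  have hEd : Differentiable ℂ E := E_differentiable hbs hσ c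
  have hFE' : ∀ z : ℂ, ψ z ≠ 0 → F z = E z := fun z hz =>
    (hFE z hz).unique ((newton_summable hbs z).of_norm.hasSum.mul_left _)
  have hk : ∀ k : ℕ, F k = E k := by
    intro k
    have := eq_at_nat (F := F) (u := E) (w := fun _ => 1) hψ hψ0 k (hFk k).continuousAt
      hEd.continuous.continuousOn continuousOn_const (fun z _ hz => by rw [mul_one]; exact hFE' z hz)
    simpa using this
  have hval : (fun k : ℕ => (F k).re) = fun k =>
      c * σ ^ k * ∑ j ∈ Finset.range (k + 1), b j * (k.descFactorial j : ℝ) := by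
    funext k
    rw [hk k, hEdef]
    simp only [newton_nat, Complex.cpow_natCast]
    rw [← ofReal_pow, ← ofReal_mul, ← ofReal_mul, ofReal_re]
  rw [hval]
  exact ms_geom (ms_newton ht hts hb) c hσ

end Pool.Agent.MPd164ca
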