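import Mathlib

namespace Pool.Agent.MPd164ca

open Complex Set Filter Topology Finset

/-- Cauchy estimate for the coefficients of an everywhere convergent power series -/
theorem newt1_coef_bound {F : ℂ → ℂ} {b : ℕ → ℝ}
    (hb : ∀ z : ℂ, HasSum (fun j => (b j : ℂ) * z ^ j) (F z)) {r A : ℝ} (hr : 0 < r)
    (hA : ∀ z : ℂ, ‖z‖ = r → ‖F z‖ ≤ A) (j : ℕ) : |b j| ≤ A / r ^ j := by
  set p : FormalMultilinearSeries ℂ ℂ ℂ :=
    FormalMultilinearSeries.ofScalars ℂ (fun j => (b j : ℂ)) with hp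
  have hpn : ∀ n, ‖p n‖ = |b n| := by
    intro n
    rw [hp, FormalMultilinearSeries.ofScalars_norm, Complex.norm_real, Real.norm_eq_abs]
  have hrad : p.radius = ⊤ := by
    apply FormalMultilinearSeries.radius_eq_top_of_summable_norm
    intro s
    have h1 := (hb ((s : ℝ) : ℂ)).summable.norm
    refine h1.congr fun n => ?_
    rw [hpn, norm_mul, norm_pow, Complex.norm_real, Complex.norm_real, Real.norm_eq_abs,
      Real.norm_eq_abs, abs_of_nonneg s.coe_nonneg]
  have hball : HasFPowerSeriesOnBall F p 0 ⊤ := by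
    refine ⟨by rw [hrad], ENNReal.zero_lt_top, ?_⟩
    intro y _
    rw [zero_add]
    have h2 := hb y
    rw [hp, FormalMultilinearSeries.ofScalars_apply_eq']
    simpa only [smul_eq_mul] using h2
  have hdiff : Differentiable ℂ F := by
    have := hball.differentiableOn
    intro z
    exact (this z (by simp)).differentiableAt (by simp)
  lift r to NNReal using hr.le
  have hr' : 0 < r := by exact_mod_cast hr
  have hc : HasFPowerSeriesOnBall F (cauchyPowerSeries F 0 r) 0 r :=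
    hdiff.differentiableOn.hasFPowerSeriesOnBall hr'
  have heq : p = cauchyPowerSeries F 0 r :=
    hball.hasFPowerSeriesAt.eq_formalMultilinearSeries hc.hasFPowerSeriesAt
  rw [← hpn, heq]
  refine (norm_cauchyPowerSeries_le F 0 r j).trans ?_
  rw [abs_of_pos hr, div_eq_mul_inv, inv_pow]
  refine mul_le_mul_of_nonneg_right ?_ (by positivity)
  have hint : ∫ θ : ℝ in 0..2 * Real.pi, ‖F (circleMap 0 r θ)‖ ≤
      ∫ θ : ℝ in 0..2 * Real.pi, A := by
    apply intervalIntegral.integral_mono_on (by positivity)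
    · apply Continuous.intervalIntegrable
      exact (hdiff.continuous.comp (continuous_circleMap 0 r)).norm
    · exact _root_.intervalIntegrable_const
    · intro θ _
      apply hA
      simp [circleMap]
  rw [intervalIntegral.integral_const, smul_eq_mul, sub_zero] at hint
  have h2 : (2 * Real.pi)⁻¹ * ∫ θ : ℝ in 0..2 * Real.pi, ‖F (circleMap 0 r θ)‖ ≤
      (2 * Real.pi)⁻¹ * (2 * Real.pi * A) := mul_le_mul_of_nonneg_left hint (by positivity)
  rwa [← mul_assoc, inv_mul_cancel₀ (by positivity), one_mul] at h2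

theorem newt1_mult {t : ℕ → ℝ} (hs : Summable t) (ht : ∀ j, 0 ≤ t j) (z : ℂ) :
    Multipliable fun j => (1 + (t j : ℂ) * z) := by
  apply multipliable_one_add_of_summable
  have : (fun j => ‖(t j : ℂ) * z‖) = fun j => t j * ‖z‖ := by
    funext j
    rw [norm_mul, Complex.norm_real, Real.norm_of_nonneg (ht j)]
  rw [this]
  exact hs.mul_right _

/-- `∏ (1 + t_j z)` has exponential type zero -/
theorem prod_growth {t : ℕ → ℝ} (ht : ∀ j, 0 ≤ t j) (hs : Summable t) {δ : ℝ} (hδ : 0 < δ) :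
    ∃ M : ℝ, ∀ z : ℂ, ‖∏' j, (1 + (t j : ℂ) * z)‖ ≤ M * Real.exp (δ * ‖z‖) := by
  -- a cut
  obtain ⟨n, hn⟩ : ∃ n : ℕ, ∀ N, ∑ j ∈ Finset.Ico n N, t j ≤ δ / 2 := by
    have h1 := (tendsto_order.1 hs.hasSum.tendsto_sum_nat).1 (∑' j, t j - δ / 2) (by linarith)
    obtain ⟨n, hn⟩ := h1.exists
    refine ⟨n, fun N => ?_⟩
    rcases le_total n N with h | h
    · have h2 : ∑ j ∈ range N, t j ≤ ∑' j, t j := hs.sum_le_tsum _ (fun j _ => ht j)
      have h3 := Finset.sum_range_add_sum_Ico t h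
      linarith
    · rw [Finset.Ico_eq_empty_of_le h, Finset.sum_empty]; positivity
  set δ' : ℝ := δ / (2 * (n + 1)) with hδ'
  have hδ'pos : 0 < δ' := by positivity
  refine ⟨∏ j ∈ range n, (1 + t j / δ'), fun z => ?_⟩
  have hz := norm_nonneg z
  have hfac : ∀ j, ‖(1 + (t j : ℂ) * z)‖ ≤ 1 + t j * ‖z‖ := by
    intro j
    refine (norm_add_le _ _).trans ?_
    rw [norm_one, norm_mul, Complex.norm_real, Real.norm_of_nonneg (ht j)]
  have hbound : ∀ N, n ≤ N → ‖∏ j ∈ range N, (1 + (t j : ℂ) * z)‖ ≤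
      (∏ j ∈ range n, (1 + t j / δ')) * Real.exp (δ * ‖z‖) := by
    intro N hN
    rw [norm_prod, ← Finset.prod_range_mul_prod_Ico _ hN]
    have h1 : ∏ j ∈ range n, ‖(1 + (t j : ℂ) * z)‖ ≤
        ∏ j ∈ range n, ((1 + t j / δ') * Real.exp (δ' * ‖z‖)) := by
      apply Finset.prod_le_prod (fun j _ => norm_nonneg _)
      intro j _
      refine (hfac j).trans ?_
      have h2 : 1 ≤ Real.exp (δ' * ‖z‖) := Real.one_le_exp (by positivity)
      have h3 : δ' * ‖z‖ ≤ Real.exp (δ' * ‖z‖) := by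
        have := Real.add_one_le_exp (δ' * ‖z‖); linarith
      have h4 : t j * ‖z‖ ≤ t j / δ' * Real.exp (δ' * ‖z‖) := by
        have : t j * ‖z‖ = t j / δ' * (δ' * ‖z‖) := by field_simp
        rw [this]
        exact mul_le_mul_of_nonneg_left h3 (div_nonneg (ht j) hδ'pos.le)
      linarith
    have h2 : ∏ j ∈ Finset.Ico n N, ‖(1 + (t j : ℂ) * z)‖ ≤ Real.exp (δ / 2 * ‖z‖) := by
      calc ∏ j ∈ Finset.Ico n N, ‖(1 + (t j : ℂ) * z)‖
          ≤ ∏ j ∈ Finset.Ico n N, Real.exp (t j * ‖z‖) := by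
            apply Finset.prod_le_prod (fun j _ => norm_nonneg _)
            intro j _
            refine (hfac j).trans ?_
            have := Real.add_one_le_exp (t j * ‖z‖); linarith
        _ = Real.exp ((∑ j ∈ Finset.Ico n N, t j) * ‖z‖) := by
            rw [← Real.exp_sum, Finset.sum_mul]
        _ ≤ Real.exp (δ / 2 * ‖z‖) :=
            Real.exp_le_exp.2 (mul_le_mul_of_nonneg_right (hn N) hz)
    have h3 : (∏ j ∈ range n, ((1 + t j / δ') * Real.exp (δ' * ‖z‖))) * Real.exp (δ / 2 * ‖z‖) ≤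
        (∏ j ∈ range n, (1 + t j / δ')) * Real.exp (δ * ‖z‖) := by
      rw [Finset.prod_mul_distrib, Finset.prod_const, Finset.card_range, mul_assoc]
      apply mul_le_mul_of_nonneg_left _ (Finset.prod_nonneg fun j _ => by
        have := div_nonneg (ht j) hδ'pos.le; linarith)
      rw [← Real.exp_nat_mul, ← Real.exp_add]
      apply Real.exp_le_exp.2
      have h4 : (n : ℝ) * δ' ≤ δ / 2 := by
        rw [hδ', mul_div_assoc', div_le_div_iff₀ (by positivity) (by positivity)]
        nlinarith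
      nlinarith [mul_le_mul_of_nonneg_right h4 hz]
    exact (mul_le_mul h1 h2 (Finset.prod_nonneg fun j _ => norm_nonneg _)
      (Finset.prod_nonneg fun j _ => by
        have := div_nonneg (ht j) hδ'pos.le
        positivity)).trans h3
  have hlim := (newt1_mult hs ht z).hasProd.tendsto_prod_nat.norm
  exact le_of_tendsto hlim (eventually_atTop.2 ⟨n, hbound⟩)

/-- `∏ (1 + t_j z)` is entire and its coefficients are small.
(Cauchy estimates `|b_j| r^j ≤ M exp (δ r)` with `r = j / δ`, `j! ≤ j^j`.) -/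
theorem coeff_small {m : ℕ} {t b : ℕ → ℝ} (ht : ∀ j, 0 ≤ t j) (hs : Summable t)
    (hb : ∀ z : ℂ, HasSum (fun j => (b j : ℂ) * z ^ j) (z ^ m * ∏' j, (1 + (t j : ℂ) * z)))
    {ε : ℝ} (hε : 0 < ε) : ∃ M : ℝ, ∀ j : ℕ, j.factorial * |b j| ≤ M * ε ^ j := by
  set δ : ℝ := ε / (2 * Real.exp 1) with hδ
  have he : 0 < Real.exp 1 := Real.exp_pos 1
  have hδpos : 0 < δ := by positivity
  obtain ⟨M, hM⟩ := prod_growth ht hs hδpos
  have hM0 : 0 ≤ M := by
    have := (norm_nonneg _).trans (hM 0)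
    simpa using this
  -- growth of z ^ m P z
  set M' : ℝ := M * (m.factorial / δ ^ m) with hM'
  have hM'0 : 0 ≤ M' := by positivity
  have hgr : ∀ z : ℂ, ‖z ^ m * ∏' j, (1 + (t j : ℂ) * z)‖ ≤ M' * Real.exp (2 * δ * ‖z‖) := by
    intro z
    rw [norm_mul, norm_pow]
    have h1 : ‖z‖ ^ m ≤ m.factorial / δ ^ m * Real.exp (δ * ‖z‖) := by
      have h2 := Real.pow_div_factorial_le_exp (δ * ‖z‖) (by positivity) m
      rw [mul_pow, div_le_iff₀ (by positivity)] at h2
      rw [div_mul_eq_mul_div, le_div_iff₀ (by positivity)]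
      linarith
    calc ‖z‖ ^ m * ‖∏' j, (1 + (t j : ℂ) * z)‖
        ≤ (m.factorial / δ ^ m * Real.exp (δ * ‖z‖)) * (M * Real.exp (δ * ‖z‖)) :=
          mul_le_mul h1 (hM z) (norm_nonneg _) (by positivity)
      _ = M' * (Real.exp (δ * ‖z‖) * Real.exp (δ * ‖z‖)) := by rw [hM']; ring
      _ = M' * Real.exp (2 * δ * ‖z‖) := by rw [← Real.exp_add]; ring_nf
  refine ⟨M' + |b 0|, fun j => ?_⟩
  rcases Nat.eq_zero_or_pos j with rfl | hj
  · simp; linarith
  have hjr : (0 : ℝ) < j := by exact_mod_cast hj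
  set r : ℝ := j / (2 * δ) with hr
  have hrpos : 0 < r := by positivity
  have hcb := newt1_coef_bound hb hrpos (A := M' * Real.exp (2 * δ * r)) (fun z hz => by
    have := hgr z
    rwa [hz] at this) j
  have h1 : 2 * δ * r = j := by rw [hr]; field_simp
  rw [h1] at hcb
  have h2 : r ^ j = (j : ℝ) ^ j / (2 * δ) ^ j := by rw [hr, div_pow]
  have h3 : (j.factorial : ℝ) ≤ (j : ℝ) ^ j := by exact_mod_cast Nat.factorial_le_pow j
  have h4 : Real.exp j * (2 * δ) ^ j = ε ^ j := by
    have : Real.exp (j : ℝ) = Real.exp 1 ^ j := by rw [← Real.exp_nat_mul, mul_one]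
    rw [this, ← mul_pow, hδ]
    congr 1
    field_simp
  calc (j.factorial : ℝ) * |b j| ≤ (j : ℝ) ^ j * (M' * Real.exp j / r ^ j) :=
        mul_le_mul h3 hcb (abs_nonneg _) (by positivity)
    _ = M' * (Real.exp j * (2 * δ) ^ j) := by
        rw [h2]
        field_simp
    _ = M' * ε ^ j := by rw [h4]
    _ ≤ (M' + |b 0|) * ε ^ j := by
        apply mul_le_mul_of_nonneg_right _ (by positivity)
        linarith [abs_nonneg (b 0)]

/-- the first `m` coefficients vanish -/
theorem coeff_zero {m : ℕ} {t b : ℕ → ℝ} (ht : ∀ j, 0 ≤ t j) (hs : Summable t)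
    (hb : ∀ z : ℂ, HasSum (fun j => (b j : ℂ) * z ^ j) (z ^ m * ∏' j, (1 + (t j : ℂ) * z)))
    {j : ℕ} (hj : j < m) : b j = 0 := by
  obtain ⟨M, hM⟩ := prod_growth ht hs one_pos
  have hM0 : 0 ≤ M := by
    have := (norm_nonneg _).trans (hM 0)
    simpa using this
  have hbd : ∀ r : ℝ, 0 < r → r ≤ 1 → |b j| ≤ M * Real.exp 1 * r := by
    intro r hr hr1
    have h1 := newt1_coef_bound hb hr (A := r ^ m * (M * Real.exp 1)) (fun z hz => by
      rw [norm_mul, norm_pow, hz]
      apply mul_le_mul_of_nonneg_left _ (by positivity)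
      refine (hM z).trans ?_
      rw [hz, one_mul]
      exact mul_le_mul_of_nonneg_left (Real.exp_le_exp.2 hr1) hM0) j
    refine h1.trans ?_
    obtain ⟨k, rfl⟩ := Nat.exists_eq_add_of_lt hj
    have h2 : r ^ (j + k + 1) * (M * Real.exp 1) / r ^ j = M * Real.exp 1 * r * r ^ k := by
      field_simp
      ring
    rw [h2]
    have h3 : r ^ k ≤ 1 := pow_le_one₀ hr.le hr1
    have h4 : 0 ≤ M * Real.exp 1 * r := by positivity
    nlinarith
  by_contra h
  have hbpos : 0 < |b j| := abs_pos.2 h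
  set c := M * Real.exp 1 with hc
  have hc0 : 0 ≤ c := by positivity
  set r := min 1 (|b j| / (2 * (c + 1))) with hr
  have hrpos : 0 < r := lt_min one_pos (by positivity)
  have h1 := hbd r hrpos (min_le_left _ _)
  have h2 : r ≤ |b j| / (2 * (c + 1)) := min_le_right _ _
  rw [le_div_iff₀ (by positivity)] at h2
  nlinarith

end Pool.Agent.MPd164ca
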