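import Mathlib

namespace Pool.Agent.MPd164ca

open Complex Set Filter

theorem sector_bound {g : ℂ → ℂ} (hg : DiffContOnCl ℂ g {z | 0 < z.re}) {C K δ : ℝ} (hδ : 0 < δ)
    (hb : ∀ z : ℂ, 0 ≤ z.re → ‖g z‖ ≤ C * (1 + Real.exp (K * z.re - δ * |z.im|))) :
    ∀ z : ℂ, 0 ≤ z.re → ‖g z‖ ≤ 2 * C := by
  have hC : 0 ≤ C := by
    have h := hb 0 (by simp)
    simp only [zero_re, mul_zero, zero_im, abs_zero, sub_zero, Real.exp_zero] at h
    linarith [norm_nonneg (g 0)]
  -- outside of the sector
  have hout : ∀ z : ℂ, 0 ≤ z.re → K * z.re ≤ δ * |z.im| → ‖g z‖ ≤ 2 * C := by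
    intro z hz h
    have h1 := hb z hz
    have h2 : Real.exp (K * z.re - δ * |z.im|) ≤ 1 := Real.exp_le_one_iff.2 (by linarith)
    nlinarith
  intro z hz
  by_cases hout' : K * z.re ≤ δ * |z.im|
  · exact hout z hz hout'
  push Not at hout'
  have hKx : 0 < K * z.re := lt_of_le_of_lt (by positivity) hout'
  have hK : 0 < K := by
    by_contra h
    push Not at h
    nlinarith
  have hx : 0 < z.re := by
    rcases hz.lt_or_eq with h | h
    · exact h
    · rw [← h] at hKx; simp at hKx
  set B := K / δ with hB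
  have hBpos : 0 < B := div_pos hK hδ
  set α := Real.arctan B with hα
  have hα0 : 0 < α := Real.arctan_pos.2 hBpos
  have hα1 : α < Real.pi / 2 := Real.arctan_lt_pi_div_two B
  have hcos : 0 < Real.cos α := Real.cos_pos_of_mem_Ioo ⟨by linarith, hα1⟩
  have htan : Real.sin α = B * Real.cos α := by
    have : Real.tan α = B := Real.tan_arctan B
    rw [Real.tan_eq_sin_div_cos] at this
    field_simp at this
    linarith
  have hz0 : z ≠ 0 := by
    intro h
    rw [h] at hx
    simp at hx
  have harg : |z.arg| ≤ α := by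
    have h1 : |z.arg| < Real.pi / 2 := Complex.abs_arg_lt_pi_div_two_iff.2 (Or.inl hx)
    by_contra h
    push Not at h
    have h2 : Real.tan α < Real.tan |z.arg| :=
      Real.strictMonoOn_tan ⟨by linarith, hα1⟩ ⟨by linarith, h1⟩ h
    have h3 : Real.tan |z.arg| = |z.im| / z.re := by
      have h4 : Real.tan z.arg = z.im / z.re := Complex.tan_arg z
      rcases abs_cases z.arg with ⟨h5, h6⟩ | ⟨h5, h6⟩
      · rw [h5, h4, abs_of_nonneg (Complex.arg_nonneg_iff.1 h6)]
      · rw [h5, Real.tan_neg, h4, abs_of_neg (Complex.arg_neg_iff.1 h6), neg_div]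
    rw [h3, Real.tan_arctan, lt_div_iff₀ hx, hB, div_mul_eq_mul_div, div_lt_iff₀ hδ] at h2
    nlinarith
  -- the function in the strip
  have hmaps : MapsTo Complex.exp (im ⁻¹' Ioo (-α) α) {z : ℂ | 0 < z.re} := by
    intro ζ hζ
    simp only [mem_preimage, mem_Ioo] at hζ
    simp only [Set.mem_ofPred_eq, exp_re]
    exact mul_pos (Real.exp_pos _) (Real.cos_pos_of_mem_Ioo ⟨by linarith [hζ.1], by linarith [hζ.2]⟩)
  have hdiff : DiffContOnCl ℂ (fun ζ => g (Complex.exp ζ)) (im ⁻¹' Ioo (-α) α) :=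
    hg.comp Complex.differentiable_exp.diffContOnCl hmaps
  have hbd : ∀ ζ : ℂ, |ζ.im| = α → ‖g (Complex.exp ζ)‖ ≤ 2 * C := by
    intro ζ hζ
    have hc : Real.cos ζ.im = Real.cos α := by rw [← Real.cos_abs, hζ]
    have hs : |Real.sin ζ.im| = Real.sin α := by
      have hsα : 0 ≤ Real.sin α := by rw [htan]; positivity
      rcases abs_eq hα0.le |>.1 hζ with h | h
      · rw [h, abs_of_nonneg hsα]
      · rw [h, Real.sin_neg, abs_neg, abs_of_nonneg hsα]
    apply hout
    · rw [exp_re, hc]; positivity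
    · rw [exp_re, exp_im, hc, abs_mul, hs, htan, abs_of_pos (Real.exp_pos _), hB]
      apply le_of_eq
      field_simp
  have key := PhragmenLindelof.horizontal_strip (f := fun ζ => g (Complex.exp ζ)) (a := -α) (b := α)
    (C := 2 * C) (z := Complex.log z) hdiff ?_ ?_ ?_ ?_ ?_
  · simpa [Complex.exp_log hz0] using key
  · refine ⟨1, ?_, K, ?_⟩
    · rw [lt_div_iff₀ (by linarith)]; linarith
    · apply Asymptotics.IsBigO.of_bound (2 * C)
      refine mem_inf_of_right ?_
      intro ζ hζ
      simp only [mem_preimage, mem_Ioo] at hζ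
      have hre : 0 ≤ (Complex.exp ζ).re := by
        rw [exp_re]
        exact (mul_pos (Real.exp_pos _)
          (Real.cos_pos_of_mem_Ioo ⟨by linarith [hζ.1], by linarith [hζ.2]⟩)).le
      have h1 := hb (Complex.exp ζ) hre
      have h2 : K * (Complex.exp ζ).re - δ * |(Complex.exp ζ).im| ≤
          K * Real.exp (1 * |ζ.re|) := by
        have h3 : (Complex.exp ζ).re ≤ Real.exp |ζ.re| := by
          rw [exp_re]
          calc Real.exp ζ.re * Real.cos ζ.im ≤ Real.exp ζ.re * 1 :=
                mul_le_mul_of_nonneg_left (Real.cos_le_one _) (Real.exp_pos _).le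
            _ ≤ Real.exp |ζ.re| := by rw [mul_one]; exact Real.exp_le_exp.2 (le_abs_self _)
        have h4 : 0 ≤ δ * |(Complex.exp ζ).im| := by positivity
        rw [one_mul]
        nlinarith
      have h5 : Real.exp (K * (Complex.exp ζ).re - δ * |(Complex.exp ζ).im|) ≤
          Real.exp (K * Real.exp (1 * |ζ.re|)) := Real.exp_le_exp.2 h2
      have h6 : 1 ≤ Real.exp (K * Real.exp (1 * |ζ.re|)) := by
        apply Real.one_le_exp
        positivity
      simp only [Set.mem_ofPred_eq]
      rw [Real.norm_of_nonneg (Real.exp_pos _).le]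
      nlinarith
  · intro ζ hζ
    exact hbd ζ (by rw [hζ, abs_neg, abs_of_pos hα0])
  · intro ζ hζ
    exact hbd ζ (by rw [hζ, abs_of_pos hα0])
  · rw [Complex.log_im]
    exact (abs_le.1 harg).1
  · rw [Complex.log_im]
    exact (abs_le.1 harg).2

end Pool.Agent.MPd164ca
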