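import Pool.Agent.Lib.MP_d164ca_an.PL1a
import Pool.Agent.Lib.MP_d164ca_an.PL1b
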