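import Mathlib

/-!
# MP_d164ca_an, PL1: Phragmen-Lindelof bounds in the right half plane
-/

namespace Pool.Agent.MPd164ca

open Complex Set Filter

theorem rhp_norm_exp (a b : ℝ) (z : ℂ) :
    ‖Complex.exp (-(a : ℂ) * z + I * (b : ℂ) * z)‖ = Real.exp (-a * z.re - b * z.im) := by
  rw [Complex.norm_exp]
  congr 1
  simp [Complex.add_re, Complex.mul_re, Complex.mul_im]
  ring

theorem rhp_growth {f : ℂ → ℂ} {C K : ℝ}
    (hexp : ∀ z : ℂ, 0 ≤ z.re → ‖f z‖ ≤ C * Real.exp (K * ‖z‖)) (a b : ℝ) (z : ℂ)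
    (hz : 0 ≤ z.re) :
    ‖Complex.exp (-(a : ℂ) * z + I * (b : ℂ) * z) • f z‖ ≤
      C * ‖Real.exp ((K + |a| + |b|) * ‖z‖ ^ (1 : ℝ))‖ := by
  rw [norm_smul, rhp_norm_exp, Real.rpow_one, Real.norm_eq_abs, Real.abs_exp]
  have h1 := hexp z hz
  have h2 : -a * z.re - b * z.im ≤ (|a| + |b|) * ‖z‖ := by
    have h3 : -a * z.re ≤ |a| * ‖z‖ := by
      calc -a * z.re ≤ |-a * z.re| := le_abs_self _
        _ = |a| * |z.re| := by rw [abs_mul, abs_neg]
        _ ≤ |a| * ‖z‖ := mul_le_mul_of_nonneg_left (Complex.abs_re_le_norm z) (abs_nonneg _)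
    have h4 : -b * z.im ≤ |b| * ‖z‖ := by
      calc -b * z.im ≤ |-b * z.im| := le_abs_self _
        _ = |b| * |z.im| := by rw [abs_mul, abs_neg]
        _ ≤ |b| * ‖z‖ := mul_le_mul_of_nonneg_left (Complex.abs_im_le_norm z) (abs_nonneg _)
    linarith
  calc Real.exp (-a * z.re - b * z.im) * ‖f z‖
      ≤ Real.exp ((|a| + |b|) * ‖z‖) * (C * Real.exp (K * ‖z‖)) :=
        mul_le_mul (Real.exp_le_exp.mpr h2) h1 (norm_nonneg _) (Real.exp_pos _).le
    _ = C * (Real.exp ((|a| + |b|) * ‖z‖) * Real.exp (K * ‖z‖)) := by ring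
    _ = C * Real.exp ((K + |a| + |b|) * ‖z‖) := by
      rw [← Real.exp_add]; congr 2; ring

/-- exponential type in the closed right half plane and `exp (c |y|)` on the imaginary axis give
the bound `exp (K x + c |y|)` (Phragmen-Lindelof in both quadrants: multiply by `exp (-K z ± I c z)`) -/
theorem rhp_bound {f : ℂ → ℂ} (hf : DiffContOnCl ℂ f {z | 0 < z.re}) {C K c : ℝ}
    (hexp : ∀ z : ℂ, 0 ≤ z.re → ‖f z‖ ≤ C * Real.exp (K * ‖z‖))
    (him : ∀ y : ℝ, ‖f (y * I)‖ ≤ C * Real.exp (c * |y|)) :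
    ∀ z : ℂ, 0 ≤ z.re → ‖f z‖ ≤ C * Real.exp (K * z.re + c * |z.im|) := by
  intro z hz
  have hdiff : ∀ b : ℝ, Differentiable ℂ (fun z : ℂ => Complex.exp (-(K : ℂ) * z + I * (b : ℂ) * z)) := by
    intro b
    fun_prop
  have hre : ∀ b : ℝ, ∀ x : ℝ, 0 ≤ x →
      ‖Complex.exp (-(K : ℂ) * (x : ℂ) + I * (b : ℂ) * (x : ℂ)) • f x‖ ≤ C := by
    intro b x hx
    rw [norm_smul, rhp_norm_exp]
    have h1 := hexp (x : ℂ) (by simpa using hx)
    rw [Complex.norm_real, Real.norm_eq_abs, abs_of_nonneg hx] at h1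
    simp only [Complex.ofReal_re, Complex.ofReal_im, mul_zero, sub_zero]
    calc Real.exp (-K * x) * ‖f x‖ ≤ Real.exp (-K * x) * (C * Real.exp (K * x)) :=
          mul_le_mul_of_nonneg_left h1 (Real.exp_pos _).le
      _ = C * (Real.exp (-K * x) * Real.exp (K * x)) := by ring
      _ = C := by rw [← Real.exp_add]; simp
  rcases le_total 0 z.im with hzi | hzi
  · have h := PhragmenLindelof.quadrant_I (C := C)
      (f := fun z : ℂ => Complex.exp (-(K : ℂ) * z + I * (c : ℂ) * z) • f z) (z := z)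
      ((hdiff c).diffContOnCl.smul (hf.mono (fun w hw => hw.1)))
      ⟨1, one_lt_two, K + |K| + |c|, Asymptotics.IsBigO.of_bound C
        (Filter.Eventually.filter_mono inf_le_right (eventually_principal.mpr
          (fun w hw => rhp_growth hexp K c w (le_of_lt hw.1))))⟩
      (hre c)
      (by
        intro x hx
        rw [norm_smul, rhp_norm_exp]
        have h1 := him x
        rw [abs_of_nonneg hx] at h1
        simp only [Complex.mul_re, Complex.ofReal_re, Complex.I_re, mul_zero, Complex.ofReal_im,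
          Complex.I_im, mul_one, sub_self, Complex.mul_im, add_zero, zero_sub]
        calc Real.exp (-(c * x)) * ‖f (x * I)‖ ≤ Real.exp (-(c * x)) * (C * Real.exp (c * x)) :=
              mul_le_mul_of_nonneg_left h1 (Real.exp_pos _).le
          _ = C * (Real.exp (-(c * x)) * Real.exp (c * x)) := by ring
          _ = C := by rw [← Real.exp_add]; simp)
      hz hzi
    rw [norm_smul, rhp_norm_exp] at h
    rw [abs_of_nonneg hzi]
    calc ‖f z‖ = Real.exp (K * z.re + c * z.im) * (Real.exp (-K * z.re - c * z.im) * ‖f z‖) := by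
          rw [← mul_assoc, ← Real.exp_add]
          have : K * z.re + c * z.im + (-K * z.re - c * z.im) = 0 := by ring
          rw [this, Real.exp_zero, one_mul]
      _ ≤ Real.exp (K * z.re + c * z.im) * C := mul_le_mul_of_nonneg_left h (Real.exp_pos _).le
      _ = C * Real.exp (K * z.re + c * z.im) := mul_comm _ _
  · have h := PhragmenLindelof.quadrant_IV (C := C)
      (f := fun z : ℂ => Complex.exp (-(K : ℂ) * z + I * ((-c : ℝ) : ℂ) * z) • f z) (z := z)
      ((hdiff (-c)).diffContOnCl.smul (hf.mono (fun w hw => hw.1)))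
      ⟨1, one_lt_two, K + |K| + |-c|, Asymptotics.IsBigO.of_bound C
        (Filter.Eventually.filter_mono inf_le_right (eventually_principal.mpr
          (fun w hw => rhp_growth hexp K (-c) w (le_of_lt hw.1))))⟩
      (hre (-c))
      (by
        intro x hx
        rw [norm_smul, rhp_norm_exp]
        have h1 := him x
        rw [abs_of_nonpos hx] at h1
        simp only [Complex.mul_re, Complex.ofReal_re, Complex.I_re, mul_zero, Complex.ofReal_im,
          Complex.I_im, mul_one, sub_self, Complex.mul_im, add_zero, zero_sub]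
        calc Real.exp (-(-c * x)) * ‖f (x * I)‖ ≤ Real.exp (-(-c * x)) * (C * Real.exp (c * -x)) :=
              mul_le_mul_of_nonneg_left h1 (Real.exp_pos _).le
          _ = C * (Real.exp (-(-c * x)) * Real.exp (c * -x)) := by ring
          _ = C := by rw [← Real.exp_add]; ring_nf; simp)
      hz hzi
    rw [norm_smul, rhp_norm_exp] at h
    rw [abs_of_nonpos hzi]
    calc ‖f z‖ = Real.exp (K * z.re + c * -z.im) * (Real.exp (-K * z.re - -c * z.im) * ‖f z‖) := by
          rw [← mul_assoc, ← Real.exp_add]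
          have : K * z.re + c * -z.im + (-K * z.re - -c * z.im) = 0 := by ring
          rw [this, Real.exp_zero, one_mul]
      _ ≤ Real.exp (K * z.re + c * -z.im) * C := mul_le_mul_of_nonneg_left h (Real.exp_pos _).le
      _ = C * Real.exp (K * z.re + c * -z.im) := mul_comm _ _

/-- norm of the complex cosine -/
theorem cos_lower_sq (x y : ℝ) : ‖Complex.cos ((x : ℂ) + (y : ℂ) * I)‖ ^ 2 =
    Real.cos x ^ 2 + Real.sinh y ^ 2 := by
  have h1 : Complex.cos ((x : ℂ) + (y : ℂ) * I) =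
      ((Real.cos x * Real.cosh y : ℝ) : ℂ) + ((-(Real.sin x * Real.sinh y) : ℝ) : ℂ) * I := by
    rw [Complex.cos_add_mul_I]
    push_cast
    ring
  rw [h1, ← Complex.normSq_eq_norm_sq, Complex.normSq_add_mul_I]
  have h2 := Real.cosh_sq y
  have h3 := Real.sin_sq_add_cos_sq x
  have h4 : Real.sin x ^ 2 = 1 - Real.cos x ^ 2 := by linarith
  calc (Real.cos x * Real.cosh y) ^ 2 + (-(Real.sin x * Real.sinh y)) ^ 2
      = Real.cos x ^ 2 * Real.cosh y ^ 2 + Real.sin x ^ 2 * Real.sinh y ^ 2 := by ring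
    _ = Real.cos x ^ 2 + Real.sinh y ^ 2 := by rw [h2, h4]; ring

/-- lower bound for `cos (π z)` away from its zeros -/
theorem cos_lower : ∃ c0 : ℝ, 0 < c0 ∧ ∀ z : ℂ, (∀ n : ℤ, 1 / 4 ≤ ‖z - (n + 1 / 2)‖) →
    c0 * Real.exp (Real.pi * |z.im|) ≤ ‖Complex.cos (Real.pi * z)‖ := by
  refine ⟨1 / 8, by norm_num, fun z hz => ?_⟩
  have hpi := Real.pi_gt_three
  have hpi4 := Real.pi_lt_four
  have hsq : ‖Complex.cos (Real.pi * z)‖ ^ 2 =
      Real.cos (Real.pi * z.re) ^ 2 + Real.sinh (Real.pi * z.im) ^ 2 := by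
    rw [← cos_lower_sq]
    congr 3
    conv_lhs => rw [← Complex.re_add_im z]
    push_cast
    ring
  have hn0 : 0 ≤ ‖Complex.cos (Real.pi * z)‖ := norm_nonneg _
  by_cases hy : 1 / 8 ≤ |z.im|
  · -- large imaginary part
    have h1 : |Real.sinh (Real.pi * z.im)| ≤ ‖Complex.cos (Real.pi * z)‖ := by
      apply abs_le_of_sq_le_sq _ hn0
      rw [hsq]
      nlinarith [sq_nonneg (Real.cos (Real.pi * z.re))]
    have h2 : |Real.sinh (Real.pi * z.im)| = Real.sinh (Real.pi * |z.im|) := by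
      rw [Real.abs_sinh, abs_mul, abs_of_pos Real.pi_pos]
    rw [h2] at h1
    refine le_trans ?_ h1
    rw [Real.sinh_eq]
    obtain ⟨t, ht⟩ : ∃ t, t = Real.pi * |z.im| := ⟨_, rfl⟩
    rw [← ht]
    have ht1 : 3 / 8 ≤ t := by rw [ht]; nlinarith
    have h3 : Real.exp (-t) ≤ 3 / 4 * Real.exp t := by
      have h4 : 1 + 2 * t ≤ Real.exp (2 * t) := by
        have := Real.add_one_le_exp (2 * t)
        linarith
      have h5 : Real.exp t = Real.exp (2 * t) * Real.exp (-t) := by
        rw [← Real.exp_add]; congr 1; ring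
      have h6 : 0 < Real.exp (-t) := Real.exp_pos _
      rw [h5]
      nlinarith
    linarith
  · push Not at hy
    -- small imaginary part
    obtain ⟨m, hm⟩ : ∃ m : ℤ, m = ⌊z.re⌋ := ⟨_, rfl⟩
    obtain ⟨d, hd⟩ : ∃ d : ℝ, d = z.re - m - 1 / 2 := ⟨_, rfl⟩
    have hd1 : -(1 / 2) ≤ d := by
      have := Int.floor_le z.re
      rw [hd, hm]; linarith
    have hd2 : d ≤ 1 / 2 := by
      have := Int.lt_floor_add_one z.re
      rw [hd, hm]; linarith
    have h1 := hz m
    have h2 : ‖z - (m + 1 / 2)‖ ^ 2 = d ^ 2 + z.im ^ 2 := by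
      rw [← Complex.normSq_eq_norm_sq, Complex.normSq_apply]
      have e1 : (z - (m + 1 / 2)).re = d := by
        rw [hd]
        simp
        ring
      have e2 : (z - (m + 1 / 2)).im = z.im := by simp
      rw [e1, e2]; ring
    have h3 : 1 / 8 ≤ |d| := by
      have h4 : z.im ^ 2 ≤ (1 / 8) ^ 2 := by
        rw [← sq_abs z.im]
        exact pow_le_pow_left₀ (abs_nonneg _) hy.le 2
      have h5 : (1 / 4 : ℝ) ^ 2 ≤ ‖z - (m + 1 / 2)‖ ^ 2 := pow_le_pow_left₀ (by norm_num) h1 2
      apply le_of_sq_le_sq _ (abs_nonneg d)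
      rw [sq_abs]
      nlinarith
    have h6 : |Real.cos (Real.pi * z.re)| = Real.sin (Real.pi * |d|) := by
      have e3 : Real.pi * z.re = (Real.pi * d + Real.pi / 2) + m * Real.pi := by
        rw [hd]; ring
      rw [e3, Real.cos_add_int_mul_pi, abs_mul, Real.cos_add_pi_div_two, abs_neg]
      have e4 : |((-1 : ℝ)) ^ m| = 1 := by
        rw [abs_zpow]; simp
      rw [e4, one_mul]
      have e5 : Real.pi * |d| = |Real.pi * d| := by rw [abs_mul, abs_of_pos Real.pi_pos]
      rw [e5]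
      have hdl : |d| ≤ 1 / 2 := abs_le.mpr ⟨by linarith, hd2⟩
      rw [Real.abs_sin_eq_sin_abs_of_abs_le_pi]
      rw [abs_mul, abs_of_pos Real.pi_pos]
      nlinarith
    have h7 : 1 / 4 ≤ |Real.cos (Real.pi * z.re)| := by
      rw [h6]
      have hdl : |d| ≤ 1 / 2 := abs_le.mpr ⟨by linarith, hd2⟩
      have h8 := Real.mul_le_sin (x := Real.pi * |d|) (by positivity) (by nlinarith)
      have h9 : 2 / Real.pi * (Real.pi * |d|) = 2 * |d| := by
        field_simp
      rw [h9] at h8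
      linarith
    have h8 : |Real.cos (Real.pi * z.re)| ≤ ‖Complex.cos (Real.pi * z)‖ := by
      apply abs_le_of_sq_le_sq _ hn0
      rw [hsq]
      nlinarith [sq_nonneg (Real.sinh (Real.pi * z.im))]
    have h9 : Real.exp (Real.pi * |z.im|) ≤ 2 := by
      have h10 : Real.pi * |z.im| ≤ 1 / 2 := by nlinarith [abs_nonneg z.im]
      have h11 : Real.exp (Real.pi * |z.im|) ≤ Real.exp (1 / 2) := Real.exp_le_exp.mpr h10
      have h12 : Real.exp (1 / 2) ≤ 2 := by
        have h13 : Real.exp (1 / 2) ^ 2 = Real.exp 1 := by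
          rw [← Real.exp_nat_mul]; norm_num
        have h14 := Real.exp_one_lt_d9
        have h15 : 0 < Real.exp (1 / 2) := Real.exp_pos _
        nlinarith
      linarith
    linarith

end Pool.Agent.MPd164ca
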