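import Pool.Agent.Lib.MP_d164ca_an.PL1

/-!
# MP_d164ca_an, PL2a: division by the cosine
-/

namespace Pool.Agent.MPd164ca

open Complex Set Filter

private theorem pl2a_zero {z : ℂ} (hz : 0 ≤ z.re) (h : Complex.cos (Real.pi * z) = 0) :
    ∃ n : ℕ, z = n + 1 / 2 := by
  obtain ⟨k, hk⟩ := Complex.cos_eq_zero_iff.1 h
  have hpi : (Real.pi : ℂ) ≠ 0 := by exact_mod_cast Real.pi_ne_zero
  have hz2 : z = k + 1 / 2 := by
    apply mul_left_cancel₀ hpi
    rw [hk]
    ring
  have hre : z.re = k + 1 / 2 := by
    rw [hz2]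
    simp
  rw [hre] at hz
  have hk0 : 0 ≤ k := by
    by_contra hcon
    have : k ≤ -1 := by omega
    have h2 : (k : ℝ) ≤ -1 := by exact_mod_cast this
    linarith
  obtain ⟨n, rfl⟩ := Int.eq_ofNat_of_zero_le hk0
  exact ⟨n, by rw [hz2]; simp⟩

private theorem pl2a_cos_deriv (z : ℂ) :
    HasDerivAt (fun w : ℂ => Complex.cos (Real.pi * w)) (-(Real.pi * Complex.sin (Real.pi * z))) z := by
  have h1 : HasDerivAt (fun w : ℂ => (Real.pi : ℂ) * w) Real.pi z := by
    simpa using (hasDerivAt_id z).const_mul (Real.pi : ℂ)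
  have h2 := (Complex.hasDerivAt_cos ((Real.pi : ℂ) * z)).comp z h1
  refine h2.congr_deriv ?_
  ring

private theorem pl2a_sin_ne {z : ℂ} (h : Complex.cos (Real.pi * z) = 0) :
    -(Real.pi * Complex.sin (Real.pi * z)) ≠ 0 := by
  have hpi : (Real.pi : ℂ) ≠ 0 := by exact_mod_cast Real.pi_ne_zero
  have h1 := Complex.sin_sq_add_cos_sq ((Real.pi : ℂ) * z)
  rw [h] at h1
  have h2 : Complex.sin (Real.pi * z) ≠ 0 := by
    intro h3
    rw [h3] at h1
    simp at h1
  exact neg_ne_zero.2 (mul_ne_zero hpi h2)

/-- the quotient -/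
private noncomputable def pl2aQ (N : ℂ → ℂ) (z : ℂ) : ℂ :=
  open Classical in
  if Complex.cos (Real.pi * z) = 0 then
    deriv N z / deriv (fun w : ℂ => Complex.cos (Real.pi * w)) z
  else N z / Complex.cos (Real.pi * z)

private theorem pl2a_eventually {N : ℂ → ℂ} {z : ℂ} (h : Complex.cos (Real.pi * z) ≠ 0) :
    pl2aQ N =ᶠ[nhds z] fun w => N w / Complex.cos (Real.pi * w) := by
  have hc : Continuous fun w : ℂ => Complex.cos (Real.pi * w) := by fun_prop
  filter_upwards [hc.continuousAt.eventually_ne h] with w hw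
  unfold pl2aQ
  rw [if_neg hw]

private theorem pl2a_differentiableAt {N : ℂ → ℂ} {z : ℂ}
    (hN : DifferentiableOn ℂ N {z | 0 < z.re}) (hz : 0 < z.re)
    (h0 : ∀ n : ℕ, N (n + 1 / 2) = 0) : DifferentiableAt ℂ (pl2aQ N) z := by
  have ho : {z : ℂ | 0 < z.re} ∈ nhds z := (isOpen_lt continuous_const continuous_re).mem_nhds hz
  have hNz : DifferentiableAt ℂ N z := hN.differentiableAt ho
  by_cases h : Complex.cos (Real.pi * z) = 0
  · obtain ⟨n, hn⟩ := pl2a_zero hz.le h
    have hN0 : N z = 0 := by rw [hn, h0]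
    set c : ℂ → ℂ := fun w => Complex.cos (Real.pi * w) with hcdef
    have hcd : Differentiable ℂ c := fun w => (pl2a_cos_deriv w).differentiableAt
    have hd1 : DifferentiableAt ℂ (dslope N z) z :=
      ((Complex.differentiableOn_dslope ho).2 hN).differentiableAt ho
    have hd2 : DifferentiableAt ℂ (dslope c z) z :=
      ((Complex.differentiableOn_dslope (s := univ) univ_mem).2
        hcd.differentiableOn).differentiableAt univ_mem
    have hne : dslope c z z ≠ 0 := by
      rw [dslope_same, (pl2a_cos_deriv z).deriv]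
      exact pl2a_sin_ne h
    have hev : pl2aQ N =ᶠ[nhds z] fun w => dslope N z w / dslope c z w := by
      filter_upwards [hd2.continuousAt.eventually_ne hne] with w hw
      unfold pl2aQ
      rcases eq_or_ne w z with rfl | hwz
      · rw [if_pos h, dslope_same, dslope_same]
      · have h1 : c w = (w - z) * dslope c z w := by
          have := sub_smul_dslope c z w
          rw [smul_eq_mul] at this
          rw [this]
          simp [hcdef, h]
        have h2 : N w = (w - z) * dslope N z w := by
          have := sub_smul_dslope N z w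
          rw [smul_eq_mul] at this
          rw [this, hN0, sub_zero]
        have h3 : w - z ≠ 0 := sub_ne_zero.2 hwz
        have h4 : c w ≠ 0 := by
          rw [h1]
          exact mul_ne_zero h3 hw
        rw [if_neg h4]
        change N w / c w = _
        rw [h1, h2, mul_div_mul_left _ _ h3]
    exact (hd1.div hd2 hne).congr_of_eventuallyEq hev
  · exact (hNz.div (pl2a_cos_deriv z).differentiableAt h).congr_of_eventuallyEq (pl2a_eventually h)

/-- division by `cos (π z)`: if `N` vanishes at the points `n + 1/2`, `n ≥ 0`, there is a quotient,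
analytic in the right half plane and continuous up to the boundary -/
theorem cos_quotient {N : ℂ → ℂ} (hN : DiffContOnCl ℂ N {z | 0 < z.re})
    (h0 : ∀ n : ℕ, N (n + 1 / 2) = 0) :
    ∃ g : ℂ → ℂ, DiffContOnCl ℂ g {z | 0 < z.re} ∧
      ∀ z : ℂ, 0 ≤ z.re → N z = Complex.cos (Real.pi * z) * g z := by
  refine ⟨pl2aQ N, ⟨?_, ?_⟩, ?_⟩
  · intro z hz
    exact (pl2a_differentiableAt hN.differentiableOn hz h0).differentiableWithinAt
  · intro z hz
    have hz' : z ∈ {z : ℂ | 0 ≤ z.re} := by
      rwa [Complex.closure_setOfPred_lt_re] at hz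
    rcases lt_or_eq_of_le (show 0 ≤ z.re from hz') with h | h
    · exact (pl2a_differentiableAt hN.differentiableOn h h0).continuousAt.continuousWithinAt
    · have hc : Complex.cos (Real.pi * z) ≠ 0 := by
        intro hc
        obtain ⟨n, hn⟩ := pl2a_zero h.le hc
        rw [hn] at h
        simp at h
        have : (0 : ℝ) ≤ n := Nat.cast_nonneg n
        linarith
      have hcc : ContinuousWithinAt (fun w : ℂ => Complex.cos (Real.pi * w))
          (closure {z | 0 < z.re}) z := (pl2a_cos_deriv z).continuousAt.continuousWithinAt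
      exact ((hN.continuousOn z hz).div hcc hc).congr_of_eventuallyEq
        ((pl2a_eventually hc).filter_mono nhdsWithin_le_nhds) (pl2a_eventually hc).self_of_nhds
  · intro z hz
    by_cases h : Complex.cos (Real.pi * z) = 0
    · obtain ⟨n, hn⟩ := pl2a_zero hz h
      rw [h, zero_mul, hn, h0]
    · unfold pl2aQ
      rw [if_neg h, mul_div_cancel₀ _ h]

end Pool.Agent.MPd164ca
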