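import Mathlib

namespace Pool.Agent.MPd164ca

open Complex Set Filter

/-- entire `sin ζ / ζ` -/
noncomputable def pl2b_sinc (ζ : ℂ) : ℂ := dslope Complex.sin 0 ζ

theorem pl2b_sinc_differentiable : Differentiable ℂ pl2b_sinc := by
  have h : DifferentiableOn ℂ (dslope Complex.sin 0) univ :=
    (Complex.differentiableOn_dslope Filter.univ_mem).2 Complex.differentiable_sin.differentiableOn
  intro z
  exact (h z (mem_univ z)).differentiableAt Filter.univ_mem

theorem pl2b_sinc_zero : pl2b_sinc 0 = 1 := by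
  rw [pl2b_sinc, dslope_same, Complex.deriv_sin, Complex.cos_zero]

theorem pl2b_sinc_ne {ζ : ℂ} (h : ζ ≠ 0) : pl2b_sinc ζ = Complex.sin ζ / ζ := by
  rw [pl2b_sinc, dslope_of_ne _ h, slope_def_field, Complex.sin_zero, sub_zero, sub_zero]

theorem pl2b_norm_cos (w : ℂ) : ‖Complex.cos w‖ ≤ Real.exp |w.im| := by
  have h1 : ‖Complex.exp (w * I)‖ ≤ Real.exp |w.im| := by
    rw [Complex.norm_exp]
    apply Real.exp_le_exp.2
    simpa using neg_le_abs w.im
  have h2 : ‖Complex.exp (-w * I)‖ ≤ Real.exp |w.im| := by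
    rw [Complex.norm_exp]
    apply Real.exp_le_exp.2
    simpa using le_abs_self w.im
  rw [Complex.cos, norm_div]
  have h3 := norm_add_le (Complex.exp (w * I)) (Complex.exp (-w * I))
  have h4 : ‖(2 : ℂ)‖ = 2 := by norm_num
  rw [h4, div_le_iff₀ (by norm_num)]
  linarith

theorem pl2b_norm_sinc (ζ : ℂ) : ‖pl2b_sinc ζ‖ ≤ Real.exp |ζ.im| := by
  by_cases h : ζ = 0
  · rw [h, pl2b_sinc_zero]; simp
  rw [pl2b_sinc_ne h, norm_div, div_le_iff₀ (norm_pos_iff.2 h)]
  have hconv : Convex ℝ {w : ℂ | |w.im| ≤ |ζ.im|} := by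
    have : {w : ℂ | |w.im| ≤ |ζ.im|} = Complex.imLm ⁻¹' (Icc (-|ζ.im|) |ζ.im|) := by
      ext w
      simp [abs_le]
    rw [this]
    exact (convex_Icc _ _).linear_preimage _
  have key := hconv.norm_image_sub_le_of_norm_deriv_le (f := Complex.sin) (C := Real.exp |ζ.im|)
    (x := 0) (y := ζ) (fun x _ => Complex.differentiableAt_sin)
    (fun x hx => by
      rw [Complex.deriv_sin]
      exact (pl2b_norm_cos x).trans (Real.exp_le_exp.2 hx))
    (by simp) (by simp)
  simpa using key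

theorem cos_interp {a : ℕ → ℂ} (ha : Summable fun n => ‖a n‖) :
    ∃ (S R : ℂ → ℂ) (M : ℝ), Differentiable ℂ S ∧ (∀ n : ℕ, S (n + 1 / 2) = a n) ∧
      (∀ z : ℂ, (∀ n : ℕ, 1 / 4 ≤ ‖z - (n + 1 / 2)‖) → S z = Complex.cos (Real.pi * z) * R z ∧ ‖R z‖ ≤ M) ∧
      (∀ x : ℝ, ‖S x‖ ≤ M) := by
  set T : ℝ := ∑' n, ‖a n‖ with hT
  have hT0 : 0 ≤ T := tsum_nonneg fun n => norm_nonneg _
  have hpi := Real.pi_pos
  have hpiC : (Real.pi : ℂ) ≠ 0 := by exact_mod_cast hpi.ne'
  refine ⟨fun z => ∑' n : ℕ, a n * pl2b_sinc (Real.pi * (z - (n + 1 / 2))),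
    fun z => ∑' n : ℕ, a n * (-(-1) ^ n / (Real.pi * (z - (n + 1 / 2)))), 2 * T, ?_, ?_, ?_, ?_⟩
  · -- differentiable
    intro z
    set r : ℝ := |z.im| + 1 with hr
    have hopen : IsOpen {w : ℂ | |w.im| < r} :=
      isOpen_lt (continuous_abs.comp Complex.continuous_im) continuous_const
    have hmem : z ∈ {w : ℂ | |w.im| < r} := by
      show |z.im| < r
      rw [hr]; linarith
    have hd : DifferentiableOn ℂ
        (fun z => ∑' n : ℕ, a n * pl2b_sinc (Real.pi * (z - (n + 1 / 2)))) {w : ℂ | |w.im| < r} := by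
      apply differentiableOn_tsum_of_summable_norm
        (u := fun n => ‖a n‖ * Real.exp (Real.pi * r)) (ha.mul_right _)
      · intro n
        apply Differentiable.differentiableOn
        apply (differentiable_const _).mul
        apply pl2b_sinc_differentiable.comp
        fun_prop
      · exact hopen
      · intro n w hw
        rw [norm_mul]
        apply mul_le_mul_of_nonneg_left _ (norm_nonneg _)
        refine (pl2b_norm_sinc _).trans (Real.exp_le_exp.2 ?_)
        have h1 : ((Real.pi : ℂ) * (w - (n + 1 / 2))).im = Real.pi * w.im := by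
          have : ((n : ℂ) + 1 / 2) = (((n : ℝ) + 1 / 2 : ℝ) : ℂ) := by push_cast; ring
          rw [this, Complex.im_ofReal_mul, Complex.sub_im, Complex.ofReal_im, sub_zero]
        rw [h1, abs_mul, abs_of_pos hpi]
        exact mul_le_mul_of_nonneg_left (le_of_lt hw) hpi.le
    exact (hd z hmem).differentiableAt (hopen.mem_nhds hmem)
  · -- interpolation
    intro n
    show ∑' m : ℕ, a m * pl2b_sinc (Real.pi * ((n : ℂ) + 1 / 2 - (m + 1 / 2))) = a n
    rw [tsum_eq_single n]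
    · rw [sub_self, mul_zero, pl2b_sinc_zero, mul_one]
    · intro m hm
      have h1 : ((n : ℂ) + 1 / 2 - (m + 1 / 2)) = ((n : ℤ) - (m : ℤ) : ℤ) := by push_cast; ring
      have h2 : ((n : ℤ) - (m : ℤ) : ℤ) ≠ 0 := by omega
      rw [h1, pl2b_sinc_ne (mul_ne_zero hpiC (by exact_mod_cast h2)), mul_comm (Real.pi : ℂ),
        Complex.sin_int_mul_pi, zero_div, mul_zero]
  · -- quotient
    intro z hz
    have hne : ∀ n : ℕ, z - (n + 1 / 2) ≠ 0 := by
      intro n h
      have := hz n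
      rw [h, norm_zero] at this
      linarith
    constructor
    · show ∑' n : ℕ, a n * pl2b_sinc (Real.pi * (z - (n + 1 / 2))) =
        Complex.cos (Real.pi * z) * ∑' n : ℕ, a n * (-(-1) ^ n / (Real.pi * (z - (n + 1 / 2))))
      rw [← tsum_mul_left]
      refine tsum_congr fun n => ?_
      rw [pl2b_sinc_ne (mul_ne_zero hpiC (hne n))]
      have h1 : Complex.sin (Real.pi * (z - (n + 1 / 2))) =
          -((-1) ^ n * Complex.cos (Real.pi * z)) := by
        have h2 : (Real.pi : ℂ) * (z - (n + 1 / 2)) =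
            ((Real.pi : ℂ) * z - n * Real.pi) - Real.pi / 2 := by ring
        rw [h2, Complex.sin_sub_pi_div_two, Complex.cos_antiperiodic.sub_nat_mul_eq]
      rw [h1]
      ring
    · have hterm : ∀ n : ℕ, ‖a n * (-(-1) ^ n / (Real.pi * (z - (n + 1 / 2))))‖ ≤ ‖a n‖ * 2 := by
        intro n
        rw [norm_mul]
        apply mul_le_mul_of_nonneg_left _ (norm_nonneg _)
        rw [norm_div, norm_neg, norm_pow, norm_neg, norm_one, one_pow, norm_mul,
          Complex.norm_real, Real.norm_of_nonneg hpi.le]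
        have h3 : 1 / 2 ≤ Real.pi * ‖z - (n + 1 / 2)‖ := by
          have := hz n
          have h4 := Real.pi_gt_three
          nlinarith
        rw [div_le_iff₀ (by linarith)]
        linarith
      have hs2 : Summable fun n : ℕ => ‖a n * (-(-1) ^ n / (Real.pi * (z - (n + 1 / 2))))‖ :=
        Summable.of_nonneg_of_le (fun n => norm_nonneg _) hterm (ha.mul_right 2)
      calc ‖∑' n : ℕ, a n * (-(-1) ^ n / (Real.pi * (z - (n + 1 / 2))))‖
          ≤ ∑' n : ℕ, ‖a n * (-(-1) ^ n / (Real.pi * (z - (n + 1 / 2))))‖ :=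
            norm_tsum_le_tsum_norm hs2
        _ ≤ ∑' n : ℕ, ‖a n‖ * 2 := hs2.tsum_le_tsum hterm (ha.mul_right 2)
        _ = 2 * T := by rw [tsum_mul_right, mul_comm]
  · -- real axis
    intro x
    have hterm : ∀ n : ℕ, ‖a n * pl2b_sinc (Real.pi * ((x : ℂ) - (n + 1 / 2)))‖ ≤ ‖a n‖ := by
      intro n
      rw [norm_mul]
      have h1 := pl2b_norm_sinc (Real.pi * ((x : ℂ) - (n + 1 / 2)))
      have h2 : ((Real.pi : ℂ) * ((x : ℂ) - (n + 1 / 2))).im = 0 := by
        have : (Real.pi : ℂ) * ((x : ℂ) - (n + 1 / 2)) =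
          ((Real.pi * (x - (n + 1 / 2)) : ℝ) : ℂ) := by push_cast; ring
        rw [this, Complex.ofReal_im]
      rw [h2, abs_zero, Real.exp_zero] at h1
      nlinarith [norm_nonneg (a n)]
    have hs2 : Summable fun n : ℕ => ‖a n * pl2b_sinc (Real.pi * ((x : ℂ) - (n + 1 / 2)))‖ :=
      Summable.of_nonneg_of_le (fun n => norm_nonneg _) hterm ha
    calc ‖∑' n : ℕ, a n * pl2b_sinc (Real.pi * ((x : ℂ) - (n + 1 / 2)))‖
        ≤ ∑' n : ℕ, ‖a n * pl2b_sinc (Real.pi * ((x : ℂ) - (n + 1 / 2)))‖ :=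
          norm_tsum_le_tsum_norm hs2
      _ ≤ T := hs2.tsum_le_tsum hterm ha
      _ ≤ 2 * T := by linarith

end Pool.Agent.MPd164ca
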