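import Pool.Agent.Lib.MP_d164ca_an.PL2b
import Pool.Agent.Lib.MP_d164ca_an.PL2a

/-!
# MP_d164ca_an, PL2c: functions of vertical type less than `π`, small at the half integers
-/

namespace Pool.Agent.MPd164ca

open Complex Set Filter

/-- the two points of a small disc have comparable weights -/
theorem pl2c_weight {K δ : ℝ} (hδ : 0 < δ) {z z' : ℂ} (h : ‖z' - z‖ ≤ 1 / 2) :
    Real.exp (K * z'.re - δ * |z'.im|) ≤
      Real.exp (|K| / 2 + δ / 2) * Real.exp (K * z.re - δ * |z.im|) := by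
  rw [← Real.exp_add]
  apply Real.exp_le_exp.2
  have h1 : |z'.re - z.re| ≤ 1 / 2 := (by simpa using abs_re_le_norm (z' - z) : |z'.re - z.re| ≤ ‖z' - z‖).trans h
  have h2 : |z'.im - z.im| ≤ 1 / 2 := (by simpa using abs_im_le_norm (z' - z) : |z'.im - z.im| ≤ ‖z' - z‖).trans h
  have h3 : K * (z'.re - z.re) ≤ |K| / 2 := by
    calc K * (z'.re - z.re) ≤ |K * (z'.re - z.re)| := le_abs_self _
      _ = |K| * |z'.re - z.re| := abs_mul _ _
      _ ≤ |K| * (1 / 2) := mul_le_mul_of_nonneg_left h1 (abs_nonneg K)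
      _ = |K| / 2 := by ring
  have h4 : |z.im| - |z'.im| ≤ 1 / 2 := by
    have := abs_sub_abs_le_abs_sub z.im z'.im
    rw [abs_sub_comm] at this
    linarith
  have h5 : δ * (|z.im| - |z'.im|) ≤ δ / 2 := by
    have := mul_le_mul_of_nonneg_left h4 hδ.le
    linarith
  nlinarith [h3, h5]

/-- bounds outside the discs extend to the discs -/
theorem pl2c_fill {g : ℂ → ℂ} (hg : DiffContOnCl ℂ g {z | 0 < z.re}) {C K δ η : ℝ} (hδ : 0 < δ)
    (hη : 0 ≤ η) (hC : 0 ≤ C)
    (hb : ∀ z : ℂ, 0 ≤ z.re → (∀ n : ℕ, 1 / 4 ≤ ‖z - (n + 1 / 2)‖) →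
      ‖g z‖ ≤ C * (η + Real.exp (K * z.re - δ * |z.im|))) :
    ∀ z : ℂ, 0 ≤ z.re →
      ‖g z‖ ≤ (C * Real.exp (|K| / 2 + δ / 2)) * (η + Real.exp (K * z.re - δ * |z.im|)) := by
  intro z hz
  have hE : 1 ≤ Real.exp (|K| / 2 + δ / 2) := by
    apply Real.one_le_exp
    positivity
  by_cases h : ∀ n : ℕ, 1 / 4 ≤ ‖z - (n + 1 / 2)‖
  · refine (hb z hz h).trans ?_
    have h0 : 0 ≤ η + Real.exp (K * z.re - δ * |z.im|) := by positivity
    calc C * (η + Real.exp (K * z.re - δ * |z.im|))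
        ≤ (C * Real.exp (|K| / 2 + δ / 2)) * (η + Real.exp (K * z.re - δ * |z.im|)) := by
          apply mul_le_mul_of_nonneg_right _ h0
          exact le_mul_of_one_le_right hC hE
      _ = _ := rfl
  · push Not at h
    obtain ⟨n, hn⟩ := h
    have hball : Metric.ball ((n : ℂ) + 1 / 2) (1 / 4) ⊆ {z : ℂ | 0 < z.re} := by
      intro u hu
      have h1 : |u.re - (n + 1 / 2)| < 1 / 4 := by
        have h2 : |(u - (n + 1 / 2)).re| ≤ ‖u - (n + 1 / 2)‖ := abs_re_le_norm _
        have h3 : (u - (n + 1 / 2)).re = u.re - (n + 1 / 2) := by simp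
        rw [h3] at h2
        exact h2.trans_lt (by simpa [dist_eq_norm] using hu)
      have h4 := (abs_lt.1 h1).1
      have h5 : (0 : ℝ) ≤ n := Nat.cast_nonneg n
      change 0 < u.re
      linarith
    refine Complex.norm_le_of_forall_mem_frontier_norm_le (U := Metric.ball ((n : ℂ) + 1 / 2) (1 / 4))
      Metric.isBounded_ball (hg.mono hball) (fun u hu => ?_) (subset_closure ?_)
    · rw [frontier_ball _ (by norm_num)] at hu
      have hu' : ‖u - (n + 1 / 2)‖ = 1 / 4 := by simpa [dist_eq_norm] using hu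
      have hure : 0 ≤ u.re := by
        have h2 : |(u - (n + 1 / 2)).re| ≤ ‖u - (n + 1 / 2)‖ := abs_re_le_norm _
        have h3 : (u - (n + 1 / 2)).re = u.re - (n + 1 / 2) := by simp
        rw [h3, hu'] at h2
        have h4 := (abs_le.1 h2).1
        have h5 : (0 : ℝ) ≤ n := Nat.cast_nonneg n
        linarith
      have hfar : ∀ m : ℕ, 1 / 4 ≤ ‖u - (m + 1 / 2)‖ := by
        intro m
        rcases eq_or_ne m n with rfl | hmn
        · exact hu'.ge
        · have h6 : (1 : ℝ) ≤ ‖((m : ℂ) + 1 / 2) - (n + 1 / 2)‖ := by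
            have : ((m : ℂ) + 1 / 2) - (n + 1 / 2) = (((m : ℤ) - (n : ℤ) : ℤ) : ℂ) := by
              push_cast; ring
            rw [this, Complex.norm_intCast]
            have h7 : (1 : ℤ) ≤ |(m : ℤ) - (n : ℤ)| := by
              apply Int.one_le_abs
              omega
            exact_mod_cast h7
          have h8 : ‖((m : ℂ) + 1 / 2) - (n + 1 / 2)‖ ≤ ‖u - (m + 1 / 2)‖ + ‖u - (n + 1 / 2)‖ := by
            have : ((m : ℂ) + 1 / 2) - (n + 1 / 2) = (u - (n + 1 / 2)) - (u - (m + 1 / 2)) := by ring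
            rw [this]
            refine (norm_sub_le _ _).trans (by rw [add_comm])
          linarith
      refine (hb u hure hfar).trans ?_
      have hd : ‖u - z‖ ≤ 1 / 2 := by
        have : u - z = (u - (n + 1 / 2)) - (z - (n + 1 / 2)) := by ring
        rw [this]
        refine (norm_sub_le _ _).trans ?_
        linarith
      have hw := pl2c_weight (K := K) hδ hd
      have h9 : η + Real.exp (K * u.re - δ * |u.im|) ≤
          Real.exp (|K| / 2 + δ / 2) * (η + Real.exp (K * z.re - δ * |z.im|)) := by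
        have : η ≤ Real.exp (|K| / 2 + δ / 2) * η := le_mul_of_one_le_left hη hE
        linarith
      calc C * (η + Real.exp (K * u.re - δ * |u.im|))
          ≤ C * (Real.exp (|K| / 2 + δ / 2) * (η + Real.exp (K * z.re - δ * |z.im|))) :=
            mul_le_mul_of_nonneg_left h9 hC
        _ = _ := by ring
    · simpa [dist_eq_norm] using hn

/-- points of the right half plane far from the positive half integers are far from all of them -/
theorem pl2c_far {z : ℂ} (hz : 0 ≤ z.re) (h : ∀ n : ℕ, 1 / 4 ≤ ‖z - (n + 1 / 2)‖) (n : ℤ) :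
    1 / 4 ≤ ‖z - (n + 1 / 2)‖ := by
  rcases Int.le_total 0 n with hn | hn
  · obtain ⟨m, rfl⟩ := Int.eq_ofNat_of_zero_le hn
    simpa using h m
  · rcases eq_or_lt_of_le hn with rfl | hn'
    · simpa using h 0
    · have h1 : (n : ℝ) ≤ -1 := by exact_mod_cast Int.le_sub_one_of_lt hn'
      have h2 : |(z - (n + 1 / 2)).re| ≤ ‖z - (n + 1 / 2)‖ := abs_re_le_norm _
      have h3 : (z - (n + 1 / 2)).re = z.re - (n + 1 / 2) := by simp
      rw [h3] at h2
      have h4 := le_abs_self (z.re - (n + 1 / 2))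
      linarith

/-- Key proposition. -/
theorem core_decay {w : ℂ → ℂ} (hw : DiffContOnCl ℂ w {z | 0 < z.re}) {C K c : ℝ} (hc : c < Real.pi)
    (hb : ∀ z : ℂ, 0 ≤ z.re → ‖w z‖ ≤ C * Real.exp (K * z.re + c * |z.im|))
    (hs : ∀ A : ℝ, ∃ M : ℝ, ∀ n : ℕ, ‖w (n + 1 / 2)‖ ≤ M * Real.exp (-A * n)) :
    ∀ A : ℝ, ∃ M : ℝ, ∀ x : ℝ, 0 ≤ x → ‖w x‖ ≤ M * Real.exp (-A * x) := by
  intro A
  obtain ⟨M1, hM1⟩ := hs (A + 1)
  set wA : ℂ → ℂ := fun z => w z * cexp (A * z) with hwA
  have hC : 0 ≤ C := by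
    have := hb 0 (by simp)
    simp at this
    exact (norm_nonneg _).trans this
  have hnA : ∀ z : ℂ, ‖wA z‖ = ‖w z‖ * Real.exp (A * z.re) := by
    intro z
    simp only [hwA, norm_mul, Complex.norm_exp]
    simp
  have hwAd : DiffContOnCl ℂ wA {z | 0 < z.re} := by
    have : Differentiable ℂ fun z : ℂ => cexp (A * z) := by fun_prop
    exact hw.smul this.diffContOnCl
  have hsum : Summable fun n : ℕ => ‖wA (n + 1 / 2)‖ := by
    have hg : Summable fun n : ℕ => (M1 * Real.exp (A / 2)) * (Real.exp (-1)) ^ n :=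
      (summable_geometric_of_lt_one (Real.exp_pos _).le (by
        rw [Real.exp_lt_one_iff]; norm_num)).mul_left _
    refine Summable.of_nonneg_of_le (fun n => norm_nonneg _) (fun n => ?_) hg
    rw [hnA]
    have h1 := hM1 n
    have h2 : ((n : ℂ) + 1 / 2).re = n + 1 / 2 := by simp
    rw [h2]
    calc ‖w (n + 1 / 2)‖ * Real.exp (A * (n + 1 / 2))
        ≤ (M1 * Real.exp (-(A + 1) * n)) * Real.exp (A * (n + 1 / 2)) :=
          mul_le_mul_of_nonneg_right h1 (Real.exp_pos _).le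
      _ = (M1 * Real.exp (A / 2)) * (Real.exp (-1)) ^ n := by
          rw [← Real.exp_nat_mul, mul_assoc, mul_assoc, ← Real.exp_add, ← Real.exp_add]
          congr 2
          ring
  obtain ⟨S, R, M, hS, hSn, hSR, hSx⟩ := cos_interp hsum
  set N : ℂ → ℂ := fun z => wA z - S z with hN
  have hNd : DiffContOnCl ℂ N {z | 0 < z.re} := hwAd.sub hS.diffContOnCl
  obtain ⟨g, hg, hgN⟩ := cos_quotient hNd (fun n => by
    simp only [hN]
    rw [hSn n, sub_self])
  obtain ⟨c0, hc0, hcos⟩ := cos_lower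
  have hM0 : 0 ≤ M := (norm_nonneg _).trans (hSx 0)
  set δ : ℝ := Real.pi - c with hδ
  have hδ0 : 0 < δ := sub_pos.2 hc
  set C1 : ℝ := C / c0 + M with hC1
  have hC10 : 0 ≤ C1 := by positivity
  have hout : ∀ z : ℂ, 0 ≤ z.re → (∀ n : ℕ, 1 / 4 ≤ ‖z - (n + 1 / 2)‖) →
      ‖g z‖ ≤ C1 * (1 + Real.exp ((K + A) * z.re - δ * |z.im|)) := by
    intro z hz hfar
    have hl := hcos z (pl2c_far hz hfar)
    have hcp : 0 < ‖Complex.cos (Real.pi * z)‖ := lt_of_lt_of_le (by positivity) hl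
    have hne : Complex.cos (Real.pi * z) ≠ 0 := norm_pos_iff.1 hcp
    obtain ⟨hS1, hR1⟩ := hSR z hfar
    have hgz : g z = wA z / Complex.cos (Real.pi * z) - R z := by
      have h1 := hgN z hz
      simp only [hN] at h1
      rw [hS1] at h1
      field_simp
      rw [mul_comm (g z)]
      rw [← h1]
    rw [hgz]
    have h2 : ‖wA z / Complex.cos (Real.pi * z)‖ ≤ C / c0 * Real.exp ((K + A) * z.re - δ * |z.im|) := by
      rw [norm_div, div_le_iff₀ hcp]
      calc ‖wA z‖ = ‖w z‖ * Real.exp (A * z.re) := hnA z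
        _ ≤ (C * Real.exp (K * z.re + c * |z.im|)) * Real.exp (A * z.re) :=
            mul_le_mul_of_nonneg_right (hb z hz) (Real.exp_pos _).le
        _ = C / c0 * Real.exp ((K + A) * z.re - δ * |z.im|) * (c0 * Real.exp (Real.pi * |z.im|)) := by
            have : C / c0 * Real.exp ((K + A) * z.re - δ * |z.im|) * (c0 * Real.exp (Real.pi * |z.im|)) =
              (C / c0 * c0) * (Real.exp ((K + A) * z.re - δ * |z.im|) * Real.exp (Real.pi * |z.im|)) := by ring
            rw [this, div_mul_cancel₀ _ hc0.ne', ← Real.exp_add, mul_assoc, ← Real.exp_add]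
            congr 2
            rw [hδ]; ring
        _ ≤ C / c0 * Real.exp ((K + A) * z.re - δ * |z.im|) * ‖Complex.cos (Real.pi * z)‖ :=
            mul_le_mul_of_nonneg_left hl (by positivity)
    calc ‖wA z / Complex.cos (Real.pi * z) - R z‖
        ≤ ‖wA z / Complex.cos (Real.pi * z)‖ + ‖R z‖ := norm_sub_le _ _
      _ ≤ C / c0 * Real.exp ((K + A) * z.re - δ * |z.im|) + M := add_le_add h2 hR1
      _ ≤ C1 * (1 + Real.exp ((K + A) * z.re - δ * |z.im|)) := by
          rw [hC1]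
          have h3 : 0 ≤ C / c0 := by positivity
          have h4 : 0 ≤ M * Real.exp ((K + A) * z.re - δ * |z.im|) := by positivity
          nlinarith [h3, h4]
  have hfill := pl2c_fill hg hδ0 zero_le_one hC10 hout
  have hbd := sector_bound hg hδ0 hfill
  refine ⟨2 * (C1 * Real.exp (|K + A| / 2 + δ / 2)) + M, fun x hx => ?_⟩
  have hx' : 0 ≤ ((x : ℂ)).re := by simpa using hx
  have h1 := hgN x hx'
  have h2 : wA x = Complex.cos (Real.pi * x) * g x + S x := by
    rw [← h1]; simp only [hN]; ring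
  have h3 : ‖Complex.cos (Real.pi * x)‖ ≤ 1 := by
    have : Complex.cos (Real.pi * x) = ((Real.cos (Real.pi * x) : ℝ) : ℂ) := by
      push_cast; rfl
    rw [this, Complex.norm_real]
    exact Real.abs_cos_le_one _
  have h4 : ‖wA x‖ ≤ 2 * (C1 * Real.exp (|K + A| / 2 + δ / 2)) + M := by
    rw [h2]
    calc ‖Complex.cos (Real.pi * x) * g x + S x‖ ≤ ‖Complex.cos (Real.pi * x) * g x‖ + ‖S x‖ := norm_add_le _ _
      _ = ‖Complex.cos (Real.pi * x)‖ * ‖g x‖ + ‖S x‖ := by rw [norm_mul]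
      _ ≤ 1 * (2 * (C1 * Real.exp (|K + A| / 2 + δ / 2))) + M :=
          add_le_add (mul_le_mul h3 (hbd x hx') (norm_nonneg _) zero_le_one) (hSx x)
      _ = _ := by ring
  rw [hnA, Complex.ofReal_re] at h4
  have h5 : ‖w x‖ = (‖w x‖ * Real.exp (A * x)) * Real.exp (-A * x) := by
    rw [mul_assoc, ← Real.exp_add]
    simp
  rw [h5]
  exact mul_le_mul_of_nonneg_right h4 (Real.exp_pos _).le

/-- Carlson's theorem (half integer form): `w` vanishes at all `n + 1/2`, then `w = 0` in the right half plane. -/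
theorem core_zero {w : ℂ → ℂ} (hw : DiffContOnCl ℂ w {z | 0 < z.re}) {C K c : ℝ} (hc : c < Real.pi)
    (hb : ∀ z : ℂ, 0 ≤ z.re → ‖w z‖ ≤ C * Real.exp (K * z.re + c * |z.im|))
    (hs : ∀ n : ℕ, w (n + 1 / 2) = 0) :
    ∀ z : ℂ, 0 ≤ z.re → w z = 0 := by
  have hC : 0 ≤ C := by
    have := hb 0 (by simp)
    simp at this
    exact (norm_nonneg _).trans this
  obtain ⟨g, hg, hgN⟩ := cos_quotient hw hs
  obtain ⟨c0, hc0, hcos⟩ := cos_lower
  set δ : ℝ := Real.pi - c with hδ
  have hδ0 : 0 < δ := sub_pos.2 hc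
  have hout : ∀ z : ℂ, 0 ≤ z.re → (∀ n : ℕ, 1 / 4 ≤ ‖z - (n + 1 / 2)‖) →
      ‖g z‖ ≤ (C / c0) * (0 + Real.exp (K * z.re - δ * |z.im|)) := by
    intro z hz hfar
    have hl := hcos z (pl2c_far hz hfar)
    have hcp : 0 < ‖Complex.cos (Real.pi * z)‖ := lt_of_lt_of_le (by positivity) hl
    have hne : Complex.cos (Real.pi * z) ≠ 0 := norm_pos_iff.1 hcp
    have hgz : g z = w z / Complex.cos (Real.pi * z) := by
      rw [hgN z hz]
      field_simp
    rw [hgz, norm_div, div_le_iff₀ hcp, zero_add]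
    calc ‖w z‖ ≤ C * Real.exp (K * z.re + c * |z.im|) := hb z hz
      _ = C / c0 * Real.exp (K * z.re - δ * |z.im|) * (c0 * Real.exp (Real.pi * |z.im|)) := by
            have : C / c0 * Real.exp (K * z.re - δ * |z.im|) * (c0 * Real.exp (Real.pi * |z.im|)) =
              (C / c0 * c0) * (Real.exp (K * z.re - δ * |z.im|) * Real.exp (Real.pi * |z.im|)) := by ring
            rw [this, div_mul_cancel₀ _ hc0.ne', ← Real.exp_add]
            congr 2
            rw [hδ]; ring
      _ ≤ C / c0 * Real.exp (K * z.re - δ * |z.im|) * ‖Complex.cos (Real.pi * z)‖ :=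
            mul_le_mul_of_nonneg_left hl (by positivity)
  have hfill := pl2c_fill hg hδ0 le_rfl (by positivity) hout
  set C2 : ℝ := C / c0 * Real.exp (|K| / 2 + δ / 2) with hC2
  have hC20 : 0 ≤ C2 := by positivity
  -- `g` vanishes in the open half plane
  have hg0 : ∀ z : ℂ, 0 < z.re → g z = 0 := by
    intro z hz
    have hA : ∀ A : ℝ, ‖g z‖ * Real.exp (A * z.re) ≤ 2 * C2 := by
      intro A
      have hgA : DiffContOnCl ℂ (fun u => g u * cexp (A * u)) {z | 0 < z.re} := by
        have : Differentiable ℂ fun z : ℂ => cexp (A * z) := by fun_prop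
        exact hg.smul this.diffContOnCl
      have h1 : ∀ u : ℂ, 0 ≤ u.re → ‖g u * cexp (A * u)‖ ≤
          C2 * (1 + Real.exp ((K + A) * u.re - δ * |u.im|)) := by
        intro u hu
        rw [norm_mul, Complex.norm_exp]
        have h2 : ((A : ℂ) * u).re = A * u.re := by simp
        rw [h2]
        calc ‖g u‖ * Real.exp (A * u.re)
            ≤ (C2 * (0 + Real.exp (K * u.re - δ * |u.im|))) * Real.exp (A * u.re) :=
              mul_le_mul_of_nonneg_right (hfill u hu) (Real.exp_pos _).le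
          _ = C2 * Real.exp ((K + A) * u.re - δ * |u.im|) := by
              rw [zero_add, mul_assoc, ← Real.exp_add]
              congr 2
              ring
          _ ≤ C2 * (1 + Real.exp ((K + A) * u.re - δ * |u.im|)) :=
              mul_le_mul_of_nonneg_left (by linarith) hC20
      have h3 := sector_bound hgA hδ0 h1 z hz.le
      rw [norm_mul, Complex.norm_exp] at h3
      simpa using h3
    by_contra hne
    have hpos : 0 < ‖g z‖ := norm_pos_iff.2 hne
    have h4 := hA ((2 * C2 / ‖g z‖) / z.re)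
    rw [div_mul_cancel₀ _ hz.ne'] at h4
    have h5 := Real.add_one_le_exp (2 * C2 / ‖g z‖)
    have h6 : ‖g z‖ * (2 * C2 / ‖g z‖ + 1) ≤ 2 * C2 := (mul_le_mul_of_nonneg_left h5 hpos.le).trans h4
    have h7 : ‖g z‖ * (2 * C2 / ‖g z‖ + 1) = 2 * C2 + ‖g z‖ := by
      field_simp
    linarith
  have hw0 : ∀ z : ℂ, 0 < z.re → w z = 0 := fun z hz => by rw [hgN z hz.le, hg0 z hz, mul_zero]
  intro z hz
  have hcl : closure {z : ℂ | 0 < z.re} = {z : ℂ | 0 ≤ z.re} := Complex.closure_setOfPred_lt_re 0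
  have hcont : ContinuousOn w (closure {z : ℂ | 0 < z.re}) := hw.continuousOn
  have hmaps : Set.MapsTo w {z : ℂ | 0 < z.re} {(0 : ℂ)} := fun u hu => by
    simpa using hw0 u hu
  have := hmaps.closure_of_continuousOn hcont (show z ∈ closure {z : ℂ | 0 < z.re} by rw [hcl]; exact hz)
  simpa using this

end Pool.Agent.MPd164ca
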