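import Pool.Agent.Lib.MP_d164ca_an.PL2

/-!
# MP_d164ca_an, PL3: the two uniqueness theorems
-/

namespace Pool.Agent.MPd164ca

open Complex Set Filter

/-- translation by a nonnegative real keeps `DiffContOnCl` on the right half plane -/
theorem shift_dcc {f : ℂ → ℂ} (hf : DiffContOnCl ℂ f {z | 0 < z.re}) {s : ℝ} (hs : 0 ≤ s) :
    DiffContOnCl ℂ (fun z => f (z + s)) {z | 0 < z.re} := by
  have h1 : DiffContOnCl ℂ (fun z : ℂ => z + s) {z | 0 < z.re} :=
    (differentiable_id.add_const _).diffContOnCl
  refine hf.comp h1 ?_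
  intro z hz
  simp only [mem_setOf_eq, add_re, ofReal_re] at *
  linarith

/-- the translate by `1/2` satisfies the bounds of the core statements -/
theorem shift_bound {f : ℂ → ℂ} (hf : DiffContOnCl ℂ f {z | 0 < z.re}) {C K c : ℝ}
    (hexp : ∀ z : ℂ, 0 ≤ z.re → ‖f z‖ ≤ C * Real.exp (K * ‖z‖))
    (him : ∀ y : ℝ, ‖f (y * I)‖ ≤ C * Real.exp (c * |y|)) :
    ∀ z : ℂ, 0 ≤ z.re → ‖f (z + (1 / 2 : ℝ))‖ ≤
      (C * Real.exp (K / 2)) * Real.exp (K * z.re + c * |z.im|) := by
  intro z hz
  have h := rhp_bound hf hexp him (z + (1 / 2 : ℝ)) (by simp only [add_re, ofReal_re]; linarith)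
  refine h.trans (le_of_eq ?_)
  rw [mul_assoc, ← Real.exp_add]
  simp only [add_re, ofReal_re, add_im, ofReal_im, add_zero]
  congr 2
  ring

/-- **Carlson's theorem**. -/
theorem carlson {f : ℂ → ℂ} (hf : DiffContOnCl ℂ f {z | 0 < z.re}) {C K c : ℝ} (hc : c < Real.pi)
    (hexp : ∀ z : ℂ, 0 ≤ z.re → ‖f z‖ ≤ C * Real.exp (K * ‖z‖))
    (him : ∀ y : ℝ, ‖f (y * I)‖ ≤ C * Real.exp (c * |y|))
    (h0 : ∀ n : ℕ, f n = 0) : ∀ z : ℂ, 0 ≤ z.re → f z = 0 := by
  have hw := core_zero (w := fun z => f (z + (1 / 2 : ℝ))) (shift_dcc hf (by norm_num)) hc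
    (shift_bound hf hexp him) (fun n => by
      have : ((n : ℂ) + 1 / 2 + ((1 / 2 : ℝ) : ℂ)) = ((n + 1 : ℕ) : ℂ) := by
        push_cast; ring
      simp only [this]
      exact h0 (n + 1))
  -- `f = 0` on `1/2 ≤ re z`
  have hbig : ∀ z : ℂ, 1 / 2 ≤ z.re → f z = 0 := by
    intro z hz
    have := hw (z - (1 / 2 : ℝ)) (by simp only [sub_re, ofReal_re]; linarith)
    simpa using this
  have hopen : IsOpen {z : ℂ | 0 < z.re} := isOpen_lt continuous_const continuous_re
  have hpos : ∀ z : ℂ, 0 < z.re → f z = 0 := by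
    have han : AnalyticOnNhd ℂ f {z : ℂ | 0 < z.re} := hf.differentiableOn.analyticOnNhd hopen
    have hconn : IsPreconnected {z : ℂ | 0 < z.re} := (convex_halfSpace_re_gt 0).isPreconnected
    have hev : f =ᶠ[nhds (1 : ℂ)] 0 := by
      have : {z : ℂ | 1 / 2 < z.re} ∈ nhds (1 : ℂ) :=
        (isOpen_lt continuous_const continuous_re).mem_nhds (by simp; norm_num)
      filter_upwards [this] with z hz
      exact hbig z (le_of_lt hz)
    have := han.eqOn_zero_of_preconnected_of_eventuallyEq_zero hconn
      (show (1 : ℂ) ∈ {z : ℂ | 0 < z.re} by simp) hev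
    intro z hz
    exact this hz
  intro z hz
  have hcl : closure {z : ℂ | 0 < z.re} = {z : ℂ | 0 ≤ z.re} := closure_setOf_lt_re 0
  have hcont : ContinuousOn f {z : ℂ | 0 ≤ z.re} := hcl ▸ hf.continuousOn
  have := EqOn.of_subset_closure (s := {z : ℂ | 0 < z.re}) (t := {z : ℂ | 0 ≤ z.re}) (f := f)
    (g := fun _ => 0) (fun z hz => hpos z hz) hcont continuousOn_const
    (fun z (hz : 0 < z.re) => le_of_lt hz) (by rw [hcl])
  exact this hz

/-- exponential type is an admissible growth for Phragmen-Lindelof -/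
theorem growth_isBigO {g : ℂ → ℂ} {C K : ℝ} (hg : ∀ z : ℂ, ‖g z‖ ≤ C * Real.exp (K * ‖z‖))
    (l : Filter ℂ) :
    ∃ c < (2 : ℝ), ∃ B, g =O[l] fun z => Real.exp (B * ‖z‖ ^ c) := by
  refine ⟨1, by norm_num, K, ?_⟩
  refine Asymptotics.IsBigO.of_bound C (Eventually.of_forall fun z => ?_)
  rw [Real.rpow_one, Real.norm_eq_abs, abs_of_pos (Real.exp_pos _)]
  exact hg z

theorem entire_small {f : ℂ → ℂ} (hf : Differentiable ℂ f) {C K c : ℝ} (hc : c < Real.pi)
    (hexp : ∀ z : ℂ, ‖f z‖ ≤ C * Real.exp (K * ‖z‖))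
    (him : ∀ y : ℝ, ‖f (y * I)‖ ≤ C * Real.exp (c * |y|))
    (hs : ∀ A : ℝ, ∃ M : ℝ, ∀ n : ℕ, ‖f n‖ ≤ M * Real.exp (-A * n)) : ∀ z : ℂ, f z = 0 := by
  have hC : 0 ≤ C := by
    have := (norm_nonneg _).trans (hexp 0)
    simpa using this
  -- superexponential decay on the positive axis
  have hax : ∀ A : ℝ, ∃ M : ℝ, 0 ≤ M ∧ ∀ x : ℝ, 0 ≤ x → ‖f x‖ ≤ M * Real.exp (-A * x) := by
    intro A
    obtain ⟨M, hM⟩ := core_decay (w := fun z => f (z + (1 / 2 : ℝ)))
      (shift_dcc hf.diffContOnCl (by norm_num)) hc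
      (shift_bound hf.diffContOnCl (fun z _ => hexp z) him) (fun A => by
        obtain ⟨M, hM⟩ := hs A
        refine ⟨M * Real.exp (-A), fun n => ?_⟩
        have : ((n : ℂ) + 1 / 2 + ((1 / 2 : ℝ) : ℂ)) = ((n + 1 : ℕ) : ℂ) := by
          push_cast; ring
        simp only [this]
        refine (hM (n + 1)).trans (le_of_eq ?_)
        rw [mul_assoc, ← Real.exp_add]
        congr 2
        push_cast
        ring) A
    have hM0 : 0 ≤ M := by
      have := (norm_nonneg _).trans (hM 0 le_rfl)
      simpa using this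
    refine ⟨M * Real.exp (A / 2) + C * Real.exp |K| * Real.exp |A|, by positivity, fun x hx => ?_⟩
    rcases le_or_gt (1 / 2) x with h | h
    · have h1 := hM (x - 1 / 2) (by linarith)
      have e1 : ((x - 1 / 2 : ℝ) : ℂ) + ((1 / 2 : ℝ) : ℂ) = (x : ℂ) := by push_cast; ring
      simp only [e1] at h1
      refine h1.trans ?_
      have : M * Real.exp (-A * (x - 1 / 2)) = M * Real.exp (A / 2) * Real.exp (-A * x) := by
        rw [mul_assoc, ← Real.exp_add]; congr 2; ring
      rw [this, add_mul]
      have : 0 ≤ C * Real.exp |K| * Real.exp |A| * Real.exp (-A * x) := by positivity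
      linarith
    · have h1 := hexp x
      have hn : ‖(x : ℂ)‖ = x := by rw [Complex.norm_real, Real.norm_eq_abs, abs_of_nonneg hx]
      rw [hn] at h1
      have h2 : Real.exp (K * x) ≤ Real.exp |K| := by
        apply Real.exp_le_exp.mpr
        calc K * x ≤ |K| * x := mul_le_mul_of_nonneg_right (le_abs_self K) hx
          _ ≤ |K| * 1 := mul_le_mul_of_nonneg_left (by linarith) (abs_nonneg K)
          _ = |K| := mul_one _
      have h3 : 1 ≤ Real.exp |A| * Real.exp (-A * x) := by
        rw [← Real.exp_add]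
        apply Real.one_le_exp
        have : A * x ≤ |A| * 1 := by
          calc A * x ≤ |A| * x := mul_le_mul_of_nonneg_right (le_abs_self A) hx
            _ ≤ |A| * 1 := mul_le_mul_of_nonneg_left (by linarith) (abs_nonneg A)
        linarith
      have h4 : 0 ≤ M * Real.exp (A / 2) * Real.exp (-A * x) := by positivity
      calc ‖f x‖ ≤ C * Real.exp (K * x) := h1
        _ ≤ C * Real.exp |K| := mul_le_mul_of_nonneg_left h2 hC
        _ = C * Real.exp |K| * 1 := (mul_one _).symm
        _ ≤ C * Real.exp |K| * (Real.exp |A| * Real.exp (-A * x)) :=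
            mul_le_mul_of_nonneg_left h3 (by positivity)
        _ ≤ (M * Real.exp (A / 2) + C * Real.exp |K| * Real.exp |A|) * Real.exp (-A * x) := by
            rw [add_mul]; nlinarith
  -- bound in the quadrants
  have hexpn : ∀ (s A : ℝ) (z : ℂ), ‖Complex.exp (A * z + s * I * z)‖ =
      Real.exp (A * z.re - s * z.im) := by
    intro s A z
    rw [Complex.norm_exp]
    congr 1
    simp only [add_re, mul_re, ofReal_re, ofReal_im, I_re, I_im, mul_im]
    ring
  have hquad : ∀ A : ℝ, ∃ M : ℝ, 0 ≤ M ∧ ∀ z : ℂ, 0 ≤ z.re →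
      ‖f z‖ ≤ M * Real.exp (-A * z.re + c * |z.im|) := by
    intro A
    obtain ⟨M, hM0, hM⟩ := hax A
    have hgd : ∀ s : ℝ, Differentiable ℂ (fun z => f z * Complex.exp (A * z + s * I * z)) := by
      intro s
      fun_prop
    have hgrow : ∀ s : ℝ, ∀ z : ℂ, ‖f z * Complex.exp (A * z + s * I * z)‖ ≤
        C * Real.exp ((K + |A| + |s|) * ‖z‖) := by
      intro s z
      rw [norm_mul, hexpn]
      have h1 : Real.exp (A * z.re - s * z.im) ≤ Real.exp ((|A| + |s|) * ‖z‖) := by
        apply Real.exp_le_exp.mpr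
        have a1 : A * z.re ≤ |A| * ‖z‖ := by
          calc A * z.re ≤ |A * z.re| := le_abs_self _
            _ = |A| * |z.re| := abs_mul _ _
            _ ≤ |A| * ‖z‖ := mul_le_mul_of_nonneg_left (abs_re_le_norm z) (abs_nonneg A)
        have a2 : -(s * z.im) ≤ |s| * ‖z‖ := by
          calc -(s * z.im) ≤ |s * z.im| := neg_le_abs _
            _ = |s| * |z.im| := abs_mul _ _
            _ ≤ |s| * ‖z‖ := mul_le_mul_of_nonneg_left (abs_im_le_norm z) (abs_nonneg s)
        linarith
      calc ‖f z‖ * Real.exp (A * z.re - s * z.im)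
          ≤ (C * Real.exp (K * ‖z‖)) * Real.exp ((|A| + |s|) * ‖z‖) :=
            mul_le_mul (hexp z) h1 (Real.exp_pos _).le (by positivity)
        _ = C * Real.exp ((K + |A| + |s|) * ‖z‖) := by
            rw [mul_assoc, ← Real.exp_add]; congr 2; ring
    refine ⟨max M C, le_max_of_le_left hM0, fun z hz => ?_⟩
    have hre : ∀ s : ℝ, ∀ x : ℝ, 0 ≤ x → ‖f x * Complex.exp (A * x + s * I * x)‖ ≤ max M C := by
      intro s x hx
      rw [norm_mul, hexpn]
      simp only [ofReal_re, ofReal_im, mul_zero, sub_zero]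
      refine le_trans ?_ (le_max_left M C)
      calc ‖f x‖ * Real.exp (A * x) ≤ (M * Real.exp (-A * x)) * Real.exp (A * x) :=
            mul_le_mul_of_nonneg_right (hM x hx) (Real.exp_pos _).le
        _ = M := by
            rw [mul_assoc, ← Real.exp_add]
            have : -A * x + A * x = 0 := by ring
            rw [this, Real.exp_zero, mul_one]
    have hconc : ∀ s : ℝ, ‖f z * Complex.exp (A * z + s * I * z)‖ ≤ max M C →
        s * z.im = c * |z.im| → ‖f z‖ ≤ max M C * Real.exp (-A * z.re + c * |z.im|) := by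
      intro s h hs1
      rw [norm_mul, hexpn, hs1] at h
      have hmul := mul_le_mul_of_nonneg_right h (Real.exp_pos (-A * z.re + c * |z.im|)).le
      rw [mul_assoc, ← Real.exp_add] at hmul
      have : A * z.re - c * |z.im| + (-A * z.re + c * |z.im|) = 0 := by ring
      rwa [this, Real.exp_zero, mul_one] at hmul
    rcases le_total 0 z.im with hzi | hzi
    · refine hconc c (PhragmenLindelof.quadrant_I
        (f := fun z => f z * Complex.exp (A * z + c * I * z)) (hgd c).diffContOnCl
        (growth_isBigO (hgrow c) _) (hre c) ?_ hz hzi) (by rw [abs_of_nonneg hzi])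
      intro y hy
      rw [norm_mul, hexpn]
      simp only [mul_re, ofReal_re, I_re, mul_zero, ofReal_im, I_im, mul_one, sub_self, mul_im,
        add_zero, zero_sub]
      refine le_trans ?_ (le_max_right M C)
      calc ‖f (y * I)‖ * Real.exp (-(c * y)) ≤ (C * Real.exp (c * |y|)) * Real.exp (-(c * y)) :=
            mul_le_mul_of_nonneg_right (him y) (Real.exp_pos _).le
        _ = C := by
            rw [mul_assoc, ← Real.exp_add, abs_of_nonneg hy]
            have : c * y + -(c * y) = 0 := by ring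
            rw [this, Real.exp_zero, mul_one]
    · refine hconc (-c) (PhragmenLindelof.quadrant_IV
        (f := fun z => f z * Complex.exp (A * z + ((-c : ℝ) : ℂ) * I * z)) (hgd (-c)).diffContOnCl
        (growth_isBigO (hgrow (-c)) _) (hre (-c)) ?_ hz hzi) (by rw [abs_of_nonpos hzi]; ring)
      intro y hy
      rw [norm_mul, hexpn]
      simp only [mul_re, ofReal_re, I_re, mul_zero, ofReal_im, I_im, mul_one, sub_self, mul_im,
        add_zero, zero_sub]
      refine le_trans ?_ (le_max_right M C)
      calc ‖f (y * I)‖ * Real.exp (-(-c * y)) ≤ (C * Real.exp (c * |y|)) * Real.exp (-(-c * y)) :=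
            mul_le_mul_of_nonneg_right (him y) (Real.exp_pos _).le
        _ = C := by
            rw [mul_assoc, ← Real.exp_add, abs_of_nonpos hy]
            have : c * -y + -(-c * y) = 0 := by ring
            rw [this, Real.exp_zero, mul_one]
  -- the rotated function
  set K' : ℝ := Real.sqrt 2 * |K| with hK'
  have hn1I : ‖(1 + I : ℂ)‖ = Real.sqrt 2 := by
    rw [← Real.sqrt_sq (norm_nonneg (1 + I : ℂ)), ← Complex.normSq_eq_norm_sq]
    congr 1
    simp [Complex.normSq_apply]
    norm_num
  have hhn : ∀ z : ℂ, ‖f ((1 + I) * z) * Complex.exp (K' * ((1 + I) * z))‖ =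
      ‖f ((1 + I) * z)‖ * Real.exp (K' * (z.re - z.im)) := by
    intro z
    rw [norm_mul, Complex.norm_exp]
    congr 2
    simp only [mul_re, ofReal_re, add_re, one_re, I_re, add_im, one_im, I_im, ofReal_im]
    ring
  have hzero := PhragmenLindelof.eq_zero_on_right_half_plane_of_superexponential_decay
    (f := fun z => f ((1 + I) * z) * Complex.exp (K' * ((1 + I) * z)))
    (Differentiable.diffContOnCl (by fun_prop))
    (growth_isBigO (C := C) (K := 2 * |K| + 2 * K') (fun z => by
      rw [hhn]
      have h1 := hexp ((1 + I) * z)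
      rw [norm_mul, hn1I] at h1
      have hs2 : Real.sqrt 2 ≤ 2 := by
        rw [show (2 : ℝ) = Real.sqrt 4 by
          rw [show (4 : ℝ) = 2 ^ 2 by norm_num, Real.sqrt_sq (by norm_num)]]
        exact Real.sqrt_le_sqrt (by
          rw [show (4 : ℝ) = 2 ^ 2 by norm_num, Real.sqrt_sq (by norm_num)]; norm_num)
      have hz0 := norm_nonneg z
      have hK0 : 0 ≤ K' := by positivity
      have e1 : K * (Real.sqrt 2 * ‖z‖) ≤ 2 * |K| * ‖z‖ := by
        calc K * (Real.sqrt 2 * ‖z‖) ≤ |K| * (Real.sqrt 2 * ‖z‖) :=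
              mul_le_mul_of_nonneg_right (le_abs_self K) (by positivity)
          _ ≤ |K| * (2 * ‖z‖) := by gcongr
          _ = 2 * |K| * ‖z‖ := by ring
      have e2 : K' * (z.re - z.im) ≤ 2 * K' * ‖z‖ := by
        have a1 := (abs_le.mp (abs_re_le_norm z)).2
        have a2 := (abs_le.mp (abs_im_le_norm z)).1
        nlinarith
      calc ‖f ((1 + I) * z)‖ * Real.exp (K' * (z.re - z.im))
          ≤ (C * Real.exp (2 * |K| * ‖z‖)) * Real.exp (2 * K' * ‖z‖) := by
            apply mul_le_mul
            · exact h1.trans (mul_le_mul_of_nonneg_left (Real.exp_le_exp.mpr e1) hC)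
            · exact Real.exp_le_exp.mpr e2
            · exact (Real.exp_pos _).le
            · positivity
        _ = C * Real.exp ((2 * |K| + 2 * K') * ‖z‖) := by
            rw [mul_assoc, ← Real.exp_add]; congr 2; ring) _)
    ?_ ?_
  · -- conclusion
    have hpos : ∀ w : ℂ, 0 ≤ w.re + w.im → f w = 0 := by
      intro w hw
      have h1 := hzero (x := (1 - I) / 2 * w) (by
        simp only [mem_setOf_eq, mul_re]
        have r1 : ((1 - I) / 2 : ℂ).re = 1 / 2 := by simp
        have r2 : ((1 - I) / 2 : ℂ).im = -(1 / 2) := by simp; norm_num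
        rw [r1, r2]; linarith)
      have h2 : (1 + I) * ((1 - I) / 2 * w) = w := by
        have : (1 + I) * ((1 - I) / 2) = (1 : ℂ) := by
          have := I_mul_I
          linear_combination (-1 / 2 : ℂ) * this
        rw [← mul_assoc, this, one_mul]
      simp only [h2, Pi.zero_apply, mul_eq_zero, Complex.exp_ne_zero, or_false] at h1
      exact h1
    have hev : f =ᶠ[nhds (1 : ℂ)] 0 := by
      have : {z : ℂ | 0 < z.re + z.im} ∈ nhds (1 : ℂ) :=
        (isOpen_lt continuous_const (continuous_re.add continuous_im)).mem_nhds (by simp)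
      filter_upwards [this] with z hz
      exact hpos z (le_of_lt hz)
    have han : AnalyticOnNhd ℂ f univ := hf.differentiableOn.analyticOnNhd isOpen_univ
    have := han.eqOn_zero_of_preconnected_of_eventuallyEq_zero isPreconnected_univ
      (mem_univ (1 : ℂ)) hev
    intro z
    exact this (mem_univ z)
  · -- superexponential decay
    intro n
    obtain ⟨M, hM0, hM⟩ := hquad (n + c + K' + 1)
    refine squeeze_zero' (g := fun x : ℝ => M * Real.exp (-x)) ?_ ?_ ?_
    · exact Eventually.of_forall fun x => by positivity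
    · filter_upwards [eventually_ge_atTop (0 : ℝ)] with x hx
      rw [hhn]
      have hr : ((1 + I) * (x : ℂ)).re = x := by simp
      have hi : ((1 + I) * (x : ℂ)).im = x := by simp
      have h1 := hM ((1 + I) * x) (by rw [hr]; exact hx)
      rw [hr, hi, abs_of_nonneg hx] at h1
      simp only [ofReal_re, ofReal_im, sub_zero]
      rw [← Real.exp_nat_mul]
      calc Real.exp (n * x) * (‖f ((1 + I) * x)‖ * Real.exp (K' * x))
          ≤ Real.exp (n * x) * ((M * Real.exp (-(n + c + K' + 1) * x + c * x)) *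
              Real.exp (K' * x)) := by gcongr
        _ = M * (Real.exp (n * x) * Real.exp (-(n + c + K' + 1) * x + c * x) *
              Real.exp (K' * x)) := by ring
        _ = M * Real.exp (-x) := by
            rw [← Real.exp_add, ← Real.exp_add]; congr 2; ring
    · have := (Real.tendsto_exp_neg_atTop_nhds_zero).const_mul M
      simpa using this
  · -- bound on the imaginary axis
    obtain ⟨M, hM0, hM⟩ := hquad (c + K')
    refine ⟨max M C, fun y => ?_⟩
    rw [hhn]
    have hr : ((1 + I) * (y * I : ℂ)).re = -y := by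
      simp only [mul_re, add_re, one_re, I_re, add_im, one_im, I_im, ofReal_re, ofReal_im, mul_im]
      ring
    have hi : ((1 + I) * (y * I : ℂ)).im = y := by
      simp only [mul_re, add_re, one_re, I_re, add_im, one_im, I_im, ofReal_re, ofReal_im, mul_im]
      ring
    have hr2 : (y * I : ℂ).re - (y * I : ℂ).im = -y := by simp
    rw [hr2]
    rcases le_total 0 y with hy | hy
    · have h1 := hexp ((1 + I) * (y * I))
      rw [norm_mul, hn1I, norm_mul, Complex.norm_real, Complex.norm_I, mul_one, Real.norm_eq_abs,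
        abs_of_nonneg hy] at h1
      refine le_trans ?_ (le_max_right M C)
      have e1 : K * (Real.sqrt 2 * y) ≤ K' * y := by
        calc K * (Real.sqrt 2 * y) ≤ |K| * (Real.sqrt 2 * y) :=
              mul_le_mul_of_nonneg_right (le_abs_self K) (by positivity)
          _ = K' * y := by rw [hK']; ring
      calc ‖f ((1 + I) * (y * I))‖ * Real.exp (K' * -y)
          ≤ (C * Real.exp (K' * y)) * Real.exp (K' * -y) :=
            mul_le_mul_of_nonneg_right (h1.trans
              (mul_le_mul_of_nonneg_left (Real.exp_le_exp.mpr e1) hC)) (Real.exp_pos _).le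
        _ = C := by
            rw [mul_assoc, ← Real.exp_add]
            have : K' * y + K' * -y = 0 := by ring
            rw [this, Real.exp_zero, mul_one]
    · have h1 := hM ((1 + I) * (y * I)) (by rw [hr]; linarith)
      rw [hr, hi, abs_of_nonpos hy] at h1
      refine le_trans ?_ (le_max_left M C)
      calc ‖f ((1 + I) * (y * I))‖ * Real.exp (K' * -y)
          ≤ (M * Real.exp (-(c + K') * -y + c * -y)) * Real.exp (K' * -y) :=
            mul_le_mul_of_nonneg_right h1 (Real.exp_pos _).le
        _ = M := by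
            rw [mul_assoc, ← Real.exp_add]
            have : -(c + K') * -y + c * -y + K' * -y = 0 := by ring
            rw [this, Real.exp_zero, mul_one]

end Pool.Agent.MPd164ca
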