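import Pool.Agent.Lib.MP_d164ca_an.Fac2

/-!
# MP_d164ca_an, SSFac: factorization of a hyperbolic polynomial with `p(0) ≠ 0`
-/

namespace Pool.Agent.MPd164ca

open Polynomial Finset

theorem ss_getD_antitone (L : List ℝ) (h : L.Pairwise (fun x y => |y| ≤ |x|)) :
    Antitone (fun j => |L.getD j 0|) := by
  apply antitone_nat_of_succ_le
  induction L with
  | nil => intro n; simp
  | cons a L ih =>
    rw [List.pairwise_cons] at h
    have ih' := ih h.2
    intro n
    cases n with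
    | zero =>
      cases L with
      | nil => simp
      | cons b L => simpa using h.1 b (by simp)
    | succ n => simpa using ih' n

/-- a hyperbolic polynomial with `p(0) ≠ 0` is `p(0) ∏ (1 + s_j z)`, `|s_j|` decreasing -/
theorem ss_fac {p : ℝ[X]} (hp : Hyperbolic p) (h0 : p.coeff 0 ≠ 0) :
    ∃ s : ℕ → ℝ, (Antitone fun j => |s j|) ∧ (∀ j, p.natDegree ≤ j → s j = 0) ∧
      ∀ z : ℂ, aeval z p = (p.coeff 0 : ℂ) * ∏ j ∈ range p.natDegree, (1 + (s j : ℂ) * z) := by
  have hp0 : p ≠ 0 := by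
    rintro rfl
    simp at h0
  have hroot : ∀ z : ℂ, aeval z p = 0 → z.im = 0 := by
    rcases hp with h | h
    · exact absurd h hp0
    · exact h
  -- the complex polynomial
  set q : ℂ[X] := p.map (algebraMap ℝ ℂ) with hq
  have hq0 : q ≠ 0 := by
    rw [hq]
    exact (Polynomial.map_ne_zero_iff (algebraMap ℝ ℂ).injective).2 hp0
  have hqs : q.Splits := IsAlgClosed.splits q
  have hqeval : ∀ z : ℂ, q.eval z = aeval z p := fun z => by
    rw [hq, eval_map_algebraMap]
  have hqdeg : q.natDegree = p.natDegree := natDegree_map_eq_of_injective (algebraMap ℝ ℂ).injective p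
  have hcard : Multiset.card q.roots = p.natDegree := by
    rw [← hqdeg]; exact hqs.natDegree_eq_card_roots.symm
  have hc0q : q.eval 0 = ((p.coeff 0 : ℝ) : ℂ) := by
    rw [← coeff_zero_eq_eval_zero, hq, coeff_map]
    rfl
  have hneg : ∀ r ∈ q.roots, r = ((r.re : ℝ) : ℂ) ∧ r ≠ 0 := by
    intro r hr
    have hr0' : q.eval r = 0 := (mem_roots hq0).1 hr
    have hr0 : aeval r p = 0 := by
      rw [← hqeval]
      exact hr0'
    have him := hroot r hr0
    have hrre : r = ((r.re : ℝ) : ℂ) := by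
      apply Complex.ext <;> simp [him]
    refine ⟨hrre, ?_⟩
    rintro rfl
    rw [hc0q] at hr0'
    exact h0 (by exact_mod_cast hr0')
  -- the product formula
  have hprod : ∀ z : ℂ, q.eval z = q.leadingCoeff * (q.roots.map (fun r => z - r)).prod :=
    fun z => hqs.eval_eq_prod_roots z
  set t : ℂ → ℝ := fun r => -(r.re)⁻¹ with ht
  have hfac : ∀ r ∈ q.roots, ∀ z : ℂ, z - r = (-r) * (1 + ((t r : ℝ) : ℂ) * z) := by
    intro r hr z
    obtain ⟨h1, h3⟩ := hneg r hr
    have h4 : ((t r : ℝ) : ℂ) = - r⁻¹ := by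
      rw [ht]
      push_cast
      rw [← h1]
    rw [h4]
    field_simp
    ring
  have hprod2 : ∀ z : ℂ, (q.roots.map (fun r => z - r)).prod =
      (q.roots.map (fun r => -r)).prod * (q.roots.map (fun r => 1 + ((t r : ℝ) : ℂ) * z)).prod := by
    intro z
    rw [← Multiset.prod_map_mul]
    congr 1
    exact Multiset.map_congr rfl fun r hr => hfac r hr z
  have hc0 : ((p.coeff 0 : ℝ) : ℂ) = q.leadingCoeff * (q.roots.map (fun r => -r)).prod := by
    have h1 := hprod 0
    rw [hprod2 0] at h1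
    simp only [mul_zero, add_zero, Multiset.map_const', Multiset.prod_replicate, one_pow,
      mul_one] at h1
    rw [← h1, hc0q]
  -- the sorted list
  set L : List ℝ := ((q.roots.map t).toList).insertionSort (fun x y => |y| ≤ |x|) with hL
  have hLlen : L.length = p.natDegree := by
    rw [hL, List.length_insertionSort, Multiset.length_toList, Multiset.card_map, hcard]
  have hLcoe : (L : Multiset ℝ) = q.roots.map t := by
    rw [hL]
    conv_rhs => rw [← Multiset.coe_toList (q.roots.map t)]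
    exact Multiset.coe_eq_coe.2 (List.perm_insertionSort _ _)
  have hLp : L.Pairwise (fun x y => |y| ≤ |x|) := by
    rw [hL]
    have h1 : Std.Total (fun x y : ℝ => |y| ≤ |x|) := ⟨fun x y => le_total _ _⟩
    have h2 : IsTrans ℝ (fun x y : ℝ => |y| ≤ |x|) := ⟨fun x y z h h' => h'.trans h⟩
    exact List.pairwise_insertionSort _ _
  refine ⟨fun j => L.getD j 0, ?_, ?_, ?_⟩
  · exact ss_getD_antitone L hLp
  · intro j hj
    exact List.getD_eq_default _ _ (by rw [hLlen]; exact hj)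
  · intro z
    rw [← hqeval, hprod, hprod2, hc0, ← hLlen, list_prod_getD L (fun x => 1 + (x : ℂ) * z), mul_assoc]
    congr 2
    rw [← Multiset.prod_coe, ← Multiset.map_coe, hLcoe, Multiset.map_map]
    rfl

theorem ss_prod_coeffs (s : ℕ → ℝ) (n : ℕ) :
    (∏ j ∈ range n, (1 + C (s j) * X : ℝ[X])).coeff 0 = 1 ∧
    (∏ j ∈ range n, (1 + C (s j) * X : ℝ[X])).coeff 1 = ∑ j ∈ range n, s j ∧
    2 * (∏ j ∈ range n, (1 + C (s j) * X : ℝ[X])).coeff 2 =
      (∑ j ∈ range n, s j) ^ 2 - ∑ j ∈ range n, s j ^ 2 := by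
  induction n with
  | zero => simp [coeff_one]
  | succ n ih =>
    obtain ⟨h0, h1, h2⟩ := ih
    have hexp : ∏ j ∈ range (n + 1), (1 + C (s j) * X : ℝ[X]) =
        ∏ j ∈ range n, (1 + C (s j) * X : ℝ[X]) +
          C (s n) * ((∏ j ∈ range n, (1 + C (s j) * X : ℝ[X])) * X) := by
      rw [Finset.prod_range_succ]; ring
    refine ⟨?_, ?_, ?_⟩
    · rw [hexp, coeff_add, coeff_C_mul, mul_coeff_zero, coeff_X_zero, mul_zero, mul_zero, add_zero, h0]
    · rw [hexp, coeff_add, coeff_C_mul, coeff_mul_X, h0, h1, Finset.sum_range_succ, mul_one]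
    · rw [hexp, coeff_add, coeff_C_mul, coeff_mul_X, h1, mul_add, h2, Finset.sum_range_succ,
        Finset.sum_range_succ]
      ring

/-- power sums of the `s_j` -/
theorem ss_sums {p : ℝ[X]} (h0 : p.coeff 0 ≠ 0) {s : ℕ → ℝ} {n : ℕ}
    (h : ∀ z : ℂ, aeval z p = (p.coeff 0 : ℂ) * ∏ j ∈ range n, (1 + (s j : ℂ) * z)) :
    ∑ j ∈ range n, s j = p.coeff 1 / p.coeff 0 ∧
    ∑ j ∈ range n, s j ^ 2 = (p.coeff 1 / p.coeff 0) ^ 2 - 2 * (p.coeff 2 / p.coeff 0) := by
  have hp : p = C (p.coeff 0) * ∏ j ∈ range n, (1 + C (s j) * X : ℝ[X]) := by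
    apply Polynomial.map_injective (algebraMap ℝ ℂ) (algebraMap ℝ ℂ).injective
    apply Polynomial.funext
    intro z
    rw [eval_map_algebraMap, eval_map_algebraMap, h z, map_mul, aeval_C, map_prod]
    congr 1
    refine Finset.prod_congr rfl fun j _ => ?_
    rw [map_add, map_one, map_mul, aeval_C, aeval_X]
    rfl
  obtain ⟨c0, c1, c2⟩ := ss_prod_coeffs s n
  have e1 : p.coeff 1 = p.coeff 0 * ∑ j ∈ range n, s j := by
    conv_lhs => rw [hp]
    rw [coeff_C_mul, c1]
  have e2 : 2 * p.coeff 2 = p.coeff 0 * ((∑ j ∈ range n, s j) ^ 2 - ∑ j ∈ range n, s j ^ 2) := by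
    conv_lhs => rw [hp]
    rw [coeff_C_mul, ← c2]
    ring
  have e3 : ∑ j ∈ range n, s j = p.coeff 1 / p.coeff 0 := by
    rw [e1, mul_div_cancel_left₀ _ h0]
  refine ⟨e3, ?_⟩
  rw [← e3]
  have e4 : 2 * (p.coeff 2 / p.coeff 0) = (∑ j ∈ range n, s j) ^ 2 - ∑ j ∈ range n, s j ^ 2 := by
    rw [← mul_div_assoc, e2, mul_div_cancel_left₀ _ h0]
  linarith

end Pool.Agent.MPd164ca
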