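import Pool.Agent.Lib.MP_d164ca_an.SSProd
import Pool.Agent.Lib.MP_d164ca_an.SSFac
import Pool.Agent.Lib.MP_d164ca_an.Newt1

/-!
# MP_d164ca_an, SSLP: power series all of whose Jensen type polynomials are hyperbolic
(the Laguerre-Polya class, explicit form)
-/

namespace Pool.Agent.MPd164ca

open Polynomial Finset Filter Topology Complex

/-- the polynomial `∑_{k ≤ N} N(N-1)...(N-k+1) a_k x^k` -/
noncomputable def ssJ (a : ℕ → ℝ) (N : ℕ) : ℝ[X] :=
  ∑ k ∈ range (N + 1), monomial k ((N.descFactorial k : ℝ) * a k)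

/-- the polynomial `∑_{k ≤ N} N(N-1)...(N-k+1) / N^k a_k x^k` -/
noncomputable def ssQ (a : ℕ → ℝ) (N : ℕ) : ℝ[X] :=
  ∑ k ∈ range (N + 1), monomial k ((N.descFactorial k : ℝ) / (N : ℝ) ^ k * a k)

theorem ssJ_coeff (a : ℕ → ℝ) (N k : ℕ) : (ssJ a N).coeff k = (N.descFactorial k : ℝ) * a k := by
  unfold ssJ
  rw [finsetSum_coeff]
  simp only [coeff_monomial]
  rw [Finset.sum_ite_eq']
  split_ifs with h
  · rfl
  · rw [Nat.descFactorial_of_lt (by simpa using h), Nat.cast_zero, zero_mul]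

theorem ssQ_coeff (a : ℕ → ℝ) (N k : ℕ) :
    (ssQ a N).coeff k = (N.descFactorial k : ℝ) / (N : ℝ) ^ k * a k := by
  unfold ssQ
  rw [finsetSum_coeff]
  simp only [coeff_monomial]
  rw [Finset.sum_ite_eq']
  split_ifs with h
  · rfl
  · rw [Nat.descFactorial_of_lt (by simpa using h), Nat.cast_zero, zero_div, zero_mul]

theorem ssQ_natDegree (a : ℕ → ℝ) (N : ℕ) : (ssQ a N).natDegree ≤ N := by
  rw [natDegree_le_iff_coeff_eq_zero]
  intro k hk
  rw [ssQ_coeff, Nat.descFactorial_of_lt hk, Nat.cast_zero, zero_div, zero_mul]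

theorem ssQ_hyp {a : ℕ → ℝ} {N : ℕ} (hN : 0 < N) (h : Hyperbolic (ssJ a N)) :
    Hyperbolic (ssQ a N) := by
  have hN' : (N : ℝ) ≠ 0 := by positivity
  have hNc : (N : ℂ) ≠ 0 := by exact_mod_cast hN.ne'
  have hval : ∀ z : ℂ, aeval z (ssQ a N) = aeval (z / N) (ssJ a N) := by
    intro z
    unfold ssQ ssJ
    rw [map_sum, map_sum]
    refine Finset.sum_congr rfl fun k _ => ?_
    rw [aeval_monomial, aeval_monomial]
    simp only [Complex.coe_algebraMap]
    push_cast
    rw [div_pow]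
    ring
  rcases h with h | h
  · left
    ext k
    have h2 : (ssJ a N).coeff k = 0 := by rw [h, Polynomial.coeff_zero]
    rw [ssJ_coeff] at h2
    rw [ssQ_coeff, Polynomial.coeff_zero, div_mul_eq_mul_div, h2, zero_div]
  · right
    intro z hz
    rw [hval] at hz
    have := h _ hz
    have h2 : (z / (N : ℂ)).im = z.im / N := by
      rw [← Complex.ofReal_natCast, Complex.div_ofReal_im]
    rw [h2, div_eq_zero_iff] at this
    exact this.resolve_right hN'

theorem ss_desc_limit (k : ℕ) :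
    Tendsto (fun n : ℕ => (n.descFactorial k : ℝ) / (n : ℝ) ^ k) atTop (𝓝 1) := by
  induction k with
  | zero => simp
  | succ k ih =>
    have h2 : Tendsto (fun n : ℕ => ((n - k : ℕ) : ℝ) / (n : ℝ)) atTop (𝓝 1) := by
      have h3 : Tendsto (fun n : ℕ => 1 - (k : ℝ) / (n : ℝ)) atTop (𝓝 1) := by
        have h3 : Tendsto (fun n : ℕ => (k : ℝ) / (n : ℝ)) atTop (𝓝 0) :=
          tendsto_const_div_atTop_nhds_zero_nat (k : ℝ)
        simpa using h3.const_sub 1
      refine h3.congr' ?_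
      filter_upwards [eventually_ge_atTop (k + 1)] with n hn
      have hn0 : (n : ℝ) ≠ 0 := by
        have : 0 < n := by omega
        positivity
      rw [Nat.cast_sub (by omega)]
      field_simp
    have h4 := h2.mul ih
    rw [mul_one] at h4
    refine h4.congr fun n => ?_
    rw [Nat.descFactorial_succ, pow_succ']
    push_cast
    ring

theorem ss_desc_le (n k : ℕ) : (n.descFactorial k : ℝ) / (n : ℝ) ^ k ≤ 1 := by
  rcases Nat.eq_zero_or_pos n with rfl | hn
  · rcases Nat.eq_zero_or_pos k with rfl | hk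
    · simp
    · rw [Nat.descFactorial_of_lt hk]; simp
  · rw [div_le_one (by positivity)]
    exact_mod_cast Nat.descFactorial_le_pow n k

/-- `|(1 + w) e^{-w}| ≤ e^{|w|²/2}` -/
theorem ss_norm_le (w : ℂ) : ‖(1 + w) * cexp (-w)‖ ≤ Real.exp (‖w‖ ^ 2 / 2) := by
  rw [norm_mul, Complex.norm_exp, Complex.neg_re]
  have h1 : ‖1 + w‖ ^ 2 ≤ Real.exp (2 * w.re + ‖w‖ ^ 2) := by
    have : ‖1 + w‖ ^ 2 = 2 * w.re + ‖w‖ ^ 2 + 1 := by
      rw [← Complex.normSq_eq_norm_sq, ← Complex.normSq_eq_norm_sq, Complex.normSq_apply,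
        Complex.normSq_apply]
      simp
      ring
    rw [this]
    exact Real.add_one_le_exp _
  have h2 : (‖1 + w‖ * Real.exp (-w.re)) ^ 2 ≤ Real.exp (‖w‖ ^ 2 / 2) ^ 2 := by
    rw [mul_pow, ← Real.exp_nat_mul, ← Real.exp_nat_mul]
    calc ‖1 + w‖ ^ 2 * Real.exp (((2 : ℕ) : ℝ) * -w.re)
        ≤ Real.exp (2 * w.re + ‖w‖ ^ 2) * Real.exp (((2 : ℕ) : ℝ) * -w.re) := by gcongr
      _ = Real.exp (((2 : ℕ) : ℝ) * (‖w‖ ^ 2 / 2)) := by
        rw [← Real.exp_add]
        congr 1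
        push_cast
        ring
  exact le_of_sq_le_sq h2 (Real.exp_pos _).le |> fun h => h

theorem ss_prod_norm (s : ℕ → ℝ) (n : ℕ) (z : ℂ) :
    ‖∏ j ∈ range n, (1 + (s j : ℂ) * z)‖ ≤
      Real.exp (|∑ j ∈ range n, s j| * ‖z‖ + (∑ j ∈ range n, s j ^ 2) * ‖z‖ ^ 2 / 2) := by
  have h1 : ∏ j ∈ range n, (1 + (s j : ℂ) * z) =
      (∏ j ∈ range n, ((1 + (s j : ℂ) * z) * cexp (-((s j : ℂ) * z)))) *
        cexp (((∑ j ∈ range n, s j : ℝ) : ℂ) * z) := by
    rw [Finset.prod_mul_distrib, ← Complex.exp_sum, mul_assoc, ← Complex.exp_add,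
      Complex.ofReal_sum, Finset.sum_mul, Finset.sum_neg_distrib]
    simp
  rw [h1, norm_mul, Real.exp_add, mul_comm]
  have h2 : ‖cexp (((∑ j ∈ range n, s j : ℝ) : ℂ) * z)‖ ≤ Real.exp (|∑ j ∈ range n, s j| * ‖z‖) := by
    rw [Complex.norm_exp]
    apply Real.exp_le_exp.2
    rw [Complex.re_ofReal_mul]
    calc (∑ j ∈ range n, s j) * z.re ≤ |(∑ j ∈ range n, s j) * z.re| := le_abs_self _
      _ = |∑ j ∈ range n, s j| * |z.re| := abs_mul _ _
      _ ≤ _ := by gcongr; exact Complex.abs_re_le_norm z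
  have h3 : ‖∏ j ∈ range n, ((1 + (s j : ℂ) * z) * cexp (-((s j : ℂ) * z)))‖ ≤
      Real.exp ((∑ j ∈ range n, s j ^ 2) * ‖z‖ ^ 2 / 2) := by
    rw [norm_prod, Finset.sum_mul, Finset.sum_div, Real.exp_sum]
    refine Finset.prod_le_prod (fun _ _ => norm_nonneg _) fun j _ => ?_
    refine (ss_norm_le _).trans (le_of_eq ?_)
    rw [norm_mul, Complex.norm_real, Real.norm_eq_abs, mul_pow, sq_abs]
  gcongr

/-- If `a_0 ≠ 0` and all `∑_{k≤N} N!/(N-k)! a_k x^k` are hyperbolic then `∑ a_k z^k` converges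
everywhere and is `a_0 e^{-A z² + b z} ∏ (1 + t_j z) e^{-t_j z}`. -/
theorem ss_laguerre_polya {a : ℕ → ℝ} (h0 : a 0 ≠ 0) (h : ∀ N, Hyperbolic (ssJ a N)) :
    ∃ (A b : ℝ) (t : ℕ → ℝ), 0 ≤ A ∧ (Summable fun j => t j ^ 2) ∧
      ∀ z : ℂ, HasSum (fun k => (a k : ℂ) * z ^ k)
        (a 0 * (cexp (-A * z ^ 2 + b * z) *
          ∏' j, (1 + (t j : ℂ) * z) * cexp (-((t j : ℂ) * z)))) := by
  classical
  -- factorization of `ssQ a N`
  have hc0 : ∀ N, (ssQ a N).coeff 0 = a 0 := fun N => by simp [ssQ_coeff]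
  have hfac : ∀ N, ∃ s : ℕ → ℝ, (Antitone fun j => |s j|) ∧ (∀ j, N ≤ j → s j = 0) ∧
      (0 < N → ∀ z : ℂ, aeval z (ssQ a N) = (a 0 : ℂ) * ∏ j ∈ range N, (1 + (s j : ℂ) * z)) := by
    intro N
    rcases Nat.eq_zero_or_pos N with rfl | hN
    · exact ⟨fun _ => 0, fun _ _ _ => le_rfl, fun _ _ => rfl, fun h => absurd h (lt_irrefl _)⟩
    · obtain ⟨s, s1, s2, s3⟩ := ss_fac (ssQ_hyp hN (h N)) (by rw [hc0]; exact h0)
      refine ⟨s, s1, fun j hj => s2 j ((ssQ_natDegree a N).trans hj), fun _ z => ?_⟩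
      rw [s3 z, hc0]
      congr 1
      refine Finset.prod_subset (Finset.range_subset_range.2 (ssQ_natDegree a N)) fun j _ hj => ?_
      rw [Finset.mem_range, not_lt] at hj
      rw [s2 j hj]
      simp
  choose s hanti hz hprod using hfac
  set b : ℝ := a 1 / a 0 with hb
  set B : ℝ := b ^ 2 + 2 * |a 2 / a 0| with hB
  have hB0 : 0 ≤ B := by positivity
  have hsums : ∀ N, 0 < N → ∑ j ∈ range N, s N j = b ∧ ∑ j ∈ range N, s N j ^ 2 ≤ B := by
    intro N hN
    have hN' : (N : ℝ) ≠ 0 := by positivity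
    obtain ⟨e1, e2⟩ := ss_sums (p := ssQ a N) (by rw [hc0]; exact h0) (s := s N) (n := N)
      (by intro z; rw [hprod N hN z, hc0])
    rw [hc0, ssQ_coeff] at e1 e2
    have h1 : ((N.descFactorial 1 : ℕ) : ℝ) / (N : ℝ) ^ 1 = 1 := by
      rw [Nat.descFactorial_one, pow_one, div_self hN']
    rw [h1, one_mul] at e1 e2
    refine ⟨e1, ?_⟩
    rw [e2, ← hb, hB, ssQ_coeff]
    have h2 := ss_desc_le N 2
    have h3 : 0 ≤ (N.descFactorial 2 : ℝ) / (N : ℝ) ^ 2 := by positivity
    have h4 : |((N.descFactorial 2 : ℝ) / (N : ℝ) ^ 2 * a 2) / a 0| ≤ |a 2 / a 0| := by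
      rw [mul_div_assoc, abs_mul, abs_of_nonneg h3]
      exact mul_le_of_le_one_left (abs_nonneg _) h2
    have h5 := neg_abs_le (((N.descFactorial 2 : ℝ) / (N : ℝ) ^ 2 * a 2) / a 0)
    linarith
  have hBall : ∀ n, ∑ j ∈ range n, s n j ^ 2 ≤ B := by
    intro n
    rcases Nat.eq_zero_or_pos n with rfl | hn
    · simpa using hB0
    · exact (hsums n hn).2
  have hbt : Tendsto (fun n => ∑ j ∈ range n, s n j) atTop (𝓝 b) := by
    refine tendsto_const_nhds.congr' ?_
    filter_upwards [eventually_gt_atTop 0] with n hn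
    exact ((hsums n hn).1).symm
  obtain ⟨A, t, l, hl, hlt, hA, ht, hlim⟩ := ss_prod_limit hanti hz hBall hbt
  refine ⟨A, b, t, hA, ht, fun z => ?_⟩
  -- coefficient bounds
  have hcoef : ∀ R : ℝ, 0 < R → ∀ k, |a k| ≤ (|a 0| * Real.exp (|b| * R + B * R ^ 2 / 2)) / R ^ k := by
    intro R hR k
    have h1 : ∀ N, 0 < N → |(ssQ a N).coeff k| ≤
        (|a 0| * Real.exp (|b| * R + B * R ^ 2 / 2)) / R ^ k := by
      intro N hN
      refine newt1_coef_bound (F := fun z => aeval z (ssQ a N)) (b := (ssQ a N).coeff) ?_ hR ?_ k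
      · intro z
        have : aeval z (ssQ a N) = ∑ j ∈ range (N + 1), (((ssQ a N).coeff j : ℝ) : ℂ) * z ^ j := by
          rw [aeval_eq_sum_range' (Nat.lt_succ_of_le (ssQ_natDegree a N))]
          refine Finset.sum_congr rfl fun j _ => ?_
          rw [Algebra.smul_def]; rfl
        rw [this]
        apply hasSum_sum_of_ne_finset_zero
        intro j hj
        rw [Finset.mem_range, not_lt] at hj
        rw [coeff_eq_zero_of_natDegree_lt (lt_of_le_of_lt (ssQ_natDegree a N) (by omega))]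
        simp
      · intro z hzR
        rw [hprod N hN z, norm_mul, Complex.norm_real, Real.norm_eq_abs]
        refine mul_le_mul_of_nonneg_left ?_ (abs_nonneg _)
        refine (ss_prod_norm _ _ _).trans ?_
        apply Real.exp_le_exp.2
        rw [hzR, (hsums N hN).1]
        have := (hsums N hN).2
        have h6 : (∑ j ∈ range N, s N j ^ 2) * R ^ 2 / 2 ≤ B * R ^ 2 / 2 := by gcongr
        linarith
    have h2 : Tendsto (fun N => |(ssQ a N).coeff k|) atTop (𝓝 |a k|) := by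
      have h3 := ((ss_desc_limit k).mul_const (a k)).abs
      rw [one_mul] at h3
      refine h3.congr fun N => ?_
      rw [ssQ_coeff]
    refine le_of_tendsto h2 ?_
    filter_upwards [eventually_gt_atTop 0] with N hN
    exact h1 N hN
  have hsum : Summable fun k => ‖(a k : ℂ) * z ^ k‖ := by
    set R : ℝ := 2 * (‖z‖ + 1) with hR
    have hR0 : 0 < R := by positivity
    refine Summable.of_nonneg_of_le (fun _ => norm_nonneg _) (fun k => ?_)
      ((summable_geometric_of_lt_one (by norm_num : (0:ℝ) ≤ 1 / 2) (by norm_num)).mul_left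
        (|a 0| * Real.exp (|b| * R + B * R ^ 2 / 2)))
    rw [norm_mul, norm_pow, Complex.norm_real, Real.norm_eq_abs]
    calc |a k| * ‖z‖ ^ k ≤ (|a 0| * Real.exp (|b| * R + B * R ^ 2 / 2)) / R ^ k * ‖z‖ ^ k := by
          gcongr
          exact hcoef R hR0 k
      _ = (|a 0| * Real.exp (|b| * R + B * R ^ 2 / 2)) * (‖z‖ / R) ^ k := by
          rw [div_pow]; ring
      _ ≤ (|a 0| * Real.exp (|b| * R + B * R ^ 2 / 2)) * (1 / 2) ^ k := by
          have hzR : ‖z‖ / R ≤ 1 / 2 := by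
            rw [div_le_div_iff₀ hR0 (by norm_num), hR]
            linarith [norm_nonneg z]
          exact mul_le_mul_of_nonneg_left (pow_le_pow_left₀ (by positivity) hzR k) (by positivity)
  have key : Tendsto (fun n : ℕ => aeval z (ssQ a n)) atTop (𝓝 (∑' k : ℕ, (a k : ℂ) * z ^ k)) := by
    have h1 : ∀ n : ℕ, aeval z (ssQ a n) =
        ∑' k : ℕ, (((n.descFactorial k : ℝ) / (n : ℝ) ^ k : ℝ) : ℂ) * ((a k : ℂ) * z ^ k) := by
      intro n
      rw [tsum_eq_sum (s := range (n + 1))]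
      · unfold ssQ
        rw [map_sum]
        refine Finset.sum_congr rfl fun k _ => ?_
        rw [aeval_monomial]
        simp only [Complex.coe_algebraMap]
        push_cast
        ring
      · intro k hk
        rw [Finset.mem_range, not_lt] at hk
        rw [Nat.descFactorial_of_lt (by omega)]
        simp
    simp only [h1]
    refine tendsto_tsum_of_dominated_convergence hsum ?_ ?_
    · intro k
      have h2 := ((Complex.continuous_ofReal.tendsto _).comp (ss_desc_limit k)).mul_const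
        ((a k : ℂ) * z ^ k)
      rw [Complex.ofReal_one, one_mul] at h2
      exact h2
    · refine Filter.Eventually.of_forall fun n k => ?_
      rw [norm_mul, Complex.norm_real, Real.norm_of_nonneg (by positivity)]
      exact mul_le_of_le_one_left (norm_nonneg _) (ss_desc_le n k)
  have key2 : Tendsto (fun n : ℕ => aeval z (ssQ a n)) l (𝓝 (a 0 * (cexp (-A * z ^ 2 + b * z) *
          ∏' j, (1 + (t j : ℂ) * z) * cexp (-((t j : ℂ) * z))))) := by
    refine ((hlim z).const_mul (a 0 : ℂ)).congr' ?_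
    filter_upwards [hlt (eventually_gt_atTop 0)] with n hn
    exact (hprod n hn z).symm
  have hl' := hl
  rw [← tendsto_nhds_unique (key.mono_left hlt) key2]
  exact hsum.of_norm.hasSum

end Pool.Agent.MPd164ca
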