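import Pool.Agent.Lib.MP_d164ca_an.Fac1

/-!
# MP_d164ca_an, SSPos: functions generating multiplier sequences at small scales have no positive
zero
-/

namespace Pool.Agent.MPd164ca

open Filter Topology

theorem ss_no_pos_zero {G : ℂ → ℂ} (hG : Differentiable ℂ G) (hG0 : ∃ z, G z ≠ 0) {f : ℝ → ℝ}
    (hf : ∀ x : ℝ, 0 ≤ x → (f x : ℂ) = G x)
    (h : ∀ ε : ℝ, 0 < ε → ∃ c : ℝ, 0 < c ∧ c < ε ∧ IsMultiplierSequence (fun k => f (c * k)))
    {x0 : ℝ} (hx0 : 0 < x0) : G x0 ≠ 0 := by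
  intro hzero
  have han : AnalyticOnNhd ℂ G Set.univ := fun z _ => (hG.analyticAt z)
  have hnot : ¬ ∀ᶠ z in 𝓝 (x0 : ℂ), G z = 0 := by
    intro hev
    obtain ⟨z, hz⟩ := hG0
    apply hz
    have h0 : AnalyticOnNhd ℂ (fun _ : ℂ => (0 : ℂ)) Set.univ := fun z _ => analyticAt_const
    have := AnalyticOnNhd.eq_of_eventuallyEq han h0 (z₀ := (x0 : ℂ)) hev
    rw [this]
  obtain ⟨ν, H, hH, hH0, hev⟩ := (hG.analyticAt (x0 : ℂ)).exists_eventuallyEq_pow_smul_nonzero_iff.2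
    hnot
  have hν : ν ≠ 0 := by
    rintro rfl
    have h1 := hev.self_of_nhds
    rw [hzero, pow_zero, one_smul] at h1
    exact hH0 h1.symm
  set A : ℝ := ‖H x0‖ with hA
  have hA0 : 0 < A := norm_pos_iff.2 hH0
  have hcont : Tendsto (fun z => ‖H z‖) (𝓝 (x0 : ℂ)) (𝓝 A) := hH.continuousAt.norm
  have hlow : ∀ᶠ z in 𝓝 (x0 : ℂ), 9 / 10 * A < ‖H z‖ :=
    hcont.eventually_const_lt (by linarith)
  have hup : ∀ᶠ z in 𝓝 (x0 : ℂ), ‖H z‖ < 11 / 10 * A :=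
    hcont.eventually_lt_const (by linarith)
  obtain ⟨η, hη, hball⟩ := Metric.eventually_nhds_iff.1 (hev.and (hlow.and hup))
  obtain ⟨c, hc0, hc1, hcm⟩ := h (min (η / 2) (x0 / 2)) (lt_min (by linarith) (by linarith))
  have hcη : c < η / 2 := lt_of_lt_of_le hc1 (min_le_left _ _)
  have hcx : c < x0 / 2 := lt_of_lt_of_le hc1 (min_le_right _ _)
  -- the index nearest to `x0 / c`
  set k : ℕ := ⌊x0 / c + 1 / 2⌋₊ with hk
  have hq : 2 < x0 / c := by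
    rw [lt_div_iff₀ hc0]; linarith
  have hk1 : (k : ℝ) ≤ x0 / c + 1 / 2 := Nat.floor_le (by linarith)
  have hk2 : x0 / c + 1 / 2 < k + 1 := Nat.lt_floor_add_one _
  have hk3 : 2 ≤ k := by
    rw [hk]
    apply Nat.le_floor
    push_cast
    linarith
  obtain ⟨m, hm⟩ : ∃ m, k = m + 1 := ⟨k - 1, by omega⟩
  have hkr : (k : ℝ) = m + 1 := by rw [hm]; push_cast; ring
  have hxc : x0 / c * c = x0 := div_mul_cancel₀ _ hc0.ne'
  set δ : ℝ := c * ((m + 1 : ℕ) : ℝ) - x0 with hδ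
  have hδ1 : δ ≤ c / 2 := by
    rw [hδ, ← hxc]
    push_cast
    rw [hkr] at hk1
    nlinarith
  have hδ2 : -(c / 2) ≤ δ := by
    rw [hδ, ← hxc]
    push_cast
    rw [hkr] at hk2
    nlinarith
  -- the three points
  have hval : ∀ i : ℕ, (i = m ∨ i = m + 1 ∨ i = m + 2) →
      ∃ r : ℝ, 9 / 10 * A < r ∧ r < 11 / 10 * A ∧ |f (c * i)| = |c * i - x0| ^ ν * r := by
    intro i hi
    have hd : |c * (i : ℝ) - x0| < η := by
      rw [abs_lt]
      rcases hi with rfl | rfl | rfl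
      · have e : c * (i : ℝ) - x0 = δ - c := by rw [hδ]; push_cast; ring
        rw [e]
        constructor <;> linarith
      · constructor <;> linarith
      · have e : c * ((m + 2 : ℕ) : ℝ) - x0 = δ + c := by rw [hδ]; push_cast; ring
        rw [e]
        constructor <;> linarith
    have hdist : dist ((c * (i : ℝ) : ℝ) : ℂ) (x0 : ℂ) < η := by
      rw [Complex.dist_eq, ← Complex.ofReal_sub, Complex.norm_real]
      exact hd
    obtain ⟨b1, b2, b3⟩ := hball hdist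
    refine ⟨‖H ((c * (i : ℝ) : ℝ) : ℂ)‖, b2, b3, ?_⟩
    have h1 := hf (c * i) (by positivity)
    rw [b1] at h1
    have h2 := congrArg norm h1
    rw [Complex.norm_real, norm_smul, norm_pow, ← Complex.ofReal_sub, Complex.norm_real,
      Real.norm_eq_abs, Real.norm_eq_abs] at h2
    exact h2
  obtain ⟨r0, a0, _, e0⟩ := hval m (Or.inl rfl)
  obtain ⟨r1, _, b1, e1⟩ := hval (m + 1) (Or.inr (Or.inl rfl))
  obtain ⟨r2, a2, _, e2⟩ := hval (m + 2) (Or.inr (Or.inr rfl))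
  have hT := ms_turan hcm m
  have hP := ms_mul_nonneg hcm m
  have habs : |f (c * m)| * |f (c * ((m + 2 : ℕ) : ℝ))| ≤ |f (c * ((m + 1 : ℕ) : ℝ))| ^ 2 := by
    rw [← abs_mul, abs_of_nonneg hP, sq_abs]
    exact hT
  rw [e0, e1, e2] at habs
  have g0 : c * (m : ℝ) - x0 = δ - c := by rw [hδ]; push_cast; ring
  have g2 : c * ((m + 2 : ℕ) : ℝ) - x0 = δ + c := by rw [hδ]; push_cast; ring
  rw [g0, g2, ← hδ] at habs
  have hδsq : δ ^ 2 ≤ c ^ 2 / 4 := by nlinarith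
  have hprod : |δ - c| * |δ + c| = c ^ 2 - δ ^ 2 := by
    rw [← abs_mul]
    have : (δ - c) * (δ + c) = -(c ^ 2 - δ ^ 2) := by ring
    rw [this, abs_neg, abs_of_nonneg (by nlinarith)]
  have hL : (3 * (c ^ 2 / 4)) ^ ν * ((9 / 10 * A) * (9 / 10 * A)) ≤
      (|δ - c| ^ ν * r0) * (|δ + c| ^ ν * r2) := by
    have e : (|δ - c| ^ ν * r0) * (|δ + c| ^ ν * r2) = (c ^ 2 - δ ^ 2) ^ ν * (r0 * r2) := by
      rw [← hprod, mul_pow]; ring
    rw [e]
    have h1 : 3 * (c ^ 2 / 4) ≤ c ^ 2 - δ ^ 2 := by linarith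
    have h2 : 0 ≤ 3 * (c ^ 2 / 4) := by positivity
    have h3 : 0 ≤ c ^ 2 - δ ^ 2 := h2.trans h1
    have h4 : (9 / 10 * A) * (9 / 10 * A) ≤ r0 * r2 :=
      mul_le_mul a0.le a2.le (by positivity) (le_trans (by positivity) a0.le)
    exact mul_le_mul (pow_le_pow_left₀ h2 h1 ν) h4 (by positivity) (pow_nonneg h3 ν)
  have hR : (|δ| ^ ν * r1) ^ 2 ≤ (c ^ 2 / 4) ^ ν * ((11 / 10 * A) * (11 / 10 * A)) := by
    have e : (|δ| ^ ν * r1) ^ 2 = (δ ^ 2) ^ ν * (r1 * r1) := by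
      rw [mul_pow, ← pow_mul, mul_comm ν 2, pow_mul, sq_abs]; ring
    rw [e]
    have hr1 : 0 < r1 := by
      obtain ⟨_, h1, _⟩ := hval (m + 1) (Or.inr (Or.inl rfl))
      have : 0 < 9 / 10 * A := by positivity
      linarith
    exact mul_le_mul (pow_le_pow_left₀ (sq_nonneg _) hδsq ν)
      (mul_le_mul b1.le b1.le hr1.le (by positivity)) (by positivity) (by positivity)
  have hfin := (hL.trans habs).trans hR
  rw [mul_pow] at hfin
  have h3 : (3 : ℝ) ≤ 3 ^ ν := by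
    calc (3 : ℝ) = 3 ^ 1 := by norm_num
      _ ≤ 3 ^ ν := pow_le_pow_right₀ (by norm_num) (Nat.one_le_iff_ne_zero.2 hν)
  have hcν : 0 < (c ^ 2 / 4) ^ ν := by positivity
  have h4 : (3 : ℝ) * (c ^ 2 / 4) ^ ν * ((9 / 10 * A) * (9 / 10 * A)) ≤
      (c ^ 2 / 4) ^ ν * ((11 / 10 * A) * (11 / 10 * A)) := by
    refine le_trans ?_ hfin
    gcongr
  have hA2 : 0 < (c ^ 2 / 4) ^ ν * (A * A) := by positivity
  nlinarith

end Pool.Agent.MPd164ca
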