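import Pool.Agent.Lib.MP_d164ca_an.Lim1

/-!
# MP_d164ca_an, SSProd: limits of products `∏ (1 + s_j z)` with `∑ s_j^2` bounded, `∑ s_j` convergent
-/

namespace Pool.Agent.MPd164ca

open Complex Set Filter Topology Finset

/-- the cubic bound for `(1 + w) e^{-w + w²/2} - 1` -/
theorem ss_cubic {w : ℂ} {R : ℝ} (hw : ‖w‖ ≤ R) :
    ∃ K : ℝ, 0 ≤ K ∧ K = (1 + R) * (R + 1) ^ 3 * Real.exp (R + R ^ 2) + (R + 1) ^ 3 + 1 ∧
    ‖(1 + w) * cexp (-w + w ^ 2 / 2) - 1‖ ≤ K * ‖w‖ ^ 3 := by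
  have h0 : 0 ≤ ‖w‖ := norm_nonneg w
  have hR0 : 0 ≤ R := h0.trans hw
  refine ⟨_, by positivity, rfl, ?_⟩
  set u : ℂ := -w + w ^ 2 / 2 with hu
  have h1 := norm_exp_sub_sum_le_norm_mul_exp u 3
  have h2 : ∑ m ∈ range 3, u ^ m / (m.factorial : ℂ) = 1 + u + u ^ 2 / 2 := by
    simp [Finset.sum_range_succ, Nat.factorial]
  rw [h2] at h1
  have hun : ‖u‖ ≤ (R + 1) * ‖w‖ := by
    rw [hu]
    calc ‖-w + w ^ 2 / 2‖ ≤ ‖-w‖ + ‖w ^ 2 / 2‖ := norm_add_le _ _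
      _ = ‖w‖ + ‖w‖ ^ 2 / 2 := by rw [norm_neg, norm_div, norm_pow]; simp
      _ ≤ (R + 1) * ‖w‖ := by nlinarith
  have hun2 : ‖u‖ ≤ R + R ^ 2 := by
    calc ‖u‖ ≤ (R + 1) * ‖w‖ := hun
      _ ≤ (R + 1) * R := by gcongr
      _ = R + R ^ 2 := by ring
  have h3 : (1 + w) * cexp u - 1 = (1 + w) * (cexp u - (1 + u + u ^ 2 / 2)) +
      w ^ 3 * (1 / 2 + (w ^ 2 / 8 - 3 * w / 8)) := by
    rw [hu]; ring
  have h4 : ‖1 + w‖ ≤ 1 + R := by
    calc ‖1 + w‖ ≤ ‖(1 : ℂ)‖ + ‖w‖ := norm_add_le _ _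
      _ ≤ 1 + R := by simpa using hw
  have h5 : ‖1 / 2 + (w ^ 2 / 8 - 3 * w / 8)‖ ≤ (R + 1) ^ 3 + 1 := by
    calc ‖1 / 2 + (w ^ 2 / 8 - 3 * w / 8)‖ ≤ ‖(1 / 2 : ℂ)‖ + ‖w ^ 2 / 8 - 3 * w / 8‖ := norm_add_le _ _
      _ ≤ ‖(1 / 2 : ℂ)‖ + (‖w ^ 2 / 8‖ + ‖3 * w / 8‖) := by gcongr; exact norm_sub_le _ _
      _ = 1 / 2 + (‖w‖ ^ 2 / 8 + 3 * ‖w‖ / 8) := by
        rw [norm_div, norm_div, norm_div, norm_pow, norm_mul]; simp
      _ ≤ 1 / 2 + (R ^ 2 / 8 + 3 * R / 8) := by gcongr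
      _ ≤ (R + 1) ^ 3 + 1 := by nlinarith [pow_nonneg hR0 2, pow_nonneg hR0 3]
  have h6 : ‖cexp u - (1 + u + u ^ 2 / 2)‖ ≤ (R + 1) ^ 3 * ‖w‖ ^ 3 * Real.exp (R + R ^ 2) := by
    calc ‖cexp u - (1 + u + u ^ 2 / 2)‖ ≤ ‖u‖ ^ 3 * Real.exp ‖u‖ := h1
      _ ≤ ((R + 1) * ‖w‖) ^ 3 * Real.exp (R + R ^ 2) := by
        gcongr
      _ = _ := by rw [mul_pow]
  rw [h3]
  calc ‖(1 + w) * (cexp u - (1 + u + u ^ 2 / 2)) + w ^ 3 * (1 / 2 + (w ^ 2 / 8 - 3 * w / 8))‖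
      ≤ ‖1 + w‖ * ‖cexp u - (1 + u + u ^ 2 / 2)‖ +
          ‖w‖ ^ 3 * ‖1 / 2 + (w ^ 2 / 8 - 3 * w / 8)‖ := by
        refine (norm_add_le _ _).trans (le_of_eq ?_)
        rw [norm_mul, norm_mul, norm_pow]
    _ ≤ (1 + R) * ((R + 1) ^ 3 * ‖w‖ ^ 3 * Real.exp (R + R ^ 2)) +
        ‖w‖ ^ 3 * ((R + 1) ^ 3 + 1) := by
        gcongr
    _ = _ := by ring

/-- `∏ (1 + t_j z) e^{-t_j z}` converges if `∑ t_j^2 < ∞` -/
theorem ss_multipliable {t : ℕ → ℝ} (ht : Summable fun j => t j ^ 2) (z : ℂ) :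
    Summable fun j => ‖(1 + (t j : ℂ) * z) * cexp (-((t j : ℂ) * z)) - 1‖ := by
  -- `|t_j|` is bounded
  obtain ⟨B, hB⟩ : ∃ B : ℝ, ∀ j, |t j| ≤ B := by
    refine ⟨Real.sqrt (∑' j, t j ^ 2), fun j => ?_⟩
    rw [← Real.sqrt_sq_eq_abs]
    exact Real.sqrt_le_sqrt (ht.le_tsum j fun i _ => sq_nonneg _)
  have hB0 : 0 ≤ B := (abs_nonneg _).trans (hB 0)
  refine Summable.of_nonneg_of_le (fun j => norm_nonneg _) (fun j => ?_)
    ((ht.mul_right (‖z‖ ^ 2)).mul_left ((1 + B * ‖z‖) * Real.exp (B * ‖z‖) + 1))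
  have hn : ‖(t j : ℂ) * z‖ ≤ B * ‖z‖ := by
    rw [norm_mul, Complex.norm_real, Real.norm_eq_abs]
    exact mul_le_mul_of_nonneg_right (hB j) (norm_nonneg _)
  refine (lim1_quad hn).trans (le_of_eq ?_)
  rw [norm_mul, Complex.norm_real, Real.norm_eq_abs, mul_pow, sq_abs]

/-- Compactness of the class of products, second order. -/
theorem ss_prod_limit {s : ℕ → ℕ → ℝ} (hanti : ∀ n, Antitone fun j => |s n j|)
    (hz : ∀ n j, n ≤ j → s n j = 0) {B : ℝ} (hB : ∀ n, ∑ j ∈ range n, s n j ^ 2 ≤ B)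
    {b : ℝ} (hb : Tendsto (fun n => ∑ j ∈ range n, s n j) atTop (𝓝 b)) :
    ∃ (a : ℝ) (t : ℕ → ℝ) (l : Filter ℕ), l.NeBot ∧ l ≤ atTop ∧ 0 ≤ a ∧
      (Summable fun j => t j ^ 2) ∧
      ∀ z : ℂ, Tendsto (fun n => ∏ j ∈ range n, (1 + (s n j : ℂ) * z)) l
        (𝓝 (cexp (-a * z ^ 2 + b * z) * ∏' j, (1 + (t j : ℂ) * z) * cexp (-((t j : ℂ) * z)))) := by
  have hB0 : 0 ≤ B := by simpa using hB 0
  -- `s_j^2 ≤ B / (j+1)`
  have hle2 : ∀ n j, s n j ^ 2 ≤ B / (j + 1) := by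
    intro n j
    rw [le_div_iff₀ (by positivity)]
    rcases lt_or_ge j n with hj | hj
    · calc s n j ^ 2 * (j + 1) = ∑ i ∈ range (j + 1), s n j ^ 2 := by
            rw [Finset.sum_const, card_range, nsmul_eq_mul]; push_cast; ring
        _ ≤ ∑ i ∈ range (j + 1), s n i ^ 2 :=
            Finset.sum_le_sum fun i hi => by
              have := hanti n (Nat.lt_succ_iff.1 (Finset.mem_range.1 hi))
              rw [← sq_abs, ← sq_abs (s n i)]
              exact pow_le_pow_left₀ (abs_nonneg _) this 2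
        _ ≤ ∑ i ∈ range n, s n i ^ 2 :=
            Finset.sum_le_sum_of_subset_of_nonneg (by
              intro i hi
              simp only [Finset.mem_range] at hi ⊢
              omega) fun i _ _ => sq_nonneg _
        _ ≤ B := hB n
    · rw [hz n j hj]; simpa using hB0
  set b0 : ℝ := Real.sqrt B with hb0
  have hb00 : 0 ≤ b0 := Real.sqrt_nonneg _
  have hle : ∀ n j, |s n j| ≤ b0 / Real.sqrt (j + 1) := by
    intro n j
    rw [← Real.sqrt_sq_eq_abs, hb0, ← Real.sqrt_div hB0]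
    exact Real.sqrt_le_sqrt (hle2 n j)
  have hleB : ∀ n j, |s n j| ≤ b0 := fun n j => (hle n j).trans (by
    apply div_le_self hb00
    rw [Real.one_le_sqrt]
    have : (0 : ℝ) ≤ j := Nat.cast_nonneg j
    linarith)
  let l : Filter ℕ := (hyperfilter ℕ : Filter ℕ)
  have hl : l ≤ atTop := Nat.hyperfilter_le_atTop
  have : l.NeBot := inferInstanceAs (hyperfilter ℕ : Filter ℕ).NeBot
  have hcomp : ∀ (u : ℕ → ℝ) (c d : ℝ), (∀ n, c ≤ u n) → (∀ n, u n ≤ d) →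
      ∃ a, c ≤ a ∧ a ≤ d ∧ Tendsto u l (𝓝 a) := by
    intro u c d hu0 huB
    have hK : IsCompact (Set.Icc c d) := isCompact_Icc
    have : ((hyperfilter ℕ).map u : Filter ℝ) ≤ 𝓟 (Set.Icc c d) := by
      rw [Ultrafilter.coe_map, Filter.le_principal_iff, Filter.mem_map]
      exact Filter.univ_mem' fun n => ⟨hu0 n, huB n⟩
    obtain ⟨a, ha, hle⟩ := hK.ultrafilter_le_nhds ((hyperfilter ℕ).map u) this
    exact ⟨a, ha.1, ha.2, hle⟩
  choose t ht0 ht1 htl using fun j => hcomp (fun n => s n j) (-b0) b0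
    (fun n => (abs_le.1 (hleB n j)).1) (fun n => (abs_le.1 (hleB n j)).2)
  obtain ⟨S, hS0, _, hSl⟩ := hcomp (fun n => ∑ j ∈ range n, s n j ^ 2) 0 B
    (fun n => Finset.sum_nonneg fun j _ => sq_nonneg _) hB
  have hpart : ∀ J, ∑ j ∈ range J, t j ^ 2 ≤ S := by
    intro J
    have h1 : Tendsto (fun n => ∑ j ∈ range J, s n j ^ 2) l (𝓝 (∑ j ∈ range J, t j ^ 2)) :=
      tendsto_finsetSum _ fun j _ => (htl j).pow 2
    refine le_of_tendsto_of_tendsto h1 hSl ?_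
    filter_upwards [hl (eventually_ge_atTop J)] with n hn
    exact Finset.sum_le_sum_of_subset_of_nonneg (by
              intro i hi
              simp only [Finset.mem_range] at hi ⊢
              omega) fun i _ _ => sq_nonneg _
  have htsum : Summable fun j => t j ^ 2 := summable_of_sum_range_le (fun j => sq_nonneg _) hpart
  have htS : ∑' j, t j ^ 2 ≤ S := htsum.tsum_le_of_sum_range_le hpart
  refine ⟨(S - ∑' j, t j ^ 2) / 2, t, l, inferInstance, hl, by linarith, htsum, fun z => ?_⟩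
  -- products
  set R : ℝ := b0 * ‖z‖ with hR
  have hR0 : 0 ≤ R := mul_nonneg hb00 (norm_nonneg z)
  set K : ℝ := (1 + R) * (R + 1) ^ 3 * Real.exp (R + R ^ 2) + (R + 1) ^ 3 + 1 with hK
  have hK0 : 0 ≤ K := by positivity
  have hdom := tendsto_tprod_one_add_of_dominated_convergence (𝓕 := l)
    (f := fun n j => (1 + (s n j : ℂ) * z) * cexp (-((s n j : ℂ) * z) + ((s n j : ℂ) * z) ^ 2 / 2) - 1)
    (g := fun j => (1 + (t j : ℂ) * z) * cexp (-((t j : ℂ) * z) + ((t j : ℂ) * z) ^ 2 / 2) - 1)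
    (bound := fun j => K * (R ^ 3 * (1 / ((j : ℝ) + 1) ^ (3 / 2 : ℝ)))) (by
      apply Summable.mul_left
      apply Summable.mul_left
      have h32 : (1 : ℝ) < 3 / 2 := by norm_num
      have := (summable_nat_add_iff 1).2 (Real.summable_one_div_nat_rpow.2 h32)
      simpa using this) (by
      intro j
      have h1 : Tendsto (fun n => ((s n j : ℝ) : ℂ)) l (𝓝 (t j : ℂ)) :=
        (Complex.continuous_ofReal.tendsto _).comp (htl j)
      have h2 : Tendsto (fun n => ((s n j : ℝ) : ℂ) * z) l (𝓝 ((t j : ℂ) * z)) := h1.mul_const z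
      exact (((tendsto_const_nhds.add h2).mul
        ((Complex.continuous_exp.tendsto _).comp (h2.neg.add ((h2.pow 2).div_const 2)))).sub
          tendsto_const_nhds)) (by
      refine Filter.Eventually.of_forall fun n j => ?_
      have hn : ‖(s n j : ℂ) * z‖ ≤ R * (1 / Real.sqrt ((j : ℝ) + 1)) := by
        rw [norm_mul, Complex.norm_real, Real.norm_eq_abs, hR]
        calc |s n j| * ‖z‖ ≤ (b0 / Real.sqrt (j + 1)) * ‖z‖ :=
              mul_le_mul_of_nonneg_right (hle n j) (norm_nonneg z)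
          _ = b0 * ‖z‖ * (1 / Real.sqrt ((j : ℝ) + 1)) := by ring
      have hn' : ‖(s n j : ℂ) * z‖ ≤ R := by
        rw [norm_mul, Complex.norm_real, Real.norm_eq_abs, hR]
        exact mul_le_mul_of_nonneg_right (hleB n j) (norm_nonneg z)
      obtain ⟨K', hK'0, hK'e, hK'⟩ := ss_cubic hn'
      rw [← hK] at hK'e
      subst hK'e
      refine hK'.trans ?_
      refine mul_le_mul_of_nonneg_left ?_ hK0
      calc ‖(s n j : ℂ) * z‖ ^ 3 ≤ (R * (1 / Real.sqrt ((j : ℝ) + 1))) ^ 3 :=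
            pow_le_pow_left₀ (norm_nonneg _) hn 3
        _ = R ^ 3 * (1 / ((j : ℝ) + 1) ^ (3 / 2 : ℝ)) := by
            rw [mul_pow, div_pow, one_pow]
            congr 2
            have hj : (0 : ℝ) ≤ (j : ℝ) + 1 := by positivity
            rw [Real.sqrt_eq_rpow, ← Real.rpow_natCast, ← Real.rpow_mul hj]
            norm_num)
  -- the exponential factor
  have hexp : Tendsto (fun n => cexp (((∑ j ∈ range n, s n j : ℝ) : ℂ) * z -
      ((∑ j ∈ range n, s n j ^ 2 : ℝ) : ℂ) * z ^ 2 / 2)) l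
      (𝓝 (cexp ((b : ℂ) * z - (S : ℂ) * z ^ 2 / 2))) := by
    refine (Complex.continuous_exp.tendsto _).comp (Tendsto.sub ?_ ?_)
    · exact ((Complex.continuous_ofReal.tendsto _).comp (hb.mono_left hl)).mul_const z
    · exact (((Complex.continuous_ofReal.tendsto _).comp hSl).mul_const (z ^ 2)).div_const 2
  have hmul := hexp.mul hdom
  have hP1 : Multipliable fun j => (1 + (t j : ℂ) * z) * cexp (-((t j : ℂ) * z)) := by
    have := multipliable_one_add_of_summable (ss_multipliable htsum z)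
    refine this.congr fun j => by ring
  have hE : HasProd (fun j => cexp (((t j : ℂ) * z) ^ 2 / 2))
      (cexp (((∑' j, t j ^ 2 : ℝ) : ℂ) * z ^ 2 / 2)) := by
    have h1 : HasSum (fun j => ((t j : ℂ) * z) ^ 2 / 2) (((∑' j, t j ^ 2 : ℝ) : ℂ) * z ^ 2 / 2) := by
      have := ((Complex.hasSum_ofReal.2 htsum.hasSum).mul_right (z ^ 2)).div_const 2
      have he : (fun j => ((t j : ℂ) * z) ^ 2 / 2) =
          fun j => (((t j ^ 2 : ℝ) : ℂ) * z ^ 2) / 2 := by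
        funext j
        push_cast
        ring
      rw [he]
      exact this
    exact h1.cexp
  have hlim : cexp ((b : ℂ) * z - (S : ℂ) * z ^ 2 / 2) *
      ∏' j, (1 + ((1 + (t j : ℂ) * z) * cexp (-((t j : ℂ) * z) + ((t j : ℂ) * z) ^ 2 / 2) - 1)) =
      cexp (-(((S - ∑' j, t j ^ 2) / 2 : ℝ) : ℂ) * z ^ 2 + b * z) *
        ∏' j, (1 + (t j : ℂ) * z) * cexp (-((t j : ℂ) * z)) := by
    have h1 : (fun j => 1 + ((1 + (t j : ℂ) * z) *
        cexp (-((t j : ℂ) * z) + ((t j : ℂ) * z) ^ 2 / 2) - 1)) =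
        fun j => ((1 + (t j : ℂ) * z) * cexp (-((t j : ℂ) * z))) * cexp (((t j : ℂ) * z) ^ 2 / 2) := by
      funext j
      rw [Complex.exp_add]; ring
    rw [h1, hP1.tprod_mul hE.multipliable, hE.tprod_eq]
    have h2 : cexp (-(((S - ∑' j, t j ^ 2) / 2 : ℝ) : ℂ) * z ^ 2 + b * z) =
        cexp ((b : ℂ) * z - (S : ℂ) * z ^ 2 / 2) * cexp (((∑' j, t j ^ 2 : ℝ) : ℂ) * z ^ 2 / 2) := by
      rw [← Complex.exp_add]
      congr 1
      push_cast
      ring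
    rw [h2]; ring
  rw [← hlim]
  refine hmul.congr fun n => ?_
  have hfin : ∏' j, (1 + ((1 + (s n j : ℂ) * z) *
      cexp (-((s n j : ℂ) * z) + ((s n j : ℂ) * z) ^ 2 / 2) - 1)) =
      ∏ j ∈ range n, (1 + ((1 + (s n j : ℂ) * z) *
        cexp (-((s n j : ℂ) * z) + ((s n j : ℂ) * z) ^ 2 / 2) - 1)) := by
    apply tprod_eq_prod
    intro j hj
    rw [hz n j (by simpa using hj)]
    simp
  rw [hfin]
  have h3 : ∀ j ∈ range n, (1 + ((1 + (s n j : ℂ) * z) *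
      cexp (-((s n j : ℂ) * z) + ((s n j : ℂ) * z) ^ 2 / 2) - 1)) =
      (1 + (s n j : ℂ) * z) * cexp (-((s n j : ℂ) * z) + ((s n j : ℂ) * z) ^ 2 / 2) :=
    fun j _ => by ring
  rw [Finset.prod_congr rfl h3, Finset.prod_mul_distrib, ← Complex.exp_sum]
  have h4 : cexp (((∑ j ∈ range n, s n j : ℝ) : ℂ) * z -
      ((∑ j ∈ range n, s n j ^ 2 : ℝ) : ℂ) * z ^ 2 / 2) *
      cexp (∑ j ∈ range n, (-((s n j : ℂ) * z) + ((s n j : ℂ) * z) ^ 2 / 2)) = 1 := by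
    rw [← Complex.exp_add]
    have : ((∑ j ∈ range n, s n j : ℝ) : ℂ) * z -
      ((∑ j ∈ range n, s n j ^ 2 : ℝ) : ℂ) * z ^ 2 / 2 +
      ∑ j ∈ range n, (-((s n j : ℂ) * z) + ((s n j : ℂ) * z) ^ 2 / 2) = 0 := by
      push_cast
      rw [Finset.sum_add_distrib, Finset.sum_neg_distrib, Finset.sum_mul, Finset.sum_mul,
        ← Finset.sum_div]
      simp only [mul_pow]
      ring
    rw [this, Complex.exp_zero]
  calc cexp (((∑ j ∈ range n, s n j : ℝ) : ℂ) * z -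
        ((∑ j ∈ range n, s n j ^ 2 : ℝ) : ℂ) * z ^ 2 / 2) *
        ((∏ j ∈ range n, (1 + (s n j : ℂ) * z)) *
          cexp (∑ j ∈ range n, (-((s n j : ℂ) * z) + ((s n j : ℂ) * z) ^ 2 / 2)))
      = (∏ j ∈ range n, (1 + (s n j : ℂ) * z)) * (cexp (((∑ j ∈ range n, s n j : ℝ) : ℂ) * z -
        ((∑ j ∈ range n, s n j ^ 2 : ℝ) : ℂ) * z ^ 2 / 2) *
        cexp (∑ j ∈ range n, (-((s n j : ℂ) * z) + ((s n j : ℂ) * z) ^ 2 / 2))) := by ring
    _ = _ := by rw [h4, mul_one]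

end Pool.Agent.MPd164ca
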