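import Pool.Agent.Lib.MP_d164ca_an.Suff
import Pool.Agent.Lib.MP_d164ca_an.Fac1
import Pool.Agent.Lib.MP_d164ca_an.SSProd

/-!
# MP_d164ca_an, SSSuff: Laguerre's theorem, sufficiency for all scales
-/

namespace Pool.Agent.MPd164ca

open Polynomial Finset Filter Topology

theorem ss_ms_limit {γ : ℕ → ℝ} {g : ℕ → ℕ → ℝ} (hg : ∀ n, IsMultiplierSequence (g n))
    (hlim : ∀ k, Tendsto (fun n => g n k) atTop (𝓝 (γ k))) : IsMultiplierSequence γ := by
  intro p hp
  refine hyperbolic_of_tendsto (q := fun n => diag (g n) p) (D := p.natDegree)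
    (fun n => hg n p hp) (fun n => diag_natDegree_le _ _) fun k => ?_
  simp only [diag_coeff]
  exact (hlim k).mul_const _

theorem ss_ms_mul {γ δ : ℕ → ℝ} (hγ : IsMultiplierSequence γ) (hδ : IsMultiplierSequence δ) :
    IsMultiplierSequence (fun k => γ k * δ k) := by
  intro p hp
  have : diag (fun k => γ k * δ k) p = diag γ (diag δ p) := by
    ext k
    rw [diag_coeff, diag_coeff, diag_coeff, mul_assoc]
  rw [this]
  exact hγ _ (hδ p hp)

theorem ss_ms_one : IsMultiplierSequence (fun _ => 1) := by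
  intro p hp
  have : diag (fun _ => 1) p = p := by
    ext k
    rw [diag_coeff, one_mul]
  rwa [this]

theorem ss_ms_pow {γ : ℕ → ℝ} (hγ : IsMultiplierSequence γ) (n : ℕ) :
    IsMultiplierSequence (fun k => γ k ^ n) := by
  induction n with
  | zero => simpa using ss_ms_one
  | succ n ih =>
    simp only [pow_succ]
    exact ss_ms_mul ih hγ

theorem ss_ms_lin {t : ℝ} (ht : 0 ≤ t) : IsMultiplierSequence (fun k => 1 + t * k) := by
  have h := ms_finite (m := 0) (N := 1) (t := fun _ => t) (fun _ => ht)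
  have he : (fun k : ℕ => ∑ j ∈ range (k + 1),
      ((X ^ 0 * ∏ i ∈ range 1, (1 + C t * X) : ℝ[X]).coeff j) * (k.descFactorial j : ℝ)) =
      fun k : ℕ => 1 + t * k := by
    funext k
    have h1 : ∀ j, ((X ^ 0 * ∏ i ∈ range 1, (1 + C t * X) : ℝ[X]).coeff j) =
        (if j = 0 then 1 else 0) + t * (if j = 1 then 1 else 0) := by
      intro j
      rw [pow_zero, one_mul, Finset.prod_range_one, coeff_add, coeff_C_mul, coeff_one, coeff_X]
      congr 2
      · simp only [eq_comm]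
    simp only [h1]
    cases k with
    | zero => simp
    | succ k =>
      rw [Finset.sum_range_succ', Finset.sum_range_succ']
      simp
      ring
  rw [← he]
  exact h

theorem ss_ms_id : IsMultiplierSequence (fun k => (k : ℝ)) := by
  have h := ms_finite (m := 1) (N := 0) (t := fun _ => 0) (fun _ => le_rfl)
  have he : (fun k : ℕ => ∑ j ∈ range (k + 1),
      ((X ^ 1 * ∏ i ∈ range 0, (1 + C 0 * X) : ℝ[X]).coeff j) * (k.descFactorial j : ℝ)) =
      fun k : ℕ => (k : ℝ) := by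
    funext k
    have h1 : ∀ j, ((X ^ 1 * ∏ i ∈ range 0, (1 + C 0 * X) : ℝ[X]).coeff j) =
        (if j = 1 then 1 else 0) := by
      intro j
      rw [pow_one, Finset.prod_range_zero, mul_one, coeff_X]
      simp only [eq_comm]
    simp only [h1]
    cases k with
    | zero => simp
    | succ k =>
      rw [Finset.sum_range_succ', Finset.sum_range_succ']
      simp
  rw [← he]
  exact h

theorem ss_ms_exp (β : ℝ) : IsMultiplierSequence (fun k => Real.exp (β * k)) := by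
  have h := ms_geom ss_ms_one 1 (Real.exp_pos β)
  have he : (fun k : ℕ => 1 * Real.exp β ^ k * 1) = fun k : ℕ => Real.exp (β * k) := by
    funext k
    rw [one_mul, mul_one, ← Real.exp_nat_mul, mul_comm]
  rw [← he]
  exact h

theorem ss_log_bound {x : ℝ} (h0 : 0 ≤ x) (h1 : x ≤ 1 / 2) :
    |Real.log (1 + x) - x + x ^ 2 / 2| ≤ 2 * x ^ 3 := by
  have h := Real.abs_log_sub_add_sum_range_le (x := -x) (by rw [abs_neg, abs_of_nonneg h0]; linarith) 2
  rw [Finset.sum_range_succ, Finset.sum_range_one, abs_neg, abs_of_nonneg h0] at h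
  have e : (-x) ^ (0 + 1) / (((0 : ℕ) : ℝ) + 1) + (-x) ^ (1 + 1) / (((1 : ℕ) : ℝ) + 1) +
      Real.log (1 - -x) = Real.log (1 + x) - x + x ^ 2 / 2 := by
    rw [sub_neg_eq_add]
    push_cast
    ring
  rw [e] at h
  refine h.trans ?_
  rw [div_le_iff₀ (by linarith)]
  have : 0 ≤ x ^ 3 := pow_nonneg h0 3
  show x ^ 3 ≤ 2 * x ^ 3 * (1 - x)
  nlinarith

theorem ss_gauss_limit {α : ℝ} (hα : 0 ≤ α) (k : ℕ) :
    Tendsto (fun n : ℕ => ((1 + (1 / ((n : ℝ) + 1)) * k) *
      Real.exp (-(1 / ((n : ℝ) + 1)) * k)) ^ ⌊2 * α * ((n : ℝ) + 1) ^ 2⌋₊) atTop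
      (𝓝 (Real.exp (-α * (k : ℝ) ^ 2))) := by
  -- write as exp of `M_n * (log(1+x) - x)`
  set x : ℕ → ℝ := fun n => (1 / ((n : ℝ) + 1)) * k with hx
  have hx0 : ∀ n, 0 ≤ x n := fun n => by positivity
  have hxl : Tendsto x atTop (𝓝 0) := by
    have := (tendsto_one_div_add_atTop_nhds_zero_nat (𝕜 := ℝ)).mul_const (k : ℝ)
    rwa [zero_mul] at this
  have hM : Tendsto (fun n : ℕ => (⌊2 * α * ((n : ℝ) + 1) ^ 2⌋₊ : ℝ) / ((n : ℝ) + 1) ^ 2) atTop
      (𝓝 (2 * α)) := by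
    have h1 : Tendsto (fun n : ℕ => ((n : ℝ) + 1) ^ 2) atTop atTop := by
      refine (tendsto_pow_atTop two_ne_zero).comp ?_
      exact tendsto_atTop_add_const_right _ _ tendsto_natCast_atTop_atTop
    have h2 := (tendsto_nat_floor_mul_div_atTop (R := ℝ) (a := 2 * α) (by positivity)).comp h1
    exact h2
  have hmain : Tendsto (fun n : ℕ => (⌊2 * α * ((n : ℝ) + 1) ^ 2⌋₊ : ℝ) *
      (Real.log (1 + x n) - x n)) atTop (𝓝 (-α * (k : ℝ) ^ 2)) := by
    -- `M (log(1+x) - x) = (M/N²) (-k²/2) + (M/N²) N² r`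
    have hr : Tendsto (fun n : ℕ => ((n : ℝ) + 1) ^ 2 *
        (Real.log (1 + x n) - x n + x n ^ 2 / 2)) atTop (𝓝 0) := by
      refine squeeze_zero_norm' (a := fun n => 2 * (k : ℝ) ^ 2 * x n) ?_ ?_
      · filter_upwards [hxl.eventually_lt_const (by norm_num : (0 : ℝ) < 1 / 2)] with n hn
        have h3 := ss_log_bound (hx0 n) hn.le
        rw [Real.norm_eq_abs, abs_mul, abs_of_nonneg (by positivity)]
        calc ((n : ℝ) + 1) ^ 2 * |Real.log (1 + x n) - x n + x n ^ 2 / 2|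
            ≤ ((n : ℝ) + 1) ^ 2 * (2 * x n ^ 3) := by gcongr
          _ = 2 * (k : ℝ) ^ 2 * x n := by
            have h4 : ((n : ℝ) + 1) * x n = k := by
              rw [hx]
              simp only []
              field_simp
            calc ((n : ℝ) + 1) ^ 2 * (2 * x n ^ 3) = 2 * (((n : ℝ) + 1) * x n) ^ 2 * x n := by ring
              _ = _ := by rw [h4]
      · have := hxl.const_mul (2 * (k : ℝ) ^ 2)
        rwa [mul_zero] at this
    have h5 := (hM.mul_const (-((k : ℝ) ^ 2) / 2)).add (hM.mul hr)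
    have h6 : 2 * α * (-((k : ℝ) ^ 2) / 2) + 2 * α * 0 = -α * (k : ℝ) ^ 2 := by ring
    rw [h6] at h5
    refine h5.congr fun n => ?_
    have hn : ((n : ℝ) + 1) ≠ 0 := by positivity
    have h4 : x n = k / ((n : ℝ) + 1) := by
      rw [hx]
      simp only []
      ring
    rw [h4]
    field_simp
    ring
  have h7 := (Real.continuous_exp.tendsto _).comp hmain
  refine h7.congr fun n => ?_
  have hpos : 0 < 1 + x n := by linarith [hx0 n]
  have h8 : (1 + 1 / ((n : ℝ) + 1) * k) * Real.exp (-(1 / ((n : ℝ) + 1)) * k) =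
      Real.exp (Real.log (1 + x n) - x n) := by
    rw [sub_eq_add_neg, Real.exp_add, Real.exp_log hpos, hx]
    simp only [neg_mul]
  rw [h8, ← Real.exp_nat_mul]
  rfl

theorem ss_ms_gauss {α : ℝ} (hα : 0 ≤ α) :
    IsMultiplierSequence (fun k => Real.exp (-α * (k : ℝ) ^ 2)) := by
  refine ss_ms_limit (g := fun n k => ((1 + (1 / ((n : ℝ) + 1)) * k) *
      Real.exp (-(1 / ((n : ℝ) + 1)) * k)) ^ ⌊2 * α * ((n : ℝ) + 1) ^ 2⌋₊) (fun n => ?_)
    (fun k => ss_gauss_limit hα k)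
  exact ss_ms_pow (ss_ms_mul (ss_ms_lin (by positivity)) (ss_ms_exp _)) _

theorem ss_ms_prod {t : ℕ → ℝ} (ht : ∀ j, 0 ≤ t j) (n : ℕ) :
    IsMultiplierSequence (fun k => ∏ j ∈ range n, ((1 + t j * k) * Real.exp (-(t j) * k))) := by
  induction n with
  | zero => simpa using ss_ms_one
  | succ n ih =>
    simp only [Finset.prod_range_succ]
    exact ss_ms_mul ih (ss_ms_mul (ss_ms_lin (ht n)) (ss_ms_exp _))

/-- Laguerre's theorem for `C z^m e^{-a z² + b z} ∏ (1 + t_j z) e^{-t_j z}` -/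
theorem ss_laguerre {C a b : ℝ} {m : ℕ} {t : ℕ → ℝ} (ha : 0 ≤ a) (ht : ∀ j, 0 ≤ t j)
    (hts : Summable fun j => t j ^ 2) {c : ℝ} (hc : 0 < c) {γ : ℕ → ℝ}
    (hγ : ∀ k : ℕ, (γ k : ℂ) = C * ((c * k : ℝ) : ℂ) ^ m *
      (Complex.exp (-a * ((c * k : ℝ) : ℂ) ^ 2 + b * ((c * k : ℝ) : ℂ)) *
      ∏' j, (1 + (t j : ℂ) * ((c * k : ℝ) : ℂ)) * Complex.exp (-((t j : ℂ) * ((c * k : ℝ) : ℂ))))) :
    IsMultiplierSequence γ := by
  refine ss_ms_limit (g := fun n k => C * (((c * k) ^ m) * ((Real.exp (-(a * c ^ 2) * (k : ℝ) ^ 2) *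
    Real.exp ((b * c) * k)) *
    ∏ j ∈ range n, ((1 + (t j * c) * k) * Real.exp (-(t j * c) * k))))) (fun n => ?_) (fun k => ?_)
  · refine ms_smul (ss_ms_mul ?_ (ss_ms_mul (ss_ms_mul (ss_ms_gauss (by positivity)) (ss_ms_exp _))
      (ss_ms_prod (fun j => mul_nonneg (ht j) hc.le) n))) C
    have h1 : (fun k : ℕ => (c * (k : ℝ)) ^ m) = fun k : ℕ => (c * (k : ℝ)) ^ m := rfl
    exact ss_ms_pow (ms_smul ss_ms_id c) m
  · have hmul : Tendsto (fun n => ∏ j ∈ range n, ((1 + (t j : ℂ) * ((c * k : ℝ) : ℂ)) *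
        Complex.exp (-((t j : ℂ) * ((c * k : ℝ) : ℂ))))) atTop
        (𝓝 (∏' j, (1 + (t j : ℂ) * ((c * k : ℝ) : ℂ)) *
          Complex.exp (-((t j : ℂ) * ((c * k : ℝ) : ℂ))))) := by
      have h1 : Multipliable fun j => (1 + (t j : ℂ) * ((c * k : ℝ) : ℂ)) *
          Complex.exp (-((t j : ℂ) * ((c * k : ℝ) : ℂ))) := by
        have := multipliable_one_add_of_summable (ss_multipliable hts ((c * k : ℝ) : ℂ))
        refine this.congr fun j => by ring
      exact h1.hasProd.tendsto_prod_nat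
    have h2 := hmul.const_mul ((C : ℂ) * ((c * k : ℝ) : ℂ) ^ m *
      Complex.exp (-a * ((c * k : ℝ) : ℂ) ^ 2 + b * ((c * k : ℝ) : ℂ)))
    have h3 := (Complex.continuous_re.tendsto _).comp h2
    have h4 : (C * ((c * k : ℝ) : ℂ) ^ m *
      Complex.exp (-a * ((c * k : ℝ) : ℂ) ^ 2 + b * ((c * k : ℝ) : ℂ)) *
      ∏' j, (1 + (t j : ℂ) * ((c * k : ℝ) : ℂ)) * Complex.exp (-((t j : ℂ) * ((c * k : ℝ) : ℂ)))).re
        = γ k := by
      rw [mul_assoc, ← hγ k, Complex.ofReal_re]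
    rw [h4] at h3
    refine h3.congr fun n => ?_
    simp only [Function.comp]
    have h5 : (C : ℂ) * ((c * k : ℝ) : ℂ) ^ m *
      Complex.exp (-a * ((c * k : ℝ) : ℂ) ^ 2 + b * ((c * k : ℝ) : ℂ)) *
      (∏ j ∈ range n, ((1 + (t j : ℂ) * ((c * k : ℝ) : ℂ)) *
        Complex.exp (-((t j : ℂ) * ((c * k : ℝ) : ℂ))))) =
      ((C * (((c * k) ^ m) * ((Real.exp (-(a * c ^ 2) * (k : ℝ) ^ 2) *
        Real.exp ((b * c) * k)) *
        ∏ j ∈ range n, ((1 + (t j * c) * k) * Real.exp (-(t j * c) * k)))) : ℝ) : ℂ) := by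
      rw [← Real.exp_add]
      push_cast
      rw [mul_assoc (C : ℂ), mul_assoc (C : ℂ), mul_assoc (((c : ℂ) * (k : ℂ)) ^ m)]
      congr 3
      · congr 1
        ring
      · refine Finset.prod_congr rfl fun j _ => ?_
        congr 2 <;> ring
    rw [h5, Complex.ofReal_re]

end Pool.Agent.MPd164ca
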