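import Pool.Agent.Lib.MP_d164ca_an.SSScale
import Pool.Agent.Lib.MP_d164ca_an.SSSuff
import Pool.Agent.Lib.MP_d164ca_an.SSPos
import Pool.Agent.Lib.MP_d164ca_an.Newton

/-!
# MP_d164ca_an, SSMain: meromorphic functions generating multiplier sequences at small scales
-/

namespace Pool.Agent.MPd164ca

open Polynomial Finset Filter Topology Complex

/-- Taylor expansion at `0` -/
theorem ss_taylor {F : ℂ → ℂ} (hF : AnalyticAt ℂ F 0) : ∃ α : ℕ → ℂ,
    (∀ᶠ z in 𝓝 (0 : ℂ), HasSum (fun n => α n * z ^ n) (F z)) ∧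
    ∀ N : ℕ, ∃ M δ : ℝ, 0 < δ ∧ ∀ z : ℂ, ‖z‖ < δ →
      ‖F z - ∑ j ∈ range (N + 1), α j * z ^ j‖ ≤ M * ‖z‖ ^ (N + 1) := by
  obtain ⟨p, hp⟩ := hF
  refine ⟨p.coeff, ?_, fun N => ?_⟩
  · have h1 := hasFPowerSeriesAt_iff'.1 hp
    filter_upwards [h1] with z hz
    simpa only [sub_zero, smul_eq_mul, mul_comm] using hz
  · have h1 := hp.isBigO_sub_partialSum_pow (N + 1)
    obtain ⟨M, hM⟩ := h1.bound
    obtain ⟨δ, hδ, hb⟩ := Metric.eventually_nhds_iff.1 hM
    refine ⟨M, δ, hδ, fun z hz => ?_⟩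
    have h2 := hb (y := z) (by simpa using hz)
    rw [zero_add] at h2
    have h3 : p.partialSum (N + 1) z = ∑ j ∈ range (N + 1), p.coeff j * z ^ j := by
      unfold FormalMultilinearSeries.partialSum
      refine Finset.sum_congr rfl fun k _ => ?_
      rw [FormalMultilinearSeries.apply_eq_pow_smul_coeff, smul_eq_mul, mul_comm]
    rw [h3] at h2
    simpa using h2

/-- an everywhere convergent power series is entire -/
theorem ss_entire {G : ℂ → ℂ} {a : ℕ → ℝ} (h : ∀ z : ℂ, HasSum (fun k => (a k : ℂ) * z ^ k) (G z)) :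
    Differentiable ℂ G := by
  set p : FormalMultilinearSeries ℂ ℂ ℂ :=
    FormalMultilinearSeries.ofScalars ℂ (fun j => (a j : ℂ)) with hp
  have hpn : ∀ n, ‖p n‖ = |a n| := by
    intro n
    rw [hp, FormalMultilinearSeries.ofScalars_norm, Complex.norm_real, Real.norm_eq_abs]
  have hrad : p.radius = ⊤ := by
    apply FormalMultilinearSeries.radius_eq_top_of_summable_norm
    intro s
    have h1 := (h ((s : ℝ) : ℂ)).summable.norm
    refine h1.congr fun n => ?_
    rw [hpn, norm_mul, norm_pow, Complex.norm_real, Complex.norm_real, Real.norm_eq_abs,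
      Real.norm_eq_abs, abs_of_nonneg s.coe_nonneg]
  have hball : HasFPowerSeriesOnBall G p 0 ⊤ := by
    refine ⟨by rw [hrad], ENNReal.zero_lt_top, ?_⟩
    intro y _
    rw [zero_add]
    have h2 := h y
    rw [hp, FormalMultilinearSeries.ofScalars_apply_eq']
    simpa only [smul_eq_mul] using h2
  have := hball.differentiableOn
  intro z
  exact (this z (by simp)).differentiableAt (by simp)

/-- the zeros of an entire function `ψ ≢ 0` are isolated -/
theorem ss_isolated {ψ : ℂ → ℂ} (hψ : Differentiable ℂ ψ) (hψ0 : ∃ z, ψ z ≠ 0) (w : ℂ) :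
    ∀ᶠ z in 𝓝[≠] w, ψ z ≠ 0 := by
  rcases (hψ.analyticAt w).eventually_eq_zero_or_eventually_ne_zero with h | h
  · exfalso
    obtain ⟨z, hz⟩ := hψ0
    apply hz
    have h0 : AnalyticOnNhd ℂ (fun _ : ℂ => (0 : ℂ)) Set.univ := fun z _ => analyticAt_const
    have h1 : AnalyticOnNhd ℂ ψ Set.univ := fun z _ => hψ.analyticAt z
    have := AnalyticOnNhd.eq_of_eventuallyEq h1 h0 (z₀ := w) h
    rw [this]
  · exact h

/-- equality at a point where both functions are continuous (analytic) -/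
theorem ss_eq_at {F G ψ : ℂ → ℂ} (hψ : Differentiable ℂ ψ) (hψ0 : ∃ z, ψ z ≠ 0)
    (hFG : ∀ z, ψ z ≠ 0 → F z = G z) {w : ℂ} (hF : ContinuousAt F w) (hG : ContinuousAt G w) :
    F w = G w := by
  have h1 : F =ᶠ[𝓝[≠] w] G := (ss_isolated hψ hψ0 w).mono fun z hz => hFG z hz
  have h2 : Tendsto F (𝓝[≠] w) (𝓝 (F w)) := hF.tendsto.mono_left nhdsWithin_le_nhds
  have h3 : Tendsto G (𝓝[≠] w) (𝓝 (G w)) := hG.tendsto.mono_left nhdsWithin_le_nhds
  exact tendsto_nhds_unique h2 (h3.congr' h1.symm)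

/-- the function `C z^m e^{-a z² + b z} ∏ (1 + t_j z) e^{-t_j z}` -/
noncomputable def ssForm (C a b : ℝ) (m : ℕ) (t : ℕ → ℝ) (z : ℂ) : ℂ :=
  C * z ^ m * (cexp (-a * z ^ 2 + b * z) * ∏' j, (1 + (t j : ℂ) * z) * cexp (-((t j : ℂ) * z)))

theorem ssForm_continuous {C a b : ℝ} {m : ℕ} {t : ℕ → ℝ} (ht : Summable fun j => t j ^ 2) :
    Continuous (ssForm C a b m t) := by
  rw [continuous_iff_continuousAt]
  intro w
  -- bound of the `t_j`
  obtain ⟨B, hB⟩ : ∃ B : ℝ, ∀ j, |t j| ≤ B := by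
    refine ⟨Real.sqrt (∑' j, t j ^ 2), fun j => ?_⟩
    rw [← Real.sqrt_sq_eq_abs]
    exact Real.sqrt_le_sqrt (ht.le_tsum j fun i _ => sq_nonneg _)
  have hB0 : 0 ≤ B := (abs_nonneg _).trans (hB 0)
  set R : ℝ := B * (‖w‖ + 1) with hR
  have hR0 : 0 ≤ R := by positivity
  have hprod : Tendsto (fun z : ℂ => ∏' j, (1 + ((1 + (t j : ℂ) * z) * cexp (-((t j : ℂ) * z)) - 1)))
      (𝓝 w) (𝓝 (∏' j, (1 + ((1 + (t j : ℂ) * w) * cexp (-((t j : ℂ) * w)) - 1)))) := by
    refine tendsto_tprod_one_add_of_dominated_convergence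
      (bound := fun j => ((1 + R) * Real.exp R + 1) * (t j ^ 2 * (‖w‖ + 1) ^ 2))
      ((ht.mul_right _).mul_left _) (fun j => ?_) ?_
    · have : Continuous fun z : ℂ => (1 + (t j : ℂ) * z) * cexp (-((t j : ℂ) * z)) - 1 := by
        fun_prop
      exact this.tendsto w
    · have h1 : ∀ᶠ z : ℂ in 𝓝 w, ‖z‖ < ‖w‖ + 1 :=
        (continuous_norm.tendsto w).eventually_lt_const (by linarith)
      filter_upwards [h1] with z hz j
      have hn : ‖(t j : ℂ) * z‖ ≤ R := by
        rw [norm_mul, Complex.norm_real, Real.norm_eq_abs, hR]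
        exact mul_le_mul (hB j) hz.le (norm_nonneg _) hB0
      refine (lim1_quad hn).trans ?_
      refine mul_le_mul_of_nonneg_left ?_ (by positivity)
      rw [norm_mul, Complex.norm_real, Real.norm_eq_abs, mul_pow, sq_abs]
      gcongr
  have he : ∀ z : ℂ, ∏' j, (1 + (t j : ℂ) * z) * cexp (-((t j : ℂ) * z)) =
      ∏' j, (1 + ((1 + (t j : ℂ) * z) * cexp (-((t j : ℂ) * z)) - 1)) := by
    intro z
    congr 1
    funext j
    ring
  unfold ssForm ContinuousAt
  simp only [he]
  refine Tendsto.mul ?_ (Tendsto.mul ?_ hprod)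
  · have : Continuous fun z : ℂ => (C : ℂ) * z ^ m := by fun_prop
    exact this.tendsto w
  · have : Continuous fun z : ℂ => cexp (-(a : ℂ) * z ^ 2 + b * z) := by fun_prop
    exact this.tendsto w

/-- sufficiency: Laguerre's theorem -/
theorem ss_sufficiency {F ψ : ℂ → ℂ} (hψ : Differentiable ℂ ψ) (hψ0 : ∃ z, ψ z ≠ 0)
    (hFan : ∀ x : ℝ, 0 ≤ x → AnalyticAt ℂ F x) (hreal : ∀ x : ℝ, 0 ≤ x → (F x).im = 0)
    {C a b : ℝ} {m : ℕ} {t : ℕ → ℝ} (ha : 0 ≤ a) (ht : ∀ j, 0 ≤ t j)
    (hts : Summable fun j => t j ^ 2) (hF : ∀ z, ψ z ≠ 0 → F z = ssForm C a b m t z)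
    {c : ℝ} (hc : 0 < c) : IsMultiplierSequence (fun k => (F ((c * k : ℝ) : ℂ)).re) := by
  refine ss_laguerre (C := C) (a := a) (b := b) (m := m) (t := t) ha ht hts hc fun k => ?_
  have hx : 0 ≤ c * (k : ℝ) := by positivity
  have h1 : F ((c * k : ℝ) : ℂ) = ssForm C a b m t ((c * k : ℝ) : ℂ) :=
    ss_eq_at hψ hψ0 hF (hFan _ hx).continuousAt (ssForm_continuous hts).continuousAt
  have h2 : ((F ((c * k : ℝ) : ℂ)).re : ℂ) = F ((c * k : ℝ) : ℂ) := by
    apply Complex.ext
    · simp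
    · rw [Complex.ofReal_im, hreal _ hx]
  rw [h2, h1]
  rfl

/-- necessity -/
theorem ss_necessity {F φ ψ : ℂ → ℂ} (hφ : Differentiable ℂ φ) (hψ : Differentiable ℂ ψ)
    (hψ0 : ∃ z, ψ z ≠ 0) (hF : ∀ z, ψ z ≠ 0 → F z = φ z / ψ z)
    (hFan : ∀ x : ℝ, 0 ≤ x → AnalyticAt ℂ F x) (hreal : ∀ x : ℝ, 0 ≤ x → (F x).im = 0)
    (h : ∀ ε : ℝ, 0 < ε → ∃ c : ℝ, 0 < c ∧ c < ε ∧
      IsMultiplierSequence (fun k => (F ((c * k : ℝ) : ℂ)).re)) :
    ∃ (C a b : ℝ) (m : ℕ) (t : ℕ → ℝ), 0 ≤ a ∧ (∀ j, 0 ≤ t j) ∧ (Summable fun j => t j ^ 2) ∧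
      ∀ z, ψ z ≠ 0 → F z = ssForm C a b m t z := by
  obtain ⟨α, hα1, hα2⟩ := ss_taylor (by simpa using hFan 0 le_rfl)
  set a : ℕ → ℝ := fun j => (α j).re with ha
  set f : ℝ → ℝ := fun x => (F x).re with hf
  have hfF : ∀ x : ℝ, 0 ≤ x → (f x : ℂ) = F x := by
    intro x hx
    apply Complex.ext
    · simp [hf]
    · rw [Complex.ofReal_im, hreal _ hx]
  have hfT : ∀ N : ℕ, ∃ M δ : ℝ, 0 < δ ∧ ∀ u : ℝ, 0 ≤ u → u < δ →
      |f u - ∑ j ∈ range (N + 1), a j * u ^ j| ≤ M * u ^ (N + 1) := by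
    intro N
    obtain ⟨M, δ, hδ, hM⟩ := hα2 N
    refine ⟨M, δ, hδ, fun u hu0 huδ => ?_⟩
    have h1 := hM (u : ℂ) (by rw [Complex.norm_real, Real.norm_of_nonneg hu0]; exact huδ)
    rw [Complex.norm_real, Real.norm_of_nonneg hu0] at h1
    have h2 : (F u - ∑ j ∈ range (N + 1), α j * (u : ℂ) ^ j).re =
        f u - ∑ j ∈ range (N + 1), a j * u ^ j := by
      rw [Complex.sub_re, Complex.re_sum]
      congr 1
      refine Finset.sum_congr rfl fun j _ => ?_
      rw [← Complex.ofReal_pow, Complex.re_mul_ofReal]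
    rw [← h2]
    exact (Complex.abs_re_le_norm _).trans h1
  have hJ : ∀ N, Hyperbolic (ssJ a N) := ssJ_hyp hfT h
  -- real expansion on the positive axis near zero
  have hreal2 : ∀ᶠ u : ℝ in 𝓝 0, 0 ≤ u → HasSum (fun n => ((a n : ℝ) : ℂ) * (u : ℂ) ^ n) (F u) := by
    have h1 : ∀ᶠ u : ℝ in 𝓝 0, HasSum (fun n => α n * (u : ℂ) ^ n) (F u) := by
      have : Tendsto (fun u : ℝ => (u : ℂ)) (𝓝 0) (𝓝 (0 : ℂ)) := by
        simpa using (Complex.continuous_ofReal.tendsto (0 : ℝ))
      exact this.eventually hα1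
    filter_upwards [h1] with u hu hu0
    have h2 := Complex.hasSum_re hu
    have h3 : (fun n => (α n * (u : ℂ) ^ n).re) = fun n => a n * u ^ n := by
      funext n
      rw [← Complex.ofReal_pow, Complex.re_mul_ofReal]
    rw [h3] at h2
    have h4 := Complex.hasSum_ofReal.2 h2
    have h5 : ((F u).re : ℂ) = F u := hfF u hu0
    rw [h5] at h4
    simpa using h4
  -- an entire function with the expansion `∑ a_k z^k` equals `F` off the zeros of `ψ`
  have hident : ∀ G : ℂ → ℂ, (∀ z : ℂ, HasSum (fun k => (a k : ℂ) * z ^ k) (G z)) →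
      ∀ z, ψ z ≠ 0 → F z = G z := by
    intro G hG
    have hGd := ss_entire hG
    have hGF : ∀ᶠ u : ℝ in 𝓝 0, 0 ≤ u → F u = G u := by
      filter_upwards [hreal2] with u hu hu0
      exact (hu hu0).unique (hG u)
    have hfreq : ∃ᶠ z in 𝓝[≠] (0 : ℂ), F z = G z := by
      have hseq : Tendsto (fun n : ℕ => ((1 / ((n : ℝ) + 1) : ℝ) : ℂ)) atTop (𝓝[≠] (0 : ℂ)) := by
        refine tendsto_nhdsWithin_iff.2 ⟨?_, ?_⟩
        · have h11 := (Complex.continuous_ofReal.tendsto (0 : ℝ)).comp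
            (tendsto_one_div_add_atTop_nhds_zero_nat (𝕜 := ℝ))
          rw [Complex.ofReal_zero] at h11
          exact h11
        · refine Filter.Eventually.of_forall fun n => ?_
          have : (1 / ((n : ℝ) + 1) : ℝ) ≠ 0 := by positivity
          simp only [Set.mem_compl_iff, Set.mem_singleton_iff]
          exact_mod_cast this
      refine hseq.frequently ?_
      have h6 := (tendsto_one_div_add_atTop_nhds_zero_nat (𝕜 := ℝ)).eventually hGF
      refine (h6.mono fun n hn => ?_).frequently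
      exact hn (by positivity)
    have hFG0 : ∀ᶠ z in 𝓝 (0 : ℂ), F z = G z :=
      (AnalyticAt.frequently_eq_iff_eventually_eq (by simpa using hFan 0 le_rfl)
        (hGd.analyticAt 0)).1 hfreq
    have hφG : ∀ z, φ z = G z * ψ z := by
      have h7 : ∀ᶠ z in 𝓝[≠] (0 : ℂ), φ z = G z * ψ z := by
        filter_upwards [ss_isolated hψ hψ0 0, hFG0.filter_mono nhdsWithin_le_nhds] with z hz1 hz2
        rw [← hz2, hF z hz1, div_mul_cancel₀ _ hz1]
      have h8 : ∀ᶠ z in 𝓝 (0 : ℂ), φ z = G z * ψ z :=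
        (AnalyticAt.frequently_eq_iff_eventually_eq (hφ.analyticAt 0)
          ((hGd.mul hψ).analyticAt 0)).1 h7.frequently
      have h9 : AnalyticOnNhd ℂ φ Set.univ := fun z _ => hφ.analyticAt z
      have h10 : AnalyticOnNhd ℂ (fun z => G z * ψ z) Set.univ :=
        fun z _ => (hGd.mul hψ).analyticAt z
      have := AnalyticOnNhd.eq_of_eventuallyEq h9 h10 (z₀ := 0) h8
      intro z
      rw [this]
    intro z hz
    rw [hF z hz, hφG z, mul_div_cancel_right₀ _ hz]
  by_cases hall : ∀ j, a j = 0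
  · -- `F = 0`
    refine ⟨0, 0, 0, 0, fun _ => 0, le_rfl, fun _ => le_rfl, by simp, fun z hz => ?_⟩
    have h1 := hident (fun _ => 0) (fun z => by simp [hall]) z hz
    rw [h1]
    simp [ssForm]
  · push Not at hall
    classical
    set m := Nat.find hall with hm
    have hm0 : a m ≠ 0 := Nat.find_spec hall
    have hmin : ∀ i < m, a i = 0 := fun i hi => by
      have := Nat.find_min hall hi
      push Not at this
      exact this
    -- the shifted sequence
    have hJ' : ∀ N, Hyperbolic (ssJ (fun i => a (m + i)) N) := by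
      intro N
      have hfac : ssJ a (N + m) =
          C ((N + m).descFactorial m : ℝ) * X ^ m * ssJ (fun i => a (m + i)) N := by
        ext k
        rw [ssJ_coeff, mul_assoc, coeff_C_mul, coeff_X_pow_mul']
        split_ifs with hk
        · rw [ssJ_coeff]
          obtain ⟨i, rfl⟩ := Nat.exists_eq_add_of_le hk
          rw [Nat.add_sub_cancel_left]
          have h1 : (N + m).descFactorial (m + i) = (N + m).descFactorial m * N.descFactorial i := by
            have h0 := Nat.descFactorial_mul_descFactorial (n := N + m) (m := m + i) (k := m)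
              (Nat.le_add_right m i)
            rw [Nat.add_sub_cancel, Nat.add_sub_cancel_left] at h0
            rw [← h0]
            ring
          rw [h1]
          push_cast
          ring
        · rw [hmin k (by omega)]
          simp
      have hne : ((N + m).descFactorial m : ℝ) ≠ 0 := by
        have : 0 < (N + m).descFactorial m := Nat.descFactorial_pos.2 (Nat.le_add_left m N)
        positivity
      rcases hJ (N + m) with h1 | h1
      · left
        rw [hfac] at h1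
        have h2 : (C ((N + m).descFactorial m : ℝ) * X ^ m : ℝ[X]) ≠ 0 :=
          mul_ne_zero (by simpa using hne) (pow_ne_zero _ X_ne_zero)
        exact (mul_eq_zero.1 h1).resolve_left h2
      · right
        intro z hz
        apply h1
        rw [hfac, map_mul, hz, mul_zero]
    obtain ⟨A, b, t, hA, hts, hsum⟩ := ss_laguerre_polya (a := fun i => a (m + i))
      (by rw [add_zero]; exact hm0) hJ'
    have hsumG : ∀ z : ℂ, HasSum (fun k => (a k : ℂ) * z ^ k) (ssForm (a m) A b m t z) := by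
      intro z
      have h1 := (hsum z).mul_left (z ^ m)
      have h2 : HasSum (fun i => (a (i + m) : ℂ) * z ^ (i + m)) (ssForm (a m) A b m t z) := by
        unfold ssForm
        have h3 : z ^ m * ((a (m + 0) : ℂ) * (cexp (-(A : ℂ) * z ^ 2 + b * z) *
            ∏' j, (1 + (t j : ℂ) * z) * cexp (-((t j : ℂ) * z)))) =
            (a m : ℂ) * z ^ m * (cexp (-(A : ℂ) * z ^ 2 + b * z) *
            ∏' j, (1 + (t j : ℂ) * z) * cexp (-((t j : ℂ) * z))) := by
          rw [add_zero]; ring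
        rw [h3] at h1
        have h6 : (fun i => (a (i + m) : ℂ) * z ^ (i + m)) =
            fun i => z ^ m * ((a (m + i) : ℂ) * z ^ i) := by
          funext i
          rw [add_comm i m, pow_add]
          ring
        rw [h6]
        exact h1
      have h4 := (hasSum_nat_add_iff (f := fun i => (a i : ℂ) * z ^ i) m).1 h2
      have h5 : ∑ i ∈ range m, (a i : ℂ) * z ^ i = 0 :=
        Finset.sum_eq_zero fun i hi => by
          rw [hmin i (Finset.mem_range.1 hi)]
          simp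
      rwa [h5, add_zero] at h4
    have hFG := hident _ hsumG
    have hGd := ss_entire hsumG
    refine ⟨a m, A, b, m, t, hA, ?_, hts, hFG⟩
    -- no positive zero
    intro j
    by_contra hneg
    push Not at hneg
    have hG0 : ∃ z, ssForm (a m) A b m t z ≠ 0 := by
      by_contra hcon
      push Not at hcon
      have := newt3_unique (a := fun k => (a k : ℂ)) (fun z => by
        have := hsumG z
        rwa [hcon z] at this) m
      exact hm0 (by exact_mod_cast this)
    have hfG : ∀ x : ℝ, 0 ≤ x → (f x : ℂ) = ssForm (a m) A b m t x := by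
      intro x hx
      rw [hfF x hx]
      exact ss_eq_at hψ hψ0 hFG (hFan x hx).continuousAt (hGd.continuous.continuousAt)
    have hx0 : 0 < (-(t j))⁻¹ := by
      apply inv_pos.2
      linarith
    refine ss_no_pos_zero hGd hG0 hfG h hx0 ?_
    unfold ssForm
    have hz : ∏' i, (1 + (t i : ℂ) * (((-(t j))⁻¹ : ℝ) : ℂ)) *
        cexp (-((t i : ℂ) * (((-(t j))⁻¹ : ℝ) : ℂ))) = 0 := by
      apply tprod_of_exists_eq_zero
      refine ⟨j, ?_⟩
      have h1 : (t j : ℂ) * (((-(t j))⁻¹ : ℝ) : ℂ) = -1 := by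
        rw [← Complex.ofReal_mul]
        have : t j * (-(t j))⁻¹ = -1 := by
          rw [inv_neg, mul_neg, mul_inv_cancel₀ hneg.ne]
        rw [this]
        simp
      rw [h1]
      simp
    rw [hz, mul_zero, mul_zero]

end Pool.Agent.MPd164ca
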