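import Pool.Agent.Lib.MP_d164ca_an.SSLP
import Pool.Agent.Lib.MP_d164ca_an.Suff

/-!
# MP_d164ca_an, SSScale: `f(c k)` multiplier sequences for small `c` force the polynomials
`∑ N!/(N-k)! a_k x^k` to be hyperbolic (`a_k` the Taylor coefficients of `f` at `0`)
-/

namespace Pool.Agent.MPd164ca

open Polynomial Finset Filter Topology Complex

/-- the operator `(1 + c X) d/dX` -/
noncomputable def ssK (c : ℝ) (p : ℝ[X]) : ℝ[X] := (1 + C c * X) * derivative p

theorem ssK_coeff (c : ℝ) (p : ℝ[X]) (k : ℕ) :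
    (ssK c p).coeff k = p.coeff (k + 1) * (k + 1) + c * (p.coeff k * k) := by
  unfold ssK
  rw [add_mul, one_mul, coeff_add, coeff_derivative, mul_assoc, coeff_C_mul]
  congr 2
  cases k with
  | zero => simp
  | succ k => rw [mul_comm X, coeff_mul_X, coeff_derivative]; push_cast; ring

theorem ssK_iter_sum (c : ℝ) (Q : ℕ → ℝ) (N j : ℕ) :
    (ssK c)^[j] (∑ i ∈ range (N + 1), C (Q i) * (1 + C c * X) ^ i) =
      ∑ i ∈ range (N + 1), C (Q i * (c * i) ^ j) * (1 + C c * X) ^ i := by
  induction j with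
  | zero => simp
  | succ j ih =>
    rw [Function.iterate_succ_apply', ih]
    unfold ssK
    rw [derivative_sum, Finset.mul_sum]
    refine Finset.sum_congr rfl fun i _ => ?_
    rw [derivative_C_mul, derivative_pow]
    have h1 : derivative (1 + C c * X : ℝ[X]) = C c := by simp
    rw [h1]
    cases i with
    | zero => simp
    | succ i =>
      rw [Nat.add_sub_cancel, pow_succ (1 + C c * X : ℝ[X]) i, pow_succ (c * ((i + 1 : ℕ) : ℝ)) j]
      simp only [C_mul, map_natCast]
      ring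

theorem ssK_limit {c : ℕ → ℝ} (hc : Tendsto c atTop (𝓝 0)) (p : ℝ[X]) (j k : ℕ) :
    Tendsto (fun n => ((ssK (c n))^[j] p).coeff k) atTop (𝓝 ((derivative^[j] p).coeff k)) := by
  induction j generalizing k with
  | zero => simp
  | succ j ih =>
    simp only [Function.iterate_succ_apply', ssK_coeff]
    rw [coeff_derivative]
    have h1 := (ih (k + 1)).mul_const ((k : ℝ) + 1)
    have h2 := hc.mul ((ih k).mul_const (k : ℝ))
    rw [zero_mul] at h2
    have := h1.add h2
    rwa [add_zero] at this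

/-- the test polynomial `((x-1)/c)^N` written in powers of `x` -/
theorem ss_test (c : ℝ) (hc : c ≠ 0) (N : ℕ) :
    ∑ i ∈ range (N + 1), C (((C (c⁻¹ ^ N) * (X - 1) ^ N : ℝ[X])).coeff i) * (1 + C c * X) ^ i =
      (X ^ N : ℝ[X]) := by
  set Q : ℝ[X] := C (c⁻¹ ^ N) * (X - 1) ^ N with hQ
  have hdeg : Q.natDegree ≤ N := by
    rw [hQ]
    refine (natDegree_C_mul_le _ _).trans ?_
    refine (natDegree_pow_le).trans ?_
    have : (X - 1 : ℝ[X]).natDegree = 1 := by
      have := natDegree_X_sub_C (1 : ℝ)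
      simpa using this
    rw [this, mul_one]
  have h1 : Q.comp (1 + C c * X) = X ^ N := by
    rw [hQ, mul_comp, C_comp, pow_comp, sub_comp, X_comp, one_comp, add_sub_cancel_left, mul_pow,
      ← C_pow, ← mul_assoc, ← C_mul, ← mul_pow, inv_mul_cancel₀ hc, one_pow, C_1, one_mul]
  rw [← h1, comp, eval₂_eq_sum_range' _ (Nat.lt_succ_of_le hdeg)]

/-- `P_N = ∑_{j ≤ N} a_j D^j x^N` -/
noncomputable def ssP (a : ℕ → ℝ) (N : ℕ) : ℝ[X] :=
  ∑ j ∈ range (N + 1), C (a j) * derivative^[j] (X ^ N : ℝ[X])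

theorem ssP_hyp {f : ℝ → ℝ} {a : ℕ → ℝ}
    (hf : ∀ N : ℕ, ∃ M δ : ℝ, 0 < δ ∧ ∀ u : ℝ, 0 ≤ u → u < δ →
      |f u - ∑ j ∈ range (N + 1), a j * u ^ j| ≤ M * u ^ (N + 1))
    (h : ∀ ε : ℝ, 0 < ε → ∃ c : ℝ, 0 < c ∧ c < ε ∧ IsMultiplierSequence (fun k => f (c * k)))
    (N : ℕ) : Hyperbolic (ssP a N) := by
  obtain ⟨M, δ, hδ, hM⟩ := hf N
  choose c hc0 hc1 hcm using fun n : ℕ => h (1 / ((n : ℝ) + 1)) (by positivity)
  have hclim : Tendsto c atTop (𝓝 0) :=
    squeeze_zero (fun n => (hc0 n).le) (fun n => (hc1 n).le) tendsto_one_div_add_atTop_nhds_zero_nat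
  set Q : ℕ → ℝ[X] := fun n => C ((c n)⁻¹ ^ N) * (X - 1) ^ N with hQ
  have hQdeg : ∀ n, (Q n).natDegree ≤ N := by
    intro n
    refine (natDegree_C_mul_le _ _).trans ?_
    refine (natDegree_pow_le).trans ?_
    have : (X - 1 : ℝ[X]).natDegree = 1 := by
      have := natDegree_X_sub_C (1 : ℝ)
      simpa using this
    rw [this, mul_one]
  have hQhyp : ∀ n, Hyperbolic (Q n) := by
    intro n
    right
    intro z hz
    rw [hQ] at hz
    simp only [map_mul, aeval_C, map_pow, map_sub, aeval_X, map_one] at hz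
    rw [mul_eq_zero] at hz
    rcases hz with hz | hz
    · exfalso
      have h1 : (c n)⁻¹ ≠ 0 := inv_ne_zero (hc0 n).ne'
      have h2 : ((c n)⁻¹ ^ N : ℝ) ≠ 0 := pow_ne_zero _ h1
      apply h2
      have : (algebraMap ℝ ℂ) ((c n)⁻¹ ^ N) = 0 := by
        rw [map_pow]; exact hz
      exact (map_eq_zero _).1 this
    · have h4 : z - 1 = 0 := pow_eq_zero_iff (M₀ := ℂ) (n := N) (by
        rintro rfl
        simp at hz) |>.1 hz
      rw [sub_eq_zero.1 h4]
      simp
  -- the polynomials in the variable `s`, `x = 1 + c s`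
  set R : ℕ → ℝ[X] := fun n =>
    ∑ i ∈ range (N + 1), C (f (c n * i) * (Q n).coeff i) * (1 + C (c n) * X) ^ i with hR
  have hRcomp : ∀ n, R n = (diag (fun k => f (c n * k)) (Q n)).comp (1 + C (c n) * X) := by
    intro n
    have hd : (diag (fun k => f (c n * k)) (Q n)).natDegree < N + 1 :=
      Nat.lt_succ_of_le ((diag_natDegree_le _ _).trans (hQdeg n))
    rw [comp, eval₂_eq_sum_range' _ hd, hR]
    refine Finset.sum_congr rfl fun i _ => ?_
    rw [diag_coeff]
  have hRhyp : ∀ n, Hyperbolic (R n) := by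
    intro n
    rw [hRcomp]
    rcases hcm n (Q n) (hQhyp n) with h1 | h1
    · left
      rw [h1, zero_comp]
    · right
      intro z hz
      rw [aeval_comp] at hz
      have h2 := h1 _ hz
      simp only [map_add, map_one, map_mul, aeval_C, aeval_X, Complex.coe_algebraMap,
        Complex.add_im, Complex.one_im, Complex.im_ofReal_mul, zero_add] at h2
      exact (mul_eq_zero.1 h2).resolve_left (hc0 n).ne'
  have hRdeg : ∀ n, (R n).natDegree ≤ N := by
    intro n
    rw [hR]
    refine natDegree_sum_le_of_forall_le _ _ fun i hi => ?_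
    refine (natDegree_C_mul_le _ _).trans ?_
    refine (natDegree_pow_le).trans ?_
    have h1 : (1 + C (c n) * X : ℝ[X]).natDegree ≤ 1 := by
      refine (natDegree_add_le _ _).trans ?_
      rw [natDegree_one]
      have h0 : (C (c n) * X : ℝ[X]).natDegree ≤ 1 :=
        (natDegree_C_mul_le _ _).trans natDegree_X_le
      simpa using h0
    calc i * (1 + C (c n) * X : ℝ[X]).natDegree ≤ i * 1 := Nat.mul_le_mul_left _ h1
      _ ≤ N := by rw [mul_one]; exact Nat.lt_succ_iff.1 (Finset.mem_range.1 hi)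
  refine hyperbolic_of_tendsto hRhyp hRdeg fun k => ?_
  -- decomposition
  set E : ℕ → ℕ → ℝ := fun n i => f (c n * i) - ∑ j ∈ range (N + 1), a j * (c n * i) ^ j with hE
  have hdecomp : ∀ n, R n = ∑ j ∈ range (N + 1), C (a j) * (ssK (c n))^[j] (X ^ N) +
      ∑ i ∈ range (N + 1), C (E n i * (Q n).coeff i) * (1 + C (c n) * X) ^ i := by
    intro n
    have h1 : ∀ j, (ssK (c n))^[j] (X ^ N) =
        ∑ i ∈ range (N + 1), C ((Q n).coeff i * (c n * i) ^ j) * (1 + C (c n) * X) ^ i := by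
      intro j
      rw [← ssK_iter_sum, hQ]
      simp only []
      rw [ss_test (c n) (hc0 n).ne' N]
    simp only [h1]
    have h2 : ∑ j ∈ range (N + 1), C (a j) *
        ∑ i ∈ range (N + 1), C ((Q n).coeff i * (c n * i) ^ j) * (1 + C (c n) * X) ^ i =
        ∑ i ∈ range (N + 1), C ((∑ j ∈ range (N + 1), a j * (c n * i) ^ j) * (Q n).coeff i) *
          (1 + C (c n) * X) ^ i := by
      simp only [Finset.mul_sum, Finset.sum_mul, map_sum]
      rw [Finset.sum_comm]
      refine Finset.sum_congr rfl fun i _ => Finset.sum_congr rfl fun j _ => ?_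
      simp only [C_mul]
      ring
    rw [h2, ← Finset.sum_add_distrib, hR]
    refine Finset.sum_congr rfl fun i _ => ?_
    rw [hE, ← add_mul, ← C_add]
    simp only []
    congr 2
    ring
  simp only [hdecomp, coeff_add]
  have hmain : Tendsto (fun n => (∑ j ∈ range (N + 1), C (a j) * (ssK (c n))^[j] (X ^ N)).coeff k)
      atTop (𝓝 ((ssP a N).coeff k)) := by
    unfold ssP
    simp only [finsetSum_coeff, coeff_C_mul]
    exact tendsto_finsetSum _ fun j _ => (ssK_limit hclim _ _ _).const_mul _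
  have herr : Tendsto (fun n => (∑ i ∈ range (N + 1),
      C (E n i * (Q n).coeff i) * (1 + C (c n) * X) ^ i).coeff k) atTop (𝓝 0) := by
    simp only [finsetSum_coeff, coeff_C_mul]
    rw [← Finset.sum_const_zero (s := range (N + 1))]
    refine tendsto_finsetSum _ fun i hi => ?_
    have hi' : i ≤ N := Nat.lt_succ_iff.1 (Finset.mem_range.1 hi)
    -- `|E| ≤ |M| (c i)^(N+1)`
    have hco : ∀ n, (1 + C (c n) * X : ℝ[X]) ^ i = ∑ m ∈ range (i + 1),
        (C (c n) * X) ^ m * 1 ^ (i - m) * (i.choose m : ℝ[X]) := by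
      intro n
      rw [add_comm, add_pow]
    have hcoeff : ∀ n, ((1 + C (c n) * X : ℝ[X]) ^ i).coeff k = (c n) ^ k * (i.choose k : ℝ) := by
      intro n
      rw [hco, finsetSum_coeff]
      have h1 : ∀ m ∈ range (i + 1), ((C (c n) * X) ^ m * 1 ^ (i - m) * (i.choose m : ℝ[X])).coeff k
          = if k = m then (c n) ^ k * (i.choose k : ℝ) else 0 := by
        intro m _
        rw [one_pow, mul_one, mul_pow, ← C_pow, mul_right_comm, ← C_eq_natCast, ← C_mul,
          coeff_C_mul, coeff_X_pow]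
        split_ifs with h
        · subst h; simp
        · simp
      rw [Finset.sum_congr rfl h1, Finset.sum_ite_eq]
      split_ifs with h
      · rfl
      · rw [Nat.choose_eq_zero_of_lt (by simpa using h), Nat.cast_zero, mul_zero]
    have hQc : ∀ n, (Q n).coeff i = ((c n)⁻¹ ^ N) * ((X - 1 : ℝ[X]) ^ N).coeff i := by
      intro n
      rw [hQ]
      simp only []
      rw [coeff_C_mul]
    set κ : ℝ := |((X - 1 : ℝ[X]) ^ N).coeff i| with hκ
    refine squeeze_zero_norm' (a := fun n => |M| * ((i : ℝ) ^ (N + 1)) * κ * (i.choose k : ℝ) *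
      (c n * (c n) ^ k)) ?_ ?_
    · have h2 : ∀ᶠ n in atTop, c n * (N : ℝ) < δ := by
        have h3 := hclim.mul_const (N : ℝ)
        rw [zero_mul] at h3
        exact h3.eventually_lt_const hδ
      filter_upwards [h2] with n hn
      have h4 : c n * (i : ℝ) < δ := by
        refine lt_of_le_of_lt ?_ hn
        exact mul_le_mul_of_nonneg_left (by exact_mod_cast hi') (hc0 n).le
      have h5 := hM (c n * i) (mul_nonneg (hc0 n).le (Nat.cast_nonneg _)) h4
      rw [hcoeff, hQc, Real.norm_eq_abs, abs_mul, abs_mul, abs_mul, abs_mul, ← hκ,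
        abs_of_nonneg (pow_nonneg (inv_nonneg.2 (hc0 n).le) N),
        abs_of_nonneg (pow_nonneg (hc0 n).le k),
        abs_of_nonneg (Nat.cast_nonneg (i.choose k) : (0 : ℝ) ≤ (i.choose k : ℝ))]
      have h6 : |E n i| ≤ |M| * (c n * i) ^ (N + 1) := h5.trans
        (mul_le_mul_of_nonneg_right (le_abs_self M)
          (pow_nonneg (mul_nonneg (hc0 n).le (Nat.cast_nonneg _)) _))
      have hcne : c n ≠ 0 := (hc0 n).ne'
      calc |E n i| * ((c n)⁻¹ ^ N * κ) * ((c n) ^ k * (i.choose k : ℝ))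
          ≤ (|M| * (c n * i) ^ (N + 1)) * ((c n)⁻¹ ^ N * κ) * ((c n) ^ k * (i.choose k : ℝ)) := by
            have hcp := hc0 n
            gcongr
        _ = |M| * ((i : ℝ) ^ (N + 1)) * κ * (i.choose k : ℝ) *
              (((c n) ^ N * (c n)⁻¹ ^ N) * (c n * (c n) ^ k)) := by
            rw [mul_pow, pow_succ (c n) N]; ring
        _ = _ := by
            rw [← mul_pow, mul_inv_cancel₀ hcne, one_pow, one_mul]
    · have h7 : Tendsto (fun n => c n * c n ^ k) atTop (𝓝 0) := by
        have := hclim.mul (hclim.pow k)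
        rwa [zero_mul] at this
      have := h7.const_mul (|M| * ((i : ℝ) ^ (N + 1)) * κ * (i.choose k : ℝ))
      rwa [mul_zero] at this
  have := hmain.add herr
  rwa [add_zero] at this

theorem ssP_aeval (a : ℕ → ℝ) (N : ℕ) {z : ℂ} (hz : z ≠ 0) :
    z ^ N * aeval z⁻¹ (ssP a N) = aeval z (ssJ a N) := by
  unfold ssP ssJ
  rw [map_sum, map_sum, Finset.mul_sum]
  refine Finset.sum_congr rfl fun j hj => ?_
  have hj' : j ≤ N := Nat.lt_succ_iff.1 (Finset.mem_range.1 hj)
  rw [map_mul, aeval_C, iterate_derivative_X_pow_eq_C_mul, map_mul, aeval_C, map_pow, aeval_X,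
    aeval_monomial]
  simp only [Complex.coe_algebraMap]
  push_cast
  have h1 : z ^ N * z⁻¹ ^ (N - j) = z ^ j := by
    have : z ^ N = z ^ j * z ^ (N - j) := by rw [← pow_add, Nat.add_sub_cancel' hj']
    rw [this, mul_assoc, ← mul_pow, mul_inv_cancel₀ hz, one_pow, mul_one]
  calc z ^ N * ((a j : ℂ) * ((N.descFactorial j : ℂ) * z⁻¹ ^ (N - j)))
      = (N.descFactorial j : ℂ) * (a j : ℂ) * (z ^ N * z⁻¹ ^ (N - j)) := by ring
    _ = _ := by rw [h1]

/-- the conclusion for the reversed polynomials -/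
theorem ssJ_hyp {f : ℝ → ℝ} {a : ℕ → ℝ}
    (hf : ∀ N : ℕ, ∃ M δ : ℝ, 0 < δ ∧ ∀ u : ℝ, 0 ≤ u → u < δ →
      |f u - ∑ j ∈ range (N + 1), a j * u ^ j| ≤ M * u ^ (N + 1))
    (h : ∀ ε : ℝ, 0 < ε → ∃ c : ℝ, 0 < c ∧ c < ε ∧ IsMultiplierSequence (fun k => f (c * k)))
    (N : ℕ) : Hyperbolic (ssJ a N) := by
  rcases ssP_hyp hf h N with h1 | h1
  · left
    ext k
    rw [ssJ_coeff, Polynomial.coeff_zero]
    rcases le_or_gt k N with hk | hk
    · have h2 : (ssP a N).coeff (N - k) = 0 := by rw [h1, Polynomial.coeff_zero]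
      unfold ssP at h2
      rw [finsetSum_coeff, Finset.sum_eq_single k] at h2
      · rw [coeff_C_mul, iterate_derivative_X_pow_eq_C_mul, coeff_C_mul, coeff_X_pow, if_pos rfl,
          mul_one, mul_comm] at h2
        exact h2
      · intro j hj hjk
        have hj' : j ≤ N := Nat.lt_succ_iff.1 (Finset.mem_range.1 hj)
        rw [coeff_C_mul, iterate_derivative_X_pow_eq_C_mul, coeff_C_mul, coeff_X_pow,
          if_neg (by omega)]
        simp
      · intro hk'
        exact absurd (Finset.mem_range.2 (Nat.lt_succ_of_le hk)) hk'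
    · rw [Nat.descFactorial_of_lt hk, Nat.cast_zero, zero_mul]
  · right
    intro z hz
    by_cases hz0 : z = 0
    · rw [hz0]; rfl
    · rw [← ssP_aeval a N hz0, mul_eq_zero] at hz
      have h2 := h1 _ (hz.resolve_left (pow_ne_zero _ hz0))
      rw [Complex.inv_im, div_eq_zero_iff] at h2
      rcases h2 with h2 | h2
      · linarith
      · exact absurd (Complex.normSq_eq_zero.1 h2) hz0

end Pool.Agent.MPd164ca
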